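import Mathlib

namespace Pool.Agent.R376.OrbitSum

theorem card_modEq_fixed {X : Type*} [Fintype X] [DecidableEq X] {p : ℕ} [hp : Fact p.Prime]
    (g : X → X) (hg : ∀ x, g^[p] x = x) :
    Fintype.card X ≡ Fintype.card {x : X // g x = x} [MOD p] := by
  let G : Function.End X := g
  have h1 : ∀ n : ℕ, ∀ x, (G ^ n : Function.End X) x = g^[n] x := by
    intro n
    induction n with
    | zero => intro x; rfl
    | succ n ih =>
      intro x
      rw [pow_succ, Function.iterate_succ_apply]
      exact ih (g x)
  have h : G ^ p ^ 1 = 1 := by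
    rw [pow_one]
    funext x
    rw [h1]
    exact hg x
  have h2 := Equiv.Perm.card_fixedPoints_modEq (α := X) (f := G) (p := p) (n := 1) h
  refine h2.trans ?_
  have : Fintype.card (Function.fixedPoints g) = Fintype.card {x : X // g x = x} := by
    apply Fintype.card_congr
    exact Equiv.refl _
  rw [this]

theorem sum_eq_sum_fixed {X : Type*} [Fintype X] [DecidableEq X] {p : ℕ} [hp : Fact p.Prime]
    (g : X → X) (hg : ∀ x, g^[p] x = x) (f : X → ZMod p) (hf : ∀ x, f (g x) = f x) :
    ∑ x, f x = ∑ x ∈ Finset.univ.filter (fun x => g x = x), f x := by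
  classical
  have key : ∀ v : ZMod p, ((Finset.univ.filter (fun x => f x = v)).card : ZMod p) =
      (((Finset.univ.filter (fun x => g x = x)).filter (fun x => f x = v)).card : ZMod p) := by
    intro v
    let G : {x : X // f x = v} → {x : X // f x = v} := fun x => ⟨g x.1, by rw [hf, x.2]⟩
    have hG : ∀ (n : ℕ) (x : {x : X // f x = v}), (G^[n] x).1 = g^[n] x.1 := by
      intro n
      induction n with
      | zero => intro x; rfl
      | succ n ih => intro x; rw [Function.iterate_succ_apply, Function.iterate_succ_apply, ih]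
    have h1 := card_modEq_fixed (X := {x : X // f x = v}) (p := p) G (by
      intro x
      apply Subtype.ext
      rw [hG, hg])
    rw [← ZMod.natCast_eq_natCast_iff] at h1
    rw [Fintype.card_subtype] at h1
    rw [h1]
    congr 1
    rw [← Fintype.card_coe]
    apply Fintype.card_congr
    refine ⟨fun x => ⟨x.1.1, ?_⟩, fun x => ⟨⟨x.1, ?_⟩, ?_⟩, ?_, ?_⟩
    · rw [Finset.mem_filter, Finset.mem_filter]
      exact ⟨⟨Finset.mem_univ _, congrArg Subtype.val x.2⟩, x.1.2⟩
    · have := x.2
      rw [Finset.mem_filter] at this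
      exact this.2
    · have := x.2
      rw [Finset.mem_filter, Finset.mem_filter] at this
      exact Subtype.ext this.1.2
    · intro x; rfl
    · intro x; rfl
  have h1 : ∀ s : Finset X, ∑ x ∈ s, f x = ∑ v : ZMod p, ((s.filter (fun x => f x = v)).card : ZMod p) * v := by
    intro s
    rw [← Finset.sum_fiberwise s f f]
    apply Finset.sum_congr rfl
    intro v _
    rw [Finset.sum_congr rfl (g := fun _ => v) (fun x hx => (Finset.mem_filter.mp hx).2)]
    rw [Finset.sum_const, nsmul_eq_mul]
  rw [h1, h1]
  apply Finset.sum_congr rfl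
  intro v _
  rw [key v]

end Pool.Agent.R376.OrbitSum
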