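import Mathlib
import Pool.Agent.R376.OrbitSum

namespace Pool.Agent.R376.AbsPerm

open Equiv Finset

variable {p : ℕ} [hp : Fact p.Prime]

/-- The weight `|a - b| + x δ_{ab}` in `ZMod p`. -/
def wt (p : ℕ) (x : ℤ) (a b : ZMod p) : ZMod p :=
  ((|(a.val : ℤ) - (b.val : ℤ)| + if a = b then x else 0 : ℤ) : ZMod p)

def u (p : ℕ) (a : ZMod p) : ZMod p := if a = -1 then -1 else 1

theorem u_mul_self (a : ZMod p) : u p a * u p a = 1 := by
  unfold u
  split_ifs <;> ring

theorem val_add_one (a : ZMod p) (ha : a ≠ -1) : (a + 1).val = a.val + 1 := by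
  have hp2 := hp.out.one_lt
  rw [ZMod.val_add, ZMod.val_one'' (by omega)]
  apply Nat.mod_eq_of_lt
  have h1 := ZMod.val_lt a
  rcases Nat.lt_or_ge (a.val + 1) p with h | h
  · exact h
  · exfalso
    apply ha
    have h2 : a.val + 1 = p := by omega
    have h3 : ((a.val + 1 : ℕ) : ZMod p) = 0 := by rw [h2]; exact ZMod.natCast_self p
    push_cast at h3
    rw [ZMod.natCast_zmod_val] at h3
    exact eq_neg_of_add_eq_zero_left h3

theorem val_neg_one' : ((-1 : ZMod p)).val + 1 = p := by
  have hp2 := hp.out.one_lt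
  have h1 : ((((-1 : ZMod p)).val + 1 : ℕ) : ZMod p) = 0 := by
    push_cast
    rw [ZMod.natCast_zmod_val]
    ring
  rw [ZMod.natCast_eq_zero_iff] at h1
  have h2 := ZMod.val_lt (-1 : ZMod p)
  have := Nat.le_of_dvd (by omega) h1
  omega

theorem wt_symm (x : ℤ) (a b : ZMod p) : wt p x a b = wt p x b a := by
  unfold wt
  rw [abs_sub_comm]
  congr 2
  by_cases h : a = b
  · rw [if_pos h, if_pos h.symm]
  · rw [if_neg h, if_neg (Ne.symm h)]

theorem wt_shift_aux (x : ℤ) (b : ZMod p) (hb : b ≠ -1) :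
    wt p x (-1 + 1) (b + 1) = - wt p x (-1) b := by
  unfold wt
  rw [if_neg (by intro h; exact hb (add_right_cancel h).symm), if_neg (Ne.symm hb)]
  rw [neg_add_cancel, ZMod.val_zero, val_add_one b hb]
  have h1 := val_neg_one' (p := p)
  have h2 := ZMod.val_lt b
  rw [abs_of_nonpos (by push_cast; omega), abs_of_nonneg (by omega)]
  have h3 : ((((-1 : ZMod p)).val : ℕ) : ℤ) = (p : ℤ) - 1 := by omega
  rw [h3]
  push_cast
  rw [ZMod.natCast_zmod_val]
  simp

theorem wt_shift (x : ℤ) (a b : ZMod p) : wt p x (a + 1) (b + 1) = u p a * u p b * wt p x a b := by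
  by_cases ha : a = -1
  · by_cases hb : b = -1
    · subst ha; subst hb
      rw [u_mul_self, one_mul]
      unfold wt
      simp
    · subst ha
      rw [wt_shift_aux x b hb]
      unfold u
      rw [if_pos rfl, if_neg hb]
      ring
  · by_cases hb : b = -1
    · subst hb
      rw [wt_symm, wt_shift_aux x a ha, wt_symm]
      unfold u
      rw [if_neg ha, if_pos rfl]
      ring
    · unfold wt u
      rw [if_neg ha, if_neg hb, val_add_one a ha, val_add_one b hb]
      have e1 : ((a.val + 1 : ℕ) : ℤ) - ((b.val + 1 : ℕ) : ℤ) = (a.val : ℤ) - b.val := by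
        push_cast; ring
      rw [e1]
      simp only [add_left_inj]
      ring

/-- The weight of a permutation. -/
def W (p : ℕ) [Fact p.Prime] (x : ℤ) (σ : Perm (ZMod p)) : ZMod p := ∏ a, wt p x (σ a) a

/-- The cyclic shift. -/
def c (p : ℕ) : Perm (ZMod p) := Equiv.addRight 1

def conj (p : ℕ) (σ : Perm (ZMod p)) : Perm (ZMod p) := c p * σ * (c p)⁻¹

theorem W_conj (x : ℤ) (σ : Perm (ZMod p)) : W p x (conj p σ) = W p x σ := by
  unfold W
  rw [← Equiv.prod_comp (c p) (fun a => wt p x (conj p σ a) a)]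
  have h1 : ∀ a, wt p x (conj p σ (c p a)) (c p a) = u p (σ a) * u p a * wt p x (σ a) a := by
    intro a
    have : conj p σ (c p a) = σ a + 1 := by
      unfold conj
      simp [c]
    rw [this]
    exact wt_shift x (σ a) a
  rw [Finset.prod_congr rfl (fun a _ => h1 a), Finset.prod_mul_distrib, Finset.prod_mul_distrib]
  rw [Equiv.prod_comp σ (fun a => u p a), ← Finset.prod_mul_distrib]
  rw [Finset.prod_congr rfl (fun a _ => u_mul_self a)]
  simp

theorem c_pow (n : ℕ) (a : ZMod p) : ((c p) ^ n) a = a + n := by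
  induction n generalizing a with
  | zero => simp
  | succ n ih =>
    rw [pow_succ, Perm.mul_apply, ih]
    simp [c]
    ring

theorem conj_iterate (n : ℕ) (σ : Perm (ZMod p)) :
    (conj p)^[n] σ = (c p) ^ n * σ * ((c p) ^ n)⁻¹ := by
  induction n generalizing σ with
  | zero => simp
  | succ n ih =>
    rw [Function.iterate_succ_apply, ih]
    unfold conj
    rw [pow_succ]
    group

theorem conj_iterate_p (σ : Perm (ZMod p)) : (conj p)^[p] σ = σ := by
  rw [conj_iterate]
  have : (c p) ^ p = 1 := by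
    ext a
    rw [c_pow]
    simp
  rw [this]
  simp

theorem fixed_iff (σ : Perm (ZMod p)) : conj p σ = σ ↔ ∃ t : ZMod p, Equiv.addRight t = σ := by
  constructor
  · intro h
    refine ⟨σ 0, ?_⟩
    have h1 : ∀ a, σ (a + 1) = σ a + 1 := by
      intro a
      have : conj p σ (a + 1) = σ (a + 1) := by rw [h]
      rw [← this]
      unfold conj
      simp [c]
    have h2 : ∀ n : ℕ, σ (n : ZMod p) = σ 0 + n := by
      intro n
      induction n with
      | zero => simp
      | succ n ih =>
        push_cast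
        rw [h1, ih]
        ring
    ext a
    have := h2 a.val
    rw [ZMod.natCast_zmod_val] at this
    rw [this]
    simp [add_comm]
  · rintro ⟨t, rfl⟩
    ext a
    unfold conj
    simp [c]
    ring

theorem sum_W (x : ℤ) : ∑ σ : Perm (ZMod p), W p x σ = ∑ t : ZMod p, W p x (Equiv.addRight t) := by
  rw [OrbitSum.sum_eq_sum_fixed (conj p) conj_iterate_p (W p x) (W_conj x)]
  have h1 : Finset.univ.filter (fun σ : Perm (ZMod p) => conj p σ = σ) =
      Finset.univ.image (fun t : ZMod p => Equiv.addRight t) := by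
    ext σ
    simp only [Finset.mem_filter, Finset.mem_univ, true_and, Finset.mem_image]
    exact fixed_iff σ
  rw [h1, Finset.sum_image]
  intro s _ t _ hst
  have : (Equiv.addRight s) (0 : ZMod p) = (Equiv.addRight t) 0 := by
    rw [show Equiv.addRight s = Equiv.addRight t from hst]
  simpa using this

theorem W_zero (x : ℤ) : W p x (Equiv.addRight (0 : ZMod p)) = x := by
  unfold W wt
  simp [ZMod.card]

theorem wt_add (x : ℤ) (a t : ZMod p) (ht : t ≠ 0) :
    wt p x (a + t) a = (if a.val + t.val < p then 1 else -1) * t := by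
  unfold wt
  rw [if_neg (by simpa using ht)]
  have h1 := ZMod.val_lt a
  have h2 := ZMod.val_lt t
  split_ifs with h
  · rw [ZMod.val_add_of_lt h]
    push_cast
    rw [show (a.val : ℤ) + (t.val : ℤ) - a.val = t.val by ring, abs_of_nonneg (by positivity)]
    push_cast
    rw [ZMod.natCast_zmod_val]
    ring
  · have h3 : (a + t).val + p = a.val + t.val := by
      rw [ZMod.val_add]
      rw [Nat.mod_eq_sub_mod (by omega), Nat.mod_eq_of_lt (by omega)]
      omega
    have h4 : ((a + t).val : ℤ) - a.val = t.val - p := by omega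
    rw [h4, abs_of_nonpos (by omega)]
    push_cast
    rw [ZMod.natCast_zmod_val]
    simp

theorem W_add (x : ℤ) (t : ZMod p) (ht : t ≠ 0) :
    W p x (Equiv.addRight t) = (-1) ^ t.val * t := by
  unfold W
  have h1 : ∀ a : ZMod p, wt p x ((Equiv.addRight t) a) a =
      (if a.val + t.val < p then 1 else -1) * t := by
    intro a
    exact wt_add x a t ht
  rw [Finset.prod_congr rfl (fun a _ => h1 a), Finset.prod_mul_distrib, Finset.prod_const,
    Finset.card_univ, ZMod.card, ZMod.pow_card]
  congr 1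
  obtain ⟨n, rfl⟩ : ∃ n, p = n + 1 := ⟨p - 1, by have := hp.out.pos; omega⟩
  have h2 : ∏ a : ZMod (n + 1), (if a.val + t.val < n + 1 then (1 : ZMod (n + 1)) else -1) =
      ∏ i ∈ Finset.range (n + 1), (if i + t.val < n + 1 then (1 : ZMod (n + 1)) else -1) :=
    Fin.prod_univ_eq_prod_range (fun i => (if i + t.val < n + 1 then (1 : ZMod (n + 1)) else -1))
      (n + 1)
  rw [h2, Finset.prod_ite, Finset.prod_const_one, one_mul, Finset.prod_const]
  congr 1
  have h3 : (Finset.range (n + 1)).filter (fun i => ¬ (i + t.val < n + 1)) =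
      Finset.Ico (n + 1 - t.val) (n + 1) := by
    ext i
    simp only [Finset.mem_filter, Finset.mem_range, Finset.mem_Ico]
    omega
  rw [h3, Nat.card_Ico]
  have := ZMod.val_lt t
  omega

theorem alt_sum (m : ℕ) : ∑ s ∈ Finset.range (2 * m + 1), (-1 : ℤ) ^ s * s = m := by
  induction m with
  | zero => simp
  | succ m ih =>
    rw [show 2 * (m + 1) + 1 = 2 * m + 1 + 1 + 1 by ring, Finset.sum_range_succ,
      Finset.sum_range_succ, ih]
    have h1 : (-1 : ℤ) ^ (2 * m + 1) = -1 := by rw [pow_succ, pow_mul]; simp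
    have h2 : (-1 : ℤ) ^ (2 * m + 1 + 1) = 1 := by rw [pow_succ, h1]; simp
    rw [h1, h2]
    push_cast
    ring

theorem sum_t (x : ℤ) (hodd : p ≠ 2) :
    2 * ∑ t : ZMod p, W p x (Equiv.addRight t) = 2 * x - 1 := by
  have h1 : ∀ t : ZMod p, W p x (Equiv.addRight t) =
      (if t = 0 then (x : ZMod p) else 0) + (-1) ^ t.val * t := by
    intro t
    by_cases h : t = 0
    · subst h
      rw [W_zero]
      simp
    · rw [W_add x t h, if_neg h, zero_add]
  rw [Finset.sum_congr rfl (fun t _ => h1 t), Finset.sum_add_distrib]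
  rw [Finset.sum_ite_eq' Finset.univ (0 : ZMod p) (fun _ => (x : ZMod p)), if_pos (Finset.mem_univ _)]
  obtain ⟨m, hm⟩ : ∃ m, p = 2 * m + 1 := by
    have := hp.out.eq_two_or_odd'
    rcases this with h | h
    · exact absurd h hodd
    · exact h
  have h2 : ∑ t : ZMod p, (-1 : ZMod p) ^ t.val * t = ((m : ℤ) : ZMod p) := by
    rw [← alt_sum m]
    have h3 : ∀ t : ZMod p, (-1 : ZMod p) ^ t.val * t = (((-1 : ℤ) ^ t.val * t.val : ℤ) : ZMod p) := by
      intro t
      push_cast
      rw [ZMod.natCast_zmod_val]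
    rw [Finset.sum_congr rfl (fun t _ => h3 t), ← Int.cast_sum]
    congr 1
    subst hm
    exact Fin.sum_univ_eq_sum_range (fun i => (-1 : ℤ) ^ i * (i : ℤ)) (2 * m + 1)
  rw [h2]
  have h5 : (m : ZMod p) * 2 = -1 := by
    have h6 : ((p : ℕ) : ZMod p) = ((2 * m + 1 : ℕ) : ZMod p) := congrArg _ hm
    have : ((2 * m + 1 : ℕ) : ZMod p) = 0 := by rw [← h6]; exact ZMod.natCast_self p
    push_cast at this
    linear_combination this
  push_cast
  linear_combination h5

/-- The matrix `|j - k| + x δ_{jk}`, indices `1, ..., n` written as `Fin n`. -/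
def D (n : ℕ) (x : ℤ) : Matrix (Fin n) (Fin n) ℤ :=
  Matrix.of fun j k => |(j : ℤ) - (k : ℤ)| + if j = k then x else 0

theorem permanent_D (x : ℤ) (hodd : p ≠ 2) : (p : ℤ) ∣ 2 * (D p x).permanent - (2 * x - 1) := by
  rw [← ZMod.intCast_zmod_eq_zero_iff_dvd]
  have h := sum_t (p := p) x hodd
  rw [← sum_W] at h
  have h1 : (((D p x).permanent : ℤ) : ZMod p) = ∑ σ : Perm (ZMod p), W p x σ := by
    unfold Matrix.permanent W wt D
    obtain ⟨n, rfl⟩ : ∃ n, p = n + 1 := ⟨p - 1, by have := hp.out.pos; omega⟩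
    rw [Int.cast_sum]
    apply Finset.sum_congr rfl
    intro σ _
    rw [Int.cast_prod]
    rfl
  push_cast
  rw [h1]
  linear_combination h

end Pool.Agent.R376.AbsPerm
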