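import Mathlib

namespace Pool.Agent.R376.Lucas

theorem not_dvd_choose_of_lt {p n k : ℕ} (hp : p.Prime) (hn : n < p) (hk : k ≤ n) :
    ¬ p ∣ n.choose k := by
  intro h
  have h1 : n.choose k ∣ n.factorial := by
    rw [← Nat.choose_mul_factorial_mul_factorial hk, mul_assoc]
    exact Dvd.intro _ rfl
  have h2 := (hp.dvd_factorial).mp (h.trans h1)
  omega

theorem not_dvd_choose_step {p n k : ℕ} (hp : p.Prime) (hlow : k % p ≤ n % p)
    (hhigh : ¬ p ∣ (n / p).choose (k / p)) : ¬ p ∣ n.choose k := by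
  haveI : Fact p.Prime := ⟨hp⟩
  have h := Choose.choose_modEq_choose_mod_mul_choose_div_nat (n := n) (k := k) (p := p)
  intro hd
  have h0 : p ∣ (n % p).choose (k % p) * (n / p).choose (k / p) :=
    (Nat.ModEq.dvd_iff h dvd_rfl).mp hd
  rcases hp.dvd_mul.mp h0 with h1 | h1
  · exact not_dvd_choose_of_lt hp (Nat.mod_lt _ hp.pos) hlow h1
  · exact hhigh h1

theorem not_dvd_choose_two {p A B x y : ℕ} (hp : p.Prime) (hx : x < p) (hy : y ≤ x) (hA : A < p)
    (hB : B ≤ A) : ¬ p ∣ (p * A + x).choose (p * B + y) := by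
  apply not_dvd_choose_step hp
  · rw [Nat.mul_add_mod, Nat.mul_add_mod, Nat.mod_eq_of_lt hx, Nat.mod_eq_of_lt (by omega)]
    exact hy
  · rw [Nat.mul_add_div hp.pos, Nat.mul_add_div hp.pos, Nat.div_eq_of_lt hx,
      Nat.div_eq_of_lt (by omega : y < p), add_zero, add_zero]
    exact not_dvd_choose_of_lt hp hA hB

theorem not_dvd_choose_mul_pow_sub_one {p : ℕ} (hp : p.Prime) (c : ℕ) (hc1 : 1 ≤ c) (hc : c ≤ p)
    (k : ℕ) : ∀ M : ℕ, M ≤ c * p ^ k - 1 → ¬ p ∣ (c * p ^ k - 1).choose M := by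
  induction k with
  | zero =>
    intro M hM
    simp only [pow_zero, mul_one] at hM ⊢
    exact not_dvd_choose_of_lt hp (by have := hp.pos; omega) hM
  | succ k ih =>
    intro M hM
    have hpk : 1 ≤ p ^ k := Nat.one_le_pow _ _ hp.pos
    have hck : 1 ≤ c * p ^ k := Nat.one_le_iff_ne_zero.mpr (by positivity)
    obtain ⟨t, ht⟩ : ∃ t, c * p ^ k = t + 1 := ⟨c * p ^ k - 1, by omega⟩
    have e : c * p ^ (k + 1) - 1 = p * (c * p ^ k - 1) + (p - 1) := by
      have : c * p ^ (k + 1) = p * (c * p ^ k) := by ring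
      rw [this, ht]
      have := hp.pos
      rw [Nat.add_sub_cancel, mul_add, mul_one]
      omega
    have hpp := hp.pos
    apply not_dvd_choose_step hp
    · rw [e, Nat.mul_add_mod, Nat.mod_eq_of_lt (by omega : p - 1 < p)]
      have := Nat.mod_lt M hp.pos
      omega
    · rw [e, Nat.mul_add_div hp.pos, Nat.div_eq_of_lt (by omega : p - 1 < p), add_zero]
      apply ih
      rw [e] at hM
      calc M / p ≤ (p * (c * p ^ k - 1) + (p - 1)) / p := Nat.div_le_div_right hM
        _ = c * p ^ k - 1 := by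
          rw [Nat.mul_add_div hp.pos, Nat.div_eq_of_lt (by omega : p - 1 < p), add_zero]

end Pool.Agent.R376.Lucas
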