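import Mathlib
import Pool.Agent.R376.Lucas

namespace Pool.Agent.R376.Lucas

/-- Lucas at a power of `q`. -/
theorem choose_split_modEq {q : ℕ} (hq : q.Prime) (p N1 N0 M1 M0 : ℕ) (hN : N0 < q ^ p)
    (hM : M0 < q ^ p) :
    ((q ^ p * N1 + N0).choose (q ^ p * M1 + M0) : ℤ) ≡
      (N1.choose M1 : ℤ) * (N0.choose M0 : ℤ) [ZMOD q] := by
  have : Fact q.Prime := ⟨hq⟩
  have h1 := Choose.choose_modEq_choose_mul_prod_range_choose (p := q) (n := q ^ p * N1 + N0)
    (k := q ^ p * M1 + M0) p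
  have h2 := Choose.choose_modEq_choose_mul_prod_range_choose (p := q) (n := N0) (k := M0) p
  have hpos : 0 < q ^ p := Nat.pow_pos hq.pos
  rw [Nat.mul_add_div hpos, Nat.mul_add_div hpos, Nat.div_eq_of_lt hN, Nat.div_eq_of_lt hM,
    add_zero, add_zero] at h1
  rw [Nat.div_eq_of_lt hN, Nat.div_eq_of_lt hM, Nat.choose_self, Nat.cast_one, one_mul] at h2
  have hprod : ∏ i ∈ Finset.range p, ((q ^ p * N1 + N0) / q ^ i % q).choose
      ((q ^ p * M1 + M0) / q ^ i % q) =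
      ∏ i ∈ Finset.range p, (N0 / q ^ i % q).choose (M0 / q ^ i % q) := by
    apply Finset.prod_congr rfl
    intro i hi
    rw [Finset.mem_range] at hi
    have key : ∀ a b : ℕ, (q ^ p * a + b) / q ^ i % q = b / q ^ i % q := by
      intro a b
      obtain ⟨d, rfl⟩ := Nat.exists_eq_add_of_lt hi
      have : q ^ (i + d + 1) * a + b = q ^ i * (q * (q ^ d * a)) + b := by ring
      rw [this, Nat.mul_add_div (Nat.pow_pos hq.pos), Nat.mul_add_mod]
    rw [key, key]
  rw [hprod] at h1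
  exact h1.trans (Int.ModEq.mul_left _ h2.symm)

theorem not_dvd_choose_split {q : ℕ} (hq : q.Prime) (p N1 N0 M1 M0 : ℕ) (hN : N0 < q ^ p)
    (hM : M0 < q ^ p) (h1 : ¬ q ∣ N1.choose M1) (h0 : ¬ q ∣ N0.choose M0) :
    ¬ q ∣ (q ^ p * N1 + N0).choose (q ^ p * M1 + M0) := by
  intro hd
  have h := choose_split_modEq hq p N1 N0 M1 M0 hN hM
  rw [← Int.natCast_dvd_natCast] at hd
  have h2 : (q : ℤ) ∣ (N1.choose M1 : ℤ) * (N0.choose M0 : ℤ) :=
    (Int.ModEq.dvd_iff h.symm).mpr hd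
  rw [← Nat.cast_mul, Int.natCast_dvd_natCast] at h2
  exact (hq.dvd_mul.mp h2).elim h1 h0

/-- If `q` does not divide `N.choose A`, then `A % q ^ r ≤ N % q ^ r` for all `r`. -/
theorem mod_le_of_not_dvd {q : ℕ} (hq : q.Prime) (r : ℕ) : ∀ N A : ℕ, ¬ q ∣ N.choose A →
    A % q ^ r ≤ N % q ^ r := by
  have : Fact q.Prime := ⟨hq⟩
  induction r with
  | zero => intro N A _; simp [Nat.mod_one]
  | succ r ih =>
    intro N A h
    have h1 := Choose.choose_modEq_choose_mod_mul_choose_div_nat (n := N) (k := A) (p := q)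
    have h2 : ¬ q ∣ (N % q).choose (A % q) := fun hd =>
      h ((Nat.ModEq.dvd_iff h1 dvd_rfl).mpr (hd.mul_right _))
    have h3 : ¬ q ∣ (N / q).choose (A / q) := fun hd =>
      h ((Nat.ModEq.dvd_iff h1 dvd_rfl).mpr (hd.mul_left _))
    have h4 : A % q ≤ N % q := by
      by_contra hlt
      rw [Nat.choose_eq_zero_of_lt (by omega)] at h2
      exact h2 (dvd_zero _)
    have h5 := ih _ _ h3
    have e : ∀ x : ℕ, x % q ^ (r + 1) = x % q + q * ((x / q) % q ^ r) := by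
      intro x
      rw [pow_succ', Nat.mod_mul]
    rw [e, e]
    have := Nat.mul_le_mul_left q h5
    omega

end Pool.Agent.R376.Lucas
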