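import Mathlib
import Pool.Agent.R376.Lucas2

namespace Pool.Agent.R376.GcdBinom

open Pool.Agent.R376.Lucas

/-- `q` divides all the binomials when `m ≤ q ^ e`. -/
theorem dvd_all {q e m : ℕ} (hq : q.Prime) (he : 1 ≤ e) (hmq : m ≤ q ^ e) (i : ℕ)
    (hi : 1 ≤ i) (hik : i ≤ q ^ e * m - 1) (hm : 1 ≤ m) :
    q ∣ ((i + 1) * (q ^ e * m - 1)).choose (q ^ e * m - 1) := by
  by_contra h
  have hQ : 0 < q ^ e := Nat.pow_pos hq.pos
  have hqQ : q ∣ q ^ e := dvd_pow_self q (by omega)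
  set Q := q ^ e with hQdef
  obtain ⟨k, hk⟩ : ∃ k, Q * m = k + 1 := ⟨Q * m - 1, by
    have : 0 < Q * m := Nat.mul_pos hQ hm
    omega⟩
  rw [hk, Nat.add_sub_cancel] at h hik
  have h1 := mod_le_of_not_dvd hq e _ _ h
  rw [← hQdef] at h1
  have hkmod : k % Q = Q - 1 := by
    obtain ⟨m', rfl⟩ : ∃ m', m = m' + 1 := ⟨m - 1, by omega⟩
    have : k = Q * m' + (Q - 1) := by
      have : Q * (m' + 1) = Q * m' + Q := by ring
      omega
    rw [this, Nat.mul_add_mod, Nat.mod_eq_of_lt (by omega)]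
  have hNmod : ((i + 1) * k) % Q = Q - 1 := by
    have := Nat.mod_lt ((i + 1) * k) hQ
    omega
  have hd1 : Q ∣ (i + 1) * k + 1 := by
    rw [← Nat.div_add_mod ((i + 1) * k) Q, hNmod, add_assoc, Nat.sub_add_cancel hQ]
    exact (Dvd.intro _ rfl : Q ∣ Q * _).add dvd_rfl
  have hd2 : Q ∣ k + 1 := ⟨m, hk.symm⟩
  have hd3 : Q ∣ i * k := by
    have : (i + 1) * k + 1 = i * k + (k + 1) := by ring
    rw [this] at hd1
    exact (Nat.dvd_add_left hd2).mp hd1
  have hcop : Nat.Coprime Q k := by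
    apply Nat.Coprime.pow_left
    apply (Nat.Prime.coprime_iff_not_dvd hq).mpr
    intro hqk
    have := (Nat.dvd_add_right hqk).mp (hqQ.trans hd2)
    exact hq.one_lt.ne' (Nat.dvd_one.mp this)
  obtain ⟨i', rfl⟩ := hcop.dvd_of_dvd_mul_right hd3
  have hi' : 1 ≤ i' := by
    rcases Nat.eq_zero_or_pos i' with h0 | h0
    · subst h0; simp at hi
    · exact h0
  have hi'm : i' < m := by
    by_contra hge
    have : Q * m ≤ Q * i' := Nat.mul_le_mul_left Q (by omega)
    omega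
  have h2 := mod_le_of_not_dvd hq (e + e) _ _ h
  rw [pow_add, ← hQdef] at h2
  have hkQ : k < Q * Q := by
    have : Q * m ≤ Q * Q := Nat.mul_le_mul_left Q hmq
    omega
  rw [Nat.mod_eq_of_lt hkQ] at h2
  obtain ⟨d, rfl⟩ : ∃ d, m = i' + d + 1 := ⟨m - i' - 1, by omega⟩
  have hN : (Q * i' + 1) * k = Q * Q * (i' * (i' + d + 1)) + (Q * (d + 1) - 1) := by
    have h3 : 1 ≤ Q * (d + 1) := Nat.mul_pos hQ (by omega)
    have h4 : k = Q * (i' + d + 1) - 1 := by omega
    zify [h3]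
    have h5 : (k : ℤ) = Q * (i' + d + 1) - 1 := by
      have : ((Q * (i' + d + 1) : ℕ) : ℤ) = ((k + 1 : ℕ) : ℤ) := by rw [hk]
      push_cast at this
      linarith
    rw [h5]
    ring
  have hlt : Q * (d + 1) - 1 < Q * Q := by
    have : Q * (d + 1) ≤ Q * Q := Nat.mul_le_mul_left Q (by omega)
    have h3 : 1 ≤ Q * (d + 1) := Nat.mul_pos hQ (by omega)
    omega
  rw [hN, Nat.mul_add_mod, Nat.mod_eq_of_lt hlt] at h2
  have h6 : Q * (i' + d + 1) = Q * i' + Q * (d + 1) := by ring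
  have h7 : 1 ≤ Q * i' := Nat.mul_pos hQ hi'
  have h8 : 1 ≤ Q * (d + 1) := Nat.mul_pos hQ (by omega)
  omega

theorem add_lt_of_not_dvd {q : ℕ} (hq : q.Prime) {L A r : ℕ} (hA : A < q ^ L) (hr : r < q ^ L)
    (h : ¬ q ∣ (A + r).choose A) : A + r < q ^ L := by
  by_contra hge
  have h1 := mod_le_of_not_dvd hq L _ _ h
  rw [Nat.mod_eq_of_lt hA, Nat.mod_eq_sub_mod (by omega), Nat.mod_eq_of_lt (by omega)] at h1
  omega

theorem not_dvd_of_mod {q : ℕ} (hq : q.Prime) {L A B r : ℕ} (hA : A < q ^ L)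
    (hr : B % q ^ L = r) (h : ¬ q ∣ (A + r).choose A) : ¬ q ∣ (A + B).choose A := by
  have hpos : 0 < q ^ L := Nat.pow_pos hq.pos
  have hrlt : r < q ^ L := hr ▸ Nat.mod_lt _ hpos
  have hlt := add_lt_of_not_dvd hq hA hrlt h
  have h1 := not_dvd_choose_split hq L (B / q ^ L) (A + r) 0 A hlt hA
    (by rw [Nat.choose_zero_right]; exact fun hd => hq.one_lt.ne' (Nat.dvd_one.mp hd)) h
  rw [mul_zero, zero_add] at h1
  have e : q ^ L * (B / q ^ L) + (A + r) = A + B := by
    have := Nat.div_add_mod B (q ^ L)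
    omega
  rwa [e] at h1

theorem small_of_forall {q : ℕ} (hq : q.Prime) {L A K u : ℕ} (hA : A < q ^ L)
    (huK : q ^ L ∣ u * K + 1)
    (H : ∀ i, 1 ≤ i → i ≤ A → q ∣ (A + i * K).choose A) {r : ℕ} (hr : r < q ^ L)
    (hfree : ¬ q ∣ (A + r).choose A) : (u * r) % q ^ L + A < q ^ L := by
  by_contra hge
  have hpos : 0 < q ^ L := Nat.pow_pos hq.pos
  set Q := q ^ L with hQ
  set w := (u * r) % Q with hw
  have hwlt : w < Q := Nat.mod_lt _ hpos
  refine absurd (H (Q - w) (by omega) (by omega)) ?_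
  refine not_dvd_of_mod hq (r := r) hA ?_ hfree
  rw [← hQ]
  have hmod : (Q - w) * K ≡ r [MOD Q] := by
    rw [← Int.natCast_modEq_iff]
    push_cast [hwlt.le]
    have h1 : ((u * r : ℕ) : ℤ) = Q * ((u * r / Q : ℕ) : ℤ) + w := by
      rw [hw]
      exact_mod_cast (Nat.div_add_mod (u * r) Q).symm
    obtain ⟨c, hc⟩ := huK
    have hc' : (u : ℤ) * K + 1 = Q * c := by exact_mod_cast hc
    push_cast at h1
    apply Int.ModEq.symm
    rw [Int.modEq_iff_dvd]
    refine ⟨K + ((u : ℤ) * r / Q) * K - r * c, ?_⟩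
    have h2 : (w : ℤ) = u * r - Q * ((u : ℤ) * r / Q) := by linarith
    rw [h2]
    linear_combination (-(r : ℤ)) * hc'
  have := hmod
  unfold Nat.ModEq at this
  rwa [Nat.mod_eq_of_lt hr] at this

theorem exists_u {q : ℕ} (hq : q.Prime) (L K : ℕ) (hK : ¬ q ∣ K) :
    ∃ u : ℕ, q ^ L ∣ u * K + 1 := by
  have hcop : Nat.Coprime K (q ^ L) := by
    apply Nat.Coprime.pow_right
    rw [Nat.coprime_comm]
    exact (Nat.Prime.coprime_iff_not_dvd hq).mpr hK
  have : NeZero (q ^ L) := ⟨(Nat.pow_pos hq.pos).ne'⟩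
  refine ⟨(-(K : ZMod (q ^ L))⁻¹).val, ?_⟩
  rw [← ZMod.natCast_eq_zero_iff]
  push_cast
  rw [ZMod.natCast_zmod_val]
  have := ZMod.coe_mul_inv_eq_one K hcop
  linear_combination -this

theorem free_add_pow {q : ℕ} (hq : q.Prime) (X s : ℕ) (h : ¬ q ∣ X / q ^ s + 1) :
    ¬ q ∣ (X + q ^ s).choose X := by
  have hpos : 0 < q ^ s := Nat.pow_pos hq.pos
  have hm := Nat.mod_lt X hpos
  have h1 := not_dvd_choose_split hq s (X / q ^ s + 1) (X % q ^ s) (X / q ^ s) (X % q ^ s) hm hm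
    (by rwa [Nat.choose_succ_self_right]) (by
      rw [Nat.choose_self]; exact fun hd => hq.one_lt.ne' (Nat.dvd_one.mp hd))
  have e1 : q ^ s * (X / q ^ s) + X % q ^ s = X := Nat.div_add_mod X (q ^ s)
  have e2 : q ^ s * (X / q ^ s + 1) + X % q ^ s = X + q ^ s := by
    rw [mul_add, mul_one]; omega
  rwa [e1, e2] at h1

theorem not_dvd_one {q : ℕ} (hq : q.Prime) : ¬ q ∣ 1 :=
  fun hd => hq.one_lt.ne' (Nat.dvd_one.mp hd)

/-- The downward induction. `p` is a position, `s < p < L`, and `z = (u * q ^ s) % q ^ L`. -/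
theorem down_step {q : ℕ} (hq : q.Prime) {L A K u s p z : ℕ} (hA : A < q ^ L)
    (hA2 : q ^ p ≤ A) (hpL : p < L) (hsp : s < p)
    (huK : q ^ L ∣ u * K + 1)
    (H : ∀ i, 1 ≤ i → i ≤ A → q ∣ (A + i * K).choose A)
    (hu : ∀ Y, q ^ p ∣ Y → (u * Y) ≡ Y [MOD q ^ L])
    (hz : z ≡ u * q ^ s [MOD q ^ L])
    (hfree : ¬ q ∣ (A % q ^ p) / q ^ s + 1)
    (ih : z + A % q ^ (p + 1) < q ^ (p + 1)) : z + A % q ^ p < q ^ p := by
  have hpos : 0 < q ^ p := Nat.pow_pos hq.pos
  set P := q ^ p with hP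
  have hP1 : q ^ (p + 1) = P * q := by rw [pow_succ]
  rw [hP1] at ih
  have hq1 := hq.one_lt
  -- digits
  have hAmod : A % (P * q) = A % P + P * (A / P % q) := Nat.mod_mul
  set a := A / P % q with ha
  have haq : a < q := Nat.mod_lt _ hq.pos
  have hzdm := Nat.div_add_mod z P
  set z1 := z / P with hz1
  set z0 := z % P with hz0
  have hz0P : z0 < P := Nat.mod_lt _ hpos
  have hA0P : A % P < P := Nat.mod_lt _ hpos
  have hz1a : z1 + a < q := by
    have h1 : P * (z1 + a) < P * q := by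
      have : P * (z1 + a) = P * z1 + P * a := by ring
      omega
    exact Nat.lt_of_mul_lt_mul_left h1
  -- choice of `b`
  obtain ⟨b, hb1, hb2⟩ : ∃ b, (z1 = 0 → b = q - 1 - a) ∧ (1 ≤ z1 → b = q - a - z1) := by
    rcases Nat.eq_zero_or_pos z1 with h0 | h0
    · exact ⟨q - 1 - a, fun _ => rfl, fun h => by omega⟩
    · exact ⟨q - a - z1, fun h => by omega, fun _ => rfl⟩
  have hab : a + b < q := by
    rcases Nat.eq_zero_or_pos z1 with h0 | h0
    · have := hb1 h0; omega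
    · have := hb2 h0; omega
  -- upper part
  obtain ⟨d, hd⟩ : ∃ d, L = p + 1 + d := ⟨L - p - 1, by omega⟩
  have hLpow : q ^ L = P * q * q ^ d := by rw [hd, pow_add, hP1]
  set A1 := A / (P * q) with hA1
  have hPq : 0 < P * q := Nat.mul_pos hpos hq.pos
  have hA1lt : A1 < q ^ d := by
    rw [hA1]
    apply Nat.div_lt_of_lt_mul
    rwa [← hLpow]
  have hAdm : P * q * A1 + A % (P * q) = A := Nat.div_add_mod A (P * q)
  obtain ⟨r1, hr1⟩ : ∃ r1, A1 + r1 + 1 = q ^ d := ⟨q ^ d - 1 - A1, by omega⟩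
  set Y := P * q * r1 + P * b with hY
  set S := q ^ s with hS
  have hSpos : 0 < S := Nat.pow_pos hq.pos
  have hSP : S < P := Nat.pow_lt_pow_right hq1 hsp
  -- freeness
  have hfreeX := free_add_pow hq (A % P) s hfree
  rw [← hS] at hfreeX
  have hX : A % P + S < P := by
    have := add_lt_of_not_dvd hq (L := p) (A := A % P) (r := S) hA0P hSP hfreeX
    exact this
  have hfreeY : ¬ q ∣ (A + (Y + S)).choose A := by
    have h1 : ¬ q ∣ (q ^ p * (a + b) + (A % P + S)).choose (q ^ p * a + A % P) :=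
      not_dvd_choose_split hq p _ _ _ _ hX hA0P
        (not_dvd_choose_of_lt hq hab (by omega)) hfreeX
    have h0 : ¬ q ∣ (q ^ d - 1).choose A1 := by
      have := not_dvd_choose_mul_pow_sub_one hq 1 le_rfl hq.one_lt.le d A1 (by omega)
      rwa [one_mul] at this
    have hlt1 : q ^ p * (a + b) + (A % P + S) < q ^ (p + 1) := by
      rw [hP1, ← hP]
      have : P * (a + b + 1) ≤ P * q := Nat.mul_le_mul_left P (by omega)
      have h5 : P * (a + b + 1) = P * (a + b) + P := by ring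
      omega
    have hlt2 : q ^ p * a + A % P < q ^ (p + 1) := by
      rw [hP1, ← hP]
      have : P * (a + 1) ≤ P * q := Nat.mul_le_mul_left P (by omega)
      have h5 : P * (a + 1) = P * a + P := by ring
      omega
    have h2 := not_dvd_choose_split hq (p + 1) _ _ _ _ hlt1 hlt2 h0 h1
    have e1 : q ^ (p + 1) * (q ^ d - 1) + (q ^ p * (a + b) + (A % P + S)) = A + (Y + S) := by
      rw [hP1, ← hP, ← hr1, Nat.add_sub_cancel, hY]
      have e3 : P * q * (A1 + r1) = P * q * A1 + P * q * r1 := by ring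
      have e4 : P * (a + b) = P * a + P * b := by ring
      omega
    have e2 : q ^ (p + 1) * A1 + (q ^ p * a + A % P) = A := by
      rw [hP1, ← hP]
      omega
    rwa [e1, e2] at h2
  have hYeq : Y + P * q * (A1 + 1) = q ^ L + P * b := by
    rw [hLpow, ← hr1, hY]; ring
  have hPqA1 : P * q * (A1 + 1) = P * q * A1 + P * q := by ring
  have hrlt : Y + S < q ^ L := by
    have : P * (a + b + 1) ≤ P * q := Nat.mul_le_mul_left P (by omega)
    have h5 : P * (a + b + 1) = P * a + P * b + P := by ring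
    omega
  have hF := small_of_forall hq hA huK H hrlt hfreeY
  have hmod : u * (Y + S) ≡ Y + z [MOD q ^ L] := by
    rw [mul_add]
    apply Nat.ModEq.add
    · apply hu
      rw [hY]
      exact ⟨q * r1 + b, by ring⟩
    · exact hz.symm
  rcases Nat.eq_zero_or_pos z1 with h0 | h0
  · have hb := hb1 h0
    have h6 : P * (a + b + 1) = P * q := by rw [hb]; congr 1; omega
    have h5 : P * (a + b + 1) = P * a + P * b + P := by ring
    rw [h0, mul_zero, zero_add] at hzdm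
    have hVlt : Y + z < q ^ L := by omega
    have : (u * (Y + S)) % q ^ L = Y + z := by
      rw [hmod, Nat.mod_eq_of_lt hVlt]
    rw [this] at hF
    omega
  · exfalso
    have hb := hb2 h0
    have h6 : P * (a + b + z1) = P * q := by congr 1; omega
    have h5 : P * (a + b + z1) = P * a + P * b + P * z1 := by ring
    have hAP : P ≤ P * q * A1 + P * a := by
      have h7 : P * q * A1 + P * a = P * (A / P) := by
        have := Nat.div_add_mod A P
        omega
      rw [h7]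
      exact Nat.le_mul_of_pos_right P (Nat.div_pos hA2 hpos)
    have hVlt : Y + z < q ^ L := by omega
    have : (u * (Y + S)) % q ^ L = Y + z := by
      rw [hmod, Nat.mod_eq_of_lt hVlt]
    rw [this] at hF
    omega

theorem exists_case_pos {q e m : ℕ} (hq : q.Prime) (he : 1 ≤ e) (hqm : ¬ q ∣ m)
    (hm : q ^ e < m) :
    ∃ i, 1 ≤ i ∧ i ≤ m - 1 ∧ ¬ q ∣ ((m - 1) + i * (q ^ e * m - 1)).choose (m - 1) := by
  by_contra hno
  push Not at hno
  obtain ⟨A, rfl⟩ : ∃ A, m = A + 1 := ⟨m - 1, by omega⟩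
  rw [Nat.add_sub_cancel] at hno
  obtain ⟨K, hK⟩ : ∃ K, q ^ e * (A + 1) = K + 1 := ⟨q ^ e * (A + 1) - 1, by
    have : 0 < q ^ e * (A + 1) := Nat.mul_pos (Nat.pow_pos hq.pos) (by omega)
    omega⟩
  rw [hK, Nat.add_sub_cancel] at hno
  have hq1 := hq.one_lt
  have hA0 : A ≠ 0 := by
    rintro rfl
    have : 0 < q ^ e := Nat.pow_pos hq.pos
    omega
  obtain ⟨L, hL⟩ : ∃ L, Nat.log q A + 1 = L := ⟨_, rfl⟩
  have hlog1 : q ^ (L - 1) ≤ A := by
    rw [← hL, Nat.add_sub_cancel]; exact Nat.pow_log_le_self q hA0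
  have hlog2 : A < q ^ L := by
    rw [← hL]; exact Nat.lt_pow_succ_log_self hq1 A
  have heL : e + 1 ≤ L := by
    have : q ^ e < q ^ L := by omega
    exact (Nat.pow_lt_pow_iff_right hq1).mp this
  have hqK : ¬ q ∣ K := by
    intro hd
    have h1 : q ∣ K + 1 := by
      rw [← hK]; exact (dvd_pow_self q (by omega)).mul_right _
    exact not_dvd_one hq ((Nat.dvd_add_right hd).mp h1)
  obtain ⟨u, hu⟩ := exists_u hq L K hqK
  -- `u ≡ 1 mod q ^ e`
  have hue : ((q : ℤ) ^ e) ∣ (u : ℤ) - 1 := by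
    have h1 : ((q : ℤ) ^ e) ∣ (u : ℤ) * K + 1 := by
      have : q ^ e ∣ u * K + 1 := (pow_dvd_pow q (by omega)).trans hu
      exact_mod_cast this
    have h2 : (u : ℤ) - 1 = (q : ℤ) ^ e * (u * (A + 1)) - (u * K + 1) := by
      have : ((q : ℤ) ^ e) * (A + 1) = K + 1 := by exact_mod_cast hK
      linear_combination (-(u : ℤ)) * this
    rw [h2]
    exact dvd_sub (Dvd.intro _ rfl) h1
  have hue1 : ¬ ((q : ℤ) ^ (e + 1)) ∣ (u : ℤ) - 1 := by
    intro hd
    have h1 : ((q : ℤ) ^ (e + 1)) ∣ (u : ℤ) * K + 1 := by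
      have : q ^ (e + 1) ∣ u * K + 1 := (pow_dvd_pow q (by omega)).trans hu
      exact_mod_cast this
    have h2 : (q : ℤ) ^ e * (u * (A + 1)) = ((u : ℤ) - 1) + (u * K + 1) := by
      have : ((q : ℤ) ^ e) * (A + 1) = K + 1 := by exact_mod_cast hK
      linear_combination ((u : ℤ)) * this
    have h3 : ((q : ℤ) ^ (e + 1)) ∣ (q : ℤ) ^ e * (u * (A + 1)) := by
      rw [h2]; exact dvd_add hd h1
    rw [pow_succ] at h3
    have hqe : ((q : ℤ) ^ e) ≠ 0 := pow_ne_zero _ (by exact_mod_cast hq.ne_zero)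
    have h4 : (q : ℤ) ∣ u * (A + 1) := Int.dvd_of_mul_dvd_mul_left hqe h3
    have h5 : q ∣ u * (A + 1) := by exact_mod_cast h4
    rcases hq.dvd_mul.mp h5 with h6 | h6
    · have h7 : (q : ℤ) ∣ (u : ℤ) - 1 := (dvd_pow_self (q : ℤ) (by omega)).trans hd
      have h8 : (q : ℤ) ∣ (u : ℤ) := by exact_mod_cast h6
      have h9 : (q : ℤ) ∣ 1 := by
        have := dvd_sub h8 h7
        rwa [sub_sub_cancel] at this
      have h10 : q ∣ 1 := by exact_mod_cast h9
      exact not_dvd_one hq h10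
    · exact hqm h6
  -- `C'` and `s`
  obtain ⟨T, hT⟩ : ∃ T, L - e = T := ⟨_, rfl⟩
  have hT1 : 1 ≤ T := by omega
  have hTpos : 0 < q ^ T := Nat.pow_pos hq.pos
  have hqT : q ∣ q ^ T := dvd_pow_self q (by omega)
  have hAT := Nat.mod_lt A hTpos
  obtain ⟨C, hC⟩ : ∃ C, A % q ^ T + C + 1 = q ^ T := ⟨q ^ T - 1 - A % q ^ T, by omega⟩
  have hC0 : C ≠ 0 := by
    rintro rfl
    apply hqm
    have h1 : q ^ T ∣ A + 1 := by
      rw [← Nat.div_add_mod A (q ^ T)]
      rw [add_assoc, show A % q ^ T + 1 = q ^ T by omega]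
      exact (Dvd.intro _ rfl : q ^ T ∣ q ^ T * _).add dvd_rfl
    exact hqT.trans h1
  have hCT : C < q ^ T := by
    have := Nat.zero_le (A % q ^ T)
    omega
  obtain ⟨s, hs⟩ : ∃ s, Nat.log q C = s := ⟨_, rfl⟩
  have hs1 : q ^ s ≤ C := by rw [← hs]; exact Nat.pow_log_le_self q hC0
  have hs2 : C < q ^ (s + 1) := by rw [← hs]; exact Nat.lt_pow_succ_log_self hq1 C
  have hsT : s < T := by
    have : q ^ s < q ^ T := by omega
    exact (Nat.pow_lt_pow_iff_right hq1).mp this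
  have hspos : 0 < q ^ s := Nat.pow_pos hq.pos
  obtain ⟨c, hc⟩ : ∃ c, C / q ^ s = c := ⟨_, rfl⟩
  have hc1 : 1 ≤ c := by rw [← hc]; exact Nat.div_pos hs1 hspos
  have hcq : c < q := by
    rw [← hc]
    apply Nat.div_lt_of_lt_mul
    rwa [pow_succ] at hs2
  -- digit `s` of `A % q ^ p`
  have hfree : ∀ p, T ≤ p → ¬ q ∣ (A % q ^ p) / q ^ s + 1 := by
    intro p hp hd
    obtain ⟨f, hf⟩ : ∃ f, T = s + (f + 1) := ⟨T - s - 1, by omega⟩
    have e1 : (A % q ^ p) % q ^ T = A % q ^ T := Nat.mod_mod_of_dvd A (pow_dvd_pow q hp)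
    have e2 : A % q ^ p = q ^ T * (A % q ^ p / q ^ T) + A % q ^ T := by
      have := Nat.div_add_mod (A % q ^ p) (q ^ T)
      rw [e1] at this
      exact this.symm
    set B := A % q ^ p / q ^ T with hB
    have hTs : q ^ T = q ^ s * (q * q ^ f) := by rw [hf, pow_add, pow_succ]; ring
    have hCdm : q ^ s * c + C % q ^ s = C := by rw [← hc]; exact Nat.div_add_mod C (q ^ s)
    have hCm : C % q ^ s < q ^ s := Nat.mod_lt _ hspos
    have hcf : c < q * q ^ f := lt_of_lt_of_le hcq (Nat.le_mul_of_pos_right q (Nat.pow_pos hq.pos))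
    obtain ⟨g, hg⟩ : ∃ g, g + 1 + c = q * q ^ f := ⟨q * q ^ f - c - 1, by omega⟩
    have e3 : A % q ^ T = q ^ s * g + (q ^ s - 1 - C % q ^ s) := by
      have h1 : A % q ^ T + C + 1 = q ^ s * (g + 1 + c) := by rw [hg, ← hTs]; exact hC
      have h2 : q ^ s * (g + 1 + c) = q ^ s * g + q ^ s + q ^ s * c := by ring
      omega
    have e4 : A % q ^ p / q ^ s = (q * q ^ f) * B + g := by
      rw [e2, e3, hTs]
      have : q ^ s * (q * q ^ f) * B + (q ^ s * g + (q ^ s - 1 - C % q ^ s)) =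
          q ^ s * ((q * q ^ f) * B + g) + (q ^ s - 1 - C % q ^ s) := by ring
      have hlt : q ^ s - 1 - C % q ^ s < q ^ s :=
        lt_of_le_of_lt (Nat.sub_le _ _) (Nat.sub_lt hspos one_pos)
      rw [this, Nat.mul_add_div hspos, Nat.div_eq_of_lt hlt, add_zero]
    rw [e4] at hd
    have h3 : q ∣ (q * q ^ f) * B + g + 1 + c := by
      have : (q * q ^ f) * B + g + 1 + c = q * (q ^ f * (B + 1)) := by
        have : (q * q ^ f) * B + g + 1 + c = (q * q ^ f) * B + q * q ^ f := by omega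
        rw [this]; ring
      rw [this]
      exact Dvd.intro _ rfl
    have h4 : q ∣ c := (Nat.dvd_add_right hd).mp h3
    have := Nat.le_of_dvd (by omega) h4
    omega
  obtain ⟨z, hz⟩ : ∃ z, (u * q ^ s) % q ^ L = z := ⟨_, rfl⟩
  have hLpos : 0 < q ^ L := Nat.pow_pos hq.pos
  -- downward induction
  have hdown : ∀ d, d ≤ e → z + A % q ^ (L - d) < q ^ (L - d) := by
    intro d
    induction d with
    | zero =>
      intro _
      rw [Nat.sub_zero, Nat.mod_eq_of_lt hlog2, ← hz]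
      apply small_of_forall hq hlog2 hu hno
      · exact Nat.pow_lt_pow_right hq1 (by omega)
      · have h1 := hfree L (by omega)
        rw [Nat.mod_eq_of_lt hlog2] at h1
        exact free_add_pow hq A s h1
    | succ d ih =>
      intro hd
      have ih' := ih (by omega)
      have e1 : L - d = (L - (d + 1)) + 1 := by omega
      rw [e1] at ih'
      apply down_step hq hlog2 (K := K) (u := u) (s := s) ?_ ?_ ?_ hu hno ?_ ?_ ?_ ih'
      · exact (Nat.pow_le_pow_right hq.pos (by omega)).trans hlog1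
      · omega
      · omega
      · intro Y hY
        obtain ⟨y, rfl⟩ := hY
        rw [← Int.natCast_modEq_iff]
        apply Int.ModEq.symm
        rw [Int.modEq_iff_dvd]
        obtain ⟨v, hv⟩ := hue
        obtain ⟨g, hg⟩ : ∃ g, (L - (d + 1)) + e = L + g := ⟨L - (d + 1) + e - L, by omega⟩
        refine ⟨(q : ℤ) ^ g * v * y, ?_⟩
        push_cast
        have h1 : (u : ℤ) * ((q : ℤ) ^ (L - (d + 1)) * y) - (q : ℤ) ^ (L - (d + 1)) * y =
            ((u : ℤ) - 1) * ((q : ℤ) ^ (L - (d + 1)) * y) := by ring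
        rw [h1, hv]
        have h2 : (q : ℤ) ^ e * v * ((q : ℤ) ^ (L - (d + 1)) * y) =
          (q : ℤ) ^ (L - (d + 1) + e) * v * y := by rw [pow_add]; ring
        rw [h2, hg, pow_add]
        ring
      · rw [← hz]; exact Nat.mod_modEq _ _
      · exact hfree _ (by omega)
  have hfin := hdown e le_rfl
  rw [hT] at hfin
  -- conclusion
  obtain ⟨f, hf⟩ : ∃ f, L = s + f := ⟨L - s, by omega⟩
  have hz2 : z = q ^ s * (u % q ^ f) := by
    rw [← hz, mul_comm u, hf, pow_add, Nat.mul_mod_mul_left]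
  have hult : u % q ^ f < q := by
    have h1 : q ^ s * (u % q ^ f) < q ^ s * q := by
      rw [← hz2, ← pow_succ]
      omega
    exact Nat.lt_of_mul_lt_mul_left h1
  have hqf : q ∣ q ^ f := dvd_pow_self q (by omega)
  have huq : u % q = 1 := by
    have h1 : (q : ℤ) ∣ (u : ℤ) - 1 := (dvd_pow_self (q : ℤ) (by omega)).trans hue
    have h2 : (1 : ℤ) ≡ u [ZMOD q] := (Int.modEq_iff_dvd).mpr h1
    have h3 : 1 ≡ u [MOD q] := by
      rw [← Int.natCast_modEq_iff]; exact_mod_cast h2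
    rw [← h3, Nat.mod_eq_of_lt hq1]
  have huf : u % q ^ f = 1 := by
    have h1 : (u % q ^ f) % q = u % q := Nat.mod_mod_of_dvd u hqf
    rw [Nat.mod_eq_of_lt hult, huq] at h1
    exact h1
  apply hue1
  have h1 : (q : ℤ) ^ (e + 1) ∣ (q : ℤ) ^ f := pow_dvd_pow _ (by omega)
  refine h1.trans ?_
  have h2 : 1 ≡ u [MOD q ^ f] := by
    unfold Nat.ModEq
    rw [huf, Nat.mod_eq_of_lt]
    exact Nat.one_lt_pow (by omega) hq1
  have h3 : (1 : ℤ) ≡ u [ZMOD ((q ^ f : ℕ) : ℤ)] := by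
    rw [← Int.natCast_modEq_iff] at h2; exact_mod_cast h2
  rw [Int.modEq_iff_dvd] at h3
  exact_mod_cast h3

/-- If multiplication by `u` modulo `Q` maps `{1, ..., c}` to itself, `c + 2 ≤ Q`, then
`u ≡ 1`. -/
theorem unit_eq_one {Q c u : ℕ} (hc : 1 ≤ c) (hcQ : c + 2 ≤ Q) (hcop : Nat.Coprime u Q)
    (h : ∀ x, 1 ≤ x → x ≤ c → 1 ≤ (u * x) % Q ∧ (u * x) % Q ≤ c) : u % Q = 1 := by
  have h1 := h 1 le_rfl hc
  rw [mul_one] at h1
  set v := u % Q with hv
  have hmaps : Set.MapsTo (fun x => (u * x) % Q) (Finset.Icc 1 c : Set ℕ) (Finset.Icc 1 c) := by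
    intro x hx
    simp only [Finset.coe_Icc, Set.mem_Icc] at hx ⊢
    exact h x hx.1 hx.2
  have hinj : Set.InjOn (fun x => (u * x) % Q) (Finset.Icc 1 c : Set ℕ) := by
    intro x hx y hy hxy
    simp only [Finset.coe_Icc, Set.mem_Icc] at hx hy
    have h2 : u * x ≡ u * y [MOD Q] := hxy
    have h3 := Nat.ModEq.cancel_left_of_coprime (by rwa [Nat.gcd_comm]) h2
    unfold Nat.ModEq at h3
    rwa [Nat.mod_eq_of_lt (by omega), Nat.mod_eq_of_lt (by omega)] at h3
  have hsurj := Finset.surjOn_of_injOn_of_card_le _ hmaps hinj le_rfl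
  have hsum : c + v < Q := by
    by_contra hge
    have hmem : Q - v ∈ (Finset.Icc 1 c : Set ℕ) := by
      simp only [Finset.coe_Icc, Set.mem_Icc]
      omega
    obtain ⟨x, hx, hxv⟩ := hsurj hmem
    simp only [Finset.coe_Icc, Set.mem_Icc] at hx hxv
    have h2 : Q ∣ u * (x + 1) := by
      have h3 : u * (x + 1) ≡ 0 [MOD Q] := by
        rw [mul_add, mul_one]
        have h4 : u * x ≡ Q - v [MOD Q] := by
          unfold Nat.ModEq
          rw [hxv, Nat.mod_eq_of_lt (by omega)]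
        have h5 : u ≡ v [MOD Q] := (Nat.mod_modEq u Q).symm
        refine (h4.add h5).trans ?_
        rw [Nat.sub_add_cancel (by omega)]
        simp [Nat.ModEq]
      exact (Nat.modEq_zero_iff_dvd).mp h3
    have h3 : Q ∣ x + 1 := hcop.symm.dvd_of_dvd_mul_left h2
    have := Nat.le_of_dvd (by omega) h3
    omega
  by_contra hne
  have hv2 : 2 ≤ v := by omega
  have hx1 : c / v + 1 ≤ c := by
    have : c / v ≤ c / 2 := Nat.div_le_div_left hv2 (by norm_num)
    omega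
  have h2 := h (c / v + 1) (Nat.succ_pos _) hx1
  have hlow : c < v * (c / v + 1) := Nat.lt_mul_div_succ c (by omega)
  have hup : v * (c / v + 1) ≤ c + v := by
    have := Nat.mul_div_le c v
    rw [mul_add, mul_one]
    omega
  have hlt : v * (c / v + 1) < Q := lt_of_le_of_lt hup hsum
  have h3 : (u * (c / v + 1)) % Q = v * (c / v + 1) := by
    rw [Nat.mul_mod, ← hv, Nat.mod_eq_of_lt (show c / v + 1 < Q by omega),
      Nat.mod_eq_of_lt hlt]
  rw [h3] at h2
  exact absurd h2.2 (not_le.mpr hlow)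

end Pool.Agent.R376.GcdBinom
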