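import Mathlib
import Pool.Agent.R376.GcdBinom

namespace Pool.Agent.R376.GcdBinom

open Pool.Agent.R376.Lucas

theorem exists_case_zero {q k : ℕ} (hq : q.Prime) (hk : 2 ≤ k) (h1 : ¬ q ∣ k)
    (h2 : ¬ q ∣ k + 1) : ∃ i, 1 ≤ i ∧ i ≤ k ∧ ¬ q ∣ (k + i * k).choose k := by
  by_contra hno
  push Not at hno
  have hq1 := hq.one_lt
  obtain ⟨L, hL⟩ : ∃ L, Nat.log q k + 1 = L := ⟨_, rfl⟩
  have hlog1 : q ^ (L - 1) ≤ k := by
    rw [← hL, Nat.add_sub_cancel]; exact Nat.pow_log_le_self q (by omega)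
  have hlog2 : k < q ^ L := by
    rw [← hL]; exact Nat.lt_pow_succ_log_self hq1 k
  have hL1 : 1 ≤ L := by omega
  have hqL : q ∣ q ^ L := dvd_pow_self q (by omega)
  obtain ⟨u, hu⟩ := exists_u hq L k h1
  have hqu : ¬ q ∣ u := by
    intro hd
    exact not_dvd_one hq ((Nat.dvd_add_right (hd.mul_right k)).mp (hqL.trans hu))
  obtain ⟨C, hC⟩ : ∃ C, k + C + 1 = q ^ L := ⟨q ^ L - 1 - k, by omega⟩
  have hC0 : C ≠ 0 := by
    rintro rfl
    exact h2 (by rw [show k + 1 = q ^ L by omega]; exact hqL)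
  obtain ⟨t, ht⟩ : ∃ t, Nat.log q C = t := ⟨_, rfl⟩
  have ht1 : q ^ t ≤ C := by rw [← ht]; exact Nat.pow_log_le_self q hC0
  have ht2 : C < q ^ (t + 1) := by rw [← ht]; exact Nat.lt_pow_succ_log_self hq1 C
  have htL : t < L := by
    have : q ^ t < q ^ L := by omega
    exact (Nat.pow_lt_pow_iff_right hq1).mp this
  have htpos : 0 < q ^ t := Nat.pow_pos hq.pos
  obtain ⟨c, hc⟩ : ∃ c, C / q ^ t = c := ⟨_, rfl⟩
  have hc1 : 1 ≤ c := by rw [← hc]; exact Nat.div_pos ht1 htpos
  have hcq : c < q := by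
    rw [← hc]
    apply Nat.div_lt_of_lt_mul
    rwa [pow_succ] at ht2
  obtain ⟨f, hf⟩ : ∃ f, L = t + (f + 1) := ⟨L - t - 1, by omega⟩
  have hLt : q ^ L = q ^ t * (q * q ^ f) := by rw [hf, pow_add, pow_succ]; ring
  obtain ⟨Q, hQ⟩ : ∃ Q, q * q ^ f = Q := ⟨_, rfl⟩
  rw [hQ] at hLt
  have hqQ : q ≤ Q := by rw [← hQ]; exact Nat.le_mul_of_pos_right q (Nat.pow_pos hq.pos)
  have hqdQ : q ∣ Q := by rw [← hQ]; exact Dvd.intro _ rfl
  -- `k = q^t * D + k0`
  obtain ⟨D, hD⟩ : ∃ D, k / q ^ t = D := ⟨_, rfl⟩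
  obtain ⟨k0, hk0⟩ : ∃ k0, k % q ^ t = k0 := ⟨_, rfl⟩
  have hkdm : q ^ t * D + k0 = k := by rw [← hD, ← hk0]; exact Nat.div_add_mod k (q ^ t)
  have hk0lt : k0 < q ^ t := by rw [← hk0]; exact Nat.mod_lt _ htpos
  obtain ⟨C0, hC0'⟩ : ∃ C0, C % q ^ t = C0 := ⟨_, rfl⟩
  have hCdm : q ^ t * c + C0 = C := by rw [← hc, ← hC0']; exact Nat.div_add_mod C (q ^ t)
  have hC0lt : C0 < q ^ t := by rw [← hC0']; exact Nat.mod_lt _ htpos
  have hDc : D + c + 1 = Q := by
    have e1 : q ^ t * (D + c) + (k0 + C0 + 1) = q ^ t * Q := by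
      rw [← hLt, ← hC]
      have : q ^ t * (D + c) = q ^ t * D + q ^ t * c := by ring
      omega
    have h3 : q ^ t * (D + c) < q ^ t * Q := by omega
    have h4 := Nat.lt_of_mul_lt_mul_left h3
    have h5 : q ^ t * Q < q ^ t * (D + c + 2) := by
      have : q ^ t * (D + c + 2) = q ^ t * (D + c) + q ^ t + q ^ t := by ring
      omega
    have h6 := Nat.lt_of_mul_lt_mul_left h5
    omega
  have hD1 : 1 ≤ D := by
    rw [← hD]
    apply Nat.div_pos _ htpos
    exact (Nat.pow_le_pow_right hq.pos (by omega)).trans hlog1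
  -- the key property
  have hkey : ∀ x, 1 ≤ x → x ≤ c → 1 ≤ (u * x) % Q ∧ (u * x) % Q ≤ c := by
    intro x hx1 hxc
    constructor
    · rw [Nat.one_le_iff_ne_zero]
      intro h0
      have h3 : q ∣ u * x := hqdQ.trans (Nat.dvd_of_mod_eq_zero h0)
      rcases hq.dvd_mul.mp h3 with h4 | h4
      · exact hqu h4
      · have := Nat.le_of_dvd (by omega) h4
        omega
    · have hfree : ¬ q ∣ (k + x * q ^ t).choose k := by
        have h3 : ¬ q ∣ (D + x).choose D := by
          have hDm : D = q * (q ^ f - 1) + (q - 1 - c) := by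
            obtain ⟨g, hg⟩ : ∃ g, q ^ f = g + 1 := ⟨q ^ f - 1, by
              have : 0 < q ^ f := Nat.pow_pos hq.pos
              omega⟩
            rw [hg, Nat.add_sub_cancel]
            have : Q = q * g + q := by rw [← hQ, hg]; ring
            omega
          have hDx : D + x = q * (q ^ f - 1) + (q - 1 - c + x) := by omega
          apply not_dvd_choose_step hq
          · rw [hDx, hDm, Nat.mul_add_mod, Nat.mul_add_mod, Nat.mod_eq_of_lt (by omega),
              Nat.mod_eq_of_lt (by omega)]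
            omega
          · rw [hDx, hDm, Nat.mul_add_div hq.pos, Nat.mul_add_div hq.pos,
              Nat.div_eq_of_lt (by omega), Nat.div_eq_of_lt (by omega), Nat.choose_self]
            exact not_dvd_one hq
        have h4 := not_dvd_choose_split hq t (D + x) k0 D k0 hk0lt hk0lt h3
          (by rw [Nat.choose_self]; exact not_dvd_one hq)
        have e1 : q ^ t * (D + x) + k0 = k + x * q ^ t := by rw [← hkdm]; ring
        rwa [e1, hkdm] at h4
      have hxC : x * q ^ t ≤ q ^ t * c := by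
        rw [mul_comm]; exact Nat.mul_le_mul_left _ hxc
      have h3 := small_of_forall hq hlog2 hu hno (r := x * q ^ t) (by omega) hfree
      have h4 : (u * (x * q ^ t)) % q ^ L = q ^ t * ((u * x) % Q) := by
        rw [hLt, show u * (x * q ^ t) = q ^ t * (u * x) by ring, Nat.mul_mod_mul_left]
      rw [h4, hLt] at h3
      obtain ⟨w, hw⟩ : ∃ w, (u * x) % Q = w := ⟨_, rfl⟩
      rw [hw] at h3 ⊢
      have h5 : q ^ t * (w + D) < q ^ t * Q := by
        have : q ^ t * (w + D) = q ^ t * w + q ^ t * D := by ring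
        omega
      have h6 := Nat.lt_of_mul_lt_mul_left h5
      omega
  have hcop : Nat.Coprime u Q := by
    rw [← hQ, ← pow_succ']
    apply Nat.Coprime.pow_right
    rw [Nat.coprime_comm]
    exact (Nat.Prime.coprime_iff_not_dvd hq).mpr hqu
  have hone := unit_eq_one hc1 (by omega) hcop hkey
  -- `u ≡ 1 mod q` gives `q ∣ k + 1`
  apply h2
  have h3 : u ≡ 1 [MOD q] := by
    have h4 : u ≡ 1 [MOD Q] := by
      unfold Nat.ModEq
      rw [hone, Nat.mod_eq_of_lt (by omega)]
    exact h4.of_dvd hqdQ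
  have h5 : u * k + 1 ≡ 1 * k + 1 [MOD q] := (h3.mul_right k).add_right 1
  rw [one_mul] at h5
  exact (Nat.ModEq.dvd_iff h5 dvd_rfl).mp (hqL.trans hu)

theorem exists_case_dvd {q k : ℕ} (hq : q.Prime) (hk : 2 ≤ k) (h1 : q ∣ k) :
    ∃ i, 1 ≤ i ∧ i ≤ k ∧ ¬ q ∣ (k + i * k).choose k := by
  have hq1 := hq.one_lt
  obtain ⟨f, k', hk', hkk⟩ := Nat.exists_eq_pow_mul_and_not_dvd (n := k) (by omega) q hq.ne_one
  have hf : 1 ≤ f := by
    rcases Nat.eq_zero_or_pos f with h0 | h0
    · subst h0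
      rw [pow_zero, one_mul] at hkk
      rw [hkk] at h1
      exact absurd h1 hk'
    · exact h0
  have hk'0 : k' ≠ 0 := by
    rintro rfl
    exact hk' (dvd_zero _)
  obtain ⟨T, hT⟩ : ∃ T, Nat.log q k' = T := ⟨_, rfl⟩
  have hlog1 : q ^ T ≤ k' := by rw [← hT]; exact Nat.pow_log_le_self q hk'0
  have hlog2 : k' < q ^ (T + 1) := by rw [← hT]; exact Nat.lt_pow_succ_log_self hq1 k'
  refine ⟨q ^ (T + 1), Nat.one_le_pow _ _ hq.pos, ?_, ?_⟩
  · calc q ^ (T + 1) = q * q ^ T := by ring
      _ ≤ q ^ f * k' := Nat.mul_le_mul (Nat.le_self_pow (by omega) q) hlog1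
      _ = k := hkk.symm
  · have h2 := not_dvd_choose_split hq (T + 1) k' k' 0 k' hlog2 hlog2
      (by rw [Nat.choose_zero_right]; exact not_dvd_one hq)
      (by rw [Nat.choose_self]; exact not_dvd_one hq)
    rw [mul_zero, zero_add] at h2
    have h3 := not_dvd_choose_split hq f _ 0 _ 0 (Nat.pow_pos hq.pos) (Nat.pow_pos hq.pos) h2
      (by rw [Nat.choose_self]; exact not_dvd_one hq)
    rw [add_zero, add_zero] at h3
    have e : q ^ f * (q ^ (T + 1) * k' + k') = k + q ^ (T + 1) * k := by rw [hkk]; ring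
    rwa [e, ← hkk] at h3

/-- `G k` is the greatest common divisor of the binomial coefficients `(j k) choose k`,
`j = 2, 3, ..., k + 1`. -/
def G (k : ℕ) : ℕ := (Finset.Icc 2 (k + 1)).gcd (fun j => (j * k).choose k)

/-- `P k` is the largest prime-power divisor `p ^ e` of `k` with `p` prime and `p ^ e` the exact
power of `p` dividing `k`. -/
def P (k : ℕ) : ℕ := k.primeFactors.sup (fun p => p ^ k.factorization p)

theorem P_spec {n : ℕ} (hn : 2 ≤ n) :
    ∃ q e m : ℕ, q.Prime ∧ 1 ≤ e ∧ ¬ q ∣ m ∧ n = q ^ e * m ∧ P n = q ^ e := by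
  have hne : n.primeFactors.Nonempty := Nat.nonempty_primeFactors.mpr (by omega)
  obtain ⟨q, hq, hqP⟩ := Finset.exists_mem_eq_sup n.primeFactors hne
    (fun p => p ^ n.factorization p)
  have hqp := Nat.prime_of_mem_primeFactors hq
  have hqd := Nat.dvd_of_mem_primeFactors hq
  refine ⟨q, n.factorization q, n / q ^ n.factorization q, hqp, ?_, ?_, ?_, hqP⟩
  · exact (hqp.factorization_pos_of_dvd (by omega) hqd)
  · exact Nat.not_dvd_ordCompl hqp (by omega)
  · exact (Nat.ordProj_mul_ordCompl_eq_self n q).symm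

theorem le_P {n q e m : ℕ} (hn : n ≠ 0) (hq : q.Prime) (he : 1 ≤ e) (hqm : ¬ q ∣ m)
    (h : n = q ^ e * m) : q ^ e ≤ P n := by
  have hf : n.factorization q = e := by
    rw [h, Nat.factorization_mul (Nat.pow_pos hq.pos).ne' (by rintro rfl; simp at hqm)]
    simp [hq.factorization, Nat.factorization_eq_zero_of_not_dvd hqm]
  have hmem : q ∈ n.primeFactors := by
    rw [Nat.mem_primeFactors]
    refine ⟨hq, ?_, hn⟩
    rw [h]
    exact (dvd_pow_self q (by omega)).mul_right m
  have := Finset.le_sup (f := fun p => p ^ n.factorization p) hmem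
  simp only [hf] at this
  exact this

/-- Main theorem: for `k ≥ 2`, `G k = 1` iff `(k + 1) / P (k + 1) > P (k + 1)`. -/
theorem main (k : ℕ) (hk : 2 ≤ k) : G k = 1 ↔ (k + 1) / P (k + 1) > P (k + 1) := by
  constructor
  · intro hG
    by_contra hle
    push Not at hle
    obtain ⟨q, e, m, hq, he, hqm, hn, hP⟩ := P_spec (n := k + 1) (by omega)
    have hqe : 0 < q ^ e := Nat.pow_pos hq.pos
    rw [hP, hn, Nat.mul_div_cancel_left _ hqe] at hle
    have hm : 1 ≤ m := by
      rcases Nat.eq_zero_or_pos m with h0 | h0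
      · subst h0; simp at hqm
      · exact h0
    have hk' : k = q ^ e * m - 1 := by omega
    have hd : q ∣ G k := by
      apply Finset.dvd_gcd
      intro j hj
      rw [Finset.mem_Icc] at hj
      have := dvd_all hq he hle (j - 1) (by omega) (by omega) hm
      rw [Nat.sub_add_cancel (by omega), ← hk'] at this
      exact this
    rw [hG] at hd
    exact not_dvd_one hq hd
  · intro hlt
    by_contra hne
    obtain ⟨q, hq, hd⟩ := Nat.exists_prime_and_dvd hne
    have hall : ∀ i, 1 ≤ i → i ≤ k → q ∣ (k + i * k).choose k := by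
      intro i hi1 hik
      have h1 : G k ∣ ((i + 1) * k).choose k :=
        Finset.gcd_dvd (by rw [Finset.mem_Icc]; omega)
      have := hd.trans h1
      rwa [show (i + 1) * k = k + i * k by ring] at this
    have key : ∃ i, 1 ≤ i ∧ i ≤ k ∧ ¬ q ∣ (k + i * k).choose k := by
      by_cases h1 : q ∣ k + 1
      · obtain ⟨e, m, hqm, hn⟩ := Nat.exists_eq_pow_mul_and_not_dvd (n := k + 1) (by omega) q
          hq.ne_one
        have he : 1 ≤ e := by
          rcases Nat.eq_zero_or_pos e with h0 | h0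
          · subst h0
            rw [pow_zero, one_mul] at hn
            rw [hn] at h1
            exact absurd h1 hqm
          · exact h0
        have hqe : 0 < q ^ e := Nat.pow_pos hq.pos
        have hleP := le_P (by omega) hq he hqm hn
        have hm : q ^ e < m := by
          have h2 : (k + 1) / P (k + 1) ≤ (k + 1) / q ^ e := Nat.div_le_div_left hleP hqe
          rw [hn, Nat.mul_div_cancel_left _ hqe, ← hn] at h2
          omega
        obtain ⟨i, hi1, him, hi⟩ := exists_case_pos hq he hqm hm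
        have hk' : q ^ e * m - 1 = k := by omega
        rw [hk'] at hi
        have hkm : k = q ^ e * (m - 1) + (q ^ e - 1) := by
          obtain ⟨m', rfl⟩ : ∃ m', m = m' + 1 := ⟨m - 1, by omega⟩
          have : q ^ e * (m' + 1) = q ^ e * m' + q ^ e := by ring
          rw [Nat.add_sub_cancel]
          omega
        refine ⟨q ^ e * i, Nat.mul_pos hqe hi1, ?_, ?_⟩
        · have : q ^ e * i ≤ q ^ e * (m - 1) := Nat.mul_le_mul_left _ him
          omega
        · have h2 := not_dvd_choose_split hq e _ (q ^ e - 1) _ (q ^ e - 1) (by omega) (by omega) hi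
            (by rw [Nat.choose_self]; exact not_dvd_one hq)
          have e1 : q ^ e * (m - 1 + i * k) + (q ^ e - 1) = k + q ^ e * i * k := by
            have : q ^ e * (m - 1 + i * k) = q ^ e * (m - 1) + q ^ e * i * k := by ring
            omega
          rwa [e1, ← hkm] at h2
      · by_cases h2 : q ∣ k
        · exact exists_case_dvd hq hk h2
        · exact exists_case_zero hq hk h2 h1
    obtain ⟨i, hi1, hik, hi⟩ := key
    exact hi (hall i hi1 hik)

end Pool.Agent.R376.GcdBinom
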