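import Mathlib

namespace Pool.Agent.R376.KSets

/-- `K c` is the set of positive integers `k` such that `n` divides the binomial coefficient
`n.choose (k - c * n)` for every integer `n` with `k / (c + 1) ≤ n ≤ k / c`. -/
def K (c : ℕ) : Set ℕ :=
  {k | 0 < k ∧ ∀ n : ℕ, k ≤ (c + 1) * n → c * n ≤ k → n ∣ n.choose (k - c * n)}

/-- A Fermat prime: a prime of the form `2 ^ (2 ^ m) + 1`. -/
def IsFermatPrime (q : ℕ) : Prop := q.Prime ∧ ∃ m : ℕ, q = 2 ^ (2 ^ m) + 1

/-- The set of the doubles of the Fermat primes larger than `3`. -/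
def S : Set ℕ := {k | ∃ q : ℕ, IsFermatPrime q ∧ 3 < q ∧ k = 2 * q}

end Pool.Agent.R376.KSets
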