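import Mathlib
import Pool.Agent.H437R2.Man.MWCan
import Pool.Agent.H64R2.DC_MW

/-!
# The approximate parallelogram law and the canonical height for `y² = x³ + A x + B`

Adapted from `Pool/Agent/H437R2/Man/MWPar.lean` (curves with rational points of order two).
-/

set_option autoImplicit false

open WeierstrassCurve Height

namespace Pool.Agent.R376.Ner

variable {K : Type} [Field K]

/-- The curve `y^2 = x^3 + A x + B`. -/
def cv (A B : K) : WeierstrassCurve K := { a₁ := 0, a₂ := 0, a₃ := 0, a₄ := A, a₆ := B }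

lemma cv_Δ (A B : K) : (cv A B).Δ = -16 * (4 * A ^ 3 + 27 * B ^ 2) := by
  simp only [WeierstrassCurve.Δ, WeierstrassCurve.b₂, WeierstrassCurve.b₄, WeierstrassCurve.b₆,
    WeierstrassCurve.b₈, cv]
  ring

lemma cv_ell [CharZero K] {A B : K} (h : 4 * A ^ 3 + 27 * B ^ 2 ≠ 0) : (cv A B).IsElliptic := by
  refine ⟨?_⟩
  rw [cv_Δ, isUnit_iff_ne_zero]
  exact mul_ne_zero (by norm_num) h

/-- The affine points. -/
abbrev Pt (A B : K) : Type := (cv A B).toAffine.Point

lemma cv_eqn {A B x y : K} :
    (cv A B).toAffine.Equation x y ↔ y ^ 2 = x ^ 3 + A * x + B := by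
  rw [WeierstrassCurve.Affine.equation_iff]
  simp only [cv]
  constructor <;> intro h <;> linear_combination h

lemma cv_nonsing [CharZero K] {A B x y : K} (hd : 4 * A ^ 3 + 27 * B ^ 2 ≠ 0)
    (h : y ^ 2 = x ^ 3 + A * x + B) :
    (cv A B).toAffine.Nonsingular x y := by
  have := cv_ell hd
  exact WeierstrassCurve.Affine.equation_iff_nonsingular.mp (cv_eqn.mpr h)

/-- numerator of `x(P+Q)` where `s = y1*y2` -/
def numr (A B x1 x2 s : K) : K :=
  x1 * x2 * (x1 + x2) + A * (x1 + x2) + 2 * B - 2 * s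

section dec

variable [DecidableEq K]

lemma neg_mk {A B x y : K} (h : (cv A B).toAffine.Nonsingular x y)
    (h' : (cv A B).toAffine.Nonsingular x (-y)) :
    -(Affine.Point.some x y h) = (Affine.Point.some x (-y) h') := by
  rw [Affine.Point.neg_some]
  congr 1
  simp [Affine.negY, cv]

lemma xRep_add {A B x1 y1 x2 y2 : K} (h1 : (cv A B).toAffine.Nonsingular x1 y1)
    (h2 : (cv A B).toAffine.Nonsingular x2 y2) (hx : x1 ≠ x2) :
    (Affine.Point.some x1 y1 h1 + Affine.Point.some x2 y2 h2).xRep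
      = ![numr A B x1 x2 (y1 * y2) / (x1 - x2) ^ 2, 1] := by
  rw [Affine.Point.add_of_X_ne hx, Affine.Point.xRep_some]
  congr 1
  rw [Affine.slope_of_X_ne hx, Affine.addX]
  have e1' := cv_eqn.mp h1.1
  have e2' := cv_eqn.mp h2.1
  have hx' : x1 - x2 ≠ 0 := sub_ne_zero.mpr hx
  simp only [cv, numr]
  field_simp
  ring_nf
  ring_nf at e1' e2'
  linear_combination e1' + e2'

lemma eval_addSub (A B s t u : K) :
    (fun i ↦ (addSubMap (cv A B) i).eval ![s, t, u])
      = ![s ^ 2 - 2 * A * s * u - 4 * B * t * u + A ^ 2 * u ^ 2,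
          2 * t * s + 2 * A * t * u + 4 * B * u ^ 2,
          t ^ 2 - 4 * s * u] := by
  funext i
  fin_cases i
  · simp only [addSubMap, WeierstrassCurve.b₂, WeierstrassCurve.b₄, WeierstrassCurve.b₆,
      WeierstrassCurve.b₈, cv]
    simp
    try ring
  · simp only [addSubMap, WeierstrassCurve.b₂, WeierstrassCurve.b₄, WeierstrassCurve.b₆,
      WeierstrassCurve.b₈, cv]
    simp
    try ring
  · simp only [addSubMap, WeierstrassCurve.b₂, WeierstrassCurve.b₄, WeierstrassCurve.b₆,
      WeierstrassCurve.b₈, cv]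
    simp

variable [CharZero K]

lemma xRep_double {A B x y : K} (h : (cv A B).toAffine.Nonsingular x y) (hy : y ≠ 0) :
    (Affine.Point.some x y h + Affine.Point.some x y h).xRep
      = ![(x ^ 4 - 2 * A * x ^ 2 - 8 * B * x + A ^ 2) / (4 * y ^ 2), 1] := by
  have hy' : y ≠ (cv A B).toAffine.negY x y := by
    simp only [Affine.negY, cv]
    intro hh
    apply hy
    have h2 : (2 : K) * y = 0 := by linear_combination hh
    rcases mul_eq_zero.mp h2 with h3 | h3
    · norm_num at h3
    · exact h3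
  rw [Affine.Point.add_self_of_Y_ne hy', Affine.Point.xRep_some]
  congr 1
  rw [Affine.slope_of_Y_ne rfl hy', Affine.addX]
  have e' := cv_eqn.mp h.1
  have h4 : y ^ 2 * 4 ≠ 0 := mul_ne_zero (pow_ne_zero _ hy) (by norm_num)
  simp only [cv, Affine.negY]
  have e3' : y - (-y - 0 * x - 0) = 2 * y := by ring
  rw [e3']
  field_simp
  ring_nf
  ring_nf at e'
  linear_combination (-32 * x) * e'

/-- the addition-subtraction map does what it should. -/
lemma addSub_sym2x {A B : K} (hd : 4 * A ^ 3 + 27 * B ^ 2 ≠ 0)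
    (P Q : Pt A B) :
    ∃ c : K, c ≠ 0 ∧ (fun i ↦ (addSubMap (cv A B) i).eval (P.sym2x Q))
      = c • (P + Q).sym2x (P - Q) := by
  match P, Q with
  | 0, 0 =>
    refine ⟨1, one_ne_zero, ?_⟩
    rw [Affine.Point.sym2x_zero_zero, eval_addSub]
    simp
  | 0, .some x y h =>
    refine ⟨1, one_ne_zero, ?_⟩
    rw [Affine.Point.sym2x_zero_some, eval_addSub, zero_add, zero_sub, Affine.Point.sym2x_neg_right,
      Affine.Point.sym2x_some_some]
    simp only [one_smul]
    ext i
    fin_cases i <;> simp <;> ring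
  | .some x y h, 0 =>
    refine ⟨1, one_ne_zero, ?_⟩
    rw [Affine.Point.sym2x_some_zero, eval_addSub, add_zero, sub_zero,
      Affine.Point.sym2x_some_some]
    simp only [one_smul]
    ext i
    fin_cases i <;> simp <;> ring
  | .some x1 y1 h1, .some x2 y2 h2 =>
    have q1 := cv_eqn.mp h1.1
    have q2 := cv_eqn.mp h2.1
    by_cases hx : x1 = x2
    · subst hx
      -- P = ± Q
      have hyy : y1 = y2 ∨ y1 = -y2 := by
        apply sq_eq_sq_iff_eq_or_eq_neg.mp
        rw [q1, q2]
      have main : ∀ (y : K) (h : (cv A B).toAffine.Nonsingular x1 y),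
          ∃ c : K, c ≠ 0 ∧ (fun i ↦ (addSubMap (cv A B) i).eval
            ((Affine.Point.some x1 y h : Pt A B).sym2x (Affine.Point.some x1 y h)))
            = c • ((Affine.Point.some x1 y h : Pt A B) + Affine.Point.some x1 y h).sym2x 0 := by
        intro y h
        have q := cv_eqn.mp h.1
        by_cases hy : y = 0
        · subst hy
          have hneg : (Affine.Point.some x1 0 h : Pt A B) + Affine.Point.some x1 0 h = 0 := by
            apply Affine.Point.add_self_of_Y_eq
            simp [Affine.negY, cv]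
          rw [hneg, Affine.Point.sym2x_zero_zero, Affine.Point.sym2x_some_some, eval_addSub]
          have hq : x1 ^ 3 + A * x1 + B = 0 := by rw [← q]; ring
          refine ⟨x1 ^ 4 - 2 * A * x1 ^ 2 - 8 * B * x1 + A ^ 2, ?_, ?_⟩
          · have e1 : x1 ^ 4 - 2 * A * x1 ^ 2 - 8 * B * x1 + A ^ 2 = (3 * x1 ^ 2 + A) ^ 2 := by
              linear_combination (-8 * x1) * hq
            rw [e1]
            refine pow_ne_zero _ fun h3 => hd ?_
            have hB : B = -x1 ^ 3 - A * x1 := by linear_combination hq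
            have hA : A = -3 * x1 ^ 2 := by linear_combination h3
            rw [hB, hA]
            ring
          · ext i
            fin_cases i
            · simp
              ring
            · simp
              linear_combination 4 * hq
            · simp
              ring
        · have hd := xRep_double h hy
          have hy4 : 4 * y ^ 2 ≠ 0 := mul_ne_zero (by norm_num) (pow_ne_zero _ hy)
          refine ⟨4 * y ^ 2, hy4, ?_⟩
          rw [Affine.Point.sym2x_some_some, eval_addSub]
          ext i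
          fin_cases i
          · simp [Affine.Point.sym2x, hd]
            field_simp
            ring
          · simp [Affine.Point.sym2x, hd]
            linear_combination (-4) * q
          · simp [Affine.Point.sym2x, hd]
            ring
      rcases hyy with hyy | hyy
      · subst hyy
        have := main y1 h1
        rwa [sub_self]
      · subst hyy
        have hne : (Affine.Point.some x1 (-y2) h1 : Pt A B) = -Affine.Point.some x1 y2 h2 := by
          rw [neg_mk]
        rw [hne]
        rw [Affine.Point.sym2x_neg_left, neg_add_cancel, Affine.Point.sym2x_comm 0, ← neg_add',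
          Affine.Point.sym2x_neg_left]
        exact main y2 h2
    · have hx' : x1 - x2 ≠ 0 := sub_ne_zero.mpr hx
      have h2' : (cv A B).toAffine.Nonsingular x2 (-y2) := by
        apply cv_nonsing hd
        rw [← q2]; ring
      have ha := xRep_add h1 h2 hx
      have hb := xRep_add h1 h2' hx
      rw [← neg_mk h2 h2', ← sub_eq_add_neg] at hb
      refine ⟨(x1 - x2) ^ 2, pow_ne_zero _ hx', ?_⟩
      rw [Affine.Point.sym2x_some_some, eval_addSub]
      ext i
      fin_cases i
      · simp [Affine.Point.sym2x, ha, hb, numr]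
        field_simp
        linear_combination 4 * y2 ^ 2 * q1 + 4 * (x1 ^ 3 + A * x1 + B) * q2
      · simp [Affine.Point.sym2x, ha, hb, numr]
        field_simp
        ring
      · simp [Affine.Point.sym2x, ha, hb, numr]
        ring

end dec

/-- naive height -/
noncomputable def ht [NumberField K] {A B : K} (P : Pt A B) : ℝ := logHeight P.xRep

variable [NumberField K]

lemma ht_nonneg {A B : K} (P : Pt A B) : 0 ≤ ht P := logHeight_nonneg _

lemma ht_zero {A B : K} : ht (0 : Pt A B) = 0 := by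
  rw [ht, Affine.Point.xRep_zero, logHeight_swap, ← logHeight₁_eq_logHeight, logHeight₁_zero]

lemma ht_some {A B x y : K} (h : (cv A B).toAffine.Nonsingular x y) :
    ht (Affine.Point.some x y h : Pt A B) = logHeight₁ x := by
  rw [ht, Affine.Point.xRep_some, ← logHeight₁_eq_logHeight]

lemma sym2x_height (A B : K) : ∃ C : ℝ, ∀ P Q : Pt A B,
    |logHeight (P.sym2x Q) - (ht P + ht Q)| ≤ C := by
  obtain ⟨C, hC⟩ := abs_logHeight_sym2_sub_le K
  refine ⟨C, fun P Q ↦ ?_⟩
  have hP : P.xRep = ![P.xRep 0, P.xRep 1] := by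
    ext i; fin_cases i <;> simp
  have hQ : Q.xRep = ![Q.xRep 0, Q.xRep 1] := by
    ext i; fin_cases i <;> simp
  have hP0 : ![P.xRep 0, P.xRep 1] ≠ 0 := by rw [← hP]; exact P.xRep_ne_zero
  have hQ0 : ![Q.xRep 0, Q.xRep 1] ≠ 0 := by rw [← hQ]; exact Q.xRep_ne_zero
  have := hC hP0 hQ0
  rw [← hP, ← hQ] at this
  exact this

/-- approximate parallelogram law for the naive height -/
theorem par_law [DecidableEq K] {A B : K} (hd : 4 * A ^ 3 + 27 * B ^ 2 ≠ 0) :
    ∃ C : ℝ, 0 ≤ C ∧ ∀ P Q : Pt A B,
      |ht (P + Q) + ht (P - Q) - 2 * (ht P + ht Q)| ≤ C := by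
  have := cv_ell hd
  obtain ⟨C1, hC1⟩ := sym2x_height A B
  obtain ⟨C2, hC2⟩ := WeierstrassCurve.abs_logHeight_addSubMap_sub_two_mul_logHeight_le (cv A B)
  have key : ∀ P Q : Pt A B,
      |ht (P + Q) + ht (P - Q) - 2 * (ht P + ht Q)| ≤ 3 * C1 + C2 := by
    intro P Q
    have a1 := hC1 P Q
    have a2 := hC1 (P + Q) (P - Q)
    have a3 := hC2 (P.sym2x Q)
    obtain ⟨c, hc, hceq⟩ := addSub_sym2x hd P Q
    rw [hceq, logHeight_smul_eq_logHeight _ hc] at a3
    rw [abs_le] at a1 a2 a3 ⊢
    constructor <;> linarith [a1.1, a1.2, a2.1, a2.2, a3.1, a3.2]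
  refine ⟨3 * C1 + C2, le_trans (abs_nonneg _) (key 0 0), key⟩

lemma finite_ht {A B : K} (T : ℝ) : {P : Pt A B | ht P ≤ T}.Finite := by
  classical
  have hfin := NumberField.finite_setOfPred_logHeight₁_le (K := K) T
  -- the map P ↦ xRep has finite fibres
  have h1 : ((fun P : Pt A B => P.xRep) '' {P : Pt A B | ht P ≤ T}).Finite := by
    apply Set.Finite.subset ((hfin.image (fun x : K => ![x, 1])).union (Set.finite_singleton ![1, 0]))
    rintro _ ⟨P, hP, rfl⟩
    match P, hP with
    | 0, _ => right; simp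
    | .some x y h, hP =>
      left
      refine ⟨x, ?_, by simp⟩
      simp only [Set.mem_ofPred_eq, ht, Affine.Point.xRep_some] at hP
      simp only [Set.mem_ofPred_eq]
      rw [logHeight₁_eq_logHeight]
      exact hP
  apply Set.Finite.of_finite_fibers _ h1
  intro v _
  by_cases hv : ∃ P : Pt A B, P.xRep = v
  · obtain ⟨P, rfl⟩ := hv
    apply Set.Finite.subset (s := {P, -P}) (by simp)
    intro Q hQ
    have : Q.xRep = P.xRep := hQ.2
    rcases Affine.Point.eq_or_eq_neg_of_xRep_eq_xRep this with h | h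
    · left; exact h
    · right; exact h
  · apply Set.Finite.subset (Set.finite_empty)
    intro Q hQ
    exact absurd ⟨Q, hQ.2⟩ hv

/-- The canonical height over `ℚ`: a homomorphism to a Euclidean space whose squared norm is at
bounded distance from the naive height. -/
theorem exists_embed (a b : ℤ) (hd : 4 * a ^ 3 + 27 * b ^ 2 ≠ 0) :
    AddGroup.FG (Pt (a : ℚ) (b : ℚ)) ∧
    ∃ (n : ℕ) (ψ : Pt (a : ℚ) (b : ℚ) →+ EuclideanSpace ℝ (Fin n)) (C : ℝ), 0 ≤ C ∧
      ∀ P : Pt (a : ℚ) (b : ℚ), |‖ψ P‖ ^ 2 - ht P| ≤ C := by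
  have hfg : AddGroup.FG (Pt (a : ℚ) (b : ℚ)) := Pool.Agent.H64R2.DCMW.mw a b hd
  have hd' : 4 * (a : ℚ) ^ 3 + 27 * (b : ℚ) ^ 2 ≠ 0 := by exact_mod_cast hd
  obtain ⟨C, hC0, hC⟩ := par_law hd'
  obtain ⟨q, C', hq1, hq2, hq3⟩ := Pool.Agent.H437R2.Man.MW.canon
    (fun P : Pt (a : ℚ) (b : ℚ) => ht P) C (fun P => ht_nonneg P) hC
  obtain ⟨n, ψ, hψ⟩ := Pool.Agent.H437R2.Man.MW.embed hfg q hq2 hq3
  exact ⟨hfg, n, ψ, C', (abs_nonneg _).trans (hq1 0), fun P => by rw [hψ P]; exact hq1 P⟩

end Pool.Agent.R376.Ner
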