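import Mathlib

/-!
# Counting the elements of a finitely generated group by a quadratic height
-/

set_option autoImplicit false

open Filter Topology Module MeasureTheory

namespace Pool.Agent.R376.Ner

/-- lattice points in balls -/
theorem lattice_count {E : Type} [NormedAddCommGroup E] [InnerProductSpace ℝ E]
    [FiniteDimensional ℝ E] [MeasurableSpace E] [BorelSpace E]
    (L : Submodule ℤ E) [DiscreteTopology L] [IsZLattice ℝ L] :
    ∃ κ : ℝ, 0 < κ ∧ Tendsto (fun T : ℝ =>
      (Nat.card {v : L // ‖(v : E)‖ ^ 2 ≤ T} : ℝ) / T ^ ((finrank ℝ E : ℝ) / 2)) atTop (𝓝 κ) := by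
  rcases subsingleton_or_nontrivial E with hE | hE
  · refine ⟨1, one_pos, ?_⟩
    have h0 : finrank ℝ E = 0 := finrank_zero_of_subsingleton
    refine Tendsto.congr' ?_ tendsto_const_nhds
    filter_upwards [eventually_ge_atTop (0 : ℝ)] with T hT
    rw [h0]
    have h1 : Nat.card {v : L // ‖(v : E)‖ ^ 2 ≤ T} = 1 := by
      rw [Nat.card_eq_one_iff_unique]
      refine ⟨⟨fun x y => Subtype.ext (Subtype.ext (Subsingleton.elim _ _))⟩, ⟨⟨0, ?_⟩⟩⟩
      simpa using hT
    rw [h1]
    simp
  · set r := finrank ℝ E with hr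
    have hrpos : 0 < r := finrank_pos
    have h := ZLattice.covolume.tendsto_card_le_div' L (X := Set.univ) (F := fun x => ‖x‖ ^ r)
      (fun x r _ _ => Set.mem_univ _)
      (fun x c hc => by rw [norm_smul, Real.norm_of_nonneg hc, mul_pow]) ?_ ?_ ?_
    · set κ := volume.real {x ∈ (Set.univ : Set E) | ‖x‖ ^ r ≤ 1} / ZLattice.covolume L with hκ
      have hset : {x ∈ (Set.univ : Set E) | ‖x‖ ^ r ≤ 1} = Metric.closedBall 0 1 := by
        ext x
        simp only [Set.mem_univ, true_and, Set.mem_ofPred_eq, mem_closedBall_zero_iff]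
        exact pow_le_one_iff_of_nonneg (norm_nonneg _) hrpos.ne'
      have hκ0 : 0 < κ := by
        rw [hκ, hset]
        refine div_pos ?_ (ZLattice.covolume_pos L)
        rw [Measure.real]
        exact ENNReal.toReal_pos (Metric.measure_closedBall_pos _ _ one_pos).ne'
          measure_closedBall_lt_top.ne
      refine ⟨κ, hκ0, ?_⟩
      have hT : Tendsto (fun T : ℝ => T ^ ((r : ℝ) / 2)) atTop atTop :=
        tendsto_rpow_atTop (by positivity)
      refine (h.comp hT).congr' ?_
      filter_upwards [eventually_gt_atTop (0 : ℝ)] with T hT0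
      simp only [Function.comp_apply]
      congr 2
      refine Nat.card_congr ?_
      have hiff : ∀ x : E, ‖x‖ ^ r ≤ T ^ ((r : ℝ) / 2) ↔ ‖x‖ ^ 2 ≤ T := by
        intro x
        have e1 : ‖x‖ ^ r = (‖x‖ ^ 2) ^ ((r : ℝ) / 2) := by
          rw [← Real.rpow_natCast (‖x‖) 2, ← Real.rpow_mul (norm_nonneg _), ← Real.rpow_natCast]
          congr 1
          push_cast
          ring
        rw [e1, Real.rpow_le_rpow_iff (by positivity) hT0.le (by positivity)]
      exact
        { toFun := fun x => ⟨⟨x.1, x.2.2⟩, (hiff _).1 x.2.1.2⟩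
          invFun := fun v => ⟨v.1.1, ⟨Set.mem_univ _, (hiff _).2 v.2⟩, v.1.2⟩
          left_inv := fun x => rfl
          right_inv := fun v => rfl }
    · have hset : {x ∈ (Set.univ : Set E) | ‖x‖ ^ r ≤ 1} = Metric.closedBall 0 1 := by
        ext x
        simp only [Set.mem_univ, true_and, Set.mem_ofPred_eq, mem_closedBall_zero_iff]
        exact pow_le_one_iff_of_nonneg (norm_nonneg _) hrpos.ne'
      rw [hset]
      exact Metric.isBounded_closedBall
    · have hset : {x ∈ (Set.univ : Set E) | ‖x‖ ^ r ≤ 1} = Metric.closedBall 0 1 := by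
        ext x
        simp only [Set.mem_univ, true_and, Set.mem_ofPred_eq, mem_closedBall_zero_iff]
        exact pow_le_one_iff_of_nonneg (norm_nonneg _) hrpos.ne'
      rw [hset]
      exact measurableSet_closedBall
    · have hset : {x ∈ (Set.univ : Set E) | ‖x‖ ^ r ≤ 1} = Metric.closedBall 0 1 := by
        ext x
        simp only [Set.mem_univ, true_and, Set.mem_ofPred_eq, mem_closedBall_zero_iff]
        exact pow_le_one_iff_of_nonneg (norm_nonneg _) hrpos.ne'
      rw [hset, frontier_closedBall _ one_ne_zero]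
      exact Measure.addHaar_sphere _ _ _

/-- The number of elements of bounded norm in a finitely generated group mapped to a Euclidean
space with finite preimages of balls. -/
theorem group_count {A : Type} [AddCommGroup A] (hA : AddGroup.FG A) {n : ℕ}
    (ψ : A →+ EuclideanSpace ℝ (Fin n)) (hfin : ∀ T : ℝ, {P : A | ‖ψ P‖ ^ 2 ≤ T}.Finite) :
    ∃ κ : ℝ, 0 < κ ∧ Tendsto (fun T : ℝ =>
      (Nat.card {P : A // ‖ψ P‖ ^ 2 ≤ T} : ℝ) / T ^ ((finrank ℤ A : ℝ) / 2)) atTop (𝓝 κ) := by
  classical
  have hmf : Module.Finite ℤ A := Module.Finite.iff_addGroup_fg.mpr hA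
  -- the span of the image
  set V : Submodule ℝ (EuclideanSpace ℝ (Fin n)) := Submodule.span ℝ (Set.range ψ) with hV
  let φ : A →+ V := AddMonoidHom.codRestrict ψ V.toAddSubgroup
    (fun P => Submodule.subset_span ⟨P, rfl⟩)
  have hφ : ∀ P, ((φ P : V) : EuclideanSpace ℝ (Fin n)) = ψ P := fun P => rfl
  have hφn : ∀ P, ‖φ P‖ = ‖ψ P‖ := fun P => rfl
  let L : Submodule ℤ V := LinearMap.range φ.toIntLinearMap
  have hLmem : ∀ v : V, v ∈ L ↔ ∃ P, φ P = v := fun v => Iff.rfl
  -- finiteness of bounded sets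
  have hfinL : ∀ T : ℝ, {v : L | ‖(v : V)‖ ^ 2 ≤ T}.Finite := by
    intro T
    have h1 : ((fun P : A => (⟨φ P, P, rfl⟩ : L)) '' {P : A | ‖ψ P‖ ^ 2 ≤ T}).Finite :=
      (hfin T).image _
    refine h1.subset ?_
    rintro ⟨v, P, rfl⟩ hv
    exact ⟨P, hv, rfl⟩
  have hdisc : DiscreteTopology L := by
    rw [discreteTopology_iff_isOpen_singleton_zero, Metric.isOpen_singleton_iff]
    have h1 := hfinL 1
    set S : Set L := {v : L | ‖(v : V)‖ ^ 2 ≤ 1} \ {0} with hS
    have hSf : S.Finite := h1.subset Set.sdiff_subset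
    have hpos : ∀ v ∈ S, 0 < ‖(v : V)‖ := by
      intro v hv
      rw [norm_pos_iff]
      intro h0
      exact hv.2 (Subtype.ext h0)
    obtain ⟨ε, hε, hεS⟩ : ∃ ε : ℝ, 0 < ε ∧ ∀ v ∈ S, ε ≤ ‖(v : V)‖ := by
      rcases S.eq_empty_or_nonempty with h0 | h0
      · exact ⟨1, one_pos, fun v hv => absurd hv (by rw [h0]; exact Set.notMem_empty v)⟩
      · obtain ⟨v0, hv0, hmin⟩ := Set.exists_min_image S (fun v => ‖(v : V)‖) hSf h0
        exact ⟨‖(v0 : V)‖, hpos v0 hv0, fun v hv => hmin v hv⟩
    refine ⟨min ε 1, by positivity, fun y hy => ?_⟩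
    by_contra hne
    have hn : ‖(y : V)‖ < min ε 1 := by
      have h2 : dist y 0 = ‖(y : V)‖ := by
        rw [dist_zero_right]
        rfl
      rwa [h2] at hy
    have h3 : y ∈ S := by
      refine ⟨?_, hne⟩
      have h4 : ‖(y : V)‖ ≤ 1 := (hn.trans_le (min_le_right _ _)).le
      show ‖(y : V)‖ ^ 2 ≤ 1
      exact pow_le_one₀ (norm_nonneg _) h4
    have h5 := hεS y h3
    have h6 := hn.trans_le (min_le_left _ _)
    linarith
  have hspan : IsZLattice ℝ L := by
    refine ⟨?_⟩
    rw [eq_top_iff]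
    rintro ⟨v, hv⟩ -
    have h1 : ∀ w : EuclideanSpace ℝ (Fin n), ∀ hw : w ∈ Submodule.span ℝ (Set.range ψ),
        (⟨w, hw⟩ : V) ∈ Submodule.span ℝ (L : Set V) := by
      intro w hw
      induction hw using Submodule.span_induction with
      | mem x hx =>
        obtain ⟨P, rfl⟩ := hx
        exact Submodule.subset_span ⟨P, rfl⟩
      | zero => exact Submodule.zero_mem _
      | add x y hx hy h1 h2 => exact Submodule.add_mem _ h1 h2
      | smul c x hx h1 => exact Submodule.smul_mem _ c h1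
    exact h1 v hv
  -- the kernel
  let f : A →ₗ[ℤ] L := φ.toIntLinearMap.rangeRestrict
  have hfs : Function.Surjective f := LinearMap.surjective_rangeRestrict _
  have hkerfin : Finite (LinearMap.ker f) := by
    have h1 := hfin 0
    refine Set.Finite.subset h1 ?_
    intro P hP
    have h2 : f P = 0 := hP
    have h3 : ψ P = 0 := by
      have := congrArg (fun v : L => ((v : V) : EuclideanSpace ℝ (Fin n))) h2
      exact this
    show ‖ψ P‖ ^ 2 ≤ 0
    rw [h3]
    simp
  have hrank : finrank ℤ A = finrank ℝ V := by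
    rw [← ZLattice.rank ℝ L]
    have h1 := Submodule.finrank_quotient_add_finrank (LinearMap.ker f)
    have h2 : finrank ℤ (LinearMap.ker f) = 0 := by
      have : Module.IsTorsion ℤ (LinearMap.ker f) := by
        intro x
        have := isOfFinAddOrder_of_finite x
        rw [isOfFinAddOrder_iff_nsmul_eq_zero] at this
        obtain ⟨m, hm, hx⟩ := this
        refine ⟨⟨(m : ℤ), mem_nonZeroDivisors_of_ne_zero (by exact_mod_cast hm.ne')⟩, ?_⟩
        show (m : ℤ) • x = 0
        rw [natCast_zsmul]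
        exact hx
      exact Module.finrank_eq_zero_iff_isTorsion.mpr this
    rw [h2, add_zero] at h1
    rw [← h1]
    exact LinearEquiv.finrank_eq (LinearMap.quotKerEquivOfSurjective f hfs)
  obtain ⟨κ, hκ, hlim⟩ := lattice_count L
  rw [← hrank] at hlim
  set k : ℕ := Nat.card (LinearMap.ker f) with hk
  have hk0 : 0 < k := Nat.card_pos
  refine ⟨k * κ, by positivity, ?_⟩
  refine (hlim.const_mul (k : ℝ)).congr fun T => ?_
  rw [← mul_div_assoc]
  congr 1
  rw [← Nat.cast_mul, ← Nat.card_prod]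
  congr 1
  -- a section
  choose s hs using hfs
  have hkm : ∀ P : A, P - s (f P) ∈ LinearMap.ker f := by
    intro P
    rw [LinearMap.mem_ker, map_sub, hs, sub_self]
  have hnorm : ∀ P : A, ‖((f P : L) : V)‖ = ‖ψ P‖ := fun P => rfl
  refine Nat.card_congr
    { toFun := fun x => ⟨x.1.1 + s x.2.1, ?_⟩
      invFun := fun P => ⟨⟨P.1 - s (f P.1), hkm P.1⟩, ⟨f P.1, by rw [hnorm]; exact P.2⟩⟩
      left_inv := ?_
      right_inv := ?_ }
  · have h1 : f (x.1.1 + s x.2.1) = x.2.1 := by
      rw [map_add, hs, LinearMap.mem_ker.1 x.1.2, zero_add]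
    rw [← hnorm, h1]
    exact x.2.2
  · rintro ⟨⟨a, ha⟩, ⟨v, hv⟩⟩
    have h1 : f (a + s v) = v := by
      rw [map_add, hs, LinearMap.mem_ker.1 ha, zero_add]
    ext1
    · apply Subtype.ext
      show a + s v - s (f (a + s v)) = a
      rw [h1, add_sub_cancel_right]
    · apply Subtype.ext
      exact h1
  · rintro ⟨P, hP⟩
    apply Subtype.ext
    show P - s (f P) + s (f P) = P
    rw [sub_add_cancel]

end Pool.Agent.R376.Ner
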