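import Pool.Agent.R376.NerA
import Pool.Agent.R376.NerB

/-!
# Néron's theorem: the number of rational points of bounded height
-/

set_option autoImplicit false

open Filter Topology Module WeierstrassCurve Height

namespace Pool.Agent.R376.Ner

/-- The number of rational points of height at most `B` on the projective curve
`y² = x³ + a x + b`: the point at infinity and the pairs `(x, y)` of rational numbers on the curve
such that the numerator and the denominator of `x` are at most `B` in absolute value. -/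
noncomputable def pts (a b : ℤ) (B : ℝ) : ℕ :=
  1 + Nat.card {q : ℚ × ℚ // q.2 ^ 2 = q.1 ^ 3 + a * q.1 + b ∧
    ((max q.1.num.natAbs q.1.den : ℕ) : ℝ) ≤ B}

lemma ht_le_iff (x : ℚ) {B : ℝ} (hB : 0 < B) :
    logHeight₁ x ≤ Real.log B ↔ ((max x.num.natAbs x.den : ℕ) : ℝ) ≤ B := by
  rw [Rat.logHeight₁_eq_log_max]
  have h1 : 0 < ((max x.num.natAbs x.den : ℕ) : ℝ) := by
    have := x.den_pos
    exact_mod_cast lt_of_lt_of_le this (le_max_right _ _)
  exact Real.log_le_log_iff h1 hB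

theorem pts_eq (a b : ℤ) (hd : 4 * a ^ 3 + 27 * b ^ 2 ≠ 0) {B : ℝ} (hB : 1 ≤ B) :
    pts a b B = Nat.card {P : Pt (a : ℚ) (b : ℚ) // ht P ≤ Real.log B} := by
  have hB0 : 0 < B := by linarith
  have hd' : 4 * (a : ℚ) ^ 3 + 27 * (b : ℚ) ^ 2 ≠ 0 := by exact_mod_cast hd
  have hlog : 0 ≤ Real.log B := Real.log_nonneg hB
  set S := {q : ℚ × ℚ // q.2 ^ 2 = q.1 ^ 3 + a * q.1 + b ∧
    ((max q.1.num.natAbs q.1.den : ℕ) : ℝ) ≤ B} with hS
  have hfinP : Finite {P : Pt (a : ℚ) (b : ℚ) // ht P ≤ Real.log B} := finite_ht (Real.log B)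
  let toP : S → {P : Pt (a : ℚ) (b : ℚ) // ht P ≤ Real.log B} := fun q =>
    ⟨Affine.Point.some q.1.1 q.1.2 (cv_nonsing hd' q.2.1), by
      rw [ht_some]
      exact (ht_le_iff _ hB0).2 q.2.2⟩
  have hinj : Function.Injective toP := by
    rintro ⟨⟨x, y⟩, h⟩ ⟨⟨x', y'⟩, h'⟩ hh
    have h1 := congrArg Subtype.val hh
    simp only [toP, Affine.Point.some.injEq] at h1
    exact Subtype.ext (Prod.ext h1.1 h1.2)
  have hfinS : Finite S := Finite.of_injective toP hinj
  let F : Option S → {P : Pt (a : ℚ) (b : ℚ) // ht P ≤ Real.log B} := fun o =>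
    match o with
    | none => ⟨0, by rw [ht_zero]; exact hlog⟩
    | some q => toP q
  have hF : Function.Bijective F := by
    constructor
    · rintro (_ | q) (_ | q') h
      · rfl
      · exact absurd (congrArg Subtype.val h).symm (Affine.Point.some_ne_zero _)
      · exact absurd (congrArg Subtype.val h) (Affine.Point.some_ne_zero _)
      · exact congrArg some (hinj h)
    · rintro ⟨P, hP⟩
      match P, hP with
      | 0, _ => exact ⟨none, rfl⟩
      | .some x y h, hP =>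
        refine ⟨some ⟨(x, y), cv_eqn.1 h.1, ?_⟩, rfl⟩
        rw [ht_some] at hP
        exact (ht_le_iff _ hB0).1 hP
  rw [← Nat.card_eq_of_bijective F hF, Finite.card_option, pts, add_comm]

/-- **Néron's theorem** for `y² = x³ + a x + b`. -/
theorem neron (a b : ℤ) (hd : 4 * a ^ 3 + 27 * b ^ 2 ≠ 0) :
    ∃ κ : ℝ, 0 < κ ∧ Tendsto (fun B : ℝ => (pts a b B : ℝ) /
      Real.log B ^ ((finrank ℤ (Pt (a : ℚ) (b : ℚ)) : ℝ) / 2)) atTop (𝓝 κ) := by
  obtain ⟨hfg, n, ψ, C, hC0, hC⟩ := exists_embed a b hd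
  have hfin : ∀ T : ℝ, {P : Pt (a : ℚ) (b : ℚ) | ‖ψ P‖ ^ 2 ≤ T}.Finite := by
    intro T
    refine (finite_ht (T + C)).subset fun P hP => ?_
    have h1 := abs_le.1 (hC P)
    have h2 : ‖ψ P‖ ^ 2 ≤ T := hP
    show ht P ≤ T + C
    linarith [h1.1]
  obtain ⟨κ, hκ, hlim⟩ := group_count hfg ψ hfin
  set s : ℝ := (finrank ℤ (Pt (a : ℚ) (b : ℚ)) : ℝ) / 2 with hs
  have hs0 : 0 ≤ s := by positivity
  set f : ℝ → ℝ := fun T => (Nat.card {P : Pt (a : ℚ) (b : ℚ) // ‖ψ P‖ ^ 2 ≤ T} : ℝ) with hf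
  refine ⟨κ, hκ, ?_⟩
  have hshift : ∀ c : ℝ, Tendsto (fun T : ℝ => f (T + c) / T ^ s) atTop (𝓝 κ) := by
    intro c
    have h1 : Tendsto (fun T : ℝ => f (T + c) / (T + c) ^ s) atTop (𝓝 κ) :=
      hlim.comp (tendsto_atTop_add_const_right _ c tendsto_id)
    have h2 : Tendsto (fun T : ℝ => ((T + c) / T) ^ s) atTop (𝓝 (1 ^ s)) := by
      refine Tendsto.rpow_const ?_ (Or.inl one_ne_zero)
      have h3 : Tendsto (fun T : ℝ => 1 + c / T) atTop (𝓝 (1 + 0)) :=
        tendsto_const_nhds.add (tendsto_const_nhds.div_atTop tendsto_id)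
      rw [add_zero] at h3
      refine h3.congr' ?_
      filter_upwards [eventually_gt_atTop (0 : ℝ)] with T hT
      field_simp
    have h3 := h1.mul h2
    rw [Real.one_rpow, mul_one] at h3
    refine h3.congr' ?_
    filter_upwards [eventually_gt_atTop (0 : ℝ), eventually_gt_atTop (-c)] with T hT hTc
    have h4 : 0 < T + c := by linarith
    rw [Real.div_rpow h4.le hT.le]
    have h5 : (T + c) ^ s ≠ 0 := (Real.rpow_pos_of_pos h4 _).ne'
    field_simp
  have hmain : Tendsto (fun T : ℝ => (Nat.card {P : Pt (a : ℚ) (b : ℚ) // ht P ≤ T} : ℝ) / T ^ s)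
      atTop (𝓝 κ) := by
    refine tendsto_of_tendsto_of_tendsto_of_le_of_le' (hshift (-C)) (hshift C) ?_ ?_
    · filter_upwards [eventually_gt_atTop (0 : ℝ)] with T hT
      have h1 : (0 : ℝ) < T ^ s := Real.rpow_pos_of_pos hT _
      refine div_le_div_of_nonneg_right ?_ h1.le
      have hfinP : Finite {P : Pt (a : ℚ) (b : ℚ) // ht P ≤ T} := finite_ht T
      have key : ∀ P : Pt (a : ℚ) (b : ℚ), ‖ψ P‖ ^ 2 ≤ T + -C → ht P ≤ T := by
        intro P hP
        have h3 := (abs_le.1 (hC P)).1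
        linarith
      have h4 := Nat.card_le_card_of_injective
        (fun P : {P : Pt (a : ℚ) (b : ℚ) // ‖ψ P‖ ^ 2 ≤ T + -C} =>
          (⟨P.1, key P.1 P.2⟩ : {P : Pt (a : ℚ) (b : ℚ) // ht P ≤ T}))
        (fun P Q h => by
          have h5 := congrArg Subtype.val h
          exact Subtype.ext h5)
      exact (Nat.cast_le (α := ℝ)).2 h4
    · filter_upwards [eventually_gt_atTop (0 : ℝ)] with T hT
      have h1 : (0 : ℝ) < T ^ s := Real.rpow_pos_of_pos hT _
      refine div_le_div_of_nonneg_right ?_ h1.le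
      have hfinP : Finite {P : Pt (a : ℚ) (b : ℚ) // ‖ψ P‖ ^ 2 ≤ T + C} := hfin (T + C)
      have key : ∀ P : Pt (a : ℚ) (b : ℚ), ht P ≤ T → ‖ψ P‖ ^ 2 ≤ T + C := by
        intro P hP
        have h3 := (abs_le.1 (hC P)).2
        linarith
      have h4 := Nat.card_le_card_of_injective
        (fun P : {P : Pt (a : ℚ) (b : ℚ) // ht P ≤ T} =>
          (⟨P.1, key P.1 P.2⟩ : {P : Pt (a : ℚ) (b : ℚ) // ‖ψ P‖ ^ 2 ≤ T + C}))
        (fun P Q h => by
          have h5 := congrArg Subtype.val h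
          exact Subtype.ext h5)
      exact (Nat.cast_le (α := ℝ)).2 h4
  refine (hmain.comp Real.tendsto_log_atTop).congr' ?_
  filter_upwards [eventually_ge_atTop (1 : ℝ)] with B hB
  rw [pts_eq a b hd hB]
  rfl

end Pool.Agent.R376.Ner
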