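import Pool.Agent.W187.UR.Np2
import Pool.Agent.W392.UR.Fac
import Pool.Agent.W187.S2.Law2
import Pool.Agent.W856.S2.MMPart
import Pool.Agent.W67.S2.JMM
import Pool.Agent.W196.S2.Refg
import Pool.Agent.W797.S2.Lip
import Pool.Agent.W351.S2.Jo
import Pool.Agent.W431.S2.KK

/-!
# The rotated Birch and Swinnerton-Dyer products as infinite products of real numbers
-/

set_option autoImplicit false

namespace Pool.Agent.R376.Ner

open Pool.Agent.W263.BSD Pool.Agent.W187.UR Pool.Agent.W187.S2 Filter Topology Asymptotics Classical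
open Pool.Agent.W189.ML

/-- the weight `cos (c u) / Γ (1 + u)` -/
noncomputable def wt (c u : ℝ) : ℝ := Real.cos (c * u) / Real.Gamma (1 + u)

/-- the product of the `((N_p + 1) / p) ^ w(log p / log B)` -/
noncomputable def locProd (a b : ℤ) (c B : ℝ) : ℝ :=
  ∏' p : ℕ, if GoodPrime a b p then
    (((pointCount a b p : ℝ) + 1) / p) ^ wt c (Real.log p / Real.log B) else 1

/-- the same product with a second order correction -/
noncomputable def locProd2 (a b : ℤ) (c B : ℝ) : ℝ :=
  ∏' p : ℕ, if GoodPrime a b p then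
    (((pointCount a b p : ℝ) + 1) / p) ^ wt c (Real.log p / Real.log B) *
      Real.exp ((wt c (Real.log p / Real.log B) - wt c (2 * (Real.log p / Real.log B))) *
        ((((p : ℝ) - pointCount a b p) ^ 2 - 2 * p) / (2 * (p : ℝ) ^ 2))) else 1

theorem wt_eq (c u : ℝ) : wt c u = (kk c u).re := by
  unfold wt kk om
  rw [Complex.re_mul_ofReal, Complex.exp_ofReal_mul_I_re]
  rfl

theorem quot_pos {a b : ℤ} {p : ℕ} (hp : GoodPrime a b p) :
    0 < ((pointCount a b p : ℝ) + 1) / p := by
  have h1 : (0 : ℝ) < p := by exact_mod_cast hp.1.pos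
  positivity

variable {a b : ℤ}

theorem locProd_hasProd (a b : ℤ) (c : ℝ) {B : ℝ} (hB : 1 < B) :
    HasProd (fun p : ℕ => if GoodPrime a b p then
      (((pointCount a b p : ℝ) + 1) / p) ^ wt c (Real.log p / Real.log B) else 1)
      (Real.exp (rotSum a b c B)) := by
  have h1 := (rot_summable (a := a) (b := b) c hB).of_abs.hasSum.rexp
  refine h1.congr_fun ?_
  intro p
  simp only [Function.comp_apply]
  split_ifs with hp
  · rw [Real.rpow_def_of_pos (quot_pos hp), wt]
    congr 1
    ring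
  · rw [Real.exp_zero]

theorem locProd_eq (a b : ℤ) (c : ℝ) {B : ℝ} (hB : 1 < B) :
    locProd a b c B = Real.exp (rotSum a b c B) := (locProd_hasProd a b c hB).tprod_eq

theorem star_summable (a b : ℤ) (c : ℝ) {B : ℝ} (hB1 : 1 < B) (hB : 1 ≤ Real.log B) :
    Summable fun p : ℕ => pterm a b c B p + cterm a b c B p := by
  obtain ⟨hs, hJ⟩ := Pool.Agent.W67.S2.jmm (SS a b) (Ap a b) (eData a b) c (Real.log B) hB
  simp only [cterm_eq]
  have h2 : Summable fun p => -cmt (SS a b) (Ap a b) c (Real.log B) p + f2 a b c (Real.log B) p :=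
    hs.of_norm.neg.add
      (summable_of_ne_finset_zero (s := Finset.range 25) fun p hp => f2_zero c _ hp)
  exact (pterm_summable c hB1).of_norm.add h2

theorem locProd2_hasProd (a b : ℤ) (c : ℝ) {B : ℝ} (hB1 : 1 < B) (hB : 1 ≤ Real.log B) :
    HasProd (fun p : ℕ => if GoodPrime a b p then
      (((pointCount a b p : ℝ) + 1) / p) ^ wt c (Real.log p / Real.log B) *
      Real.exp ((wt c (Real.log p / Real.log B) - wt c (2 * (Real.log p / Real.log B))) *
        ((((p : ℝ) - pointCount a b p) ^ 2 - 2 * p) / (2 * (p : ℝ) ^ 2))) else 1)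
      ‖Complex.exp (pStar a b c B)‖ := by
  have h1 : HasSum (fun p : ℕ => (pterm a b c B p + cterm a b c B p).re) (pStar a b c B).re :=
    Complex.hasSum_re (star_summable a b c hB1 hB).hasSum
  rw [Complex.norm_exp]
  refine h1.rexp.congr_fun ?_
  intro p
  simp only [Function.comp_apply, Complex.add_re]
  unfold pterm cterm
  split_ifs with hp
  · rw [Real.rpow_def_of_pos (quot_pos hp), ← Real.exp_add, wt_eq, wt_eq, Complex.re_mul_ofReal,
      Complex.re_mul_ofReal, Complex.sub_re]
    congr 1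
    ring
  · rw [Complex.zero_re, add_zero, Real.exp_zero]

theorem locProd2_eq (a b : ℤ) (c : ℝ) {B : ℝ} (hB1 : 1 < B) (hB : 1 ≤ Real.log B) :
    locProd2 a b c B = ‖Complex.exp (pStar a b c B)‖ := (locProd2_hasProd a b c hB1 hB).tprod_eq

/-- the leading term from the corrected product -/
theorem locProd2_law {F : ℂ → ℂ} (hF : IsLSeries a b F) {m : ℕ} (hm : analyticOrderAt F 1 = m)
    {c : ℝ} (hc : Real.pi / 2 < c) :
    iteratedDeriv m F 1 ≠ 0 ∧ Tendsto (fun B : ℝ => locProd2 a b c B / Real.log B ^ m) atTop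
      (𝓝 (Real.exp (-(m * (Lam c).re)) * (m.factorial / ‖iteratedDeriv m F 1‖))) := by
  obtain ⟨hne, hs0, -, -⟩ := phi_factor hF hm
  obtain ⟨r₀, hexp, hstar⟩ := star_addO Pool.Agent.W797.S2.lip Pool.Agent.W351.S2.jo
    Pool.Agent.W431.S2.kkb Pool.Agent.W856.S2.mm_part Pool.Agent.W67.S2.jmm
    Pool.Agent.W196.S2.refg hF hm
  have hf0 : (m.factorial : ℂ) ≠ 0 := by exact_mod_cast m.factorial_ne_zero
  refine ⟨hne, ?_⟩
  have h1 := add_of_O (hstar c hc)
  have hval : Complex.exp (-(m * Lam c) - r₀ + sig a b) =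
      Complex.exp (-(m * Lam c)) * (m.factorial / iteratedDeriv m F 1) := by
    rw [Complex.exp_add, Complex.exp_sub, exp_sig, hexp]
    field_simp
  have hA : Tendsto (fun X : ℝ => Complex.exp (pStar a b c X) / (Real.log X : ℂ) ^ m) atTop
      (𝓝 (Complex.exp (-(m * Lam c)) * (m.factorial / iteratedDeriv m F 1))) := by
    have := exp_lim h1
    rwa [hval] at this
  have h2 := hA.norm
  have h3 : ‖Complex.exp (-(m * Lam c)) * (m.factorial / iteratedDeriv m F 1)‖ =
      Real.exp (-(m * (Lam c).re)) * (m.factorial / ‖iteratedDeriv m F 1‖) := by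
    rw [norm_mul, norm_div, Complex.norm_exp, Complex.norm_natCast]
    congr 2
    simp
  rw [h3] at h2
  refine h2.congr' ?_
  have hlog := Real.tendsto_log_atTop
  filter_upwards [hlog.eventually (eventually_ge_atTop (1 : ℝ)), eventually_gt_atTop 1] with X h4 h5
  rw [locProd2_eq a b c h5 h4, norm_div, norm_pow, Complex.norm_real, Real.norm_eq_abs,
    abs_of_pos (by linarith)]

end Pool.Agent.R376.Ner
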