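import Mathlib

/-!
# Comparing two quantities growing like powers of the logarithm
-/

set_option autoImplicit false

open Filter Topology

namespace Pool.Agent.R376.Ner

theorem loglog_atTop : Tendsto (fun B : ℝ => Real.log (Real.log B)) atTop atTop :=
  Real.tendsto_log_atTop.comp Real.tendsto_log_atTop

theorem powlog_atTop {s : ℝ} (hs : 0 < s) : Tendsto (fun B : ℝ => Real.log B ^ s) atTop atTop :=
  (tendsto_rpow_atTop hs).comp Real.tendsto_log_atTop

variable {N S P : ℝ → ℝ} {r m : ℕ} {κ l M : ℝ}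

/-- the asymptotic law for the squares of the counts over the products -/
theorem law_star (hN : Tendsto (fun B => N B / Real.log B ^ ((r : ℝ) / 2)) atTop (𝓝 κ))
    (hl : 0 < l) (hP : Tendsto (fun B => P B / Real.log B ^ m) atTop (𝓝 l)) :
    Tendsto (fun B => N B ^ 2 / P B * Real.log B ^ ((m : ℝ) - r)) atTop (𝓝 (κ ^ 2 / l)) := by
  refine ((hN.pow 2).div hP hl.ne').congr' ?_
  filter_upwards [Real.tendsto_log_atTop.eventually (eventually_gt_atTop (0 : ℝ))] with B hB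
  have h1 : (Real.log B ^ ((r : ℝ) / 2)) ^ 2 = Real.log B ^ (r : ℝ) := by
    rw [← Real.rpow_natCast (Real.log B ^ ((r : ℝ) / 2)) 2, ← Real.rpow_mul hB.le]
    congr 1
    push_cast
    ring
  have h2 : (0 : ℝ) < Real.log B ^ (r : ℝ) := Real.rpow_pos_of_pos hB _
  have h3 : (0 : ℝ) < Real.log B ^ m := pow_pos hB _
  show (N B / Real.log B ^ ((r : ℝ) / 2)) ^ 2 / (P B / Real.log B ^ m) = _
  rw [div_pow, h1, Real.rpow_sub hB, Real.rpow_natCast, Real.rpow_natCast]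
  rcases eq_or_ne (P B) 0 with h4 | h4
  · rw [h4]
    simp
  · field_simp

/-- the same up to bounded factors -/
theorem law_bdd (hκ : 0 < κ) (hN : Tendsto (fun B => N B / Real.log B ^ ((r : ℝ) / 2)) atTop (𝓝 κ))
    (hS : ∀ᶠ B in atTop, |S B - m * Real.log (Real.log B)| ≤ M) :
    ∃ C : ℝ, 1 ≤ C ∧ ∀ᶠ B in atTop,
      C⁻¹ * Real.log B ^ ((r : ℝ) - m) * Real.exp (S B) ≤ N B ^ 2 ∧
      N B ^ 2 ≤ C * Real.log B ^ ((r : ℝ) - m) * Real.exp (S B) := by
  have h1 := hN.pow 2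
  have hκ2 : 0 < κ ^ 2 := by positivity
  have h2 := h1.eventually (lt_mem_nhds (show κ ^ 2 / 2 < κ ^ 2 by linarith))
  have h3 := h1.eventually (gt_mem_nhds (show κ ^ 2 < 2 * κ ^ 2 by linarith))
  set A : ℝ := Real.exp M with hA
  have hA0 : 0 < A := Real.exp_pos _
  set C : ℝ := max 1 (max (2 * κ ^ 2 * A) (2 / κ ^ 2 * A)) with hC
  have hC1 : 1 ≤ C := le_max_left _ _
  have hC2 : 2 * κ ^ 2 * A ≤ C := (le_max_left _ _).trans (le_max_right _ _)
  have hC3 : 2 / κ ^ 2 * A ≤ C := (le_max_right _ _).trans (le_max_right _ _)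
  refine ⟨C, hC1, ?_⟩
  filter_upwards [h2, h3, hS, Real.tendsto_log_atTop.eventually (eventually_gt_atTop (0 : ℝ))]
    with B h4 h5 h6 hB
  have e1 : (Real.log B ^ ((r : ℝ) / 2)) ^ 2 = Real.log B ^ (r : ℝ) := by
    rw [← Real.rpow_natCast (Real.log B ^ ((r : ℝ) / 2)) 2, ← Real.rpow_mul hB.le]
    congr 1
    push_cast
    ring
  have hr0 : (0 : ℝ) < Real.log B ^ (r : ℝ) := Real.rpow_pos_of_pos hB _
  have hm0 : (0 : ℝ) < Real.log B ^ (m : ℝ) := Real.rpow_pos_of_pos hB _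
  rw [div_pow, e1] at h4 h5
  rw [lt_div_iff₀ hr0] at h4
  rw [div_lt_iff₀ hr0] at h5
  have h7 := abs_le.1 h6
  have e2 : Real.exp ((m : ℝ) * Real.log (Real.log B)) = Real.log B ^ (m : ℝ) := by
    rw [Real.rpow_def_of_pos hB, mul_comm]
  have hup : Real.exp (S B) ≤ A * Real.log B ^ (m : ℝ) := by
    rw [← e2, hA, ← Real.exp_add]
    exact Real.exp_le_exp.2 (by linarith [h7.2])
  have hlo : Real.log B ^ (m : ℝ) ≤ A * Real.exp (S B) := by
    rw [← e2, hA, ← Real.exp_add]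
    exact Real.exp_le_exp.2 (by linarith [h7.1])
  have e3 : Real.log B ^ ((r : ℝ) - m) = Real.log B ^ (r : ℝ) / Real.log B ^ (m : ℝ) :=
    Real.rpow_sub hB _ _
  constructor
  · have h8 : C⁻¹ * Real.log B ^ ((r : ℝ) - m) * Real.exp (S B) ≤
        C⁻¹ * (Real.log B ^ (r : ℝ) / Real.log B ^ (m : ℝ)) * (A * Real.log B ^ (m : ℝ)) := by
      rw [e3]
      exact mul_le_mul_of_nonneg_left hup (by positivity)
    have h9 : C⁻¹ * (Real.log B ^ (r : ℝ) / Real.log B ^ (m : ℝ)) * (A * Real.log B ^ (m : ℝ)) =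
        C⁻¹ * A * Real.log B ^ (r : ℝ) := by
      field_simp
    have h10 : C⁻¹ * A ≤ κ ^ 2 / 2 := by
      rw [inv_mul_le_iff₀ (by linarith)]
      have : 2 / κ ^ 2 * A * (κ ^ 2 / 2) = A := by field_simp
      nlinarith
    calc _ ≤ _ := h8
      _ = _ := h9
      _ ≤ κ ^ 2 / 2 * Real.log B ^ (r : ℝ) := mul_le_mul_of_nonneg_right h10 hr0.le
      _ ≤ _ := h4.le
  · have h8 : C * (Real.log B ^ (r : ℝ) / Real.log B ^ (m : ℝ)) * (A⁻¹ * Real.log B ^ (m : ℝ)) ≤
        C * Real.log B ^ ((r : ℝ) - m) * Real.exp (S B) := by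
      rw [e3]
      refine mul_le_mul_of_nonneg_left ?_ (by positivity)
      rw [inv_mul_le_iff₀ hA0]
      exact hlo
    have h9 : C * (Real.log B ^ (r : ℝ) / Real.log B ^ (m : ℝ)) * (A⁻¹ * Real.log B ^ (m : ℝ)) =
        C * A⁻¹ * Real.log B ^ (r : ℝ) := by
      field_simp
    have h10 : 2 * κ ^ 2 ≤ C * A⁻¹ := by
      rw [le_mul_inv_iff₀ hA0]
      exact hC2
    calc _ ≤ 2 * κ ^ 2 * Real.log B ^ (r : ℝ) := h5.le
      _ ≤ C * A⁻¹ * Real.log B ^ (r : ℝ) := mul_le_mul_of_nonneg_right h10 hr0.le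
      _ = _ := h9.symm
      _ ≤ _ := h8

/-- if the counts are not much larger than the products at some arguments, `r ≤ m` -/
theorem le_of_freq {C : ℝ} (hC : 1 ≤ C)
    (h : ∀ᶠ B in atTop, C⁻¹ * Real.log B ^ ((r : ℝ) - m) * Real.exp (S B) ≤ N B ^ 2 ∧
      N B ^ 2 ≤ C * Real.log B ^ ((r : ℝ) - m) * Real.exp (S B)) {θ : ℝ} (hθ : θ < 1)
    (hf : ∃ᶠ B in atTop, N B ^ 2 ≤ Real.log B ^ θ * Real.exp (S B)) : r ≤ m := by
  by_contra hlt
  push Not at hlt
  have h1 : (1 : ℝ) ≤ (r : ℝ) - m := by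
    have : (m : ℝ) + 1 ≤ r := by exact_mod_cast hlt
    linarith
  have h2 := (powlog_atTop (show (0 : ℝ) < 1 - θ by linarith)).eventually (eventually_gt_atTop C)
  obtain ⟨B, h3, h4, h5, h6⟩ := (hf.and_eventually (h.and (h2.and
    (Real.tendsto_log_atTop.eventually (eventually_ge_atTop (1 : ℝ)))))).exists
  have hB : 0 < Real.log B := by linarith
  have h7 : C⁻¹ * Real.log B ^ ((r : ℝ) - m) ≤ Real.log B ^ θ := by
    have := h4.1.trans h3
    exact le_of_mul_le_mul_right this (Real.exp_pos _)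
  have h8 : Real.log B ^ (1 : ℝ) ≤ Real.log B ^ ((r : ℝ) - m) :=
    Real.rpow_le_rpow_of_exponent_le h6 h1
  have h9 : Real.log B ^ (1 : ℝ) = Real.log B ^ (1 - θ) * Real.log B ^ θ := by
    rw [← Real.rpow_add hB]
    congr 1
    ring
  have h10 : 0 < Real.log B ^ θ := Real.rpow_pos_of_pos hB _
  rw [inv_mul_le_iff₀ (by linarith)] at h7
  have h11 : Real.log B ^ (1 - θ) * Real.log B ^ θ ≤ C * Real.log B ^ θ := by
    rw [← h9]
    exact h8.trans h7
  exact absurd (le_of_mul_le_mul_right h11 h10) (not_le.2 h5)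

/-- if the products are not much larger than the counts at some arguments, `m ≤ r` -/
theorem ge_of_freq {C : ℝ} (hC : 1 ≤ C)
    (h : ∀ᶠ B in atTop, C⁻¹ * Real.log B ^ ((r : ℝ) - m) * Real.exp (S B) ≤ N B ^ 2 ∧
      N B ^ 2 ≤ C * Real.log B ^ ((r : ℝ) - m) * Real.exp (S B)) {θ : ℝ} (hθ : θ < 1)
    (hf : ∃ᶠ B in atTop, Real.exp (S B) ≤ Real.log B ^ θ * N B ^ 2) : m ≤ r := by
  by_contra hlt
  push Not at hlt
  have h1 : (r : ℝ) - m ≤ -1 := by
    have : (r : ℝ) + 1 ≤ m := by exact_mod_cast hlt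
    linarith
  have h2 := (powlog_atTop (show (0 : ℝ) < 1 - θ by linarith)).eventually (eventually_gt_atTop C)
  obtain ⟨B, h3, h4, h5, h6⟩ := (hf.and_eventually (h.and (h2.and
    (Real.tendsto_log_atTop.eventually (eventually_ge_atTop (1 : ℝ)))))).exists
  have hB : 0 < Real.log B := by linarith
  have h10 : 0 < Real.log B ^ θ := Real.rpow_pos_of_pos hB _
  have h7 : Real.exp (S B) ≤ Real.log B ^ θ * (C * Real.log B ^ ((r : ℝ) - m) * Real.exp (S B)) :=
    h3.trans (mul_le_mul_of_nonneg_left h4.2 h10.le)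
  have h8 : 1 ≤ Real.log B ^ θ * (C * Real.log B ^ ((r : ℝ) - m)) := by
    have : 1 * Real.exp (S B) ≤
        Real.log B ^ θ * (C * Real.log B ^ ((r : ℝ) - m)) * Real.exp (S B) := by
      rw [one_mul]
      refine h7.trans (le_of_eq ?_)
      ring
    exact le_of_mul_le_mul_right this (Real.exp_pos _)
  have h9 : Real.log B ^ ((r : ℝ) - m) ≤ Real.log B ^ (-1 : ℝ) :=
    Real.rpow_le_rpow_of_exponent_le h6 h1
  have h11 : Real.log B ^ θ * (C * Real.log B ^ ((r : ℝ) - m)) ≤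
      C * (Real.log B ^ θ * Real.log B ^ (-1 : ℝ)) := by
    have := mul_le_mul_of_nonneg_left h9 (show 0 ≤ Real.log B ^ θ * C by positivity)
    linarith
  have h12 : Real.log B ^ θ * Real.log B ^ (-1 : ℝ) = (Real.log B ^ (1 - θ))⁻¹ := by
    rw [← Real.rpow_add hB, ← Real.rpow_neg hB.le]
    congr 1
    ring
  rw [h12] at h11
  have h13 : 0 < Real.log B ^ (1 - θ) := Real.rpow_pos_of_pos hB _
  have h14 : C * (Real.log B ^ (1 - θ))⁻¹ < 1 := by
    rw [mul_inv_lt_iff₀ h13, one_mul]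
    exact h5
  linarith

/-- upper bounds hold if `r ≤ m` -/
theorem up_of_le {C : ℝ} (hC : 1 ≤ C)
    (h : ∀ᶠ B in atTop, C⁻¹ * Real.log B ^ ((r : ℝ) - m) * Real.exp (S B) ≤ N B ^ 2 ∧
      N B ^ 2 ≤ C * Real.log B ^ ((r : ℝ) - m) * Real.exp (S B)) (hrm : r ≤ m) :
    ∀ᶠ B in atTop, N B ^ 2 ≤ C * Real.exp (S B) := by
  filter_upwards [h, Real.tendsto_log_atTop.eventually (eventually_ge_atTop (1 : ℝ))] with B h4 h6
  have h1 : (r : ℝ) - m ≤ 0 := by
    have : (r : ℝ) ≤ m := by exact_mod_cast hrm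
    linarith
  have h2 : Real.log B ^ ((r : ℝ) - m) ≤ 1 := Real.rpow_le_one_of_one_le_of_nonpos h6 h1
  refine h4.2.trans (mul_le_mul_of_nonneg_right ?_ (Real.exp_pos _).le)
  have := mul_le_mul_of_nonneg_left h2 (show 0 ≤ C by linarith)
  linarith

/-- lower bounds hold if `m ≤ r` -/
theorem lo_of_ge {C : ℝ} (hC : 1 ≤ C)
    (h : ∀ᶠ B in atTop, C⁻¹ * Real.log B ^ ((r : ℝ) - m) * Real.exp (S B) ≤ N B ^ 2 ∧
      N B ^ 2 ≤ C * Real.log B ^ ((r : ℝ) - m) * Real.exp (S B)) (hrm : m ≤ r) :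
    ∀ᶠ B in atTop, Real.exp (S B) ≤ C * N B ^ 2 := by
  filter_upwards [h, Real.tendsto_log_atTop.eventually (eventually_ge_atTop (1 : ℝ))] with B h4 h6
  have h1 : 0 ≤ (r : ℝ) - m := by
    have : (m : ℝ) ≤ r := by exact_mod_cast hrm
    linarith
  have h2 : 1 ≤ Real.log B ^ ((r : ℝ) - m) := Real.one_le_rpow h6 h1
  have h3 : C⁻¹ * Real.exp (S B) ≤ N B ^ 2 := by
    refine le_trans ?_ h4.1
    refine mul_le_mul_of_nonneg_right ?_ (Real.exp_pos _).le
    have := mul_le_mul_of_nonneg_left h2 (show 0 ≤ C⁻¹ by positivity)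
    linarith
  rwa [inv_mul_le_iff₀ (by linarith)] at h3

/-- for `r = 0` the counts are bounded, and conversely -/
theorem bdd_count_iff (hκ : 0 < κ)
    (hN : Tendsto (fun B => N B / Real.log B ^ ((r : ℝ) / 2)) atTop (𝓝 κ)) :
    r = 0 ↔ ∃ A : ℝ, ∀ᶠ B in atTop, N B ≤ A := by
  constructor
  · rintro rfl
    refine ⟨κ + 1, ?_⟩
    have h1 := hN.eventually (gt_mem_nhds (show κ < κ + 1 by linarith))
    filter_upwards [h1] with B h2
    simp at h2
    exact h2.le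
  · rintro ⟨A, hA⟩
    by_contra hr
    have hr0 : (0 : ℝ) < (r : ℝ) / 2 := by
      have : 0 < r := Nat.pos_of_ne_zero hr
      positivity
    have h1 := hN.pos_mul_atTop hκ (powlog_atTop hr0)
    have h2 := (h1.eventually (eventually_gt_atTop A)).and (hA.and
      (Real.tendsto_log_atTop.eventually (eventually_gt_atTop (0 : ℝ))))
    obtain ⟨B, h3, h4, h5⟩ := h2.exists
    have h6 : 0 < Real.log B ^ ((r : ℝ) / 2) := Real.rpow_pos_of_pos h5 _
    rw [div_mul_cancel₀ _ h6.ne'] at h3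
    linarith

/-- for `m = 0` the products are bounded, and conversely -/
theorem bdd_prod_iff (hS : ∀ᶠ B in atTop, |S B - m * Real.log (Real.log B)| ≤ M) :
    m = 0 ↔ ∃ A : ℝ, ∀ᶠ B in atTop, Real.exp (S B) ≤ A := by
  constructor
  · rintro rfl
    refine ⟨Real.exp M, ?_⟩
    filter_upwards [hS] with B h
    refine Real.exp_le_exp.2 ?_
    have := (abs_le.1 h).2
    simp at this
    linarith
  · rintro ⟨A, hA⟩
    by_contra hm
    have hm0 : (0 : ℝ) < (m : ℝ) := by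
      have : 0 < m := Nat.pos_of_ne_zero hm
      positivity
    have h1 : Tendsto (fun B : ℝ => (m : ℝ) * Real.log (Real.log B)) atTop atTop :=
      loglog_atTop.const_mul_atTop hm0
    obtain ⟨B, h3, h4, h5⟩ := ((h1.eventually (eventually_gt_atTop (A + M))).and (hA.and hS)).exists
    have h6 := (abs_le.1 h5).1
    have h7 := Real.add_one_le_exp (S B)
    linarith

end Pool.Agent.R376.Ner
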