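import Pool.Agent.R376.NerB

/-!
# Counting the elements of a finitely generated group by a quadratic height, with the constant
-/

set_option autoImplicit false

open Filter Topology Module MeasureTheory

namespace Pool.Agent.R376.Ner

/-- the volume of the unit ball of `ℝ^r` -/
noncomputable def ballVol (r : ℕ) : ℝ := √Real.pi ^ r / Real.Gamma (r / 2 + 1)

lemma ballVol_pos (r : ℕ) : 0 < ballVol r := by
  unfold ballVol
  have := Real.pi_pos
  have := Real.Gamma_pos_of_pos (s := (r : ℝ) / 2 + 1) (by positivity)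
  positivity

/-- lattice points in balls, with the constant -/
theorem lattice_count' {E : Type} [NormedAddCommGroup E] [InnerProductSpace ℝ E]
    [FiniteDimensional ℝ E] [MeasurableSpace E] [BorelSpace E]
    (L : Submodule ℤ E) [DiscreteTopology L] [IsZLattice ℝ L] :
    Tendsto (fun T : ℝ =>
      (Nat.card {v : L // ‖(v : E)‖ ^ 2 ≤ T} : ℝ) / T ^ ((finrank ℝ E : ℝ) / 2)) atTop
      (𝓝 (ballVol (finrank ℝ E) / ZLattice.covolume L)) := by
  rcases subsingleton_or_nontrivial E with hE | hE
  · have h0 : finrank ℝ E = 0 := finrank_zero_of_subsingleton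
    have hcov : ZLattice.covolume L = 1 := by
      let b : Basis (Fin 0) ℤ L := by
        have : Subsingleton L := ⟨fun x y => Subtype.ext (Subsingleton.elim _ _)⟩
        exact Basis.empty L
      have hf : finrank ℝ E = 0 := h0
      let b₀ : OrthonormalBasis (Fin 0) ℝ E := (stdOrthonormalBasis ℝ E).reindex
        (finCongr h0)
      rw [ZLattice.covolume_eq_det_mul_measureReal L volume b b₀.toBasis]
      rw [measureReal_congr (ZSpan.fundamentalDomain_ae_parallelepiped b₀.toBasis volume)]
      have h1 : volume.real (parallelepiped b₀.toBasis) = 1 := by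
        rw [Measure.real]
        have := b₀.volume_parallelepiped
        rw [OrthonormalBasis.coe_toBasis, this]
        simp
      rw [h1, mul_one]
      simp
    rw [hcov, h0]
    refine Tendsto.congr' ?_ tendsto_const_nhds
    filter_upwards [eventually_ge_atTop (0 : ℝ)] with T hT
    have h1 : Nat.card {v : L // ‖(v : E)‖ ^ 2 ≤ T} = 1 := by
      rw [Nat.card_eq_one_iff_unique]
      refine ⟨⟨fun x y => Subtype.ext (Subtype.ext (Subsingleton.elim _ _))⟩, ⟨⟨0, ?_⟩⟩⟩
      simpa using hT
    rw [h1]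
    simp [ballVol]
  · set r := finrank ℝ E with hr
    have hrpos : 0 < r := finrank_pos
    have hset : {x ∈ (Set.univ : Set E) | ‖x‖ ^ r ≤ 1} = Metric.closedBall 0 1 := by
      ext x
      simp only [Set.mem_univ, true_and, Set.mem_ofPred_eq, mem_closedBall_zero_iff]
      exact pow_le_one_iff_of_nonneg (norm_nonneg _) hrpos.ne'
    have h := ZLattice.covolume.tendsto_card_le_div' L (X := Set.univ) (F := fun x => ‖x‖ ^ r)
      (fun x r _ _ => Set.mem_univ _)
      (fun x c hc => by rw [norm_smul, Real.norm_of_nonneg hc, mul_pow])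
      (by rw [hset]; exact Metric.isBounded_closedBall)
      (by rw [hset]; exact measurableSet_closedBall)
      (by rw [hset, frontier_closedBall _ one_ne_zero]; exact Measure.addHaar_sphere _ _ _)
    have hvol : volume.real {x ∈ (Set.univ : Set E) | ‖x‖ ^ r ≤ 1} = ballVol r := by
      rw [hset, Measure.real, InnerProductSpace.volume_closedBall, ballVol, ← hr]
      have h2 : 0 ≤ √Real.pi ^ r / Real.Gamma ((r : ℝ) / 2 + 1) := (ballVol_pos r).le
      rw [ENNReal.toReal_mul, ENNReal.toReal_ofReal h2]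
      simp
    rw [hvol] at h
    have hT : Tendsto (fun T : ℝ => T ^ ((r : ℝ) / 2)) atTop atTop :=
      tendsto_rpow_atTop (by positivity)
    refine (h.comp hT).congr' ?_
    filter_upwards [eventually_gt_atTop (0 : ℝ)] with T hT0
    simp only [Function.comp_apply]
    congr 2
    refine Nat.card_congr ?_
    have hiff : ∀ x : E, ‖x‖ ^ r ≤ T ^ ((r : ℝ) / 2) ↔ ‖x‖ ^ 2 ≤ T := by
      intro x
      have e1 : ‖x‖ ^ r = (‖x‖ ^ 2) ^ ((r : ℝ) / 2) := by
        rw [← Real.rpow_natCast (‖x‖) 2, ← Real.rpow_mul (norm_nonneg _), ← Real.rpow_natCast]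
        congr 1
        push_cast
        ring
      rw [e1, Real.rpow_le_rpow_iff (by positivity) hT0.le (by positivity)]
    exact
      { toFun := fun x => ⟨⟨x.1, x.2.2⟩, (hiff _).1 x.2.1.2⟩
        invFun := fun v => ⟨v.1.1, ⟨Set.mem_univ _, (hiff _).2 v.2⟩, v.1.2⟩
        left_inv := fun x => rfl
        right_inv := fun v => rfl }

/-- the covolume of a lattice is the square root of the Gram determinant of a basis -/
theorem covolume_sq {E : Type} [NormedAddCommGroup E] [InnerProductSpace ℝ E]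
    [FiniteDimensional ℝ E] [MeasurableSpace E] [BorelSpace E]
    (L : Submodule ℤ E) [DiscreteTopology L] [IsZLattice ℝ L] {r : ℕ} (b : Basis (Fin r) ℤ L) :
    (Matrix.of fun i j => inner ℝ (b i : E) (b j : E)).det = ZLattice.covolume L ^ 2 := by
  have hr : finrank ℝ E = r := by
    rw [← ZLattice.rank ℝ L, finrank_eq_card_basis b, Fintype.card_fin]
  let b₀ : OrthonormalBasis (Fin r) ℝ E := (stdOrthonormalBasis ℝ E).reindex (finCongr hr)
  rw [ZLattice.covolume_eq_det_mul_measureReal L volume b b₀.toBasis,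
    measureReal_congr (ZSpan.fundamentalDomain_ae_parallelepiped b₀.toBasis volume)]
  have h1 : volume.real (parallelepiped b₀.toBasis) = 1 := by
    rw [Measure.real]
    have := b₀.volume_parallelepiped
    rw [OrthonormalBasis.coe_toBasis, this]
    simp
  rw [h1, mul_one, sq_abs]
  have h2 := Matrix.gram_eq_conjTranspose_mul (𝕜 := ℝ) b₀ (fun i => (b i : E))
  have h3 : (Matrix.of fun i j => inner ℝ (b i : E) (b j : E)) =
      Matrix.gram ℝ (fun i => (b i : E)) := rfl
  rw [h3, h2, Matrix.det_mul, Matrix.det_conjTranspose, star_trivial, ← sq, Basis.det_apply]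
  rfl

/-- `P` is a basis of the group modulo torsion -/
def IsBasisModTors {A : Type} [AddCommGroup A] {r : ℕ} (P : Fin r → A) : Prop :=
  ∀ R : A, ∃! m : Fin r → ℤ, IsOfFinAddOrder (R - ∑ i, m i • P i)

/-- The number of elements of bounded norm in a finitely generated group mapped to a Euclidean
space with finite preimages of balls, with the constant. -/
theorem group_count' {A : Type} [AddCommGroup A] {n : ℕ}
    (ψ : A →+ EuclideanSpace ℝ (Fin n)) (hfin : ∀ T : ℝ, {P : A | ‖ψ P‖ ^ 2 ≤ T}.Finite)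
    {r : ℕ} (p : Fin r → A) (hp : IsBasisModTors p) :
    Finite {P : A // IsOfFinAddOrder P} ∧
    0 < (Matrix.of fun i j => inner ℝ (ψ (p i)) (ψ (p j))).det ∧
    Tendsto (fun T : ℝ =>
      (Nat.card {P : A // ‖ψ P‖ ^ 2 ≤ T} : ℝ) / T ^ ((r : ℝ) / 2)) atTop
      (𝓝 (Nat.card {P : A // IsOfFinAddOrder P} * ballVol r /
        √(Matrix.of fun i j => inner ℝ (ψ (p i)) (ψ (p j))).det)) := by
  classical
  -- the span of the image
  set V : Submodule ℝ (EuclideanSpace ℝ (Fin n)) := Submodule.span ℝ (Set.range ψ) with hV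
  let φ : A →+ V := AddMonoidHom.codRestrict ψ V.toAddSubgroup
    (fun P => Submodule.subset_span ⟨P, rfl⟩)
  have hφ : ∀ P, ((φ P : V) : EuclideanSpace ℝ (Fin n)) = ψ P := fun P => rfl
  have hφn : ∀ P, ‖φ P‖ = ‖ψ P‖ := fun P => rfl
  let L : Submodule ℤ V := LinearMap.range φ.toIntLinearMap
  have hLmem : ∀ v : V, v ∈ L ↔ ∃ P, φ P = v := fun v => Iff.rfl
  -- finiteness of bounded sets
  have hfinL : ∀ T : ℝ, {v : L | ‖(v : V)‖ ^ 2 ≤ T}.Finite := by
    intro T
    have h1 : ((fun P : A => (⟨φ P, P, rfl⟩ : L)) '' {P : A | ‖ψ P‖ ^ 2 ≤ T}).Finite :=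
      (hfin T).image _
    refine h1.subset ?_
    rintro ⟨v, P, rfl⟩ hv
    exact ⟨P, hv, rfl⟩
  have hdisc : DiscreteTopology L := by
    rw [discreteTopology_iff_isOpen_singleton_zero, Metric.isOpen_singleton_iff]
    have h1 := hfinL 1
    set S : Set L := {v : L | ‖(v : V)‖ ^ 2 ≤ 1} \ {0} with hS
    have hSf : S.Finite := h1.subset Set.sdiff_subset
    have hpos : ∀ v ∈ S, 0 < ‖(v : V)‖ := by
      intro v hv
      rw [norm_pos_iff]
      intro h0
      exact hv.2 (Subtype.ext h0)
    obtain ⟨ε, hε, hεS⟩ : ∃ ε : ℝ, 0 < ε ∧ ∀ v ∈ S, ε ≤ ‖(v : V)‖ := by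
      rcases S.eq_empty_or_nonempty with h0 | h0
      · exact ⟨1, one_pos, fun v hv => absurd hv (by rw [h0]; exact Set.notMem_empty v)⟩
      · obtain ⟨v0, hv0, hmin⟩ := Set.exists_min_image S (fun v => ‖(v : V)‖) hSf h0
        exact ⟨‖(v0 : V)‖, hpos v0 hv0, fun v hv => hmin v hv⟩
    refine ⟨min ε 1, by positivity, fun y hy => ?_⟩
    by_contra hne
    have hn : ‖(y : V)‖ < min ε 1 := by
      have h2 : dist y 0 = ‖(y : V)‖ := by
        rw [dist_zero_right]
        rfl
      rwa [h2] at hy
    have h3 : y ∈ S := by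
      refine ⟨?_, hne⟩
      have h4 : ‖(y : V)‖ ≤ 1 := (hn.trans_le (min_le_right _ _)).le
      show ‖(y : V)‖ ^ 2 ≤ 1
      exact pow_le_one₀ (norm_nonneg _) h4
    have h5 := hεS y h3
    have h6 := hn.trans_le (min_le_left _ _)
    linarith
  have hspan : IsZLattice ℝ L := by
    refine ⟨?_⟩
    rw [eq_top_iff]
    rintro ⟨v, hv⟩ -
    have h1 : ∀ w : EuclideanSpace ℝ (Fin n), ∀ hw : w ∈ Submodule.span ℝ (Set.range ψ),
        (⟨w, hw⟩ : V) ∈ Submodule.span ℝ (L : Set V) := by
      intro w hw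
      induction hw using Submodule.span_induction with
      | mem x hx =>
        obtain ⟨P, rfl⟩ := hx
        exact Submodule.subset_span ⟨P, rfl⟩
      | zero => exact Submodule.zero_mem _
      | add x y hx hy h1 h2 => exact Submodule.add_mem _ h1 h2
      | smul c x hx h1 => exact Submodule.smul_mem _ c h1
    exact h1 v hv
  -- the kernel
  let f : A →ₗ[ℤ] L := φ.toIntLinearMap.rangeRestrict
  have hfs : Function.Surjective f := LinearMap.surjective_rangeRestrict _
  have hkerfin : Finite (LinearMap.ker f) := by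
    have h1 := hfin 0
    refine Set.Finite.subset h1 ?_
    intro P hP
    have h2 : f P = 0 := hP
    have h3 : ψ P = 0 := by
      have := congrArg (fun v : L => ((v : V) : EuclideanSpace ℝ (Fin n))) h2
      exact this
    show ‖ψ P‖ ^ 2 ≤ 0
    rw [h3]
    simp
  -- the kernel is the torsion
  have hker : ∀ P : A, P ∈ LinearMap.ker f ↔ IsOfFinAddOrder P := by
    intro P
    constructor
    · intro hP
      have h1 := isOfFinAddOrder_of_finite (⟨P, hP⟩ : LinearMap.ker f)
      rw [isOfFinAddOrder_iff_nsmul_eq_zero] at h1 ⊢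
      obtain ⟨m, hm, hx⟩ := h1
      exact ⟨m, hm, congrArg Subtype.val hx⟩
    · intro hP
      rw [isOfFinAddOrder_iff_nsmul_eq_zero] at hP
      obtain ⟨m, hm, hx⟩ := hP
      rw [LinearMap.mem_ker]
      apply Subtype.ext
      apply Subtype.ext
      show ψ P = 0
      have h2 : (m : ℝ) • ψ P = 0 := by
        rw [Nat.cast_smul_eq_nsmul, ← map_nsmul, hx, map_zero]
      rcases smul_eq_zero.1 h2 with h3 | h3
      · exact absurd (by exact_mod_cast h3) hm.ne'
      · exact h3
  have htors : Finite {P : A // IsOfFinAddOrder P} := by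
    refine Finite.of_injective (β := LinearMap.ker f) (fun P => ⟨P.1, (hker P.1).2 P.2⟩) ?_
    rintro ⟨P, hP⟩ ⟨Q, hQ⟩ h
    have h1 := congrArg Subtype.val h
    exact Subtype.ext h1
  -- the basis of the lattice
  have hfsum : ∀ (m : Fin r → ℤ), f (∑ i, m i • p i) = ∑ i, m i • f (p i) := by
    intro m
    rw [map_sum]
    exact Finset.sum_congr rfl fun i _ => map_zsmul _ _ _
  let b : Basis (Fin r) ℤ L := by
    refine Basis.mk (v := fun i => f (p i)) ?_ ?_
    · rw [Fintype.linearIndependent_iff]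
      intro m hm
      have h1 : (∑ i, m i • p i) ∈ LinearMap.ker f := by
        rw [LinearMap.mem_ker, hfsum, hm]
      rw [hker] at h1
      obtain ⟨m0, hm0, huniq⟩ := hp (∑ i, m i • p i)
      have h2 := huniq m (by simp only [sub_self]; exact IsOfFinAddOrder.zero)
      have h3 := huniq 0 (by simpa using h1)
      have h4 : m = 0 := by rw [h2, h3]
      intro i
      rw [h4]
      rfl
    · rintro v -
      obtain ⟨R, rfl⟩ := hfs v
      obtain ⟨m, hm, -⟩ := hp R
      have h1 := (hker _).2 hm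
      rw [LinearMap.mem_ker, map_sub, sub_eq_zero] at h1
      rw [h1, hfsum]
      refine Submodule.sum_mem _ fun i _ => Submodule.smul_mem _ _ (Submodule.subset_span ⟨i, rfl⟩)
  have hb : ∀ i, b i = f (p i) := fun i => Basis.mk_apply _ _ _
  have hrank : finrank ℝ V = r := by
    rw [← ZLattice.rank ℝ L, finrank_eq_card_basis b, Fintype.card_fin]
  have hdet : (Matrix.of fun i j => inner ℝ (ψ (p i)) (ψ (p j))).det =
      ZLattice.covolume L ^ 2 := by
    rw [← covolume_sq L b]
    congr 1
    ext i j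
    rw [Matrix.of_apply, Matrix.of_apply, hb, hb]
    rfl
  have hcov := ZLattice.covolume_pos L volume
  refine ⟨htors, by rw [hdet]; positivity, ?_⟩
  rw [hdet, Real.sqrt_sq hcov.le]
  have hlim := lattice_count' L
  rw [hrank] at hlim
  have hk : Nat.card {P : A // IsOfFinAddOrder P} = Nat.card (LinearMap.ker f) :=
    Nat.card_congr (Equiv.subtypeEquivRight fun P => (hker P).symm)
  rw [hk]
  set k : ℕ := Nat.card (LinearMap.ker f) with hk
  rw [mul_div_assoc]
  refine (hlim.const_mul (k : ℝ)).congr fun T => ?_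
  rw [← mul_div_assoc]
  congr 1
  rw [← Nat.cast_mul, ← Nat.card_prod]
  congr 1
  -- a section
  have hfs' := hfs
  choose s hs using hfs'
  have hkm : ∀ P : A, P - s (f P) ∈ LinearMap.ker f := by
    intro P
    rw [LinearMap.mem_ker, map_sub, hs, sub_self]
  have hnorm : ∀ P : A, ‖((f P : L) : V)‖ = ‖ψ P‖ := fun P => rfl
  refine Nat.card_congr
    { toFun := fun x => ⟨x.1.1 + s x.2.1, ?_⟩
      invFun := fun P => ⟨⟨P.1 - s (f P.1), hkm P.1⟩, ⟨f P.1, by rw [hnorm]; exact P.2⟩⟩
      left_inv := ?_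
      right_inv := ?_ }
  · have h1 : f (x.1.1 + s x.2.1) = x.2.1 := by
      rw [map_add, hs, LinearMap.mem_ker.1 x.1.2, zero_add]
    rw [← hnorm, h1]
    exact x.2.2
  · rintro ⟨⟨a, ha⟩, ⟨v, hv⟩⟩
    have h1 : f (a + s v) = v := by
      rw [map_add, hs, LinearMap.mem_ker.1 ha, zero_add]
    ext1
    · apply Subtype.ext
      show a + s v - s (f (a + s v)) = a
      rw [h1, add_sub_cancel_right]
    · apply Subtype.ext
      exact h1
  · rintro ⟨P, hP⟩
    apply Subtype.ext
    show P - s (f P) + s (f P) = P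
    rw [sub_add_cancel]

end Pool.Agent.R376.Ner
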