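import Pool.Agent.R376.NerA
import Pool.Agent.R376.NerF
import Pool.Agent.H437R2.Man.MWWeak
import Pool.Agent.H64R2.DD_MWK

/-!
# Néron-Tate heights and Néron's theorem over number fields
-/

set_option autoImplicit false

open Filter Topology Module WeierstrassCurve Height Polynomial

namespace Pool.Agent.R376.Ner

/-- **Mordell-Weil** for `y² = x³ + A x + B` over a number field -/
theorem fg_pt {K : Type} [Field K] [NumberField K] [DecidableEq K] {A B : K}
    (hab : 4 * A ^ 3 + 27 * B ^ 2 ≠ 0) : AddGroup.FG (Pt A B) := by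
  let P : Cubic K := ⟨1, 0, A, B⟩
  let L : Type := P.toPoly.SplittingField
  have : NumberField L := NumberField.of_module_finite K L
  classical
  have ha : P.a ≠ 0 := one_ne_zero
  have hsp : Splits (P.toPoly.map (algebraMap K L)) := SplittingField.splits P.toPoly
  obtain ⟨x, y, z, h3⟩ := (Cubic.splits_iff_roots_eq_three ha).1 hsp
  have hdisc : P.discr ≠ 0 := by
    have h : P.discr = -(4 * A ^ 3 + 27 * B ^ 2) := by
      simp only [Cubic.discr, P]
      ring
    rw [h, neg_ne_zero]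
    exact hab
  obtain ⟨hxy, hxz, hyz⟩ := (Cubic.discr_ne_zero_iff_roots_ne ha h3).1 hdisc
  have hb := Cubic.b_eq_three_roots ha h3
  have hc := Cubic.c_eq_three_roots ha h3
  have hd := Cubic.d_eq_three_roots ha h3
  simp only [P, map_one, map_zero, one_mul] at hb hc hd
  have hK : AddGroup.FG (Pool.Agent.H437R2.Man.MW.crv (-x) (-y) (-z)).toAffine.Point :=
    Pool.Agent.H437R2.Man.MW.pt_fg (fun h => hxy (neg_injective h)) (fun h => hxz (neg_injective h))
      (fun h => hyz (neg_injective h))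
  have heq : (Pool.Agent.H437R2.Man.MW.crv (-x) (-y) (-z)).toAffine =
      ((cv A B).baseChange L) := by
    apply WeierstrassCurve.ext
    · change (0 : L) = algebraMap K L 0
      rw [map_zero]
    · change -x + -y + -z = algebraMap K L 0
      rw [map_zero]
      linear_combination -hb
    · change (0 : L) = algebraMap K L 0
      rw [map_zero]
    · change -x * -y + -x * -z + -y * -z = algebraMap K L A
      linear_combination -hc
    · change -x * -y * -z = algebraMap K L B
      linear_combination -hd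
  have hK' : AddGroup.FG ((cv A B).baseChange L).toAffine.Point :=
    Pool.Agent.H64R2.DDMWK.fg_of_eq heq hK
  have hinj := WeierstrassCurve.Affine.Point.map_injective (W' := cv A B)
    (Algebra.ofId K L)
  exact Pool.Agent.H64R2.DDMWK.fg_of_inj _ hinj hK'

/-- every finitely generated group has a basis modulo torsion -/
theorem exists_basis {A : Type} [AddCommGroup A] (hA : AddGroup.FG A) :
    ∃ p : Fin (finrank ℤ A) → A, IsBasisModTors p := by
  have hmf : Module.Finite ℤ A := Module.Finite.iff_addGroup_fg.mpr hA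
  set Q := A ⧸ Submodule.torsion ℤ A with hQ
  have hfree : Module.Free ℤ Q := inferInstance
  have hr : finrank ℤ Q = finrank ℤ A := by
    have h1 := Submodule.finrank_quotient_add_finrank (Submodule.torsion ℤ A)
    have h2 : finrank ℤ (Submodule.torsion ℤ A) = 0 :=
      Module.finrank_eq_zero_iff_isTorsion.mpr Submodule.torsion_isTorsion
    rw [h2, add_zero] at h1
    exact h1
  let b : Basis (Fin (finrank ℤ A)) ℤ Q := Module.finBasisOfFinrankEq ℤ Q hr
  have hs : Function.Surjective (Submodule.mkQ (Submodule.torsion ℤ A)) :=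
    Submodule.mkQ_surjective _
  choose g hg using hs
  refine ⟨fun i => g (b i), fun R => ?_⟩
  have htor : ∀ x : A, x ∈ Submodule.torsion ℤ A ↔ IsOfFinAddOrder x := by
    intro x
    rw [isOfFinAddOrder_iff_zsmul_eq_zero, Submodule.mem_torsion_iff]
    constructor
    · rintro ⟨⟨n, hn⟩, h⟩
      exact ⟨n, nonZeroDivisors.ne_zero hn, h⟩
    · rintro ⟨n, hn, h⟩
      exact ⟨⟨n, mem_nonZeroDivisors_of_ne_zero hn⟩, h⟩
  have key : ∀ m : Fin (finrank ℤ A) → ℤ, IsOfFinAddOrder (R - ∑ i, m i • g (b i)) ↔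
      Submodule.mkQ (Submodule.torsion ℤ A) R = ∑ i, m i • b i := by
    intro m
    have h1 : ∀ x : A, x ∈ Submodule.torsion ℤ A ↔ Submodule.mkQ (Submodule.torsion ℤ A) x = 0 := by
      intro x
      rw [Submodule.mkQ_apply, Submodule.Quotient.mk_eq_zero]
    have h2 : Submodule.mkQ (Submodule.torsion ℤ A) (∑ i, m i • g (b i)) = ∑ i, m i • b i := by
      rw [map_sum]
      refine Finset.sum_congr rfl fun i _ => ?_
      rw [map_zsmul, hg]
    rw [← htor, h1, map_sub, sub_eq_zero, h2]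
  refine ⟨fun i => b.repr (Submodule.mkQ (Submodule.torsion ℤ A) R) i, ?_, ?_⟩
  · show IsOfFinAddOrder _
    rw [key, b.sum_repr]
  · intro m hm
    have h1 := (key m).1 hm
    funext i
    rw [h1, b.repr_sum_self]

section nt

variable {K : Type} [Field K] [NumberField K] [DecidableEq K] {A B : K}

/-- the Néron-Tate height relative to `K`: `lim 4^{-n} h_K(x(2^n P))` -/
noncomputable def nt (P : Pt A B) : ℝ :=
  limUnder atTop fun n : ℕ => ht (2 ^ n • P) / 4 ^ n

/-- the Néron-Tate pairing `(ĥ(P + Q) - ĥ(P) - ĥ(Q)) / 2` -/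
noncomputable def ntPair (P Q : Pt A B) : ℝ := (nt (P + Q) - nt P - nt Q) / 2

/-- the determinant of the height pairing -/
noncomputable def regDet {r : ℕ} (P : Fin r → Pt A B) : ℝ :=
  (Matrix.of fun i j => ntPair (P i) (P j)).det

theorem exists_embedK (hd : 4 * A ^ 3 + 27 * B ^ 2 ≠ 0) :
    ∃ (n : ℕ) (ψ : Pt A B →+ EuclideanSpace ℝ (Fin n)) (C : ℝ), 0 ≤ C ∧
      (∀ P : Pt A B, ‖ψ P‖ ^ 2 = nt P) ∧ (∀ P : Pt A B, |nt P - ht P| ≤ C) ∧
      ∀ P : Pt A B, Tendsto (fun n : ℕ => ht (2 ^ n • P) / 4 ^ n) atTop (𝓝 (nt P)) := by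
  have hfg : AddGroup.FG (Pt A B) := fg_pt hd
  obtain ⟨C, hC0, hC⟩ := par_law hd
  obtain ⟨q, C', hq1, hq2, hq3⟩ := Pool.Agent.H437R2.Man.MW.canon
    (fun P : Pt A B => ht P) C (fun P => ht_nonneg P) hC
  obtain ⟨n, ψ, hψ⟩ := Pool.Agent.H437R2.Man.MW.embed hfg q hq2 hq3
  have hC'0 : 0 ≤ C' := (abs_nonneg _).trans (hq1 0)
  have hlim : ∀ P : Pt A B, Tendsto (fun n : ℕ => ht (2 ^ n • P) / 4 ^ n) atTop (𝓝 (q P)) := by
    intro P
    rw [tendsto_iff_norm_sub_tendsto_zero]
    have h4 : Tendsto (fun k : ℕ => C' / 4 ^ k) atTop (𝓝 0) :=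
      tendsto_const_nhds.div_atTop (tendsto_pow_atTop_atTop_of_one_lt (by norm_num))
    refine squeeze_zero (fun _ => norm_nonneg _) (fun k => ?_) h4
    have h5 : q (2 ^ k • P) = 4 ^ k * q P := by
      rw [← hψ, ← hψ, map_nsmul, ← Nat.cast_smul_eq_nsmul ℝ, norm_smul, mul_pow]
      congr 1
      rw [Real.norm_of_nonneg (by positivity)]
      push_cast
      rw [← pow_mul, mul_comm, pow_mul]
      norm_num
    have h6 := hq1 (2 ^ k • P)
    have h7 : ht (2 ^ k • P) / 4 ^ k - q P = -(q (2 ^ k • P) - ht (2 ^ k • P)) / 4 ^ k := by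
      rw [h5]
      field_simp
      ring
    rw [h7, norm_div, norm_neg, Real.norm_eq_abs, Real.norm_of_nonneg (by positivity)]
    gcongr
  have hnt : ∀ P : Pt A B, nt P = q P := fun P => (hlim P).limUnder_eq
  refine ⟨n, ψ, C', hC'0, fun P => by rw [hnt, hψ], fun P => by rw [hnt]; exact hq1 P,
    fun P => by rw [hnt]; exact hlim P⟩

/-- **Néron's theorem** with the constant, over number fields -/
theorem neronK (hd : 4 * A ^ 3 + 27 * B ^ 2 ≠ 0) {r : ℕ} (p : Fin r → Pt A B)
    (hp : IsBasisModTors p) :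
    Finite {P : Pt A B // IsOfFinAddOrder P} ∧ 0 < regDet p ∧
    Tendsto (fun T : ℝ => (Nat.card {P : Pt A B // ht P ≤ T} : ℝ) / T ^ ((r : ℝ) / 2)) atTop
      (𝓝 (Nat.card {P : Pt A B // IsOfFinAddOrder P} * ballVol r / √(regDet p))) := by
  obtain ⟨n, ψ, C, hC0, hψ, hC, -⟩ := exists_embedK hd
  have hfin : ∀ T : ℝ, {P : Pt A B | ‖ψ P‖ ^ 2 ≤ T}.Finite := by
    intro T
    refine (finite_ht (T + C)).subset fun P hP => ?_
    have h1 := abs_le.1 (hC P)
    have h2 : ‖ψ P‖ ^ 2 ≤ T := hP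
    rw [hψ] at h2
    show ht P ≤ T + C
    linarith [h1.1]
  obtain ⟨h1, h2, hlim⟩ := group_count' ψ hfin p hp
  have hreg : (Matrix.of fun i j => inner ℝ (ψ (p i)) (ψ (p j))).det = regDet p := by
    unfold regDet
    congr 1
    ext i j
    rw [Matrix.of_apply, Matrix.of_apply, ntPair, ← hψ, ← hψ, ← hψ, map_add]
    rw [real_inner_eq_norm_add_mul_self_sub_norm_mul_self_sub_norm_mul_self_div_two]
    ring
  rw [hreg] at h2 hlim
  refine ⟨h1, h2, ?_⟩
  set κ := Nat.card {P : Pt A B // IsOfFinAddOrder P} * ballVol r / √(regDet p) with hκ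
  set s : ℝ := (r : ℝ) / 2 with hs
  have hs0 : 0 ≤ s := by positivity
  set f : ℝ → ℝ := fun T => (Nat.card {P : Pt A B // ‖ψ P‖ ^ 2 ≤ T} : ℝ) with hf
  have hshift : ∀ c : ℝ, Tendsto (fun T : ℝ => f (T + c) / T ^ s) atTop (𝓝 κ) := by
    intro c
    have h1 : Tendsto (fun T : ℝ => f (T + c) / (T + c) ^ s) atTop (𝓝 κ) :=
      hlim.comp (tendsto_atTop_add_const_right _ c tendsto_id)
    have h2 : Tendsto (fun T : ℝ => ((T + c) / T) ^ s) atTop (𝓝 (1 ^ s)) := by
      refine Tendsto.rpow_const ?_ (Or.inl one_ne_zero)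
      have h3 : Tendsto (fun T : ℝ => 1 + c / T) atTop (𝓝 (1 + 0)) :=
        tendsto_const_nhds.add (tendsto_const_nhds.div_atTop tendsto_id)
      rw [add_zero] at h3
      refine h3.congr' ?_
      filter_upwards [eventually_gt_atTop (0 : ℝ)] with T hT
      field_simp
    have h3 := h1.mul h2
    rw [Real.one_rpow, mul_one] at h3
    refine h3.congr' ?_
    filter_upwards [eventually_gt_atTop (0 : ℝ), eventually_gt_atTop (-c)] with T hT hTc
    have h4 : 0 < T + c := by linarith
    rw [Real.div_rpow h4.le hT.le]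
    have h5 : (T + c) ^ s ≠ 0 := (Real.rpow_pos_of_pos h4 _).ne'
    field_simp
  refine tendsto_of_tendsto_of_tendsto_of_le_of_le' (hshift (-C)) (hshift C) ?_ ?_
  · filter_upwards [eventually_gt_atTop (0 : ℝ)] with T hT
    have h1 : (0 : ℝ) < T ^ s := Real.rpow_pos_of_pos hT _
    refine div_le_div_of_nonneg_right ?_ h1.le
    have hfinP : Finite {P : Pt A B // ht P ≤ T} := finite_ht T
    have key : ∀ P : Pt A B, ‖ψ P‖ ^ 2 ≤ T + -C → ht P ≤ T := by
      intro P hP
      have h3 := (abs_le.1 (hC P)).1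
      rw [hψ] at hP
      linarith
    have h4 := Nat.card_le_card_of_injective
      (fun P : {P : Pt A B // ‖ψ P‖ ^ 2 ≤ T + -C} =>
        (⟨P.1, key P.1 P.2⟩ : {P : Pt A B // ht P ≤ T}))
      (fun P Q h => by
        have h5 := congrArg Subtype.val h
        exact Subtype.ext h5)
    exact (Nat.cast_le (α := ℝ)).2 h4
  · filter_upwards [eventually_gt_atTop (0 : ℝ)] with T hT
    have h1 : (0 : ℝ) < T ^ s := Real.rpow_pos_of_pos hT _
    refine div_le_div_of_nonneg_right ?_ h1.le
    have hfinP : Finite {P : Pt A B // ‖ψ P‖ ^ 2 ≤ T + C} := hfin (T + C)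
    have key : ∀ P : Pt A B, ht P ≤ T → ‖ψ P‖ ^ 2 ≤ T + C := by
      intro P hP
      have h3 := (abs_le.1 (hC P)).2
      rw [hψ]
      linarith
    have h4 := Nat.card_le_card_of_injective
      (fun P : {P : Pt A B // ht P ≤ T} =>
        (⟨P.1, key P.1 P.2⟩ : {P : Pt A B // ‖ψ P‖ ^ 2 ≤ T + C}))
      (fun P Q h => by
        have h5 := congrArg Subtype.val h
        exact Subtype.ext h5)
    exact (Nat.cast_le (α := ℝ)).2 h4

end nt

/-- The number of points of height at most `X` on the projective curve `y² = x³ + A x + B`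
over `K`: the point at infinity and the pairs `(x, y)` of elements of `K` on the curve with
`H_K(x) ≤ X`. -/
noncomputable def ptsK {K : Type} [Field K] [NumberField K] (A B : K) (X : ℝ) : ℕ :=
  1 + Nat.card {q : K × K // q.2 ^ 2 = q.1 ^ 3 + A * q.1 + B ∧ mulHeight₁ q.1 ≤ X}

theorem ptsK_eq {K : Type} [Field K] [NumberField K] {A B : K}
    (hd : 4 * A ^ 3 + 27 * B ^ 2 ≠ 0) {X : ℝ} (hX : 1 ≤ X) :
    ptsK A B X = Nat.card {P : Pt A B // ht P ≤ Real.log X} := by
  have hB0 : 0 < X := by linarith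
  have hlog : 0 ≤ Real.log X := Real.log_nonneg hX
  have hiff : ∀ x : K, logHeight₁ x ≤ Real.log X ↔ mulHeight₁ x ≤ X := by
    intro x
    unfold logHeight₁
    exact Real.log_le_log_iff (lt_of_lt_of_le one_pos (one_le_mulHeight₁ x)) hB0
  set S := {q : K × K // q.2 ^ 2 = q.1 ^ 3 + A * q.1 + B ∧ mulHeight₁ q.1 ≤ X} with hS
  have hfinP : Finite {P : Pt A B // ht P ≤ Real.log X} := finite_ht (Real.log X)
  let toP : S → {P : Pt A B // ht P ≤ Real.log X} := fun q =>
    ⟨Affine.Point.some q.1.1 q.1.2 (cv_nonsing hd q.2.1), by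
      rw [ht_some]
      exact (hiff _).2 q.2.2⟩
  have hinj : Function.Injective toP := by
    rintro ⟨⟨x, y⟩, h⟩ ⟨⟨x', y'⟩, h'⟩ hh
    have h1 := congrArg Subtype.val hh
    simp only [toP, Affine.Point.some.injEq] at h1
    exact Subtype.ext (Prod.ext h1.1 h1.2)
  have hfinS : Finite S := Finite.of_injective toP hinj
  let F : Option S → {P : Pt A B // ht P ≤ Real.log X} := fun o =>
    match o with
    | none => ⟨0, by rw [ht_zero]; exact hlog⟩
    | some q => toP q
  have hF : Function.Bijective F := by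
    constructor
    · rintro (_ | q) (_ | q') h
      · rfl
      · exact absurd (congrArg Subtype.val h).symm (Affine.Point.some_ne_zero _)
      · exact absurd (congrArg Subtype.val h) (Affine.Point.some_ne_zero _)
      · exact congrArg some (hinj h)
    · rintro ⟨P, hP⟩
      match P, hP with
      | 0, _ => exact ⟨none, rfl⟩
      | .some x y h, hP =>
        refine ⟨some ⟨(x, y), cv_eqn.1 h.1, ?_⟩, rfl⟩
        rw [ht_some] at hP
        exact (hiff _).1 hP
  rw [← Nat.card_eq_of_bijective F hF, Finite.card_option, ptsK, add_comm]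

end Pool.Agent.R376.Ner
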