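import Mathlib

/-! Nikodym boundedness theorem for finitely additive bounded measures on a power set
(gliding hump). -/

namespace Pool.Agent.R376.Nk

open Set

/-- finite additivity on all subsets -/
def FinAdd {X : Type*} (ν : Set X → ℝ) : Prop := ∀ A B, Disjoint A B → ν (A ∪ B) = ν A + ν B

lemma FinAdd.empty {X : Type*} {ν : Set X → ℝ} (h : FinAdd ν) : ν ∅ = 0 := by
  have := h ∅ ∅ (by simp)
  simp only [union_empty] at this
  linarith

lemma FinAdd.biUnion {X ι : Type*} {ν : Set X → ℝ} (h : FinAdd ν) (s : Finset ι) (A : ι → Set X)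
    (hd : (s : Set ι).PairwiseDisjoint A) : ν (⋃ i ∈ s, A i) = ∑ i ∈ s, ν (A i) := by
  classical
  induction s using Finset.induction_on with
  | empty => simp [h.empty]
  | insert a s ha ih =>
    rw [Finset.set_biUnion_insert, Finset.sum_insert ha, h, ih]
    · exact hd.subset (by simp)
    · rw [Set.disjoint_iUnion₂_right]
      intro i hi
      apply hd (by simp) (by simp [hi])
      rintro rfl
      exact ha hi

lemma FinAdd.sum_abs_le {X ι : Type*} {ν : Set X → ℝ} (h : FinAdd ν) (B : ℝ)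
    (hB : ∀ A, |ν A| ≤ B) (s : Finset ι) (A : ι → Set X)
    (hd : (s : Set ι).PairwiseDisjoint A) : ∑ i ∈ s, |ν (A i)| ≤ 2 * B := by
  classical
  rw [← Finset.sum_filter_add_sum_filter_not s (fun i => 0 ≤ ν (A i))]
  have h1 : ∑ i ∈ s with 0 ≤ ν (A i), |ν (A i)| = ν (⋃ i ∈ s.filter (fun i => 0 ≤ ν (A i)), A i) := by
    rw [h.biUnion _ _ (hd.subset (Finset.coe_subset.2 (Finset.filter_subset _ _)))]
    apply Finset.sum_congr rfl
    intro i hi
    rw [Finset.mem_filter] at hi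
    exact abs_of_nonneg hi.2
  have h2 : ∑ i ∈ s with ¬ 0 ≤ ν (A i), |ν (A i)|
      = - ν (⋃ i ∈ s.filter (fun i => ¬ 0 ≤ ν (A i)), A i) := by
    rw [h.biUnion _ _ (hd.subset (Finset.coe_subset.2 (Finset.filter_subset _ _))),
      ← Finset.sum_neg_distrib]
    apply Finset.sum_congr rfl
    intro i hi
    rw [Finset.mem_filter] at hi
    exact abs_of_neg (not_le.1 hi.2)
  rw [h1, h2]
  have h3 := (abs_le.1 (hB (⋃ i ∈ s.filter (fun i => 0 ≤ ν (A i)), A i))).2
  have h4 := (abs_le.1 (hB (⋃ i ∈ s.filter (fun i => ¬ 0 ≤ ν (A i)), A i))).1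
  linarith

/-- thinning -/
lemma thin (ν : Set ℕ → ℝ) (h : FinAdd ν) (B : ℝ) (hB : ∀ A, |ν A| ≤ B) (M : Set ℕ)
    (hM : M.Infinite) : ∃ M', M' ⊆ M ∧ M'.Infinite ∧ ∀ M'', M'' ⊆ M' → |ν M''| ≤ 1 := by
  classical
  have hf : StrictMono (Nat.nth (· ∈ M)) := Nat.nth_strictMono hM
  have hfM : ∀ n, Nat.nth (· ∈ M) n ∈ M := fun n => Nat.nth_mem_of_infinite hM n
  set f := Nat.nth (· ∈ M) with hfdef
  set P : ℕ → Set ℕ := fun j => range (fun m => f (Nat.pair j m)) with hP
  have hPM : ∀ j, P j ⊆ M := by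
    rintro j _ ⟨m, rfl⟩
    exact hfM _
  have hPinf : ∀ j, (P j).Infinite := by
    intro j
    apply Set.infinite_range_of_injective
    intro a b hab
    have := hf.injective hab
    exact (Nat.pair_eq_pair.1 this).2
  by_contra hcon
  push Not at hcon
  have hbad : ∀ j, ∃ M'', M'' ⊆ P j ∧ 1 < |ν M''| := fun j => hcon (P j) (hPM j) (hPinf j)
  choose Q hQ1 hQ2 using hbad
  obtain ⟨N, hN⟩ := exists_nat_gt (2 * B)
  have hdisj : ((Finset.range N : Finset ℕ) : Set ℕ).PairwiseDisjoint Q := by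
    intro a _ b _ hab
    refine Disjoint.mono (hQ1 a) (hQ1 b) ?_
    rw [Set.disjoint_left]
    rintro x ⟨m, rfl⟩ ⟨m', hm'⟩
    have := hf.injective hm'
    exact hab (Nat.pair_eq_pair.1 this).1.symm
  have h1 := h.sum_abs_le B hB (Finset.range N) Q hdisj
  have h2 : (N : ℝ) ≤ ∑ i ∈ Finset.range N, |ν (Q i)| := by
    calc (N : ℝ) = ∑ _i ∈ Finset.range N, (1 : ℝ) := by simp
      _ ≤ _ := Finset.sum_le_sum (fun i _ => (hQ2 i).le)
  linarith

lemma thin' (ν : Set ℕ → ℝ) (h : FinAdd ν) (hB : ∃ B, ∀ A, |ν A| ≤ B) (M : Set ℕ)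
    (hM : M.Infinite) : ∃ M', M' ⊆ M ∧ M'.Infinite ∧ (∀ x ∈ M', sInf M < x) ∧
      ∀ M'', M'' ⊆ M' → |ν M''| ≤ 1 := by
  obtain ⟨B, hB⟩ := hB
  have hinf : (M ∩ Ioi (sInf M)).Infinite := by
    have h1 : M ⊆ (M ∩ Ioi (sInf M)) ∪ Iic (sInf M) := by
      intro x hx
      rcases lt_or_ge (sInf M) x with h | h
      · exact Or.inl ⟨hx, h⟩
      · exact Or.inr h
    by_contra hcon
    rw [Set.not_infinite] at hcon
    exact hM ((hcon.union (Set.finite_Iic _)).subset h1)
  obtain ⟨M', h1, h2, h3⟩ := thin ν h B hB _ hinf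
  exact ⟨M', fun x hx => (h1 hx).1, h2, fun x hx => (h1 hx).2, h3⟩

/-- the gliding hump on singletons -/
lemma hump (ν : ℕ → Set ℕ → ℝ) (h : ∀ k, FinAdd (ν k)) (hB : ∀ k, ∃ B, ∀ A, |ν k A| ≤ B)
    (b : ℕ → ℝ) (hb : ∀ m j, |ν m {j}| ≤ b j)
    (hbig : ∀ k : ℕ, (∑ j ∈ Finset.range k, b j) + k + 1 < |ν k {k}|) :
    ∃ K : Set ℕ, ∀ C : ℝ, ∃ k, C < |ν k K| := by
  classical
  have hstep : ∀ M : {M : Set ℕ // M.Infinite}, ∃ M' : {M : Set ℕ // M.Infinite},
      M'.1 ⊆ M.1 ∧ (∀ x ∈ M'.1, sInf M.1 < x) ∧ ∀ M'', M'' ⊆ M'.1 → |ν (sInf M.1) M''| ≤ 1 := by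
    intro M
    obtain ⟨M', h1, h2, h3, h4⟩ := thin' (ν (sInf M.1)) (h _) (hB _) M.1 M.2
    exact ⟨⟨M', h2⟩, h1, h3, h4⟩
  choose next hn1 hn2 hn3 using hstep
  set Ms : ℕ → {M : Set ℕ // M.Infinite} :=
    fun i => Nat.rec ⟨univ, Set.infinite_univ⟩ (fun _ M => next M) i with hMs
  have hMs1 : ∀ i, Ms (i + 1) = next (Ms i) := fun i => rfl
  set ks : ℕ → ℕ := fun i => sInf (Ms i).1 with hks
  have hmem : ∀ i, ks i ∈ (Ms i).1 := fun i => Nat.sInf_mem (Ms i).2.nonempty
  have hmono : ∀ i j, i ≤ j → (Ms j).1 ⊆ (Ms i).1 := by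
    intro i j hij
    induction j, hij using Nat.le_induction with
    | base => exact le_rfl
    | succ j _ ih =>
      rw [hMs1]
      exact (hn1 _).trans ih
  have hlt : ∀ i, ks i < ks (i + 1) := by
    intro i
    have := hmem (i + 1)
    rw [hMs1] at this
    exact hn2 _ _ this
  have hsm : StrictMono ks := strictMono_nat_of_lt_succ hlt
  refine ⟨range ks, ?_⟩
  intro C
  obtain ⟨i, hi⟩ := exists_nat_gt C
  refine ⟨ks i, ?_⟩
  have hK : range ks = (range ks ∩ Iio (ks i)) ∪ ({ks i} ∪ (range ks ∩ Ioi (ks i))) := by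
    ext x
    simp only [mem_union, mem_inter_iff, mem_Iio, mem_singleton_iff, mem_Ioi]
    constructor
    · intro hx
      rcases lt_trichotomy x (ks i) with h | h | h
      · exact Or.inl ⟨hx, h⟩
      · exact Or.inr (Or.inl h)
      · exact Or.inr (Or.inr ⟨hx, h⟩)
    · rintro (h | h | h)
      · exact h.1
      · exact ⟨i, h.symm⟩
      · exact h.1
  have hd1 : Disjoint (range ks ∩ Iio (ks i)) ({ks i} ∪ (range ks ∩ Ioi (ks i))) := by
    rw [Set.disjoint_left]
    rintro x ⟨_, hx⟩ (h | ⟨_, h⟩)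
    · rw [mem_singleton_iff] at h
      rw [mem_Iio] at hx
      omega
    · rw [mem_Ioi] at h
      rw [mem_Iio] at hx
      omega
  have hd2 : Disjoint ({ks i} : Set ℕ) (range ks ∩ Ioi (ks i)) := by
    rw [Set.disjoint_left]
    rintro x h ⟨_, h'⟩
    rw [mem_singleton_iff] at h
    rw [mem_Ioi] at h'
    omega
  have htail : |ν (ks i) (range ks ∩ Ioi (ks i))| ≤ 1 := by
    apply hn3
    rintro x ⟨⟨l, rfl⟩, hl⟩
    have hil : i < l := hsm.lt_iff_lt.1 hl
    have := hmono (i + 1) l hil (hmem l)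
    rwa [hMs1] at this
  have hhead : |ν (ks i) (range ks ∩ Iio (ks i))| ≤ ∑ j ∈ Finset.range (ks i), b j := by
    have e : range ks ∩ Iio (ks i)
        = ⋃ j ∈ (Finset.range (ks i)).filter (· ∈ range ks), ({j} : Set ℕ) := by
      ext x
      simp only [mem_inter_iff, mem_Iio, Finset.mem_filter, Finset.mem_range, mem_iUnion,
        mem_singleton_iff, exists_prop]
      constructor
      · rintro ⟨h1, h2⟩
        exact ⟨x, ⟨h2, h1⟩, rfl⟩
      · rintro ⟨y, ⟨h2, h1⟩, rfl⟩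
        exact ⟨h1, h2⟩
    rw [e, (h (ks i)).biUnion]
    · refine (Finset.abs_sum_le_sum_abs _ _).trans ?_
      refine (Finset.sum_le_sum (fun j _ => hb (ks i) j)).trans ?_
      apply Finset.sum_le_sum_of_subset_of_nonneg (Finset.filter_subset _ _)
      intro j _ _
      exact (abs_nonneg _).trans (hb (ks i) j)
    · intro a _ c _ hac
      simpa using hac
  have hsum : ν (ks i) (range ks) = ν (ks i) (range ks ∩ Iio (ks i))
      + (ν (ks i) {ks i} + ν (ks i) (range ks ∩ Ioi (ks i))) := by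
    rw [← h (ks i) _ _ hd2, ← h (ks i) _ _ hd1, ← hK]
  have hbg := hbig (ks i)
  have hki : (i : ℝ) ≤ ks i := by exact_mod_cast hsm.id_le i
  rw [abs_le] at htail hhead
  rw [hsum, lt_abs]
  rcases lt_abs.1 hbg with h1 | h1
  · left; linarith [htail.1, hhead.1]
  · right; linarith [htail.2, hhead.2]

/-- Nikodym boundedness theorem on a power set -/
theorem nikodym_powerset {X : Type*} (μ : ℕ → Set X → ℝ) (hadd : ∀ n, FinAdd (μ n))
    (hbd : ∀ n, ∃ M, ∀ A, |μ n A| ≤ M) (hpt : ∀ A, ∃ M, ∀ n, |μ n A| ≤ M) :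
    ∃ M, ∀ n A, |μ n A| ≤ M := by
  classical
  by_contra hcon
  push Not at hcon
  choose b hb using hpt
  -- unbounded sets
  set Unb : Set X → Prop := fun E => ∀ C : ℝ, ∃ n A, A ⊆ E ∧ C < |μ n A| with hUnb
  have hU0 : Unb univ := by
    intro C
    obtain ⟨n, A, h⟩ := hcon C
    exact ⟨n, A, subset_univ _, h⟩
  have hsplit : ∀ E A, A ⊆ E → Unb E → Unb A ∨ Unb (E \ A) := by
    intro E A hA hE
    by_contra hno
    push Not at hno
    obtain ⟨h1, h2⟩ := hno
    simp only [hUnb] at h1 h2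
    push Not at h1 h2
    obtain ⟨C1, hC1⟩ := h1
    obtain ⟨C2, hC2⟩ := h2
    obtain ⟨n, B, hB, hlt⟩ := hE (C1 + C2)
    have e : B = (B ∩ A) ∪ (B \ A) := (Set.inter_union_sdiff B A).symm
    have hd : Disjoint (B ∩ A) (B \ A) := by
      rw [Set.disjoint_left]
      rintro x ⟨_, h⟩ ⟨_, h'⟩
      exact h' h
    have h3 := hC1 n (B ∩ A) Set.inter_subset_right
    have h4 := hC2 n (B \ A) (Set.sdiff_subset_sdiff_left hB)
    rw [e, hadd n _ _ hd] at hlt
    have := abs_add_le (μ n (B ∩ A)) (μ n (B \ A))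
    linarith
  have hstep : ∀ (R : {R : Set X // Unb R}) (c : ℝ), ∃ (R' : {R : Set X // Unb R}) (n : ℕ),
      R'.1 ⊆ R.1 ∧ c < |μ n (R.1 \ R'.1)| := by
    intro R c
    obtain ⟨n, A, hA, hlt⟩ := R.2 (|c| + b R.1)
    have hbR := hb R.1 n
    have hb0 : 0 ≤ b R.1 := (abs_nonneg _).trans hbR
    have e : R.1 = A ∪ (R.1 \ A) := (Set.union_sdiff_cancel hA).symm
    have hd : Disjoint A (R.1 \ A) := Set.disjoint_sdiff_right
    have h1 : μ n R.1 = μ n A + μ n (R.1 \ A) := by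
      conv_lhs => rw [e]
      exact hadd n _ _ hd
    have hc : c ≤ |c| := le_abs_self c
    rcases hsplit R.1 A hA R.2 with hU | hU
    · refine ⟨⟨A, hU⟩, n, hA, ?_⟩
      simp only
      have h2 : |μ n A| ≤ |μ n R.1| + |μ n (R.1 \ A)| := by
        have : μ n A = μ n R.1 - μ n (R.1 \ A) := by linarith
        rw [this]
        exact abs_sub _ _
      linarith
    · refine ⟨⟨R.1 \ A, hU⟩, n, Set.sdiff_subset, ?_⟩
      simp only
      rw [Set.sdiff_sdiff_cancel_left hA]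
      linarith
  choose nx ni hnx1 hnx2 using hstep
  set st : ℕ → {R : Set X // Unb R} × ℝ := fun k => Nat.rec (⟨univ, hU0⟩, 1)
    (fun _ s => (nx s.1 s.2, s.2 + b (s.1.1 \ (nx s.1 s.2).1) + 1)) k with hst
  have hst1 : ∀ k, st (k + 1)
      = (nx (st k).1 (st k).2, (st k).2 + b ((st k).1.1 \ (nx (st k).1 (st k).2).1) + 1) :=
    fun k => rfl
  set R : ℕ → Set X := fun k => (st k).1.1 with hR
  have hRs : ∀ k, R (k + 1) ⊆ R k := by
    intro k
    simp only [hR, hst1]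
    exact hnx1 _ _
  have hRm : ∀ i j, i ≤ j → R j ⊆ R i := by
    intro i j hij
    induction j, hij using Nat.le_induction with
    | base => exact le_rfl
    | succ j _ ih => exact (hRs j).trans ih
  set E : ℕ → Set X := fun k => R k \ R (k + 1) with hE
  have hEd : ∀ i j, i < j → Disjoint (E i) (E j) := by
    intro i j hij
    rw [Set.disjoint_left]
    rintro x ⟨_, h1⟩ ⟨h2, _⟩
    exact h1 (hRm (i + 1) j hij h2)
  have hEd' : ∀ i j, i ≠ j → Disjoint (E i) (E j) := by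
    intro i j hij
    rcases lt_or_gt_of_ne hij with h | h
    · exact hEd i j h
    · exact (hEd j i h).symm
  have hc : ∀ k, (st k).2 = (∑ j ∈ Finset.range k, b (E j)) + k + 1 := by
    intro k
    induction k with
    | zero => simp [hst]
    | succ k ih =>
      rw [Finset.sum_range_succ]
      have : (st (k + 1)).2 = (st k).2 + b (E k) + 1 := rfl
      rw [this, ih]
      push_cast
      ring
  set nn : ℕ → ℕ := fun k => ni (st k).1 (st k).2 with hnn
  have hbig : ∀ k : ℕ, (∑ j ∈ Finset.range k, b (E j)) + k + 1 < |μ (nn k) (E k)| := by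
    intro k
    rw [← hc k]
    exact hnx2 _ _
  obtain ⟨K, hK⟩ := hump (fun k M => μ (nn k) (⋃ j ∈ M, E j))
    (by
      intro k A B hAB
      simp only
      rw [Set.biUnion_union]
      apply hadd
      rw [Set.disjoint_left]
      intro x hx hx'
      simp only [mem_iUnion, exists_prop] at hx hx'
      obtain ⟨i, hi, hxi⟩ := hx
      obtain ⟨j, hj, hxj⟩ := hx'
      have hij : i ≠ j := by
        rintro rfl
        exact Set.disjoint_left.1 hAB hi hj
      exact Set.disjoint_left.1 (hEd' i j hij) hxi hxj)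
    (by
      intro k
      obtain ⟨M, hM⟩ := hbd (nn k)
      exact ⟨M, fun A => hM _⟩)
    (fun j => b (E j))
    (by
      intro m j
      simp only [Set.biUnion_singleton]
      exact hb _ _)
    (by
      intro k
      simp only [Set.biUnion_singleton]
      exact hbig k)
  obtain ⟨k, hk⟩ := hK (b (⋃ j ∈ K, E j))
  exact absurd (hb (⋃ j ∈ K, E j) (nn k)) (not_le.2 hk)

end Pool.Agent.R376.Nk
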