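import Pool.Agent.R376.NkA

/-! The ideal of subsets of `ℕ ≅ ℕ × ℕ` whose set of infinite columns has density zero,
and boundedness of pointwise bounded sequences of measures on it. -/

namespace Pool.Agent.R376.Nk

open Set

/-- elements of `S` below `N` -/
noncomputable def cntSet (S : Set ℕ) (N : ℕ) : Finset ℕ :=
  @Finset.filter ℕ (fun n => n ∈ S) (Classical.decPred _) (Finset.range N)

lemma mem_cntSet {S : Set ℕ} {N x : ℕ} : x ∈ cntSet S N ↔ x < N ∧ x ∈ S := by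
  classical
  unfold cntSet
  simp [Finset.mem_filter]

/-- number of elements of `S` below `N` -/
noncomputable def cnt (S : Set ℕ) (N : ℕ) : ℕ := (cntSet S N).card

lemma cnt_mono {S T : Set ℕ} (h : S ⊆ T) (N : ℕ) : cnt S N ≤ cnt T N := by
  unfold cnt
  apply Finset.card_le_card
  intro x hx
  rw [mem_cntSet] at hx ⊢
  exact ⟨hx.1, h hx.2⟩

lemma cnt_union (S T : Set ℕ) (N : ℕ) : cnt (S ∪ T) N ≤ cnt S N + cnt T N := by
  classical
  unfold cnt
  refine le_trans (Finset.card_le_card ?_) (Finset.card_union_le _ _)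
  intro x hx
  rw [mem_cntSet] at hx
  rw [Finset.mem_union, mem_cntSet, mem_cntSet]
  rcases hx.2 with h | h
  · exact Or.inl ⟨hx.1, h⟩
  · exact Or.inr ⟨hx.1, h⟩

/-- density zero sets -/
def Zd : Set (Set ℕ) := {S | ∀ q : ℕ, ∃ N0 : ℕ, ∀ N, N0 ≤ N → q * cnt S N ≤ N}

lemma Zd_mono {S T : Set ℕ} (h : S ⊆ T) (hT : T ∈ Zd) : S ∈ Zd := by
  intro q
  obtain ⟨N0, hN0⟩ := hT q
  exact ⟨N0, fun N hN => (Nat.mul_le_mul_left q (cnt_mono h N)).trans (hN0 N hN)⟩

lemma Zd_union {S T : Set ℕ} (hS : S ∈ Zd) (hT : T ∈ Zd) : S ∪ T ∈ Zd := by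
  intro q
  obtain ⟨N0, hN0⟩ := hS (2 * q)
  obtain ⟨N1, hN1⟩ := hT (2 * q)
  refine ⟨max N0 N1, fun N hN => ?_⟩
  have h0 := hN0 N (le_trans (le_max_left _ _) hN)
  have h1 := hN1 N (le_trans (le_max_right _ _) hN)
  have h2 := Nat.mul_le_mul_left q (cnt_union S T N)
  nlinarith

lemma Zd_finite {S : Set ℕ} (hS : S.Finite) : S ∈ Zd := by
  classical
  intro q
  refine ⟨q * hS.toFinset.card, fun N hN => le_trans (Nat.mul_le_mul_left q ?_) hN⟩
  unfold cnt
  apply Finset.card_le_card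
  intro x hx
  rw [mem_cntSet] at hx
  exact hS.mem_toFinset.2 hx.2

/-- the set of infinite columns -/
def infcol (A : Set ℕ) : Set ℕ := {n | {m | Nat.pair n m ∈ A}.Infinite}

lemma infcol_mono {A B : Set ℕ} (h : A ⊆ B) : infcol A ⊆ infcol B := by
  intro n hn
  exact Set.Infinite.mono (fun m hm => h hm) hn

lemma infcol_union (A B : Set ℕ) : infcol (A ∪ B) ⊆ infcol A ∪ infcol B := by
  intro n hn
  have e : {m | Nat.pair n m ∈ A ∪ B} = {m | Nat.pair n m ∈ A} ∪ {m | Nat.pair n m ∈ B} := by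
    ext m
    rfl
  have hn' : {m | Nat.pair n m ∈ A ∪ B}.Infinite := hn
  rw [e, Set.infinite_union] at hn'
  exact hn'

/-- the ideal -/
def Jd : Set (Set ℕ) := {A | infcol A ∈ Zd}

lemma Jd_mono {A B : Set ℕ} (h : A ⊆ B) (hB : B ∈ Jd) : A ∈ Jd := Zd_mono (infcol_mono h) hB

lemma Jd_union {A B : Set ℕ} (hA : A ∈ Jd) (hB : B ∈ Jd) : A ∪ B ∈ Jd :=
  Zd_mono (infcol_union A B) (Zd_union hA hB)

lemma Jd_cols (L : ℕ) : {i : ℕ | (Nat.unpair i).1 < L} ∈ Jd := by
  apply Zd_finite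
  apply (Set.finite_Iio L).subset
  intro n hn
  obtain ⟨m, hm⟩ := Set.Infinite.nonempty hn
  simp only [mem_ofPred_eq, Nat.unpair_pair] at hm
  exact hm

lemma Jd_bound (μ : ℕ → Set ℕ → ℝ)
    (hadd : ∀ n A B, A ∈ Jd → B ∈ Jd → Disjoint A B → μ n (A ∪ B) = μ n A + μ n B)
    (hbd : ∀ n, ∃ M, ∀ A ∈ Jd, |μ n A| ≤ M) (hpt : ∀ A ∈ Jd, ∃ M, ∀ n, |μ n A| ≤ M)
    (B : Set ℕ) (hB : B ∈ Jd) : ∃ K, ∀ n A, A ⊆ B → |μ n A| ≤ K := by
  obtain ⟨K, hK⟩ := nikodym_powerset (fun n A => μ n (A ∩ B))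
    (by
      intro n A C hAC
      simp only
      rw [Set.union_inter_distrib_right]
      apply hadd n _ _ (Jd_mono Set.inter_subset_right hB) (Jd_mono Set.inter_subset_right hB)
      exact hAC.mono Set.inter_subset_left Set.inter_subset_left)
    (by
      intro n
      obtain ⟨M, hM⟩ := hbd n
      exact ⟨M, fun A => hM _ (Jd_mono Set.inter_subset_right hB)⟩)
    (by
      intro A
      obtain ⟨M, hM⟩ := hpt (A ∩ B) (Jd_mono Set.inter_subset_right hB)
      exact ⟨M, hM⟩)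
  refine ⟨K, fun n A hA => ?_⟩
  have := hK n A
  rwa [Set.inter_eq_self_of_subset_left hA] at this

/-- one column class -/
lemma cnt_class (k r N : ℕ) : cnt {n | n % 2 ^ k = r} N ≤ N / 2 ^ k + 1 := by
  classical
  unfold cnt
  have h2 : 0 < 2 ^ k := by positivity
  have : (cntSet {n : ℕ | n % 2 ^ k = r} N).card ≤ (Finset.range (N / 2 ^ k + 1)).card := by
    apply Finset.card_le_card_of_injOn (fun n => n / 2 ^ k)
    · intro n hn
      rw [Finset.mem_coe, mem_cntSet] at hn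
      rw [Finset.mem_coe, Finset.mem_range]
      have := Nat.div_le_div_right (c := 2 ^ k) hn.1.le
      simp only
      omega
    · intro a ha b hb hab
      rw [Finset.mem_coe, mem_cntSet] at ha hb
      simp only [mem_ofPred_eq] at ha hb hab
      have e1 := Nat.div_add_mod a (2 ^ k)
      have e2 := Nat.div_add_mod b (2 ^ k)
      rw [← e1, ← e2, hab, ha.2, hb.2]
  rwa [Finset.card_range] at this

lemma geo_bound (k0 K : ℕ) (x : ℝ) (hx : 0 ≤ x) :
    ∑ k ∈ Finset.Ico k0 K, x * (1 / 2) ^ k ≤ 2 * x * (1 / 2) ^ k0 := by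
  have key : ∀ K, k0 ≤ K → ∑ k ∈ Finset.Ico k0 K, x * (1 / 2) ^ k
      ≤ 2 * x * (1 / 2) ^ k0 - 2 * x * (1 / 2) ^ K := by
    intro K hK
    induction K, hK using Nat.le_induction with
    | base => simp
    | succ K hK ih =>
      rw [Finset.sum_Ico_succ_top hK, pow_succ]
      linarith
  rcases le_total k0 K with h | h
  · have := key K h
    have h2 : 0 ≤ 2 * x * (1 / 2) ^ K := by positivity
    linarith
  · rw [Finset.Ico_eq_empty (by omega), Finset.sum_empty]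
    positivity

/-- The union of sparse column classes is in the ideal. -/
lemma Jd_iUnion (A : ℕ → Set ℕ) (hA : ∀ k, A k ∈ Jd)
    (hlow : ∀ k, ∀ i ∈ A k, 4 ^ k ≤ (Nat.unpair i).1) (r : ℕ → ℕ)
    (hr : ∀ k, ∀ i ∈ A k, (Nat.unpair i).1 % 2 ^ k = r k) : (⋃ k, A k) ∈ Jd := by
  classical
  -- columns
  have hcol : infcol (⋃ k, A k) ⊆ ⋃ k, infcol (A k) := by
    intro n hn
    by_contra hcon
    simp only [mem_iUnion, not_exists] at hcon
    apply hn
    have : {m | Nat.pair n m ∈ ⋃ k, A k} ⊆ ⋃ k ∈ Finset.range (n + 1), {m | Nat.pair n m ∈ A k} := by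
      intro m hm
      simp only [mem_ofPred_eq, mem_iUnion] at hm
      obtain ⟨k, hk⟩ := hm
      have h4 := hlow k _ hk
      rw [Nat.unpair_pair] at h4
      simp only at h4
      have : k < 4 ^ k := Nat.lt_pow_self (by norm_num)
      simp only [mem_iUnion, Finset.mem_range, mem_ofPred_eq, exists_prop]
      exact ⟨k, by omega, hk⟩
    refine Set.Finite.subset ?_ this
    apply Set.Finite.biUnion (Finset.finite_toSet _)
    intro k _
    exact Set.not_infinite.1 (hcon k)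
  have hcls : ∀ k, infcol (A k) ⊆ {n | n % 2 ^ k = r k} := by
    intro k n hn
    obtain ⟨m, hm⟩ := Set.Infinite.nonempty hn
    have := hr k _ hm
    rwa [Nat.unpair_pair] at this
  have hclo : ∀ k, ∀ n ∈ infcol (A k), 4 ^ k ≤ n := by
    intro k n hn
    obtain ⟨m, hm⟩ := Set.Infinite.nonempty hn
    have := hlow k _ hm
    rwa [Nat.unpair_pair] at this
  have hcnt : ∀ k N, (cnt (infcol (A k)) N : ℝ) ≤ 2 * N * (1 / 2) ^ k := by
    intro k N
    by_cases hN : N ≤ 4 ^ k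
    · have : cnt (infcol (A k)) N = 0 := by
        unfold cnt
        rw [Finset.card_eq_zero, Finset.eq_empty_iff_forall_notMem]
        intro x hx
        rw [mem_cntSet] at hx
        have := hclo k x hx.2
        omega
      rw [this]
      push_cast
      positivity
    · have h1 := (cnt_mono (hcls k) N).trans (cnt_class k (r k) N)
      have h2 : (cnt (infcol (A k)) N : ℝ) ≤ (N / 2 ^ k : ℕ) + 1 := by exact_mod_cast h1
      have h3 : ((N / 2 ^ k : ℕ) : ℝ) ≤ (N : ℝ) / 2 ^ k := by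
        have := @Nat.cast_div_le ℝ _ _ _ N (2 ^ k)
        simpa using this
      have h4 : (1 : ℝ) ≤ (N : ℝ) / 2 ^ k := by
        rw [le_div_iff₀ (by positivity), one_mul]
        have h5 : 2 ^ k ≤ 4 ^ k := Nat.pow_le_pow_left (by norm_num) k
        exact_mod_cast (by omega : 2 ^ k ≤ N)
      have h5 : (N : ℝ) / 2 ^ k = N * (1 / 2) ^ k := by
        rw [one_div, inv_pow, div_eq_mul_inv]
      rw [h5] at h3 h4
      linarith
  -- density
  refine Zd_mono hcol ?_
  intro q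
  obtain ⟨k0, hk0⟩ : ∃ k0 : ℕ, 8 * q ≤ 2 ^ k0 := ⟨8 * q, Nat.lt_two_pow_self.le⟩
  have hfin : ∀ k0 : ℕ, (⋃ k ∈ Finset.range k0, infcol (A k)) ∈ Zd := by
    intro k0
    induction k0 with
    | zero =>
      apply Zd_finite
      simp
    | succ k0 ih =>
      rw [Finset.range_add_one, Finset.set_biUnion_insert]
      exact Zd_union (hA k0) ih
  obtain ⟨N0, hN0⟩ := hfin k0 (2 * q)
  refine ⟨N0, fun N hN => ?_⟩
  have h1 := hN0 N hN
  have hsub : (⋃ k, infcol (A k)) ⊆ (⋃ k ∈ Finset.range k0, infcol (A k))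
      ∪ (⋃ k ∈ Ici k0, infcol (A k)) := by
    intro x hx
    obtain ⟨k, hk⟩ := mem_iUnion.1 hx
    by_cases h : k < k0
    · left
      simp only [mem_iUnion, Finset.mem_range, exists_prop]
      exact ⟨k, h, hk⟩
    · right
      simp only [mem_iUnion, mem_Ici, exists_prop]
      exact ⟨k, not_lt.1 h, hk⟩
  have h2 := (cnt_mono hsub N).trans (cnt_union _ _ N)
  have h3 : cnt (⋃ k ∈ Ici k0, infcol (A k)) N ≤ ∑ k ∈ Finset.Ico k0 N, cnt (infcol (A k)) N := by
    unfold cnt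
    refine le_trans (Finset.card_le_card ?_) (Finset.card_biUnion_le)
    intro x hx
    rw [mem_cntSet] at hx
    obtain ⟨hxN, hx2⟩ := hx
    simp only [mem_iUnion, mem_Ici, exists_prop] at hx2
    obtain ⟨k, hk, hxk⟩ := hx2
    have h4 := hclo k x hxk
    have : k < 4 ^ k := Nat.lt_pow_self (by norm_num)
    rw [Finset.mem_biUnion]
    refine ⟨k, Finset.mem_Ico.2 ⟨hk, by omega⟩, ?_⟩
    rw [mem_cntSet]
    exact ⟨hxN, hxk⟩
  have h4 : ((cnt (⋃ k ∈ Ici k0, infcol (A k)) N : ℕ) : ℝ) ≤ 2 * (2 * N) * (1 / 2) ^ k0 := by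
    have : ((cnt (⋃ k ∈ Ici k0, infcol (A k)) N : ℕ) : ℝ)
        ≤ ∑ k ∈ Finset.Ico k0 N, (cnt (infcol (A k)) N : ℝ) := by exact_mod_cast h3
    refine this.trans ((Finset.sum_le_sum (fun k _ => hcnt k N)).trans ?_)
    exact geo_bound k0 N (2 * N) (by positivity)
  have h5 : (2 * q : ℝ) * (cnt (⋃ k ∈ Ici k0, infcol (A k)) N : ℝ) ≤ N := by
    have h6 : (8 * q : ℝ) * (1 / 2) ^ k0 ≤ 1 := by
      have h7 : (8 * q : ℝ) ≤ 2 ^ k0 := by exact_mod_cast hk0
      rw [one_div, inv_pow]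
      exact mul_inv_le_one_of_le₀ h7 (by positivity)
    calc (2 * q : ℝ) * (cnt (⋃ k ∈ Ici k0, infcol (A k)) N : ℝ)
        ≤ (2 * q) * (2 * (2 * N) * (1 / 2) ^ k0) := mul_le_mul_of_nonneg_left h4 (by positivity)
      _ = ((8 * q : ℝ) * (1 / 2) ^ k0) * N := by ring
      _ ≤ 1 * N := mul_le_mul_of_nonneg_right h6 (by positivity)
      _ = N := one_mul _
  have h6 : 2 * q * cnt (⋃ k ∈ Ici k0, infcol (A k)) N ≤ N := by exact_mod_cast h5
  have h7 := Nat.mul_le_mul_left q h2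
  nlinarith

theorem nik_Jd (μ : ℕ → Set ℕ → ℝ)
    (hadd : ∀ n A B, A ∈ Jd → B ∈ Jd → Disjoint A B → μ n (A ∪ B) = μ n A + μ n B)
    (hbd : ∀ n, ∃ M, ∀ A ∈ Jd, |μ n A| ≤ M) (hpt : ∀ A ∈ Jd, ∃ M, ∀ n, |μ n A| ≤ M) :
    ∃ M, ∀ n, ∀ A ∈ Jd, |μ n A| ≤ M := by
  classical
  by_contra hcon
  push Not at hcon
  have hclaim : ∀ k : ℕ, ∃ (n : ℕ) (A : Set ℕ) (r : ℕ), A ∈ Jd ∧
      (∀ i ∈ A, 4 ^ k ≤ (Nat.unpair i).1) ∧ (∀ i ∈ A, (Nat.unpair i).1 % 2 ^ k = r) ∧
      (k : ℝ) < |μ n A| := by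
    intro k
    obtain ⟨K, hK⟩ := Jd_bound μ hadd hbd hpt _ (Jd_cols (4 ^ k))
    obtain ⟨n, A, hA, hlt⟩ := hcon (2 ^ k * k + K)
    set B : Set ℕ := {i : ℕ | (Nat.unpair i).1 < 4 ^ k} with hBdef
    set A1 := A \ B with hA1
    have hA1J : A1 ∈ Jd := Jd_mono Set.sdiff_subset hA
    have h1 : μ n A = μ n (A ∩ B) + μ n A1 := by
      have e : A = (A ∩ B) ∪ A1 := (Set.inter_union_sdiff A B).symm
      have hd : Disjoint (A ∩ B) A1 := by
        rw [Set.disjoint_left]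
        rintro x ⟨_, h⟩ ⟨_, h'⟩
        exact h' h
      conv_lhs => rw [e]
      exact hadd n _ _ (Jd_mono Set.inter_subset_left hA) hA1J hd
    have h2 := hK n (A ∩ B) Set.inter_subset_right
    have h3 : (2 : ℝ) ^ k * k < |μ n A1| := by
      have := abs_add_le (μ n (A ∩ B)) (μ n A1)
      rw [← h1] at this
      linarith
    -- residue classes
    have hFA : FinAdd (fun C => μ n (C ∩ A1)) := by
      intro C D hCD
      simp only
      rw [Set.union_inter_distrib_right]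
      exact hadd n _ _ (Jd_mono Set.inter_subset_right hA1J) (Jd_mono Set.inter_subset_right hA1J)
        (hCD.mono Set.inter_subset_left Set.inter_subset_left)
    have h4 := hFA.biUnion (Finset.range (2 ^ k)) (fun r => {i : ℕ | (Nat.unpair i).1 % 2 ^ k = r})
      (by
        intro a _ b _ hab
        show Disjoint _ _
        rw [Set.disjoint_left]
        intro x hx hx'
        simp only [mem_ofPred_eq] at hx hx'
        exact hab (hx.symm.trans hx'))
    have h5 : (⋃ r ∈ Finset.range (2 ^ k), {i : ℕ | (Nat.unpair i).1 % 2 ^ k = r}) = univ := by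
      ext i
      simp only [mem_iUnion, Finset.mem_range, mem_ofPred_eq, exists_prop, mem_univ, iff_true]
      exact ⟨_, Nat.mod_lt _ (by positivity), rfl⟩
    rw [h5] at h4
    simp only [Set.univ_inter] at h4
    have h6 : ∃ r ∈ Finset.range (2 ^ k),
        (k : ℝ) < |μ n ({i : ℕ | (Nat.unpair i).1 % 2 ^ k = r} ∩ A1)| := by
      by_contra hno
      push Not at hno
      have h7 : |μ n A1| ≤ ∑ r ∈ Finset.range (2 ^ k), (k : ℝ) := by
        rw [h4]
        exact (Finset.abs_sum_le_sum_abs _ _).trans (Finset.sum_le_sum hno)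
      rw [Finset.sum_const, Finset.card_range, nsmul_eq_mul] at h7
      push_cast at h7
      linarith
    obtain ⟨r, _, hr⟩ := h6
    refine ⟨n, _, r, Jd_mono Set.inter_subset_right hA1J, ?_, ?_, hr⟩
    · rintro i ⟨_, hi⟩
      exact not_lt.1 hi.2
    · rintro i ⟨hi, _⟩
      exact hi
  choose n A r hA hlow hres hbig using hclaim
  have hU := Jd_iUnion A hA hlow r hres
  obtain ⟨K, hK⟩ := Jd_bound μ hadd hbd hpt _ hU
  obtain ⟨k, hk⟩ := exists_nat_gt K
  have h1 := hK (n k) (A k) (Set.subset_iUnion A k)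
  have h2 := hbig k
  linarith

end Pool.Agent.R376.Nk
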