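import Mathlib

/-! The set of sequences of finite subsets of `ℕ` is not a countable union of `G_δ` sets. -/

namespace Pool.Agent.R376.Nk

open Set Topology

/-- all columns finite -/
def FinAll : Set (ℕ → ℕ → Bool) := {x | ∀ i, {l | x i l = true}.Finite}

/-- coding of sequences of finite sets by binary digits -/
def iot (y : ℕ → ℕ) : ℕ → ℕ → Bool := fun i l => Nat.testBit (y i) l

lemma iot_mem (y : ℕ → ℕ) : iot y ∈ FinAll := by
  intro i
  apply (Set.finite_Iio (y i)).subset
  intro l hl
  simp only [iot, mem_ofPred_eq] at hl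
  by_contra hcon
  have h1 : y i < 2 ^ l := lt_of_le_of_lt (not_lt.1 hcon) Nat.lt_two_pow_self
  rw [Nat.testBit_lt_two_pow h1] at hl
  exact Bool.noConfusion hl

lemma iot_cont : Continuous iot := by
  apply continuous_pi
  intro i
  apply continuous_pi
  intro l
  exact (continuous_of_discreteTopology (f := fun n : ℕ => Nat.testBit n l)).comp (continuous_apply i)

lemma iot_dense : DenseRange iot := by
  intro v
  have h : Filter.Tendsto (fun b : ℕ => iot (fun i => Nat.ofBits (fun l : Fin b => v i l)))
      Filter.atTop (𝓝 v) := by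
    rw [tendsto_pi_nhds]
    intro i
    rw [tendsto_pi_nhds]
    intro l
    apply tendsto_nhds_of_eventually_eq
    filter_upwards [Filter.eventually_gt_atTop l] with b hb
    simp only [iot]
    rw [Nat.testBit_ofBits_lt _ _ hb]
  exact mem_closure_of_tendsto h (Filter.Eventually.of_forall (fun b => mem_range_self _))

theorem FinAll_not (U : ℕ → ℕ → Set (ℕ → ℕ → Bool)) (hU : ∀ i j, IsOpen (U i j))
    (h : FinAll = ⋃ i, ⋂ j, U i j) : False := by
  classical
  -- Baire in the space of codes
  have hcov : (⋃ i, closure (iot ⁻¹' (⋂ j, U i j))) = univ := by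
    rw [Set.eq_univ_iff_forall]
    intro y
    have h1 := iot_mem y
    rw [h] at h1
    obtain ⟨i, hi⟩ := mem_iUnion.1 h1
    exact mem_iUnion.2 ⟨i, subset_closure hi⟩
  obtain ⟨i, u, hu⟩ := nonempty_interior_of_iUnion_of_closed (fun i => isClosed_closure) hcov
  rw [mem_interior] at hu
  obtain ⟨O, hO1, hO2, hO3⟩ := hu
  obtain ⟨I, w, hw1, hw2⟩ := isOpen_pi_iff.1 hO2 u hO3
  obtain ⟨j0, hj0⟩ := Infinite.exists_notMem_finset I
  -- the map freezing the columns in `I`
  set φ : (ℕ → ℕ → Bool) → (ℕ → ℕ → Bool) := fun x a => if a ∈ I then iot u a else x a with hφ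
  have hφc : Continuous φ := by
    apply continuous_pi
    intro a
    by_cases ha : a ∈ I
    · simp only [hφ, ha, if_true]
      exact continuous_const
    · simp only [hφ, ha, if_false]
      exact continuous_apply a
  have hG1 : ∀ V : Set (ℕ → ℕ → Bool), IsOpen V → V.Nonempty →
      ∃ x ∈ V, φ x ∈ ⋂ j, U i j := by
    intro V hV hVn
    obtain ⟨_, hv, ⟨y0, rfl⟩⟩ := iot_dense.inter_open_nonempty V hV hVn
    set ρ : (ℕ → ℕ) → (ℕ → ℕ) := fun y a => if a ∈ I then y0 a else y a with hρ
    have hρc : Continuous ρ := by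
      apply continuous_pi
      intro a
      by_cases ha : a ∈ I
      · simp only [hρ, ha, if_true]
        exact continuous_const
      · simp only [hρ, ha, if_false]
        exact continuous_apply a
    set W : Set (ℕ → ℕ) := ((I : Set ℕ).pi (fun a => {u a})) ∩ ((iot ∘ ρ) ⁻¹' V) with hW
    have hWo : IsOpen W := by
      apply IsOpen.inter
      · exact isOpen_set_pi (Finset.finite_toSet I) (fun a _ => isOpen_discrete _)
      · exact hV.preimage (iot_cont.comp hρc)
    set y1 : ℕ → ℕ := fun a => if a ∈ I then u a else y0 a with hy1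
    have hy1W : y1 ∈ W := by
      refine ⟨?_, ?_⟩
      · intro a ha
        have : a ∈ I := ha
        simp [hy1, this]
      · have : ρ y1 = y0 := by
          funext a
          by_cases ha : a ∈ I
          · simp [hρ, ha]
          · simp [hρ, hy1, ha]
        show iot (ρ y1) ∈ V
        rw [this]
        exact hv
    have hWsub : W ⊆ closure (iot ⁻¹' (⋂ j, U i j)) := by
      intro y hy
      apply hO1
      apply hw2
      intro a ha
      have h1 : y a = u a := by
        have := hy.1 a ha
        simpa using this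
      rw [h1]
      exact (hw1 a ha).2
    obtain ⟨y, hyW, hyU⟩ := mem_closure_iff.1 (hWsub hy1W) W hWo hy1W
    refine ⟨iot (ρ y), hyW.2, ?_⟩
    have : φ (iot (ρ y)) = iot y := by
      funext a
      by_cases ha : a ∈ I
      · have h1 : y a = u a := by
          have := hyW.1 a ha
          simpa using this
        simp only [hφ, ha, if_true]
        show (fun l => Nat.testBit (u a) l) = fun l => Nat.testBit (y a) l
        rw [h1]
      · simp only [hφ, ha, if_false]
        show (fun l => Nat.testBit (ρ y a) l) = fun l => Nat.testBit (y a) l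
        simp only [hρ, ha, if_false]
    rw [this]
    exact hyU
  have hd1 : Dense (⋂ j, φ ⁻¹' (U i j)) := by
    rw [dense_iff_inter_open]
    intro V hV hVn
    obtain ⟨x, hx, hx2⟩ := hG1 V hV hVn
    refine ⟨x, hx, ?_⟩
    rw [mem_iInter] at hx2 ⊢
    exact hx2
  have hg1 : IsGδ (⋂ j, φ ⁻¹' (U i j)) :=
    IsGδ.iInter_of_isOpen (fun j => (hU i j).preimage hφc)
  have hcont : ∀ l : ℕ, Continuous (fun x : ℕ → ℕ → Bool => x j0 l) := fun l => by fun_prop
  have hop : ∀ l : ℕ, IsOpen {x : ℕ → ℕ → Bool | x j0 l = true} := fun l =>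
    (isOpen_discrete ({true} : Set Bool)).preimage (hcont l)
  have hd2 : Dense (⋂ a : ℕ, ⋃ l ∈ Ici a, {x : ℕ → ℕ → Bool | x j0 l = true}) := by
    apply dense_iInter_of_isOpen
    · intro a
      apply isOpen_biUnion
      intro l _
      exact hop l
    · intro a v
      have h : Filter.Tendsto (fun b : ℕ => (fun (i l : ℕ) => if b ≤ l then true else v i l))
          Filter.atTop (𝓝 v) := by
        rw [tendsto_pi_nhds]
        intro i
        rw [tendsto_pi_nhds]
        intro l
        apply tendsto_nhds_of_eventually_eq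
        filter_upwards [Filter.eventually_gt_atTop l] with b hb
        rw [if_neg (by omega)]
      refine mem_closure_of_tendsto h (Filter.Eventually.of_forall (fun b => ?_))
      simp only [mem_iUnion, mem_Ici, mem_ofPred_eq, exists_prop]
      exact ⟨max a b, le_max_left _ _, by rw [if_pos (le_max_right _ _)]⟩
  have hg2 : IsGδ (⋂ a : ℕ, ⋃ l ∈ Ici a, {x : ℕ → ℕ → Bool | x j0 l = true}) := by
    apply IsGδ.iInter_of_isOpen
    intro a
    apply isOpen_biUnion
    intro l _
    exact hop l
  obtain ⟨x, hx1, hx2⟩ := (Dense.inter_of_Gδ hg1 hg2 hd1 hd2).nonempty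
  have h1 : φ x ∈ FinAll := by
    rw [h]
    refine mem_iUnion.2 ⟨i, ?_⟩
    rw [mem_iInter] at hx1 ⊢
    exact hx1
  have h2 := h1 j0
  simp only [hφ, hj0, if_false] at h2
  obtain ⟨M, hM⟩ := h2.bddAbove
  rw [mem_iInter] at hx2
  have h3 := hx2 (M + 1)
  simp only [mem_iUnion, mem_Ici, mem_ofPred_eq, exists_prop] at h3
  obtain ⟨l, hl1, hl2⟩ := h3
  have := hM hl2
  omega

end Pool.Agent.R376.Nk
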