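import Mathlib

/-! Power product expansions of a power series with integer coefficients and the
recurrence obtained from the logarithmic derivative. -/

namespace Pool.Agent.R376.PP

open Finset PowerSeries

lemma coeff_prod_succ (f h : ℕ → PowerSeries ℤ) (hf : ∀ k, 1 ≤ k → f k = 1 + X ^ k * h k)
    (d N : ℕ) (hd : d ≤ N) :
    coeff d (∏ k ∈ Icc 1 (N + 1), f k) = coeff d (∏ k ∈ Icc 1 N, f k) := by
  rw [Finset.prod_Icc_succ_top (by omega), hf (N + 1) (by omega), mul_add, mul_one, map_add]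
  have h1 : (∏ k ∈ Icc 1 N, f k) * (X ^ (N + 1) * h (N + 1))
      = X ^ (N + 1) * ((∏ k ∈ Icc 1 N, f k) * h (N + 1)) := by ring
  rw [h1, coeff_X_pow_mul', if_neg (by omega), add_zero]

lemma coeff_prod_stable (f h : ℕ → PowerSeries ℤ) (hf : ∀ k, 1 ≤ k → f k = 1 + X ^ k * h k)
    (d N M : ℕ) (hd : d ≤ N) (hNM : N ≤ M) :
    coeff d (∏ k ∈ Icc 1 M, f k) = coeff d (∏ k ∈ Icc 1 N, f k) := by
  induction M, hNM using Nat.le_induction with
  | base => rfl
  | succ M hM ih => rw [coeff_prod_succ f h hf d M (by omega), ih]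

lemma logder (f g : ℕ → PowerSeries ℤ)
    (hfg : ∀ k, 1 ≤ k → X * derivative ℤ (f k) = f k * g k) (N : ℕ) :
    X * derivative ℤ (∏ k ∈ Icc 1 N, f k)
      = (∏ k ∈ Icc 1 N, f k) * ∑ k ∈ Icc 1 N, g k := by
  induction N with
  | zero => simp
  | succ N ih =>
    rw [Finset.prod_Icc_succ_top (by omega), Finset.sum_Icc_succ_top (by omega),
      Derivation.leibniz]
    simp only [smul_eq_mul]
    have h1 := hfg (N + 1) (by omega)
    linear_combination (f (N + 1)) * ih + (∏ k ∈ Icc 1 N, f k) * h1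

lemma coeff_X_mul_deriv (F : PowerSeries ℤ) (m : ℕ) :
    coeff m (X * derivative ℤ F) = m * coeff m F := by
  cases m with
  | zero => simp
  | succ m =>
    rw [coeff_succ_X_mul, coeff_derivative]
    push_cast
    ring

/-- The convolution identity. -/
lemma conv (f g : ℕ → PowerSeries ℤ) (p : ℕ → ℤ)
    (hfg : ∀ k, 1 ≤ k → X * derivative ℤ (f k) = f k * g k)
    (hg : ∀ k b, b < k → coeff b (g k) = 0)
    (hp : ∀ N m, m ≤ N → coeff m (∏ k ∈ Icc 1 N, f k) = p m) (m : ℕ) :
    (m : ℤ) * p m = ∑ b ∈ range (m + 1), (∑ k ∈ Icc 1 b, coeff b (g k)) * p (m - b) := by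
  have h1 := congrArg (coeff m) (logder f g hfg m)
  rw [coeff_X_mul_deriv, hp m m le_rfl, mul_comm, mul_comm (∏ k ∈ Icc 1 m, f k), coeff_mul] at h1
  rw [mul_comm, h1, Finset.Nat.sum_antidiagonal_eq_sum_range_succ_mk]
  refine Finset.sum_congr rfl fun b hb => ?_
  have hb' : b ≤ m := by have := Finset.mem_range.1 hb; omega
  rw [hp m (m - b) (by omega), map_sum]
  congr 1
  symm
  apply Finset.sum_subset
  · exact Finset.Icc_subset_Icc_right hb'
  · intro k hk hk'
    apply hg
    simp only [Finset.mem_Icc] at hk hk'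
    omega

lemma unique_S (S S' : ℕ → ℤ) (p : ℕ → ℤ) (p0 : p 0 = 1)
    (h : ∀ m : ℕ, (m : ℤ) * p m = ∑ b ∈ range (m + 1), S b * p (m - b))
    (h' : ∀ m : ℕ, (m : ℤ) * p m = ∑ b ∈ range (m + 1), S' b * p (m - b)) (m : ℕ) :
    S m = S' m := by
  induction m using Nat.strong_induction_on with
  | _ m ih =>
    have e := (h m).symm.trans (h' m)
    rw [Finset.sum_range_succ, Finset.sum_range_succ, Nat.sub_self, p0, mul_one, mul_one] at e
    have e2 : ∑ b ∈ range m, S b * p (m - b) = ∑ b ∈ range m, S' b * p (m - b) :=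
      Finset.sum_congr rfl fun b hb => by rw [ih b (Finset.mem_range.1 hb)]
    linarith

/-- The logarithmic derivative series of `1 + a X^k`. -/
noncomputable def gk (a : ℤ) (k : ℕ) : PowerSeries ℤ :=
  PowerSeries.mk fun m => if k ∣ m ∧ 1 ≤ m then (-1) ^ (m / k - 1) * k * a ^ (m / k) else 0

lemma coeff_gk (a : ℤ) (k m : ℕ) : coeff m (gk a k) =
    if k ∣ m ∧ 1 ≤ m then (-1) ^ (m / k - 1) * k * a ^ (m / k) else 0 := by
  rw [gk, coeff_mk]

lemma coeff_gk_lt (a : ℤ) (k b : ℕ) (h : b < k) : coeff b (gk a k) = 0 := by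
  rw [coeff_gk, if_neg]
  rintro ⟨h1, h2⟩
  exact absurd (Nat.le_of_dvd (by omega) h1) (by omega)

lemma gk_spec (a : ℤ) (k : ℕ) (hk : 1 ≤ k) :
    X * derivative ℤ (1 + C a * X ^ k : PowerSeries ℤ) = (1 + C a * X ^ k) * gk a k := by
  ext m
  rw [coeff_X_mul_deriv, add_mul, one_mul, map_add, map_add, mul_assoc, coeff_C_mul, coeff_C_mul,
    coeff_X_pow_mul', coeff_X_pow, coeff_one]
  rcases Nat.eq_zero_or_pos m with rfl | hm
  · rw [if_neg (by omega : ¬ (k ≤ 0)), coeff_gk]
    simp
  · rw [if_neg (by omega : ¬ (m = 0))]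
    by_cases hd : k ∣ m
    · obtain ⟨q, rfl⟩ := hd
      have hq : 1 ≤ q := by
        rcases Nat.eq_zero_or_pos q with rfl | h
        · simp at hm
        · exact h
      have hle : k ≤ k * q := Nat.le_mul_of_pos_right k hq
      have hsub : k * q - k = k * (q - 1) := by
        rw [Nat.mul_sub, mul_one]
      have e1 : k ∣ k * q ∧ 1 ≤ k * q := ⟨Dvd.intro q rfl, hm⟩
      rw [if_pos hle, coeff_gk, if_pos e1,
        Nat.mul_div_cancel_left q (by omega : 0 < k), coeff_gk, hsub,
        Nat.mul_div_cancel_left (q - 1) (by omega : 0 < k)]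
      by_cases hq1 : q = 1
      · subst hq1
        simp only [mul_one, Nat.sub_self, mul_zero, if_true, pow_zero, one_mul, pow_one, zero_add]
        rw [if_neg (by omega : ¬ (k ∣ 0 ∧ 1 ≤ 0))]
        ring
      · have h2 : k * q ≠ k := by
          intro h
          have : k * q = k * 1 := by rw [h, mul_one]
          exact hq1 (Nat.eq_of_mul_eq_mul_left (by omega) this)
        have e2 : k ∣ k * (q - 1) ∧ 1 ≤ k * (q - 1) :=
          ⟨Dvd.intro _ rfl, Nat.mul_pos (by omega) (by omega)⟩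
        rw [if_neg h2, if_pos e2]
        obtain ⟨r, rfl⟩ : ∃ r, q = r + 2 := ⟨q - 2, by omega⟩
        rw [show r + 2 - 1 = r + 1 by omega, show r + 1 - 1 = r by omega]
        ring
    · have hne : m ≠ k := by
        rintro rfl
        exact hd dvd_rfl
      rw [if_neg hne, coeff_gk, if_neg (fun h => hd h.1)]
      by_cases hle : k ≤ m
      · rw [if_pos hle, coeff_gk, if_neg]
        · simp
        · rintro ⟨h1, _⟩
          apply hd
          have := Nat.dvd_add h1 (dvd_refl k)
          rwa [Nat.sub_add_cancel hle] at this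
      · rw [if_neg hle]
        simp

/-- inverse series -/
lemma inv_spec (F : PowerSeries ℤ) (k : ℕ) (hk : 1 ≤ k) (hF : F * (1 - X ^ k) = 1) :
    X * derivative ℤ F = F * (- gk (-1) k) := by
  have h1 := gk_spec (-1) k hk
  have h2 : (1 + C (-1 : ℤ) * X ^ k : PowerSeries ℤ) = 1 - X ^ k := by
    rw [map_neg, map_one]; ring
  rw [h2] at h1
  have h3 := congrArg (derivative ℤ) hF
  rw [Derivation.leibniz] at h3
  simp only [smul_eq_mul, Derivation.map_one_eq_zero] at h3
  linear_combination (- F * F) * h1 + X * F * h3 + (- X * derivative ℤ F - F * gk (-1) k) * hF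

lemma geom_form (F : PowerSeries ℤ) (k : ℕ) (hF : F * (1 - X ^ k) = 1) :
    F = 1 + X ^ k * F := by
  linear_combination hF

end Pool.Agent.R376.PP
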