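import Pool.Agent.R376.PPa

/-! The power product expansion of the partition generating function: definitions,
existence, and the divisor recurrence. -/

namespace Pool.Agent.R376.PP

open Finset PowerSeries
open scoped PowerSeries.WithPiTopology

/-- the number of partitions of `m` -/
def pn (m : ℕ) : ℤ := (Fintype.card (Nat.Partition m) : ℤ)

/-- `n` is a sequence with `∑ p(m) X^m = ∏_{k ≥ 1} (1 + n k X^k)` in `ℤ⟦X⟧`:
the coefficient of `X^m` in every partial product with at least `m` factors is `p(m)`. -/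
def IsPowerProduct (n : ℕ → ℤ) : Prop :=
  ∀ N m : ℕ, m ≤ N →
    coeff m (∏ k ∈ Icc 1 N, (1 + C (n k) * X ^ k : PowerSeries ℤ))
      = (Fintype.card (Nat.Partition m) : ℤ)

/-- geometric series as an infinite sum -/
noncomputable def geo (k : ℕ) : PowerSeries ℤ := ∑' j : ℕ, (X : PowerSeries ℤ) ^ (k * j)

lemma geo_spec (k : ℕ) (hk : 1 ≤ k) : geo k * (1 - X ^ k) = 1 := by
  unfold geo
  simp_rw [pow_mul]
  apply WithPiTopology.tsum_pow_mul_one_sub_of_constantCoeff_eq_zero
  rw [map_pow, constantCoeff_X, zero_pow (by omega)]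

lemma prod_range_eq (N : ℕ) : ∏ i ∈ range N, geo (i + 1) = ∏ k ∈ Icc 1 N, geo k := by
  induction N with
  | zero => simp
  | succ N ih => rw [Finset.prod_range_succ, Finset.prod_Icc_succ_top (by omega), ih]

lemma geo_prod (N m : ℕ) (h : m ≤ N) : coeff m (∏ k ∈ Icc 1 N, geo k) = pn m := by
  have h0 := (Nat.Partition.hasProd_powerSeriesMk_card_restricted ℤ (fun _ => True)).tendsto_prod_nat
  rw [WithPiTopology.tendsto_iff_coeff_tendsto] at h0
  have h1 := h0 m
  rw [nhds_discrete, Filter.tendsto_pure, Filter.eventually_atTop] at h1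
  obtain ⟨N0, hN0⟩ := h1
  have h2 := hN0 (max N N0) (le_max_right _ _)
  simp only [if_true, coeff_mk] at h2
  have h3 : ∏ i ∈ range (max N N0), (∑' j : ℕ, (X : PowerSeries ℤ) ^ ((i + 1) * j))
      = ∏ k ∈ Icc 1 (max N N0), geo k := by
    rw [← prod_range_eq]; rfl
  rw [h3, coeff_prod_stable geo geo (fun k hk => geom_form _ _ (geo_spec k hk)) m N _ h
    (le_max_left _ _)] at h2
  rw [h2, pn]
  congr 1
  rw [← Finset.card_univ]
  congr 1
  ext x
  simp [Nat.Partition.restricted]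

lemma pn_zero : pn 0 = 1 := by
  have := geo_prod 0 0 le_rfl
  simpa using this.symm

/-- signed power divisor sum -/
def tau (n : ℕ → ℤ) (m : ℕ) : ℤ := ∑ k ∈ m.divisors, (-1) ^ (m / k - 1) * k * n k ^ (m / k)

lemma sum_Icc_dvd (F : ℕ → ℤ) (m : ℕ) (hm : 1 ≤ m) :
    (∑ k ∈ Icc 1 m, if k ∣ m ∧ 1 ≤ m then F k else 0) = ∑ k ∈ m.divisors, F k := by
  rw [← Finset.sum_filter]
  apply Finset.sum_congr _ (fun _ _ => rfl)
  ext k
  simp only [Finset.mem_filter, Finset.mem_Icc, Nat.mem_divisors]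
  constructor
  · rintro ⟨⟨h1, h2⟩, h3, h4⟩
    exact ⟨h3, by omega⟩
  · rintro ⟨h1, h2⟩
    exact ⟨⟨Nat.pos_of_dvd_of_pos h1 (by omega), Nat.le_of_dvd (by omega) h1⟩, h1, hm⟩

lemma main_eq (n : ℕ → ℤ) (hn : IsPowerProduct n) (m : ℕ) (hm : 1 ≤ m) :
    ∑ k ∈ m.divisors, (-1) ^ (m / k - 1) * (k : ℤ) * n k ^ (m / k) = ∑ k ∈ m.divisors, (k : ℤ) := by
  have h1 := conv (fun k => (1 + C (n k) * X ^ k : PowerSeries ℤ)) (fun k => gk (n k) k) pn
    (fun k hk => gk_spec (n k) k hk) (fun k b h => coeff_gk_lt _ _ _ h) hn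
  have h2 := conv geo (fun k => - gk (-1) k) pn
    (fun k hk => inv_spec (geo k) k hk (geo_spec k hk))
    (fun k b h => by rw [map_neg, coeff_gk_lt _ _ _ h, neg_zero]) geo_prod
  have h3 := unique_S _ _ pn pn_zero h1 h2 m
  simp only [coeff_gk, map_neg] at h3
  rw [sum_Icc_dvd (fun k => (-1) ^ (m / k - 1) * (k : ℤ) * n k ^ (m / k)) m hm] at h3
  rw [h3, Finset.sum_neg_distrib,
    sum_Icc_dvd (fun k => (-1) ^ (m / k - 1) * (k : ℤ) * (-1) ^ (m / k)) m hm,
    ← Finset.sum_neg_distrib]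
  apply Finset.sum_congr rfl
  intro k hk
  have hk' := Nat.mem_divisors.1 hk
  have hq : 1 ≤ m / k := Nat.div_pos (Nat.le_of_dvd (by omega) hk'.1)
    (Nat.pos_of_dvd_of_pos hk'.1 (by omega))
  obtain ⟨r, hr⟩ : ∃ r, m / k = r + 1 := ⟨m / k - 1, by omega⟩
  rw [hr, Nat.add_sub_cancel, pow_succ (-1 : ℤ) r]
  have : ((-1 : ℤ) ^ r) * (-1) ^ r = 1 := by rw [← mul_pow]; simp
  linear_combination (k : ℤ) * this

/-- recurrence for the sequence -/
lemma recur (n : ℕ → ℤ) (hn : IsPowerProduct n) (m : ℕ) (hm : 1 ≤ m) :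
    (m : ℤ) * n m = ∑ k ∈ m.divisors, (k : ℤ)
      + ∑ k ∈ m.properDivisors, (-1) ^ (m / k) * (k : ℤ) * n k ^ (m / k) := by
  have h1 := main_eq n hn m hm
  rw [← Nat.cons_self_properDivisors (by omega : m ≠ 0), Finset.sum_cons, Finset.sum_cons,
    Nat.div_self hm] at h1
  rw [← Nat.cons_self_properDivisors (by omega : m ≠ 0), Finset.sum_cons]
  have h2 : ∑ k ∈ m.properDivisors, (-1) ^ (m / k - 1) * (k : ℤ) * n k ^ (m / k)
      = - ∑ k ∈ m.properDivisors, (-1) ^ (m / k) * (k : ℤ) * n k ^ (m / k) := by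
    rw [← Finset.sum_neg_distrib]
    apply Finset.sum_congr rfl
    intro k hk
    have hk' := Nat.mem_properDivisors.1 hk
    have hq : 1 ≤ m / k := Nat.div_pos (Nat.le_of_dvd (by omega) hk'.1)
      (Nat.pos_of_dvd_of_pos hk'.1 (by omega))
    obtain ⟨r, hr⟩ : ∃ r, m / k = r + 1 := ⟨m / k - 1, by omega⟩
    rw [hr, Nat.add_sub_cancel, pow_succ (-1 : ℤ) r]
    ring
  rw [h2] at h1
  simp only [Nat.sub_self, pow_zero, one_mul, pow_one] at h1
  linear_combination h1

/-- odd terms are equal to `1` -/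
lemma odd_one (n : ℕ → ℤ) (hn : IsPowerProduct n) (m : ℕ) (hm : Odd m) : n m = 1 := by
  induction m using Nat.strong_induction_on with
  | _ m ih =>
    have hm1 : 1 ≤ m := hm.pos
    have h1 := recur n hn m hm1
    rw [← Nat.cons_self_properDivisors (by omega : m ≠ 0), Finset.sum_cons] at h1
    have h2 : ∑ k ∈ m.properDivisors, (-1) ^ (m / k) * (k : ℤ) * n k ^ (m / k)
        = - ∑ k ∈ m.properDivisors, (k : ℤ) := by
      rw [← Finset.sum_neg_distrib]
      apply Finset.sum_congr rfl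
      intro k hk
      have hk' := Nat.mem_properDivisors.1 hk
      have hko : Odd k := Odd.of_dvd_nat hm hk'.1
      have hto : Odd (m / k) := Odd.of_dvd_nat hm (Nat.div_dvd_of_dvd hk'.1)
      rw [ih k hk'.2 hko, hto.neg_one_pow, one_pow]
      ring
    rw [h2] at h1
    have h3 : (m : ℤ) * n m = m * 1 := by linarith
    exact mul_left_cancel₀ (by exact_mod_cast (by omega : m ≠ 0)) h3

/-- sum of the odd divisors -/
def sodd (j : ℕ) : ℕ := ∑ d ∈ j.divisors with Odd d, d

/-- the free term -/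
def AA (j : ℕ) : ℕ := (∑ d ∈ (2 * j).divisors, d) + sodd j

/-- recurrence for the even terms -/
lemma recur_even (n : ℕ → ℤ) (hn : IsPowerProduct n) (j : ℕ) (hj : 1 ≤ j) :
    (2 * j : ℤ) * n (2 * j) = (AA j : ℤ)
      + ∑ i ∈ j.properDivisors, (-1) ^ (j / i) * (2 * i : ℤ) * n (2 * i) ^ (j / i) := by
  have h1 := recur n hn (2 * j) (by omega)
  rw [← Finset.sum_filter_add_sum_filter_not (2 * j).properDivisors (fun k => Odd k)] at h1
  have h2 : ∑ k ∈ (2 * j).properDivisors with Odd k, (-1) ^ (2 * j / k) * (k : ℤ)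
      * n k ^ (2 * j / k) = (sodd j : ℤ) := by
    rw [sodd]
    push_cast
    apply Finset.sum_congr_of_eq_on_inter
    · intro k hk hk'
      exfalso
      apply hk'
      simp only [Finset.mem_filter, Nat.mem_properDivisors] at hk
      obtain ⟨⟨h3, h4⟩, h5⟩ := hk
      simp only [Finset.mem_filter, Nat.mem_divisors]
      exact ⟨⟨(Nat.Coprime.dvd_mul_left (Nat.Coprime.symm (Nat.coprime_two_left.2 h5))).1 h3,
        by omega⟩, h5⟩
    · intro k hk hk'
      exfalso
      apply hk'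
      simp only [Finset.mem_filter, Nat.mem_divisors] at hk
      obtain ⟨⟨h3, h4⟩, h5⟩ := hk
      simp only [Finset.mem_filter, Nat.mem_properDivisors]
      have := Nat.le_of_dvd hj h3
      exact ⟨⟨Dvd.dvd.mul_left h3 2, by omega⟩, h5⟩
    · intro k hk hk'
      simp only [Finset.mem_filter, Nat.mem_divisors] at hk'
      obtain ⟨⟨h3, h4⟩, h5⟩ := hk'
      obtain ⟨q, rfl⟩ := h3
      have hk0 : 0 < k := h5.pos
      have h6 : 2 * (k * q) / k = 2 * q := by
        rw [show 2 * (k * q) = k * (2 * q) by ring]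
        exact Nat.mul_div_cancel_left _ hk0
      rw [h6, odd_one n hn k h5, pow_mul]
      simp
  have h3 : ∑ k ∈ (2 * j).properDivisors with ¬ Odd k, (-1) ^ (2 * j / k) * (k : ℤ)
      * n k ^ (2 * j / k)
      = ∑ i ∈ j.properDivisors, (-1) ^ (j / i) * (2 * i : ℤ) * n (2 * i) ^ (j / i) := by
    symm
    apply Finset.sum_bij (fun i _ => 2 * i)
    · intro i hi
      simp only [Finset.mem_filter, Nat.mem_properDivisors] at hi ⊢
      refine ⟨⟨Nat.mul_dvd_mul_left 2 hi.1, by omega⟩, ?_⟩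
      rw [Nat.not_odd_iff_even]
      exact even_two_mul i
    · intro a _ b _ h
      simpa using h
    · intro k hk
      simp only [Finset.mem_filter, Nat.mem_properDivisors] at hk
      obtain ⟨⟨h4, h5⟩, h6⟩ := hk
      rw [Nat.not_odd_iff_even] at h6
      obtain ⟨r, rfl⟩ := h6
      rw [← two_mul] at h4 h5
      refine ⟨r, ?_, by ring⟩
      simp only [Nat.mem_properDivisors]
      exact ⟨Nat.dvd_of_mul_dvd_mul_left (by norm_num) h4, by omega⟩
    · intro i hi
      rw [Nat.mul_div_mul_left _ _ (by norm_num : 0 < 2)]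
      push_cast
      ring
  rw [h2, h3] at h1
  rw [AA]
  push_cast at h1 ⊢
  linear_combination h1

end Pool.Agent.R376.PP
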