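import Pool.Agent.R376.PPc

/-! Size and sign of the even terms. -/

namespace Pool.Agent.R376.PP

open Finset

lemma tab_T1 : ∀ i ∈ List.range 128, 3 ≤ i → absTab i * 20 ^ i ≤ 39 ^ i := by
  decide +kernel

lemma tab_T2 : ∀ i ∈ List.range 384, 128 ≤ i → i * absTab i ≤ 7 * 2 ^ i := by
  decide +kernel

lemma tab_T3 : ∀ i ∈ List.range 384, 4 ≤ i → 0 < absTab i := by
  decide +kernel

lemma tab_eq (n : ℕ → ℤ) (hn : IsPowerProduct n) (j : ℕ) (hj : 1 ≤ j) (hj2 : j < 384) :
    n (2 * j) = tab j := by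
  induction j using Nat.strong_induction_on with
  | _ j ih =>
    have h1 := recur_even n hn j hj
    have h2 := tab_rec0 j (List.mem_range.2 hj2) hj
    have h3 : ∑ i ∈ j.properDivisors, (-1) ^ (j / i) * (2 * i : ℤ) * n (2 * i) ^ (j / i)
        = ∑ i ∈ j.properDivisors, (-1) ^ (j / i) * (2 * i : ℤ) * tab i ^ (j / i) := by
      apply Finset.sum_congr rfl
      intro i hi
      have hi' := Nat.mem_properDivisors.1 hi
      rw [ih i hi'.2 (Nat.pos_of_dvd_of_pos hi'.1 hj) (by omega)]
    rw [h3, ← h2] at h1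
    have h4 : (2 * j : ℤ) ≠ 0 := by
      have : (0 : ℤ) < j := by exact_mod_cast hj
      positivity
    exact mul_left_cancel₀ h4 h1

lemma abs_tab (j : ℕ) : |tab j| = (absTab j : ℤ) := by
  unfold tab
  split_ifs
  · rw [abs_neg, Nat.abs_cast]
  · rw [Nat.abs_cast]

/-- normalised even terms -/
noncomputable def z (n : ℕ → ℤ) (j : ℕ) : ℝ := (n (2 * j) : ℝ) / 2 ^ j

lemma z_rec (n : ℕ → ℤ) (hn : IsPowerProduct n) (j : ℕ) (hj : 1 ≤ j) :
    (2 * j : ℝ) * z n j = (AA j : ℝ) / 2 ^ j
      + ∑ i ∈ j.properDivisors, (-1) ^ (j / i) * (2 * i : ℝ) * z n i ^ (j / i) := by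
  have h1 := congrArg (fun x : ℤ => (x : ℝ)) (recur_even n hn j hj)
  push_cast at h1
  have h2 : ∑ i ∈ j.properDivisors, (-1) ^ (j / i) * (2 * i : ℝ) * z n i ^ (j / i)
      = (∑ i ∈ j.properDivisors, (-1) ^ (j / i) * (2 * i : ℝ) * (n (2 * i) : ℝ) ^ (j / i)) / 2 ^ j := by
    rw [Finset.sum_div]
    apply Finset.sum_congr rfl
    intro i hi
    have hi' := Nat.mem_properDivisors.1 hi
    unfold z
    rw [div_pow, ← pow_mul, Nat.mul_div_cancel' hi'.1]
    ring
  rw [h2, ← add_div, ← h1]
  unfold z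
  ring

lemma z_one (n : ℕ → ℤ) (hn : IsPowerProduct n) : z n 1 = 1 := by
  have h := tab_eq n hn 1 (by norm_num) (by norm_num)
  have h2 : tab 1 = 2 := by decide +kernel
  unfold z
  rw [h, h2]
  norm_num

lemma z_two (n : ℕ → ℤ) (hn : IsPowerProduct n) : z n 2 = 1 := by
  have h := tab_eq n hn 2 (by norm_num) (by norm_num)
  have h2 : tab 2 = 4 := by decide +kernel
  unfold z
  rw [h, h2]
  norm_num

lemma abs_z (n : ℕ → ℤ) (hn : IsPowerProduct n) (j : ℕ) (hj : 1 ≤ j) (hj2 : j < 384) :
    |z n j| = (absTab j : ℝ) / 2 ^ j := by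
  unfold z
  rw [tab_eq n hn j hj hj2, abs_div, abs_of_pos (by positivity : (0 : ℝ) < 2 ^ j)]
  congr 1
  have := abs_tab j
  have h2 : ((|tab j| : ℤ) : ℝ) = (absTab j : ℝ) := by rw [this]; norm_cast
  rw [← h2, Int.cast_abs]

lemma z_small (n : ℕ → ℤ) (hn : IsPowerProduct n) (i : ℕ) (hi : 3 ≤ i) (hi2 : i < 128) :
    |z n i| ≤ (39 / 40 : ℝ) ^ i := by
  rw [abs_z n hn i (by omega) (by omega), div_pow, div_le_div_iff₀ (by positivity) (by positivity)]
  have h := tab_T1 i (List.mem_range.2 hi2) hi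
  have h' : (absTab i : ℝ) * 20 ^ i ≤ 39 ^ i := by exact_mod_cast h
  have h40 : (40 : ℝ) ^ i = 20 ^ i * 2 ^ i := by rw [← mul_pow]; norm_num
  rw [h40, ← mul_assoc]
  exact mul_le_mul_of_nonneg_right h' (by positivity)

lemma z_mid (n : ℕ → ℤ) (hn : IsPowerProduct n) (i : ℕ) (hi : 128 ≤ i) (hi2 : i < 384) :
    |z n i| ≤ 7 / i := by
  rw [abs_z n hn i (by omega) (by omega), div_le_div_iff₀ (by positivity)
    (by exact_mod_cast (by omega : 0 < i))]
  have h := tab_T2 i (List.mem_range.2 hi2) hi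
  have h' : (i : ℝ) * absTab i ≤ 7 * 2 ^ i := by exact_mod_cast h
  linarith

/-- geometric majorant -/
noncomputable def H (t : ℕ) : ℝ := if t ≤ 1 then 0 else 14 * (7 / 128) ^ (t - 1)

lemma H_nonneg (t : ℕ) : 0 ≤ H t := by
  unfold H
  split_ifs
  · exact le_rfl
  · positivity

lemma H_sum (N : ℕ) : ∑ t ∈ range (N + 2), H t = 14 * ((7 / 128) - (7 / 128) ^ (N + 1)) / (1 - 7 / 128) := by
  induction N with
  | zero =>
    rw [Finset.sum_range_succ, Finset.sum_range_one]
    simp [H]
  | succ N ih =>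
    rw [show N + 1 + 2 = (N + 2) + 1 by omega, Finset.sum_range_succ, ih]
    have : H (N + 2) = 14 * (7 / 128) ^ (N + 1) := by
      unfold H
      rw [if_neg (by omega), show N + 2 - 1 = N + 1 by omega]
    rw [this]
    ring

lemma H_sum_le (N : ℕ) : ∑ t ∈ range (N + 1), H t ≤ 0.81 := by
  have h1 : ∑ t ∈ range (N + 1), H t ≤ ∑ t ∈ range (N + 2), H t := by
    apply Finset.sum_le_sum_of_subset_of_nonneg
    · intro x hx
      simp only [Finset.mem_range] at hx ⊢
      omega
    · intro i _ _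
      exact H_nonneg i
  rw [H_sum] at h1
  have h2 : (0 : ℝ) < (7 / 128) ^ (N + 1) := by positivity
  have h3 : (14 : ℝ) * ((7 / 128) - (7 / 128) ^ (N + 1)) / (1 - 7 / 128) ≤ 14 * (7 / 128) / (1 - 7 / 128) := by
    apply div_le_div_of_nonneg_right _ (by norm_num)
    linarith
  have h4 : (14 : ℝ) * (7 / 128) / (1 - 7 / 128) ≤ 0.81 := by norm_num
  linarith

lemma AA_le (j : ℕ) : AA j ≤ 4 * j ^ 2 + 2 * j := by
  unfold AA sodd
  have h1 : ∑ d ∈ (2 * j).divisors, d ≤ ∑ d ∈ range (2 * j + 1), d := by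
    apply Finset.sum_le_sum_of_subset
    intro d hd
    rw [Nat.mem_divisors] at hd
    rw [Finset.mem_range]
    have := Nat.le_of_dvd (by omega) hd.1
    omega
  have h2 : ∑ d ∈ j.divisors with Odd d, d ≤ ∑ d ∈ range (j + 1), d := by
    apply Finset.sum_le_sum_of_subset
    intro d hd
    rw [Finset.mem_filter, Nat.mem_divisors] at hd
    rw [Finset.mem_range]
    have := Nat.le_of_dvd (by omega) hd.1.1
    omega
  have h3 := Finset.sum_range_id_mul_two (2 * j + 1)
  have h4 := Finset.sum_range_id_mul_two (j + 1)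
  simp only [Nat.add_sub_cancel] at h3 h4
  nlinarith

lemma pow_big (j : ℕ) (hj : 20 ≤ j) : 50 * (j * (j + 1)) ≤ 2 ^ j := by
  induction j, hj using Nat.le_induction with
  | base => norm_num
  | succ j hj ih =>
    rw [pow_succ]
    nlinarith

lemma AA_small (j : ℕ) (hj : 20 ≤ j) : (AA j : ℝ) / 2 ^ j ≤ 0.08 := by
  rw [div_le_iff₀ (by positivity)]
  have h1 := AA_le j
  have h2 := pow_big j hj
  have h1' : (AA j : ℝ) ≤ 4 * (j : ℝ) ^ 2 + 2 * j := by exact_mod_cast h1
  have h2' : 50 * ((j : ℝ) * (j + 1)) ≤ 2 ^ j := by exact_mod_cast h2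
  have h3 : (0 : ℝ) ≤ j := by positivity
  nlinarith

lemma num384 : (39 / 40 : ℝ) ^ 384 * 16256 ≤ 0.98 := by
  have h1 : (39 / 40 : ℝ) ^ 128 ≤ 0.0392 := by norm_num
  have h2 : ((39 / 40 : ℝ) ^ 128) ^ 3 ≤ 0.0392 ^ 3 := pow_le_pow_left₀ (by positivity) h1 3
  rw [← pow_mul] at h2
  have h3 : ((39 / 40 : ℝ) ^ (128 * 3)) * 16256 ≤ 0.0392 ^ 3 * 16256 :=
    mul_le_mul_of_nonneg_right h2 (by norm_num)
  exact h3.trans (by norm_num)

/-- the contribution of the divisors `1` and `2` -/
def cc (j : ℕ) : ℝ := if 4 ∣ j then 6 else -2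

/-- the term of the recurrence -/
noncomputable def T (n : ℕ → ℤ) (j i : ℕ) : ℝ := (-1) ^ (j / i) * (2 * i : ℝ) * z n i ^ (j / i)

lemma small_terms (n : ℕ → ℤ) (hn : IsPowerProduct n) (j : ℕ) (hj : 3 ≤ j) :
    ∑ i ∈ j.properDivisors with i < 3, T n j i = cc j := by
  have T1 : T n j 1 = (-1) ^ j * 2 := by
    unfold T
    rw [z_one n hn, Nat.div_one]
    norm_num
  by_cases h2 : 2 ∣ j
  · have hset : j.properDivisors.filter (fun i => i < 3) = {1, 2} := by
      ext i
      simp only [Finset.mem_filter, Nat.mem_properDivisors, Finset.mem_insert, Finset.mem_singleton]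
      constructor
      · rintro ⟨⟨h3, h4⟩, h5⟩
        have : i ≠ 0 := by
          rintro rfl
          have := Nat.eq_zero_of_zero_dvd h3
          omega
        omega
      · rintro (rfl | rfl)
        · exact ⟨⟨one_dvd _, by omega⟩, by omega⟩
        · exact ⟨⟨h2, by omega⟩, by omega⟩
    rw [hset, Finset.sum_pair (by norm_num), T1]
    have T2 : T n j 2 = (-1) ^ (j / 2) * 4 := by
      unfold T
      rw [z_two n hn]
      norm_num
    rw [T2]
    obtain ⟨m, rfl⟩ := h2
    rw [Nat.mul_div_cancel_left m (by norm_num : 0 < 2), (even_two_mul m).neg_one_pow]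
    unfold cc
    by_cases h4 : 2 ∣ m
    · rw [if_pos (by obtain ⟨r, rfl⟩ := h4; exact ⟨r, by ring⟩),
        (even_iff_two_dvd.2 h4).neg_one_pow]
      norm_num
    · rw [if_neg (by omega), (Nat.not_even_iff_odd.1 (fun h => h4 (even_iff_two_dvd.1 h))).neg_one_pow]
      norm_num
  · have hset : j.properDivisors.filter (fun i => i < 3) = {1} := by
      ext i
      simp only [Finset.mem_filter, Nat.mem_properDivisors, Finset.mem_singleton]
      constructor
      · rintro ⟨⟨h3, h4⟩, h5⟩
        have : i ≠ 0 := by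
          rintro rfl
          have := Nat.eq_zero_of_zero_dvd h3
          omega
        have : i ≠ 2 := by
          rintro rfl
          exact h2 h3
        omega
      · rintro rfl
        exact ⟨⟨one_dvd _, by omega⟩, by omega⟩
    rw [hset, Finset.sum_singleton, T1,
      (Nat.not_even_iff_odd.1 (fun h => h2 (even_iff_two_dvd.1 h))).neg_one_pow]
    unfold cc
    rw [if_neg (by omega)]
    norm_num

/-- The main estimate. -/
lemma main_est (n : ℕ → ℤ) (hn : IsPowerProduct n) (j : ℕ) (hj : 384 ≤ j)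
    (ih : ∀ i, 128 ≤ i → i < j → |z n i| ≤ 7 / i) :
    |(2 * j : ℝ) * z n j - cc j| ≤ 1.9 := by
  have h1 := z_rec n hn j (by omega)
  rw [← Finset.sum_filter_add_sum_filter_not j.properDivisors (fun i => i < 3)] at h1
  have h2 := small_terms n hn j (by omega)
  unfold T at h2
  rw [h2] at h1
  have hG : ∑ i ∈ j.properDivisors, (if i < 128 then (2 * i : ℝ) * (39 / 40) ^ j else 0)
      ≤ 0.98 := by
    have e1 : ∑ i ∈ j.properDivisors, (if i < 128 then (2 * i : ℝ) * (39 / 40) ^ j else 0)
        ≤ ∑ i ∈ range 128, (2 * i : ℝ) * (39 / 40) ^ j := by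
      rw [← Finset.sum_filter]
      apply Finset.sum_le_sum_of_subset_of_nonneg
      · intro i hi
        simp only [Finset.mem_filter] at hi
        exact Finset.mem_range.2 hi.2
      · intro i _ _
        positivity
    have e2 : ∑ i ∈ range 128, (2 * i : ℝ) * (39 / 40) ^ j = 16256 * (39 / 40) ^ j := by
      rw [← Finset.sum_mul, ← Finset.mul_sum]
      congr 1
      have : ∑ i ∈ range 128, (i : ℝ) = 8128 := by
        have h : (∑ i ∈ range 128, i : ℕ) = 8128 := by decide +kernel
        have h' : ((∑ i ∈ range 128, i : ℕ) : ℝ) = 8128 := by rw [h]; norm_num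
        rw [← h']
        push_cast
        rfl
      rw [this]
      norm_num
    have e3 : (39 / 40 : ℝ) ^ j ≤ (39 / 40) ^ 384 :=
      pow_le_pow_of_le_one (by norm_num) (by norm_num) hj
    have e4 := num384
    rw [e2] at e1
    refine e1.trans (le_trans ?_ e4)
    rw [mul_comm]
    exact mul_le_mul_of_nonneg_right e3 (by norm_num)
  have hH : ∑ i ∈ j.properDivisors, H (j / i) ≤ 0.81 := by
    have e1 : ∑ i ∈ j.properDivisors, H (j / i) ≤ ∑ i ∈ j.divisors, H (j / i) := by
      apply Finset.sum_le_sum_of_subset_of_nonneg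
      · exact Nat.properDivisors_subset_divisors
      · intro i _ _
        exact H_nonneg _
    rw [Nat.sum_div_divisors j H] at e1
    have e2 : ∑ t ∈ j.divisors, H t ≤ ∑ t ∈ range (j + 1), H t := by
      apply Finset.sum_le_sum_of_subset_of_nonneg
      · intro i hi
        rw [Nat.mem_divisors] at hi
        rw [Finset.mem_range]
        have := Nat.le_of_dvd (by omega) hi.1
        omega
      · intro i _ _
        exact H_nonneg _
    have e3 := H_sum_le j
    linarith
  have hterm : ∀ i ∈ j.properDivisors.filter (fun i => ¬ i < 3),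
      |(-1) ^ (j / i) * (2 * i : ℝ) * z n i ^ (j / i)|
        ≤ (if i < 128 then (2 * i : ℝ) * (39 / 40) ^ j else 0) + H (j / i) := by
    intro i hi
    simp only [Finset.mem_filter, Nat.mem_properDivisors] at hi
    obtain ⟨⟨hd, hlt⟩, h3⟩ := hi
    have h0 : 0 < i := by omega
    rw [abs_mul, abs_mul, abs_pow, abs_neg, abs_one, one_pow, one_mul,
      abs_of_nonneg (by positivity : (0 : ℝ) ≤ 2 * i), abs_pow]
    by_cases hi2 : i < 128
    · rw [if_pos hi2]
      have e1 := z_small n hn i (by omega) hi2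
      have e2 : |z n i| ^ (j / i) ≤ (39 / 40 : ℝ) ^ j := by
        calc |z n i| ^ (j / i) ≤ ((39 / 40 : ℝ) ^ i) ^ (j / i) :=
              pow_le_pow_left₀ (abs_nonneg _) e1 _
          _ = (39 / 40 : ℝ) ^ j := by rw [← pow_mul, Nat.mul_div_cancel' hd]
      have e3 : (2 * i : ℝ) * |z n i| ^ (j / i) ≤ 2 * i * (39 / 40) ^ j :=
        mul_le_mul_of_nonneg_left e2 (by positivity)
      have := H_nonneg (j / i)
      linarith
    · rw [if_neg hi2, zero_add]
      have e1 := ih i (by omega) hlt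
      obtain ⟨t, ht⟩ := hd
      have hdiv : j / i = t := by rw [ht]; exact Nat.mul_div_cancel_left t h0
      have ht2 : 2 ≤ t := by
        by_contra hcon
        have : t = 0 ∨ t = 1 := by omega
        rcases this with rfl | rfl
        · omega
        · omega
      rw [hdiv]
      unfold H
      rw [if_neg (by omega)]
      obtain ⟨s, rfl⟩ : ∃ s, t = s + 1 := ⟨t - 1, by omega⟩
      rw [Nat.add_sub_cancel, pow_succ]
      have hi' : (128 : ℝ) ≤ i := by exact_mod_cast (by omega : 128 ≤ i)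
      have e2 : |z n i| ≤ 7 / 128 := by
        refine e1.trans ?_
        exact div_le_div_of_nonneg_left (by norm_num) (by norm_num) hi'
      have e3 : |z n i| ^ s ≤ (7 / 128 : ℝ) ^ s := pow_le_pow_left₀ (abs_nonneg _) e2 _
      have e4 : (2 * i : ℝ) * |z n i| ≤ 14 := by
        have : (2 * i : ℝ) * |z n i| ≤ 2 * i * (7 / i) :=
          mul_le_mul_of_nonneg_left e1 (by positivity)
        have h5 : (2 * i : ℝ) * (7 / i) = 14 := by
          field_simp
          norm_num
        linarith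
      calc (2 * i : ℝ) * (|z n i| ^ s * |z n i|) = (2 * i * |z n i|) * |z n i| ^ s := by ring
        _ ≤ 14 * (7 / 128) ^ s := mul_le_mul e4 e3 (by positivity) (by norm_num)
  have hsum : |∑ i ∈ j.properDivisors.filter (fun i => ¬ i < 3),
      (-1) ^ (j / i) * (2 * i : ℝ) * z n i ^ (j / i)| ≤ 0.98 + 0.81 := by
    refine (Finset.abs_sum_le_sum_abs _ _).trans ?_
    refine (Finset.sum_le_sum hterm).trans ?_
    have e1 : ∑ i ∈ j.properDivisors.filter (fun i => ¬ i < 3),
        ((if i < 128 then (2 * i : ℝ) * (39 / 40) ^ j else 0) + H (j / i))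
        ≤ ∑ i ∈ j.properDivisors,
        ((if i < 128 then (2 * i : ℝ) * (39 / 40) ^ j else 0) + H (j / i)) := by
      apply Finset.sum_le_sum_of_subset_of_nonneg (Finset.filter_subset _ _)
      intro i _ _
      have := H_nonneg (j / i)
      split_ifs
      · positivity
      · linarith
    refine e1.trans ?_
    rw [Finset.sum_add_distrib]
    linarith
  have hA := AA_small j (by omega)
  have hA0 : (0 : ℝ) ≤ (AA j : ℝ) / 2 ^ j := by positivity
  rw [abs_le] at hsum ⊢
  constructor <;> linarith [hsum.1, hsum.2]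

lemma z_bound (n : ℕ → ℤ) (hn : IsPowerProduct n) (j : ℕ) (hj : 128 ≤ j) : |z n j| ≤ 7 / j := by
  induction j using Nat.strong_induction_on with
  | _ j ih =>
    by_cases h : j < 384
    · exact z_mid n hn j hj h
    · have h1 := main_est n hn j (by omega) (fun i hi hij => ih i hij hi)
      have h2 : |(2 * j : ℝ) * z n j| ≤ 14 := by
        rw [abs_le] at h1 ⊢
        unfold cc at h1
        split_ifs at h1 <;> constructor <;> linarith [h1.1, h1.2]
      have hj0 : (0 : ℝ) < j := by exact_mod_cast (by omega : 0 < j)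
      rw [abs_mul, abs_of_pos (by positivity : (0 : ℝ) < 2 * j)] at h2
      rw [le_div_iff₀ hj0]
      linarith

theorem signs (n : ℕ → ℤ) (hn : IsPowerProduct n) (j : ℕ) (hj : 4 ≤ j) :
    (4 ∣ j → 0 < n (2 * j)) ∧ (¬ 4 ∣ j → n (2 * j) < 0) := by
  by_cases h : j < 384
  · rw [tab_eq n hn j (by omega) h]
    have h3 := tab_T3 j (List.mem_range.2 h) hj
    have h3' : (0 : ℤ) < absTab j := by exact_mod_cast h3
    unfold tab
    constructor
    · intro h4
      rw [if_neg (by omega)]
      exact h3'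
    · intro h4
      rw [if_pos (by omega)]
      linarith
  · have h1 := main_est n hn j (by omega) (fun i hi _ => z_bound n hn i hi)
    have hj0 : (0 : ℝ) < 2 * j := by
      have : (0 : ℝ) < j := by exact_mod_cast (by omega : 0 < j)
      positivity
    rw [abs_le] at h1
    have hp : (0 : ℝ) < 2 ^ j := by positivity
    constructor
    · intro h4
      rw [cc, if_pos h4] at h1
      have h5 : 0 < z n j := by
        by_contra hcon
        have : (2 * j : ℝ) * z n j ≤ 0 := mul_nonpos_of_nonneg_of_nonpos hj0.le (not_lt.1 hcon)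
        linarith [h1.1]
      unfold z at h5
      have h6 : (0 : ℝ) < (n (2 * j) : ℝ) := by
        by_contra hcon
        exact absurd h5 (not_lt.2 (div_nonpos_of_nonpos_of_nonneg (not_lt.1 hcon) hp.le))
      exact_mod_cast h6
    · intro h4
      rw [cc, if_neg h4] at h1
      have h5 : z n j < 0 := by
        by_contra hcon
        have : 0 ≤ (2 * j : ℝ) * z n j := mul_nonneg hj0.le (not_lt.1 hcon)
        linarith [h1.2]
      unfold z at h5
      have h6 : (n (2 * j) : ℝ) < 0 := by
        by_contra hcon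
        exact absurd h5 (not_lt.2 (div_nonneg (not_lt.1 hcon) hp.le))
      exact_mod_cast h6

end Pool.Agent.R376.PP
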