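import Mathlib

/-!
The permanent sum `F(y) = ∑_τ ∏_k (y_k - y_{τ k})` in terms of the coefficients of
`∏_k (X - y_k)`.
-/

namespace Pool.Agent.R376.PerF

open Equiv Finset

section General

variable {K R : Type*} [Fintype K] [DecidableEq K] [CommRing R]

/-- Elementary symmetric sum. -/
def es (y : K → R) (r : ℕ) : R := ∑ U ∈ powersetCard r (univ : Finset K), ∏ k ∈ U, y k

/-- Sum over all permutations of the product over `V` of `y ∘ τ`. -/
def sv (y : K → R) (V : Finset K) : R := ∑ τ : Perm K, ∏ k ∈ V, y (τ k)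

theorem es_perm (y : K → R) (τ : Perm K) (r : ℕ) : es (fun k => y (τ k)) r = es y r := by
  unfold es
  refine Finset.sum_bij' (fun U _ => U.map τ.toEmbedding) (fun U _ => U.map τ.symm.toEmbedding)
    ?_ ?_ ?_ ?_ ?_
  · intro U hU
    rw [mem_powersetCard] at hU ⊢
    exact ⟨subset_univ _, by rw [card_map]; exact hU.2⟩
  · intro U hU
    rw [mem_powersetCard] at hU ⊢
    exact ⟨subset_univ _, by rw [card_map]; exact hU.2⟩
  · intro U _
    ext x
    simp
  · intro U _
    ext x
    simp
  · intro U _
    rw [prod_map]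
    rfl

theorem exists_perm_map (V W : Finset K) (h : V.card = W.card) :
    ∃ g : Perm K, V.map g.toEmbedding = W := by
  classical
  let e : {x // x ∈ V} ≃ {x // x ∈ W} := Finset.equivOfCardEq h
  refine ⟨e.extendSubtype, ?_⟩
  apply Finset.eq_of_subset_of_card_le
  · intro x hx
    rw [mem_map] at hx
    obtain ⟨a, ha, rfl⟩ := hx
    exact Equiv.extendSubtype_mem e a ha
  · rw [card_map, h]

theorem sv_eq_of_card (y : K → R) (V W : Finset K) (h : V.card = W.card) : sv y V = sv y W := by
  obtain ⟨g, rfl⟩ := exists_perm_map V W h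
  unfold sv
  have h1 : ∀ τ : Perm K, ∏ k ∈ V.map g.toEmbedding, y (τ k) = ∏ k ∈ V, y ((τ * g) k) := by
    intro τ
    rw [prod_map]
    rfl
  rw [Finset.sum_congr rfl (fun τ _ => h1 τ)]
  exact (Equiv.sum_comp (Equiv.mulRight g) (fun τ : Perm K => ∏ k ∈ V, y (τ k))).symm

theorem choose_mul_sv (y : K → R) (V : Finset K) :
    ((Fintype.card K).choose V.card : R) * sv y V = ((Fintype.card K).factorial : R) * es y V.card := by
  have h1 : ∑ W ∈ powersetCard V.card (univ : Finset K), sv y W
      = ((Fintype.card K).choose V.card : R) * sv y V := by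
    rw [Finset.sum_congr rfl (fun W hW => sv_eq_of_card y W V (mem_powersetCard.1 hW).2)]
    rw [Finset.sum_const, card_powersetCard, Finset.card_univ, nsmul_eq_mul]
  rw [← h1]
  unfold sv
  rw [Finset.sum_comm]
  have h2 : ∀ τ : Perm K, ∑ W ∈ powersetCard V.card (univ : Finset K), ∏ k ∈ W, y (τ k)
      = es y V.card := fun τ => es_perm y τ V.card
  rw [Finset.sum_congr rfl (fun τ _ => h2 τ), Finset.sum_const, Finset.card_univ,
    Fintype.card_perm, nsmul_eq_mul]

/-- The permanent sum. -/
def F (y : K → R) : R := ∑ τ : Perm K, ∏ k, (y k - y (τ k))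

theorem sv_eq (y : K → R) (V : Finset K) (hu : IsUnit ((Fintype.card K).choose V.card : R)) :
    sv y V = ((V.card.factorial * (Fintype.card K - V.card).factorial : ℕ) : R) * es y V.card := by
  have h1 := choose_mul_sv y V
  have hle : V.card ≤ Fintype.card K := card_le_univ V
  rw [← Nat.choose_mul_factorial_mul_factorial hle] at h1
  apply hu.mul_left_cancel
  rw [h1]
  push_cast
  ring

theorem F_eq (y : K → R)
    (hu : ∀ r ≤ Fintype.card K, IsUnit ((Fintype.card K).choose r : R)) :
    F y = ∑ r ∈ range (Fintype.card K + 1), (-1 : R) ^ (Fintype.card K - r) *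
      ((r.factorial * (Fintype.card K - r).factorial : ℕ) : R) * es y r *
        es y (Fintype.card K - r) := by
  unfold F
  have h1 : ∀ τ : Perm K, ∏ k, (y k - y (τ k)) = ∑ U ∈ (univ : Finset K).powerset,
      (∏ k ∈ U, y k) * ∏ k ∈ univ \ U, (- y (τ k)) := by
    intro τ
    rw [← Finset.prod_add]
    exact Finset.prod_congr rfl (fun k _ => sub_eq_add_neg _ _)
  rw [Finset.sum_congr rfl (fun τ _ => h1 τ), Finset.sum_comm, Finset.sum_powerset,
    Finset.card_univ]
  refine Finset.sum_congr rfl (fun r hr => ?_)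
  have hr' : r ≤ Fintype.card K := by
    have := mem_range.1 hr
    omega
  have h2 : ∀ U ∈ powersetCard r (univ : Finset K),
      ∑ τ : Perm K, (∏ k ∈ U, y k) * ∏ k ∈ univ \ U, (- y (τ k))
      = (∏ k ∈ U, y k) * ((-1 : R) ^ (Fintype.card K - r) *
        (((r.factorial * (Fintype.card K - r).factorial : ℕ) : R) *
        es y (Fintype.card K - r))) := by
    intro U hU
    have hUc := (mem_powersetCard.1 hU).2
    have hc : (univ \ U).card = Fintype.card K - r := by
      rw [card_sdiff_of_subset (subset_univ _), hUc, Finset.card_univ]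
    rw [← Finset.mul_sum]
    congr 1
    have h3 : ∀ τ : Perm K, ∏ k ∈ univ \ U, (- y (τ k))
        = (-1 : R) ^ (Fintype.card K - r) * ∏ k ∈ univ \ U, y (τ k) := by
      intro τ
      rw [Finset.prod_neg, hc]
    rw [Finset.sum_congr rfl (fun τ _ => h3 τ), ← Finset.mul_sum]
    congr 1
    have h4 := sv_eq y (univ \ U) (by rw [hc]; exact hu _ (Nat.sub_le _ _))
    rw [hc] at h4
    unfold sv at h4
    rw [h4, Nat.sub_sub_self hr', mul_comm (r.factorial)]
  rw [Finset.sum_congr rfl h2, ← Finset.sum_mul]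
  unfold es
  ring

theorem es_coeff (y : K → R) (r : ℕ) (hr : r ≤ Fintype.card K) :
    (∏ k, (Polynomial.X - Polynomial.C (y k))).coeff r
      = (-1) ^ (Fintype.card K - r) * es y (Fintype.card K - r) := by
  have h := Multiset.prod_X_sub_C_coeff ((univ : Finset K).val.map y) (k := r)
    (by rw [Multiset.card_map]; exact hr)
  rw [Multiset.map_map, Finset.esymm_map_val, Multiset.card_map] at h
  exact h

/-- `F(y)` by means of the coefficients `c r` of `∏ (X - y_k)`. -/
theorem F_eq_coeff (y : K → R) (c : ℕ → R)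
    (hc : ∀ r ≤ Fintype.card K, (∏ k, (Polynomial.X - Polynomial.C (y k))).coeff r = c r)
    (hu : ∀ r ≤ Fintype.card K, IsUnit ((Fintype.card K).choose r : R)) :
    F y = ∑ r ∈ range (Fintype.card K + 1), (-1 : R) ^ r *
      ((r.factorial * (Fintype.card K - r).factorial : ℕ) : R) * c r *
        c (Fintype.card K - r) := by
  rw [F_eq y hu]
  refine Finset.sum_congr rfl (fun r hr => ?_)
  have hr' : r ≤ Fintype.card K := by
    have := mem_range.1 hr
    omega
  have h1 := es_coeff y r hr'
  have h2 := es_coeff y (Fintype.card K - r) (Nat.sub_le _ _)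
  rw [hc _ hr'] at h1
  rw [hc _ (Nat.sub_le _ _), Nat.sub_sub_self hr'] at h2
  rw [h1, h2]
  have h3 : ((-1 : R) ^ r) * (-1) ^ r = 1 := by
    rw [← mul_pow]; simp
  have h4 : ((-1 : R) ^ r * ((r.factorial * (Fintype.card K - r).factorial : ℕ) : R) *
      ((-1) ^ (Fintype.card K - r) * es y (Fintype.card K - r)) * ((-1) ^ r * es y r))
      = ((-1 : R) ^ r * (-1) ^ r) * ((-1) ^ (Fintype.card K - r) *
        ((r.factorial * (Fintype.card K - r).factorial : ℕ) : R) * es y r *
        es y (Fintype.card K - r)) := by ring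
  rw [h4, h3, one_mul]

end General

end Pool.Agent.R376.PerF
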