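import Mathlib
import Pool.Agent.R376.PerF

/-!
The permanent of `[j - k + δ_{jk}]` of order `p` modulo `p ^ 2`.
-/

namespace Pool.Agent.R376.Per73

open Equiv Finset

variable {p : ℕ} [hp : Fact p.Prime]

section General

variable {S S' : Type*} [CommRing S] [CommRing S']

/-- Product over the moved points. -/
def mv (x : ZMod p → S) (σ : Perm (ZMod p)) : S := ∏ i ∈ σ.support, (x i - x (σ i))

def Phi (x : ZMod p → S) : S := ∑ σ : Perm (ZMod p), mv x σ

def PhiS (s : ℕ) (x : ZMod p → S) : S :=
  ∑ σ ∈ univ.filter (fun σ : Perm (ZMod p) => σ.support.card = s), mv x σ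

theorem mv_conj (x : ZMod p → S) (g σ : Perm (ZMod p)) :
    mv x (g * σ * g⁻¹) = mv (fun i => x (g i)) σ := by
  unfold mv
  rw [Perm.support_conj, prod_map]
  refine Finset.prod_congr rfl (fun i _ => ?_)
  simp

theorem PhiS_perm (s : ℕ) (x : ZMod p → S) (g : Perm (ZMod p)) :
    PhiS s (fun i => x (g i)) = PhiS s x := by
  unfold PhiS
  refine Finset.sum_bij' (fun σ _ => g * σ * g⁻¹) (fun σ _ => g⁻¹ * σ * g) ?_ ?_ ?_ ?_ ?_
  · intro σ hσ
    simp only [mem_filter, mem_univ, true_and] at hσ ⊢
    rw [Perm.card_support_conj]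
    exact hσ
  · intro σ hσ
    simp only [mem_filter, mem_univ, true_and] at hσ ⊢
    have := Perm.card_support_conj (σ := g⁻¹) (τ := σ)
    rw [inv_inv] at this
    rw [this]
    exact hσ
  · intro σ _
    group
  · intro σ _
    group
  · intro σ _
    exact (mv_conj x g σ).symm

theorem PhiS_smul (s : ℕ) (c : S) (x : ZMod p → S) :
    PhiS s (fun i => c * x i) = c ^ s * PhiS s x := by
  unfold PhiS
  rw [Finset.mul_sum]
  refine Finset.sum_congr rfl (fun σ hσ => ?_)
  simp only [mem_filter, mem_univ, true_and] at hσ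
  unfold mv
  rw [← hσ, ← Finset.prod_const, ← Finset.prod_mul_distrib]
  refine Finset.prod_congr rfl (fun i _ => ?_)
  ring

theorem Phi_eq_sum (x : ZMod p → S) : Phi x = ∑ s ∈ range (p + 1), PhiS s x := by
  unfold Phi PhiS
  rw [Finset.sum_fiberwise_of_maps_to]
  intro σ _
  rw [mem_range]
  have := card_le_univ σ.support
  rw [ZMod.card] at this
  omega

/-- The derivative of the product over the moved points. -/
def dl (x z : ZMod p → S) (σ : Perm (ZMod p)) : S :=
  ∑ i ∈ σ.support, (z i - z (σ i)) * ∏ j ∈ σ.support.erase i, (x j - x (σ j))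

theorem prod_add_smul {ι : Type*} [DecidableEq ι] (s : Finset ι) (a b : ι → S) (c : S)
    (hc : c * c = 0) :
    ∏ i ∈ s, (a i + c * b i) = ∏ i ∈ s, a i + c * ∑ i ∈ s, b i * ∏ j ∈ s.erase i, a j := by
  induction s using Finset.induction_on with
  | empty => simp
  | insert k s hk ih =>
    rw [prod_insert hk, ih, prod_insert hk, sum_insert hk, erase_insert hk]
    have h1 : ∀ i ∈ s, b i * ∏ j ∈ (insert k s).erase i, a j
        = a k * (b i * ∏ j ∈ s.erase i, a j) := by
      intro i hi
      have hne : k ≠ i := fun h => hk (h ▸ hi)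
      rw [erase_insert_of_ne hne, prod_insert (fun h => hk (mem_of_mem_erase h))]
      ring
    rw [Finset.sum_congr rfl h1, ← Finset.mul_sum]
    linear_combination (b k * ∑ i ∈ s, b i * ∏ j ∈ s.erase i, a j) * hc

theorem mv_add (x z : ZMod p → S) (c : S) (hc : c * c = 0) (σ : Perm (ZMod p)) :
    mv (fun i => x i + c * z i) σ = mv x σ + c * dl x z σ := by
  unfold mv dl
  rw [← prod_add_smul _ _ _ c hc]
  refine Finset.prod_congr rfl (fun i _ => ?_)
  ring

/-- The derivative as a linear map in `z`. -/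
def lam (x : ZMod p → S) : (ZMod p → S) →ₗ[S] S where
  toFun z := ∑ σ : Perm (ZMod p), dl x z σ
  map_add' z z' := by
    unfold dl
    rw [← Finset.sum_add_distrib]
    refine Finset.sum_congr rfl (fun σ _ => ?_)
    rw [← Finset.sum_add_distrib]
    refine Finset.sum_congr rfl (fun i _ => ?_)
    simp only [Pi.add_apply]
    ring
  map_smul' c z := by
    unfold dl
    simp only [RingHom.id_apply, smul_eq_mul]
    rw [Finset.mul_sum]
    refine Finset.sum_congr rfl (fun σ _ => ?_)
    rw [Finset.mul_sum]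
    refine Finset.sum_congr rfl (fun i _ => ?_)
    simp only [Pi.smul_apply, smul_eq_mul]
    ring

theorem lam_apply (x z : ZMod p → S) : lam x z = ∑ σ : Perm (ZMod p), dl x z σ := rfl

theorem Phi_add (x z : ZMod p → S) (c : S) (hc : c * c = 0) :
    Phi (fun i => x i + c * z i) = Phi x + c * lam x z := by
  unfold Phi
  rw [lam_apply, Finset.mul_sum, ← Finset.sum_add_distrib]
  exact Finset.sum_congr rfl (fun σ _ => mv_add x z c hc σ)

theorem map_lam (f : S →+* S') (x z : ZMod p → S) :
    f (lam x z) = lam (fun i => f (x i)) (fun i => f (z i)) := by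
  rw [lam_apply, lam_apply, map_sum]
  refine Finset.sum_congr rfl (fun σ _ => ?_)
  unfold dl
  rw [map_sum]
  refine Finset.sum_congr rfl (fun i _ => ?_)
  rw [map_mul, map_sub, map_prod]
  congr 1
  refine Finset.prod_congr rfl (fun j _ => ?_)
  rw [map_sub]

theorem dl_conj (x z : ZMod p → S) (g σ : Perm (ZMod p)) :
    dl x z (g * σ * g⁻¹) = dl (fun i => x (g i)) (fun i => z (g i)) σ := by
  unfold dl
  rw [Perm.support_conj, sum_map]
  refine Finset.sum_congr rfl (fun i _ => ?_)
  rw [← Finset.map_erase, prod_map]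
  simp

theorem lam_perm (x z : ZMod p → S) (g : Perm (ZMod p)) :
    lam (fun i => x (g i)) (fun i => z (g i)) = lam x z := by
  rw [lam_apply, lam_apply]
  rw [← Equiv.sum_comp (MulAut.conj g).toEquiv (fun σ => dl x z σ)]
  refine Finset.sum_congr rfl (fun σ _ => ?_)
  exact (dl_conj x z g σ).symm

theorem dl_inv (x z : ZMod p → S) (σ : Perm (ZMod p)) :
    dl x z σ⁻¹ = dl (fun i => - x i) (fun i => - z i) σ := by
  unfold dl
  have h1 : σ⁻¹.support = σ.support.map σ.toEmbedding := by
    ext a
    rw [Perm.support_inv, mem_map]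
    constructor
    · intro ha
      refine ⟨σ⁻¹ a, ?_, by simp⟩
      rw [← Perm.support_inv, Perm.apply_mem_support, Perm.support_inv]
      exact ha
    · rintro ⟨b, hb, rfl⟩
      exact Perm.apply_mem_support.2 hb
  have h2 : ∀ i, σ⁻¹ (σ i) = i := fun i => by simp
  rw [h1, sum_map]
  refine Finset.sum_congr rfl (fun i _ => ?_)
  rw [← Finset.map_erase, prod_map]
  simp only [Equiv.coe_toEmbedding, h2]
  congr 1
  · ring
  · refine Finset.prod_congr rfl (fun j _ => ?_)
    ring

theorem lam_neg (x z : ZMod p → S) : lam (fun i => - x i) (fun i => - z i) = lam x z := by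
  rw [lam_apply, lam_apply]
  rw [← Equiv.sum_comp (Equiv.inv (Perm (ZMod p))) (fun σ => dl x z σ)]
  refine Finset.sum_congr rfl (fun σ _ => ?_)
  exact (dl_inv x z σ).symm

theorem lam_add_const (x z : ZMod p → S) (c : S) : lam (fun i => x i + c) z = lam x z := by
  rw [lam_apply, lam_apply]
  refine Finset.sum_congr rfl (fun σ _ => ?_)
  unfold dl
  refine Finset.sum_congr rfl (fun i _ => ?_)
  congr 1
  refine Finset.prod_congr rfl (fun j _ => ?_)
  ring

end General

theorem lam_id_single_zero (hodd : p ≠ 2) :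
    lam (fun i : ZMod p => i) (fun i => if i = 0 then (1 : ZMod p) else 0) = 0 := by
  have h1 := lam_perm (fun i : ZMod p => i) (fun i => if i = 0 then (1 : ZMod p) else 0)
    (Equiv.neg (ZMod p))
  have h2 := lam_neg (fun i : ZMod p => - i) (fun i => if i = 0 then (1 : ZMod p) else 0)
  have h3 : (fun i : ZMod p => if (Equiv.neg (ZMod p)) i = 0 then (1 : ZMod p) else 0)
      = fun i => if i = 0 then (1 : ZMod p) else 0 := by
    ext i
    simp
  have h4 : (fun i : ZMod p => (Equiv.neg (ZMod p)) i) = fun i => - i := rfl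
  rw [h3, h4] at h1
  rw [← h2] at h1
  have h5 : (fun i : ZMod p => - (if i = 0 then (1 : ZMod p) else 0))
      = - (fun i => if i = 0 then (1 : ZMod p) else 0) := rfl
  rw [h5, map_neg] at h1
  simp only [neg_neg] at h1
  set v := lam (fun i : ZMod p => i) (fun i => if i = 0 then (1 : ZMod p) else 0) with hv
  have h6 : (2 : ZMod p) * v = 0 := by linear_combination -h1
  have h7 : (2 : ZMod p) ≠ 0 := by
    intro h
    have h8 : ((2 : ℕ) : ZMod p) = 0 := by exact_mod_cast h
    rw [ZMod.natCast_eq_zero_iff] at h8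
    have h9 := Nat.le_of_dvd (by norm_num) h8
    have := hp.out.two_le
    omega
  exact (mul_eq_zero.1 h6).resolve_left h7

theorem lam_id (hodd : p ≠ 2) (z : ZMod p → ZMod p) : lam (fun i : ZMod p => i) z = 0 := by
  rw [LinearMap.pi_apply_eq_sum_univ]
  refine Finset.sum_eq_zero (fun a _ => ?_)
  have h1 := lam_perm (fun i : ZMod p => i) (fun i => if a = i then (1 : ZMod p) else 0)
    (Equiv.addRight a)
  have h2 := lam_add_const (fun i : ZMod p => i) (fun i => if i = 0 then (1 : ZMod p) else 0) a
  have h3 : (fun i : ZMod p => if a = (Equiv.addRight a) i then (1 : ZMod p) else 0)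
      = fun i => if i = 0 then (1 : ZMod p) else 0 := by
    ext i
    have : (a = (Equiv.addRight a) i) ↔ (i = 0) := by
      simp [Equiv.coe_addRight, eq_comm]
    simp only [this]
  have h4 : (fun i : ZMod p => (Equiv.addRight a) i) = fun i => i + a := rfl
  rw [h3, h4, h2, lam_id_single_zero hodd] at h1
  rw [← h1, smul_zero]

end Pool.Agent.R376.Per73
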