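import Mathlib
import Pool.Agent.R376.Per73

/-!
The permanent of `[j - k + δ_{jk}]` of order `p` modulo `p ^ 2`, second part.
-/

namespace Pool.Agent.R376.Per73

open Equiv Finset

variable {p : ℕ} [hp : Fact p.Prime]

/-- Reduction modulo `p`. -/
noncomputable def red (p : ℕ) : ZMod (p ^ 2) →+* ZMod p :=
  ZMod.castHom (dvd_pow_self p two_ne_zero) (ZMod p)

omit hp in
theorem p_mul_p : (p : ZMod (p ^ 2)) * p = 0 := by
  have h := ZMod.natCast_self (p ^ 2)
  push_cast at h
  rw [← pow_two]
  exact h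

theorem red_eq_zero (u : ZMod (p ^ 2)) (h : red p u = 0) : ∃ b, u = p * b := by
  have : NeZero (p ^ 2) := ⟨pow_ne_zero 2 hp.out.ne_zero⟩
  have h1 : u = ((u.val : ℕ) : ZMod (p ^ 2)) := (ZMod.natCast_zmod_val u).symm
  rw [h1] at h
  rw [map_natCast, ZMod.natCast_eq_zero_iff] at h
  obtain ⟨k, hk⟩ := h
  refine ⟨(k : ZMod (p ^ 2)), ?_⟩
  rw [h1, hk]
  push_cast
  rfl

theorem p_mul_eq_zero (u : ZMod (p ^ 2)) (h : red p u = 0) : (p : ZMod (p ^ 2)) * u = 0 := by
  obtain ⟨b, rfl⟩ := red_eq_zero u h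
  rw [← mul_assoc, p_mul_p, zero_mul]

theorem red_natCast (n : ℕ) : red p (n : ZMod (p ^ 2)) = n := map_natCast _ _

theorem isUnit_of_red (u : ZMod (p ^ 2)) (h : red p u ≠ 0) : IsUnit u := by
  have h1 : red p ((((red p u)⁻¹).val : ℕ) : ZMod (p ^ 2)) = (red p u)⁻¹ := by
    rw [red_natCast, ZMod.natCast_zmod_val]
  obtain ⟨b, hb⟩ := red_eq_zero (u * ((((red p u)⁻¹).val : ℕ) : ZMod (p ^ 2)) - 1) (by
    rw [map_sub, map_mul, h1, map_one, mul_inv_cancel₀ h, sub_self])
  apply IsUnit.of_mul_eq_one (((((red p u)⁻¹).val : ℕ) : ZMod (p ^ 2)) * (1 - p * b))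
  linear_combination (1 - p * b) * hb - b * b * p_mul_p (p := p)

theorem pow_eq_of_red (u v : ZMod (p ^ 2)) (h : red p u = red p v) : u ^ p = v ^ p := by
  have h1 : (p : ZMod (p ^ 2)) ∣ u - v := by
    obtain ⟨b, hb⟩ := red_eq_zero (u - v) (by rw [map_sub, h, sub_self])
    exact ⟨b, hb⟩
  have h2 := dvd_sub_pow_of_dvd_sub h1 1
  have h3 : (p : ZMod (p ^ 2)) ^ (1 + 1) = 0 := by
    have h4 := p_mul_p (p := p)
    rw [← h4]
    ring
  rw [pow_one, h3, zero_dvd_iff, sub_eq_zero] at h2
  exact h2

/-- The multiplicative representatives. -/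
def T (a : ZMod p) : ZMod (p ^ 2) := (a.val : ZMod (p ^ 2)) ^ p

theorem red_T (a : ZMod p) : red p (T a) = a := by
  unfold T
  rw [map_pow, red_natCast, ZMod.natCast_zmod_val, ZMod.pow_card]

theorem T_mul (a b : ZMod p) : T (a * b) = T a * T b := by
  unfold T
  rw [← mul_pow]
  apply pow_eq_of_red
  rw [map_mul, red_natCast, red_natCast, red_natCast]
  simp only [ZMod.natCast_zmod_val]

theorem T_one : T (1 : ZMod p) = 1 := by
  unfold T
  have h : T (1 : ZMod p) = (1 : ZMod (p ^ 2)) ^ p := by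
    apply pow_eq_of_red
    rw [red_natCast, ZMod.natCast_zmod_val, map_one]
  rw [one_pow] at h
  exact h

theorem T_zero : T (0 : ZMod p) = 0 := by
  unfold T
  rw [ZMod.val_zero, Nat.cast_zero, zero_pow hp.out.ne_zero]

theorem T_pow (a : ZMod p) (n : ℕ) : T (a ^ n) = T a ^ n := by
  induction n with
  | zero => rw [pow_zero, pow_zero, T_one]
  | succ n ih => rw [pow_succ a n, T_mul, ih, ← pow_succ (T a) n]

theorem T_pow_card (a : ZMod p) : T a ^ p = T a := by
  rw [← T_pow, ZMod.pow_card]

/-- Step 1: `Phi` does not depend on the chosen lift of the identity. -/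
theorem Phi_lift (hodd : p ≠ 2) (x y : ZMod p → ZMod (p ^ 2)) (hx : ∀ i, red p (x i) = i)
    (hy : ∀ i, red p (y i) = i) : Phi x = Phi y := by
  have h1 : ∀ i, ∃ b, x i - y i = p * b := fun i =>
    red_eq_zero _ (by rw [map_sub, hx, hy, sub_self])
  choose z hz using h1
  have h2 : x = fun i => y i + p * z i := by
    ext i
    rw [← hz i]
    ring
  rw [h2, Phi_add y z p p_mul_p]
  have h3 : red p (lam y z) = 0 := by
    rw [map_lam]
    simp only [hy]
    exact lam_id hodd _
  rw [p_mul_eq_zero _ h3, add_zero]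

theorem PhiS_T_eq_zero (hodd : p ≠ 2) (s : ℕ) (h0 : s ≠ 0) (h1 : s ≠ p - 1) (h2 : s ≤ p) :
    PhiS s (T : ZMod p → ZMod (p ^ 2)) = 0 := by
  have hp3 : 2 < p := lt_of_le_of_ne hp.out.two_le (Ne.symm hodd)
  obtain ⟨g, hg⟩ := IsCyclic.exists_ofOrder_eq_natCard (α := (ZMod p)ˣ)
  rw [Nat.card_eq_fintype_card, ZMod.card_units] at hg
  have hgs : g ^ s ≠ 1 := by
    intro h
    have h3 := orderOf_dvd_of_pow_eq_one h
    rw [hg] at h3
    obtain ⟨k, hk⟩ := h3
    rcases Nat.lt_or_ge k 2 with hk2 | hk2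
    · interval_cases k
      · omega
      · omega
    · have : (p - 1) * 2 ≤ (p - 1) * k := Nat.mul_le_mul_left _ hk2
      omega
  have hgu : (g : ZMod p) ^ s ≠ 1 := by
    intro h
    apply hgs
    ext
    push_cast
    exact h
  have e1 : PhiS s (fun i => T (g : ZMod p) * T i) = PhiS s (T : ZMod p → ZMod (p ^ 2)) := by
    have h3 := PhiS_perm s (T : ZMod p → ZMod (p ^ 2)) (Units.mulLeft g)
    rw [← h3]
    congr 1
    ext i
    rw [← T_mul]
    rfl
  rw [PhiS_smul, ← T_pow] at e1
  have e2 : (1 - T ((g : ZMod p) ^ s)) * PhiS s (T : ZMod p → ZMod (p ^ 2)) = 0 := by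
    linear_combination -e1
  have hu : IsUnit (1 - T ((g : ZMod p) ^ s)) := by
    apply isUnit_of_red
    rw [map_sub, map_one, red_T, sub_ne_zero]
    exact Ne.symm hgu
  exact (hu.mul_right_eq_zero).1 e2

theorem PhiS_zero (x : ZMod p → ZMod (p ^ 2)) : PhiS 0 x = 1 := by
  unfold PhiS
  have h1 : univ.filter (fun σ : Perm (ZMod p) => σ.support.card = 0) = {1} := by
    ext σ
    simp
  rw [h1, sum_singleton]
  unfold mv
  simp

theorem Phi_T (hodd : p ≠ 2) : Phi (T : ZMod p → ZMod (p ^ 2)) = 1 + PhiS (p - 1) T := by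
  have hp3 : 2 < p := lt_of_le_of_ne hp.out.two_le (Ne.symm hodd)
  rw [Phi_eq_sum]
  have h1 : ∀ s ∈ range (p + 1), s ∉ ({0, p - 1} : Finset ℕ) →
      PhiS s (T : ZMod p → ZMod (p ^ 2)) = 0 := by
    intro s hs hs2
    simp only [mem_insert, mem_singleton, not_or] at hs2
    exact PhiS_T_eq_zero hodd s hs2.1 hs2.2 (by have := mem_range.1 hs; omega)
  have h2 : ({0, p - 1} : Finset ℕ) ⊆ range (p + 1) := by
    intro s hs
    simp only [mem_insert, mem_singleton] at hs
    rw [mem_range]
    omega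
  rw [← Finset.sum_subset h2 h1, sum_pair (by omega), PhiS_zero]

/-- Permutations with exactly one fixed point. -/
theorem PhiS_pred (x : ZMod p → ZMod (p ^ 2)) :
    PhiS (p - 1) x = ∑ a : ZMod p, PerF.F (fun k : {i : ZMod p // i ≠ a} => x k) := by
  have hp1 := hp.out.one_lt
  have h1 : ∀ a : ZMod p, PerF.F (fun k : {i : ZMod p // i ≠ a} => x k)
      = ∑ σ : Perm (ZMod p), if σ.support = {a}ᶜ then mv x σ else 0 := by
    intro a
    unfold PerF.F
    have h2 : ∀ σ : Perm (ZMod p), (if σ.support = {a}ᶜ then mv x σ else 0)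
        = if σ a = a then ∏ i ∈ ({a}ᶜ : Finset (ZMod p)), (x i - x (σ i)) else 0 := by
      intro σ
      by_cases hs : σ.support = {a}ᶜ
      · rw [if_pos hs]
        have : σ a = a := by
          by_contra hne
          have : a ∈ σ.support := Perm.mem_support.2 hne
          rw [hs] at this
          simp at this
        rw [if_pos this]
        unfold mv
        rw [hs]
      · rw [if_neg hs]
        by_cases ha : σ a = a
        · rw [if_pos ha]
          symm
          have h3 : σ.support ⊆ {a}ᶜ := by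
            intro i hi
            rw [mem_compl, mem_singleton]
            rintro rfl
            exact Perm.mem_support.1 hi ha
          have h4 : ∃ i ∈ ({a}ᶜ : Finset (ZMod p)), i ∉ σ.support := by
            by_contra hcon
            push Not at hcon
            exact hs (Finset.Subset.antisymm h3 hcon)
          obtain ⟨i, hi, hi2⟩ := h4
          apply Finset.prod_eq_zero hi
          rw [Perm.notMem_support] at hi2
          rw [hi2, sub_self]
        · rw [if_neg ha]
    rw [Finset.sum_congr rfl (fun σ _ => h2 σ)]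
    rw [← Finset.sum_filter]
    have key : ∀ σ : Perm (ZMod p), σ ∈ univ.filter (fun σ : Perm (ZMod p) => σ a = a) →
        ∀ i, (σ i ≠ a ↔ i ≠ a) := by
      intro σ hσ i
      have hσa : σ a = a := by simpa using hσ
      rw [not_iff_not]
      constructor
      · intro h
        exact σ.injective (h.trans hσa.symm)
      · rintro rfl
        exact hσa
    symm
    refine Finset.sum_bij' (fun σ hσ => (Perm.subtypePerm σ (p := fun i => i ≠ a) (key σ hσ)))
      (fun τ _ => Perm.ofSubtype τ) ?_ ?_ ?_ ?_ ?_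
    · intro σ _
      exact mem_univ _
    · intro τ _
      simp only [mem_filter, mem_univ, true_and]
      exact Perm.ofSubtype_apply_of_not_mem τ (by simp)
    · intro σ hσ
      have hσa : σ a = a := by simpa using hσ
      apply Perm.ofSubtype_subtypePerm
      intro i hi h
      rw [h] at hi
      exact hi hσa
    · intro τ _
      exact Perm.subtypePerm_ofSubtype τ
    · intro σ _
      symm
      refine Finset.prod_bij (fun k _ => (k : ZMod p)) ?_ ?_ ?_ ?_
      · intro k _
        simpa using k.2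
      · intro k _ l _ h
        exact Subtype.ext h
      · intro b hb
        refine ⟨⟨b, by simpa using hb⟩, mem_univ _, rfl⟩
      · intro k _
        rfl
  rw [Finset.sum_congr rfl (fun a _ => h1 a), Finset.sum_comm]
  unfold PhiS
  rw [Finset.sum_filter]
  refine Finset.sum_congr rfl (fun σ _ => ?_)
  by_cases hs : σ.support.card = p - 1
  · rw [if_pos hs]
    have hc : (σ.supportᶜ).card = 1 := by
      rw [card_compl, ZMod.card, hs]
      omega
    obtain ⟨b, hb⟩ := card_eq_one.1 hc
    have hb' : σ.support = {b}ᶜ := by rw [← hb, compl_compl]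
    have h3 : ∀ a : ZMod p, (if σ.support = {a}ᶜ then mv x σ else 0)
        = if b = a then mv x σ else 0 := by
      intro a
      have : σ.support = {a}ᶜ ↔ b = a := by
        rw [hb', compl_inj_iff, singleton_inj]
      simp only [this]
    rw [Finset.sum_congr rfl (fun a _ => h3 a), Finset.sum_ite_eq, if_pos (mem_univ _)]
  · rw [if_neg hs]
    symm
    refine Finset.sum_eq_zero (fun a _ => ?_)
    rw [if_neg]
    intro h
    apply hs
    rw [h, card_compl, card_singleton, ZMod.card]

end Pool.Agent.R376.Per73
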