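import Mathlib
import Pool.Agent.R376.Per73b

/-!
The permanent of `[j - k + δ_{jk}]` of order `p` modulo `p ^ 2`, third part.
-/

namespace Pool.Agent.R376.Per73

open Equiv Finset Polynomial

variable {p : ℕ} [hp : Fact p.Prime]

theorem prod_all : ∏ a : ZMod p, (X - C (T a)) = (X ^ p - X : (ZMod (p ^ 2))[X]) := by
  have hp1 := hp.out.one_lt
  have : Nontrivial (ZMod (p ^ 2)) := by
    have : Fact (1 < p ^ 2) := ⟨Nat.one_lt_pow two_ne_zero hp1⟩
    infer_instance
  symm
  apply Polynomial.eq_of_monic_of_dvd_of_natDegree_le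
  · exact monic_prod_of_monic _ _ (fun a _ => monic_X_sub_C _)
  · exact monic_X_pow_sub (n := p) (p := X) (by rw [degree_X]; exact_mod_cast hp1)
  · apply Finset.prod_dvd_of_coprime
    · intro a _ b _ hab
      apply Polynomial.isCoprime_X_sub_C_of_isUnit_sub
      apply isUnit_of_red
      rw [map_sub, red_T, red_T, sub_ne_zero]
      exact hab
    · intro a _
      rw [dvd_iff_isRoot]
      simp [T_pow_card]
  · rw [natDegree_finsetProd_X_sub_C_eq_card, Finset.card_univ, ZMod.card]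
    refine (natDegree_sub_le _ _).trans ?_
    rw [natDegree_X_pow, natDegree_X]
    exact max_le le_rfl hp1.le

theorem prod_ne (a : ZMod p) (Q : (ZMod (p ^ 2))[X]) (hQ : Q * (X - C (T a)) = X ^ p - X) :
    ∏ k : {i : ZMod p // i ≠ a}, (X - C (T (k : ZMod p))) = Q := by
  have h1 : ∏ i ∈ univ.erase a, (X - C (T i)) = ∏ k : {i : ZMod p // i ≠ a}, (X - C (T (k : ZMod p))) :=
    Finset.prod_subtype (univ.erase a) (by simp) (fun i => X - C (T i))
  have h2 := Finset.prod_erase_mul (univ : Finset (ZMod p)) (fun i => X - C (T i)) (mem_univ a)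
  rw [prod_all, ← hQ] at h2
  rw [← h1]
  exact (monic_X_sub_C (T a)).isRegular.right h2

omit hp in
theorem card_ne [Fact p.Prime] (a : ZMod p) : Fintype.card {i : ZMod p // i ≠ a} = p - 1 := by
  rw [Fintype.card_subtype_compl, ZMod.card]
  simp

theorem isUnit_choose (r : ℕ) (hr : r ≤ p - 1) : IsUnit (((p - 1).choose r : ℕ) : ZMod (p ^ 2)) := by
  apply isUnit_of_red
  rw [red_natCast]
  intro h
  rw [ZMod.natCast_eq_zero_iff] at h
  have h1 := Nat.choose_mul_factorial_mul_factorial hr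
  have h2 : p ∣ (p - 1).factorial := by
    rw [← h1]
    exact Dvd.dvd.mul_right (Dvd.dvd.mul_right h _) _
  rw [hp.out.dvd_factorial] at h2
  have := hp.out.pos
  omega

theorem tele (n m : ℕ) (h : m ≤ n) :
    ((n : ℤ) + 2) * ∑ r ∈ range m, (-1) ^ (r + 1) * (((r + 1).factorial * (n - (r + 1)).factorial : ℕ) : ℤ)
      = - (n.factorial : ℤ) + (-1) ^ m * (((m + 1).factorial * (n - m).factorial : ℕ) : ℤ) := by
  induction m with
  | zero => simp
  | succ m ih =>
    rw [sum_range_succ, mul_add, ih (by omega)]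
    obtain ⟨k, rfl⟩ : ∃ k, n = m + 1 + k := ⟨n - (m + 1), by omega⟩
    rw [show m + 1 + k - m = k + 1 by omega, show m + 1 + k - (m + 1) = k by omega]
    rw [Nat.factorial_succ (m + 1), Nat.factorial_succ k]
    push_cast
    ring

/-- The value of `F` when `a ≠ 0`. -/
theorem F_ne_zero (hodd : p ≠ 2) (a : ZMod p) (ha : a ≠ 0) :
    ((p : ZMod (p ^ 2)) + 1) * PerF.F (fun k : {i : ZMod p // i ≠ a} => T (k : ZMod p))
      = - 2 * ((p - 1).factorial : ZMod (p ^ 2)) := by
  have hp3 : 2 < p := lt_of_le_of_ne hp.out.two_le (Ne.symm hodd)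
  have hT : T a ^ (p - 1) = 1 := by
    rw [← T_pow, ZMod.pow_card_sub_one_eq_one ha, T_one]
  let Q : (ZMod (p ^ 2))[X] := X * ∑ i ∈ range (p - 1), X ^ i * C (T a) ^ (p - 1 - 1 - i)
  have hQ : Q * (X - C (T a)) = X ^ p - X := by
    have h1 := (Commute.all (X : (ZMod (p ^ 2))[X]) (C (T a))).geom_sum₂_mul (p - 1)
    have h2 : Q * (X - C (T a)) = X * (X ^ (p - 1) - C (T a) ^ (p - 1)) := by
      rw [← h1]
      ring
    rw [h2, ← C_pow, hT, C_1, mul_sub, mul_one, ← pow_succ', Nat.sub_add_cancel (by omega)]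
  have hprod := prod_ne a Q hQ
  have hcoeff : ∀ r ≤ Fintype.card {i : ZMod p // i ≠ a},
      (∏ k : {i : ZMod p // i ≠ a}, (X - C (T (k : ZMod p)))).coeff r
        = (fun r => if r = 0 then 0 else T a ^ (p - 1 - r)) r := by
    intro r hr
    rw [card_ne] at hr
    rw [hprod]
    rcases Nat.eq_zero_or_pos r with h0 | h0
    · subst h0
      simp [Q]
    · obtain ⟨j, rfl⟩ : ∃ j, r = j + 1 := ⟨r - 1, by omega⟩
      simp only [Q, coeff_X_mul, finsetSum_coeff]
      rw [if_neg (by omega)]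
      rw [Finset.sum_eq_single_of_mem j (by rw [mem_range]; omega)]
      · rw [← C_pow, coeff_mul_C, coeff_X_pow, if_pos rfl, one_mul]
        congr 1
        omega
      · intro i _ hi
        rw [← C_pow, coeff_mul_C, coeff_X_pow, if_neg (Ne.symm hi), zero_mul]
  have hF := PerF.F_eq_coeff (fun k : {i : ZMod p // i ≠ a} => T (k : ZMod p)) _ hcoeff
    (fun r hr => by rw [card_ne] at hr ⊢; exact isUnit_choose r hr)
  rw [hF, card_ne]
  obtain ⟨n, hn⟩ : ∃ n, p - 1 = n + 2 := ⟨p - 3, by omega⟩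
  have hpn : (p : ZMod (p ^ 2)) = (((n + 2 : ℕ) : ℤ) : ZMod (p ^ 2)) + 1 := by
    have : p = n + 3 := by omega
    have h5 : (p : ZMod (p ^ 2)) = ((n + 3 : ℕ) : ZMod (p ^ 2)) := congrArg _ this
    rw [h5]
    push_cast
    ring
  have heven : Even (n + 1 + 1) := by
    rcases hp.out.eq_two_or_odd' with h | h
    · omega
    · obtain ⟨k, hk⟩ := h
      exact ⟨k, by omega⟩
  rw [hn] at hT ⊢
  rw [Finset.sum_range_succ, Finset.sum_range_succ']
  simp only [↓reduceIte, mul_zero, zero_mul, add_zero, Nat.sub_self]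
  have h6 : ∀ r ∈ range (n + 1), (-1 : ZMod (p ^ 2)) ^ (r + 1) *
      (((r + 1).factorial * (n + 2 - (r + 1)).factorial : ℕ) : ZMod (p ^ 2)) *
      (if r + 1 = 0 then 0 else T a ^ (n + 2 - (r + 1))) *
      (if n + 2 - (r + 1) = 0 then 0 else T a ^ (n + 2 - (n + 2 - (r + 1))))
      = (((-1) ^ (r + 1) * (((r + 1).factorial * (n + 2 - (r + 1)).factorial : ℕ) : ℤ) : ℤ) :
        ZMod (p ^ 2)) := by
    intro r hr
    have hr' := mem_range.1 hr
    rw [if_neg (by omega), if_neg (by omega), mul_assoc _ (T a ^ _), ← pow_add]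
    rw [show n + 2 - (r + 1) + (n + 2 - (n + 2 - (r + 1))) = n + 2 by omega, hT]
    push_cast
    ring
  rw [Finset.sum_congr rfl h6, ← Int.cast_sum]
  have h7 := tele (n + 2) (n + 1) (by omega)
  rw [show n + 2 - (n + 1) = 1 by omega, Nat.factorial_one, mul_one] at h7
  have h8 : (-1 : ℤ) ^ (n + 1) = -1 := by
    have := heven.neg_one_pow (α := ℤ)
    rw [pow_succ] at this
    linarith
  rw [h8] at h7
  have h9 := congrArg (Int.cast : ℤ → ZMod (p ^ 2)) h7
  rw [hpn]
  push_cast at h9 ⊢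
  linear_combination h9

/-- The value of `F` when `a = 0`. -/
theorem F_zero (hodd : p ≠ 2) :
    PerF.F (fun k : {i : ZMod p // i ≠ 0} => T (k : ZMod p))
      = - 2 * ((p - 1).factorial : ZMod (p ^ 2)) := by
  have hp3 : 2 < p := lt_of_le_of_ne hp.out.two_le (Ne.symm hodd)
  have hQ : (X ^ (p - 1) - 1 : (ZMod (p ^ 2))[X]) * (X - C (T (0 : ZMod p))) = X ^ p - X := by
    rw [T_zero, C_0, sub_zero, sub_mul, one_mul, ← pow_succ, Nat.sub_add_cancel (by omega)]
  have hprod := prod_ne (0 : ZMod p) _ hQ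
  have hcoeff : ∀ r ≤ Fintype.card {i : ZMod p // i ≠ 0},
      (∏ k : {i : ZMod p // i ≠ 0}, (X - C (T (k : ZMod p)))).coeff r
        = (fun r => (if r = p - 1 then 1 else 0) - (if r = 0 then 1 else 0)) r := by
    intro r hr
    rw [hprod]
    simp only [coeff_sub, coeff_X_pow, coeff_one]
  have hF := PerF.F_eq_coeff (fun k : {i : ZMod p // i ≠ 0} => T (k : ZMod p)) _ hcoeff
    (fun r hr => by rw [card_ne] at hr ⊢; exact isUnit_choose r hr)
  rw [hF, card_ne]
  obtain ⟨n, hn⟩ : ∃ n, p - 1 = n + 2 := ⟨p - 3, by omega⟩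
  have heven : Even (n + 1 + 1) := by
    rcases hp.out.eq_two_or_odd' with h | h
    · omega
    · obtain ⟨k, hk⟩ := h
      exact ⟨k, by omega⟩
  rw [hn]
  rw [Finset.sum_range_succ, Finset.sum_range_succ']
  rw [Finset.sum_eq_zero]
  · have h8 := heven.neg_one_pow (α := ZMod (p ^ 2))
    rw [h8]
    simp
    ring
  · intro r hr
    have hr' := mem_range.1 hr
    rw [if_neg (show ¬ (r + 1 = n + 2) by omega), if_neg (show ¬ (r + 1 = 0) by omega)]
    simp

theorem PhiS_value (hodd : p ≠ 2) : PhiS (p - 1) (T : ZMod p → ZMod (p ^ 2)) = 4 * p := by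
  have hp1 := hp.out.one_lt
  have h1 : ((p : ZMod (p ^ 2)) + 1) * PhiS (p - 1) (T : ZMod p → ZMod (p ^ 2))
      = - 4 * (p * ((p - 1).factorial : ZMod (p ^ 2))) := by
    rw [PhiS_pred, Finset.mul_sum, ← Finset.add_sum_erase _ _ (mem_univ (0 : ZMod p)), F_zero hodd]
    rw [Finset.sum_congr rfl (fun a ha => F_ne_zero hodd a (ne_of_mem_erase ha))]
    rw [Finset.sum_const, card_erase_of_mem (mem_univ _), Finset.card_univ, ZMod.card, nsmul_eq_mul]
    rw [Nat.cast_sub hp1.le]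
    push_cast
    ring
  have h2 : (p : ZMod (p ^ 2)) * (((p - 1).factorial : ZMod (p ^ 2)) + 1) = 0 := by
    apply p_mul_eq_zero
    rw [map_add, map_one, red_natCast, ZMod.wilsons_lemma]
    ring
  have h3 := p_mul_p (p := p)
  linear_combination (1 - (p : ZMod (p ^ 2))) * h1 + (-4 + 4 * (p : ZMod (p ^ 2))) * h2 +
    (PhiS (p - 1) T + (-4)) * h3

theorem Phi_value (hodd : p ≠ 2) (x : ZMod p → ZMod (p ^ 2)) (hx : ∀ i, red p (x i) = i) :
    Phi x = 4 * p + 1 := by
  rw [Phi_lift hodd x T hx red_T, Phi_T hodd, PhiS_value hodd]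
  ring

end Pool.Agent.R376.Per73
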