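import Mathlib

/-!
# Random series, and weighted sums with a slowly decreasing kernel
-/

set_option autoImplicit false

open MeasureTheory ProbabilityTheory Filter Topology

namespace Pool.Agent.R376.Rnd

/-- **Kolmogorov's theorem**: a series of independent bounded centred random variables with
summable variances converges almost surely. -/
theorem ae_conv {Ω : Type*} {m0 : MeasurableSpace Ω} {μ : Measure Ω} [IsProbabilityMeasure μ]
    (Z : ℕ → Ω → ℝ) (hm : ∀ n, StronglyMeasurable (Z n)) (hind : iIndepFun Z μ)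
    (hb : ∀ n, ∃ C : ℝ, ∀ ω, |Z n ω| ≤ C) (h0 : ∀ n, ∫ ω, Z n ω ∂μ = 0)
    (hs : Summable fun n => ∫ ω, Z n ω ^ 2 ∂μ) :
    ∀ᵐ ω ∂μ, ∃ l : ℝ, Tendsto (fun N => ∑ n ∈ Finset.range (N + 1), Z n ω) atTop (𝓝 l) := by
  have hL : ∀ n, MemLp (Z n) 2 μ := by
    intro n
    obtain ⟨C, hC⟩ := hb n
    exact MemLp.of_bound (hm n).aestronglyMeasurable C (Eventually.of_forall fun ω => by
      rw [Real.norm_eq_abs]; exact hC ω)
  have hI : ∀ n, Integrable (Z n) μ := fun n => (hL n).integrable one_le_two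
  set S : ℕ → Ω → ℝ := fun N => ∑ n ∈ Finset.range (N + 1), Z n with hS
  have hSL : ∀ N, MemLp (S N) 2 μ := fun N => memLp_finsetSum' _ fun n _ => hL n
  have hSI : ∀ N, Integrable (S N) μ := fun N => (hSL N).integrable one_le_two
  set ℱ := Filtration.natural Z hm with hF
  have hadp : StronglyAdapted ℱ S := by
    intro N
    refine Finset.stronglyMeasurable_sum _ fun n hn => ?_
    have h1 : StronglyMeasurable[ℱ n] (Z n) := Filtration.stronglyAdapted_natural hm n
    exact h1.mono (ℱ.mono (by have := Finset.mem_range.1 hn; omega))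
  have hmart : Martingale S ℱ μ := by
    refine martingale_of_condExp_sub_eq_zero_nat hadp hSI fun N => ?_
    have h1 : S (N + 1) - S N = Z (N + 1) := by
      rw [hS]
      simp only
      rw [Finset.sum_range_succ _ (N + 1), add_sub_cancel_left]
    rw [h1]
    refine (iIndepFun.condExp_natural_ae_eq_of_lt hm hind (Nat.lt_succ_self N)).trans ?_
    rw [h0]
    rfl
  have hvar : ∀ N, ∫ ω, S N ω ^ 2 ∂μ = ∑ n ∈ Finset.range (N + 1), ∫ ω, Z n ω ^ 2 ∂μ := by
    intro N
    have h1 : Var[S N; μ] = ∑ n ∈ Finset.range (N + 1), Var[Z n; μ] := by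
      refine IndepFun.variance_sum (fun n _ => hL n) ?_
      intro i _ j _ hij
      exact hind.indepFun hij
    have h2 : ∫ ω, S N ω ∂μ = 0 := by
      rw [hS]
      simp only [Finset.sum_apply]
      rw [integral_finsetSum _ fun n _ => hI n]
      exact Finset.sum_eq_zero fun n _ => h0 n
    rw [variance_of_integral_eq_zero (hSI N).aemeasurable h2] at h1
    rw [h1]
    exact Finset.sum_congr rfl fun n _ => variance_of_integral_eq_zero (hI n).aemeasurable (h0 n)
  have hbd : ∀ N, eLpNorm (S N) 1 μ ≤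
      ((Real.toNNReal ((1 + ∑' n, ∫ ω, Z n ω ^ 2 ∂μ) / 2) : NNReal) : ENNReal) := by
    intro N
    rw [eLpNorm_one_eq_lintegral_enorm, ← ofReal_integral_norm_eq_lintegral_enorm (hSI N)]
    apply ENNReal.ofReal_le_ofReal
    have hsq : Integrable (fun ω => S N ω ^ 2) μ := (hSL N).integrable_sq
    calc ∫ ω, ‖S N ω‖ ∂μ ≤ ∫ ω, (1 / 2 + (1 / 2) * S N ω ^ 2) ∂μ := by
          apply integral_mono (hSI N).norm ((integrable_const _).add (hsq.const_mul _))
          intro ω
          simp only [Real.norm_eq_abs, Pi.add_apply]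
          nlinarith [sq_nonneg (|S N ω| - 1), sq_abs (S N ω)]
      _ = 1 / 2 + (1 / 2) * ∑ n ∈ Finset.range (N + 1), ∫ ω, Z n ω ^ 2 ∂μ := by
          rw [integral_add (integrable_const _) (hsq.const_mul _), integral_const,
            integral_const_mul, hvar]
          simp
      _ ≤ (1 + ∑' n, ∫ ω, Z n ω ^ 2 ∂μ) / 2 := by
          have := hs.sum_le_tsum (Finset.range (N + 1)) fun n _ =>
            integral_nonneg fun ω => sq_nonneg (Z n ω)
          linarith
  filter_upwards [hmart.submartingale.ae_tendsto_limitProcess hbd] with ω hω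
  exact ⟨ℱ.limitProcess S μ ω, by simpa [hS, Finset.sum_apply] using hω⟩

/-- **Kronecker's lemma**, bounded form -/
theorem kron {b y : ℕ → ℝ} (hb : Monotone b) (hb0 : ∀ n, 0 < b n) {A : ℝ}
    (hA : ∀ N, |∑ n ∈ Finset.range N, y n / b n| ≤ A) (N : ℕ) :
    |∑ n ∈ Finset.range (N + 1), y n| ≤ 2 * A * b N := by
  have hA0 : 0 ≤ A := (abs_nonneg _).trans (hA 0)
  set s : ℕ → ℝ := fun N => ∑ n ∈ Finset.range N, y n / b n with hs
  have key : ∀ N, ∑ n ∈ Finset.range (N + 1), y n =
      b N * s (N + 1) - ∑ n ∈ Finset.range N, (b (n + 1) - b n) * s (n + 1) := by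
    intro N
    induction N with
    | zero =>
      simp only [hs, zero_add, Finset.sum_range_one, Finset.range_zero, Finset.sum_empty, sub_zero]
      rw [mul_div_cancel₀ _ (hb0 0).ne']
    | succ N ih =>
      rw [Finset.sum_range_succ, ih, Finset.sum_range_succ _ N]
      have h1 : s (N + 1 + 1) = s (N + 1) + y (N + 1) / b (N + 1) := by
        simp only [hs]
        rw [Finset.sum_range_succ _ (N + 1)]
      rw [h1, mul_add, mul_div_cancel₀ _ (hb0 (N + 1)).ne']
      ring
  rw [key]
  have h1 : |b N * s (N + 1)| ≤ b N * A := by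
    rw [abs_mul, abs_of_pos (hb0 N)]
    exact mul_le_mul_of_nonneg_left (hA _) (hb0 N).le
  have h2 : |∑ n ∈ Finset.range N, (b (n + 1) - b n) * s (n + 1)| ≤ (b N - b 0) * A := by
    refine (Finset.abs_sum_le_sum_abs _ _).trans ?_
    calc ∑ n ∈ Finset.range N, |(b (n + 1) - b n) * s (n + 1)| ≤
        ∑ n ∈ Finset.range N, (b (n + 1) - b n) * A := by
          refine Finset.sum_le_sum fun n _ => ?_
          have h3 : 0 ≤ b (n + 1) - b n := sub_nonneg.2 (hb (Nat.le_succ n))
          rw [abs_mul, abs_of_nonneg h3]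
          exact mul_le_mul_of_nonneg_left (hA _) h3
      _ = (b N - b 0) * A := by rw [← Finset.sum_mul, Finset.sum_range_sub]
  have h4 := hb0 0
  calc |b N * s (N + 1) - ∑ n ∈ Finset.range N, (b (n + 1) - b n) * s (n + 1)| ≤
      |b N * s (N + 1)| + |∑ n ∈ Finset.range N, (b (n + 1) - b n) * s (n + 1)| := abs_sub _ _
    _ ≤ b N * A + (b N - b 0) * A := add_le_add h1 h2
    _ ≤ 2 * A * b N := by nlinarith

end Pool.Agent.R376.Rnd
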