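import Pool.Agent.R376.RandA
import Pool.Agent.W189.ML.Grow

/-!
# The kernel `cos (c u) / Γ (1 + u)` and weighted sums
-/

set_option autoImplicit false

open Filter Topology

namespace Pool.Agent.R376.Rnd

open Pool.Agent.W189.ML

/-! ### the slowly growing function -/

/-- `E(T) = 1 + log (1 + T)` -/
noncomputable def EE (T : ℝ) : ℝ := 1 + Real.log (1 + T)

theorem EE_one_le {T : ℝ} (h : 0 ≤ T) : 1 ≤ EE T := by
  have := Real.log_nonneg (show 1 ≤ 1 + T by linarith)
  unfold EE
  linarith

theorem EE_mono {S T : ℝ} (hS : 0 ≤ S) (h : S ≤ T) : EE S ≤ EE T := by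
  have := Real.log_le_log (show 0 < 1 + S by linarith) (show 1 + S ≤ 1 + T by linarith)
  unfold EE
  linarith

theorem EE_mul {T u : ℝ} (hT : 0 ≤ T) (hu : 0 ≤ u) : EE (T * u) ≤ EE T * (1 + u) := by
  have h1 : Real.log (1 + T * u) ≤ Real.log ((1 + T) * (1 + u)) := by
    apply Real.log_le_log (by positivity)
    nlinarith [mul_nonneg hT hu]
  rw [Real.log_mul (by positivity) (by positivity)] at h1
  have h2 : Real.log (1 + u) ≤ u := by
    have := Real.log_le_sub_one_of_pos (show 0 < 1 + u by linarith)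
    linarith
  have h3 := Real.log_nonneg (show 1 ≤ 1 + T by linarith)
  unfold EE
  nlinarith

theorem pow_le_exp_half {γ : ℝ} : ∃ C : ℝ, 0 ≤ C ∧ ∀ u : ℝ, 0 ≤ u →
    (1 + u) ^ γ ≤ C * Real.exp (u / 2) := by
  set k : ℕ := ⌈γ⌉₊ with hk
  refine ⟨k.factorial * 2 ^ k * Real.exp (1 / 2), by positivity, fun u hu => ?_⟩
  have h1 : (1 + u) ^ γ ≤ (1 + u) ^ (k : ℝ) :=
    Real.rpow_le_rpow_of_exponent_le (by linarith) (Nat.le_ceil γ)
  rw [Real.rpow_natCast] at h1
  have h2 := Real.pow_div_factorial_le_exp ((1 + u) / 2) (by positivity) k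
  rw [div_le_iff₀ (by positivity), div_pow, div_le_iff₀ (by positivity)] at h2
  have h3 : Real.exp ((1 + u) / 2) = Real.exp (1 / 2) * Real.exp (u / 2) := by
    rw [← Real.exp_add]
    congr 1
    ring
  rw [h3] at h2
  calc (1 + u) ^ γ ≤ (1 + u) ^ k := h1
    _ ≤ _ := h2
    _ = _ := by ring

/-- a kernel which is exponentially small, with its variation -/
structure Ker (w : ℝ → ℝ) (C : ℝ) : Prop where
  nonneg : 0 ≤ C
  small : ∀ s : ℝ, 0 ≤ s → |w s| ≤ C * Real.exp (-s)
  var : ∀ s t : ℝ, 0 ≤ s → s ≤ t → t ≤ s + 1 → |w s - w t| ≤ C * (Real.exp (-s) - Real.exp (-t))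

theorem abel (y W : ℕ → ℝ) (N : ℕ) :
    ∑ n ∈ Finset.range (N + 1), y n * W n = (∑ n ∈ Finset.range (N + 1), y n) * W N +
      ∑ n ∈ Finset.range N, (∑ k ∈ Finset.range (n + 1), y k) * (W n - W (n + 1)) := by
  induction N with
  | zero => simp
  | succ N ih =>
    rw [Finset.sum_range_succ (fun n => y n * W n) (N + 1), ih,
      Finset.sum_range_succ (fun n => (∑ k ∈ Finset.range (n + 1), y k) * (W n - W (n + 1))) N,
      Finset.sum_range_succ y (N + 1)]
    ring

/-- **weighted sums** -/
theorem wsum (γ : ℝ) (hγ : 0 ≤ γ) : ∃ D : ℝ, 0 ≤ D ∧ ∀ (w : ℝ → ℝ) (C : ℝ), Ker w C →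
    ∀ (y : ℕ → ℝ) (A : ℝ), (∀ N : ℕ, |∑ n ∈ Finset.range (N + 1), y n| ≤ A * EE (Real.log N) ^ γ) →
    ∀ T : ℝ, 1 ≤ T → ∀ N : ℕ,
      |∑ n ∈ Finset.range (N + 1), y n * w (Real.log n / T)| ≤ D * C * A * EE T ^ γ := by
  obtain ⟨Cg, hCg, hpow⟩ := pow_le_exp_half (γ := γ)
  refine ⟨3 * Cg, by positivity, fun w C hw y A hA T hT N => ?_⟩
  have hT0 : 0 < T := by linarith
  have hE1 : 1 ≤ EE T := EE_one_le hT0.le
  have hE0 : 0 ≤ EE T ^ γ := Real.rpow_nonneg (by linarith) _
  have hA0 : 0 ≤ A := by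
    have h1 := (abs_nonneg _).trans (hA 0)
    have h2 : 0 < EE (Real.log (0 : ℕ)) ^ γ := by
      refine Real.rpow_pos_of_pos ?_ _
      have := EE_one_le (T := Real.log (0 : ℕ)) (by simp)
      linarith
    nlinarith
  set u : ℕ → ℝ := fun n => Real.log n / T with hu
  have hu0 : ∀ n, 0 ≤ u n := fun n => div_nonneg (Real.log_natCast_nonneg n) hT0.le
  have hmono : ∀ n, u n ≤ u (n + 1) := by
    intro n
    rcases Nat.eq_zero_or_pos n with rfl | hn
    · simp [hu]
    · have h1 : (0 : ℝ) < n := by exact_mod_cast hn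
      have h2 : Real.log n ≤ Real.log (n + 1 : ℕ) :=
        Real.log_le_log h1 (by push_cast; linarith)
      exact div_le_div_of_nonneg_right h2 hT0.le
  have hstep : ∀ n, u (n + 1) ≤ u n + 1 := by
    intro n
    rcases Nat.eq_zero_or_pos n with rfl | hn
    · simp [hu]
    · have h1 : (0 : ℝ) < n := by exact_mod_cast hn
      have h1' : (1 : ℝ) ≤ n := by exact_mod_cast hn
      have h2 : Real.log (n + 1 : ℕ) ≤ Real.log n + 1 := by
        have h3 : Real.log (n + 1 : ℕ) ≤ Real.log (Real.exp 1 * n) := by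
          apply Real.log_le_log (by positivity)
          push_cast
          have := Real.add_one_le_exp (1 : ℝ)
          nlinarith
        rw [Real.log_mul (Real.exp_ne_zero _) h1.ne', Real.log_exp] at h3
        linarith
      have h4 : u (n + 1) ≤ (Real.log n + 1) / T := div_le_div_of_nonneg_right h2 hT0.le
      have h5 : (Real.log n + 1) / T = u n + 1 / T := by
        simp only [hu]
        ring
      have h6 : 1 / T ≤ 1 := (div_le_one hT0).2 hT
      linarith
  have hY : ∀ n, |∑ k ∈ Finset.range (n + 1), y k| ≤ A * EE T ^ γ * Cg * Real.exp (u n / 2) := by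
    intro n
    refine (hA n).trans ?_
    have h1 : Real.log n = T * u n := by
      simp only [hu]
      field_simp
    have h2 : EE (Real.log n) ^ γ ≤ (EE T * (1 + u n)) ^ γ := by
      rw [h1]
      exact Real.rpow_le_rpow (by have := EE_one_le (mul_nonneg hT0.le (hu0 n)); linarith)
        (EE_mul hT0.le (hu0 n)) hγ
    rw [Real.mul_rpow (by linarith) (by have := hu0 n; linarith)] at h2
    have h3 := hpow (u n) (hu0 n)
    calc A * EE (Real.log n) ^ γ ≤ A * (EE T ^ γ * (1 + u n) ^ γ) := by gcongr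
      _ ≤ A * (EE T ^ γ * (Cg * Real.exp (u n / 2))) := by gcongr
      _ = _ := by ring
  rw [abel y (fun n => w (u n)) N]
  set G : ℝ := A * EE T ^ γ * Cg with hG
  have hG0 : 0 ≤ G := by positivity
  have hC0 := hw.nonneg
  -- the boundary term
  have hb : |(∑ n ∈ Finset.range (N + 1), y n) * w (u N)| ≤ G * C := by
    rw [abs_mul]
    have h1 := hw.small (u N) (hu0 N)
    have h2 : Real.exp (u N / 2) * Real.exp (-(u N)) ≤ 1 := by
      rw [← Real.exp_add]
      apply Real.exp_le_one_iff.2
      have := hu0 N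
      linarith
    calc |∑ n ∈ Finset.range (N + 1), y n| * |w (u N)| ≤
        (G * Real.exp (u N / 2)) * (C * Real.exp (-(u N))) :=
          mul_le_mul (hY N) h1 (abs_nonneg _) (by positivity)
      _ = G * C * (Real.exp (u N / 2) * Real.exp (-(u N))) := by ring
      _ ≤ G * C * 1 := by gcongr
      _ = G * C := mul_one _
  -- the sum
  have hs : |∑ n ∈ Finset.range N, (∑ k ∈ Finset.range (n + 1), y k) * (w (u n) - w (u (n + 1)))| ≤
      2 * G * C := by
    refine (Finset.abs_sum_le_sum_abs _ _).trans ?_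
    have h1 : ∀ n ∈ Finset.range N,
        |(∑ k ∈ Finset.range (n + 1), y k) * (w (u n) - w (u (n + 1)))| ≤
        2 * G * C * (Real.exp (-(u n / 2)) - Real.exp (-(u (n + 1) / 2))) := by
      intro n _
      rw [abs_mul]
      have h2 := hw.var (u n) (u (n + 1)) (hu0 n) (hmono n) (hstep n)
      set a := Real.exp (-(u n / 2)) with ha
      set b := Real.exp (-(u (n + 1) / 2)) with hb
      have ha0 : 0 < a := Real.exp_pos _
      have hb0 : 0 < b := Real.exp_pos _
      have hba : b ≤ a := Real.exp_le_exp.2 (by have := hmono n; linarith)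
      have e1 : Real.exp (-(u n)) = a ^ 2 := by
        rw [ha, ← Real.exp_nat_mul]
        congr 1
        push_cast
        ring
      have e2 : Real.exp (-(u (n + 1))) = b ^ 2 := by
        rw [hb, ← Real.exp_nat_mul]
        congr 1
        push_cast
        ring
      have e3 : Real.exp (u n / 2) * a = 1 := by
        rw [ha, ← Real.exp_add]
        simp
      rw [e1, e2] at h2
      calc |∑ k ∈ Finset.range (n + 1), y k| * |w (u n) - w (u (n + 1))| ≤
          (G * Real.exp (u n / 2)) * (C * (a ^ 2 - b ^ 2)) :=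
            mul_le_mul (hY n) h2 (abs_nonneg _) (by positivity)
        _ = G * C * (Real.exp (u n / 2) * ((a - b) * (a + b))) := by ring
        _ ≤ G * C * (Real.exp (u n / 2) * ((a - b) * (2 * a))) := by
            have : 0 ≤ a - b := by linarith
            gcongr
            linarith
        _ = 2 * G * C * (a - b) * (Real.exp (u n / 2) * a) := by ring
        _ = _ := by rw [e3, mul_one]
    refine (Finset.sum_le_sum h1).trans ?_
    rw [← Finset.mul_sum, Finset.sum_range_sub' (fun n => Real.exp (-(u n / 2)))]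
    have h3 : Real.exp (-(u 0 / 2)) - Real.exp (-(u N / 2)) ≤ 1 := by
      have h4 : Real.exp (-(u 0 / 2)) ≤ 1 := Real.exp_le_one_iff.2 (by have := hu0 0; linarith)
      have h5 := Real.exp_pos (-(u N / 2))
      linarith
    calc 2 * G * C * (Real.exp (-(u 0 / 2)) - Real.exp (-(u N / 2))) ≤ 2 * G * C * 1 := by
          have : 0 ≤ 2 * G * C := by positivity
          gcongr
      _ = 2 * G * C := mul_one _
  refine (abs_add_le _ _).trans ((add_le_add hb hs).trans (le_of_eq ?_))
  rw [hG]
  ring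

/-! ### the kernel -/

theorem exp_sub_abs {x y : ℝ} : |Real.exp x - Real.exp y| ≤ |x - y| * max (Real.exp x) (Real.exp y) := by
  wlog h : x ≤ y generalizing x y with H
  · have := H (x := y) (y := x) (by linarith)
    rwa [abs_sub_comm, abs_sub_comm y x, max_comm] at this
  have h1 : Real.exp x ≤ Real.exp y := Real.exp_le_exp.2 h
  rw [abs_of_nonpos (by linarith), abs_of_nonpos (by linarith), max_eq_right h1]
  have h2 := Real.add_one_le_exp (x - y)
  have h3 : Real.exp x = Real.exp (x - y) * Real.exp y := by rw [← Real.exp_add]; simp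
  nlinarith [Real.exp_pos y]

theorem om_pos {v : ℝ} (hv : 0 ≤ v) : 0 < om v := by
  unfold om
  have := Real.Gamma_pos_of_pos (by linarith : 0 < 1 + v)
  positivity

theorem om_exp {v : ℝ} (hv : 0 ≤ v) : om v = Real.exp (-(Real.log (Real.Gamma (1 + v)))) := by
  have := Real.Gamma_pos_of_pos (by linarith : 0 < 1 + v)
  rw [Real.exp_neg, Real.exp_log this]
  rfl

theorem logGamma_lip {s t : ℝ} (hs : 0 ≤ s) (hst : s < t) :
    |Real.log (Real.Gamma (1 + t)) - Real.log (Real.Gamma (1 + s))| ≤ (t - s) * (6 + t) := by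
  have hconv := Real.convexOn_log_Gamma
  have hup := hconv.slope_mono_adjacent (x := 1 + s) (y := 1 + t) (z := 2 + t)
    (by show (0 : ℝ) < 1 + s; linarith) (by show (0 : ℝ) < 2 + t; linarith) (by linarith)
    (by linarith)
  have hlo := hconv.slope_mono_adjacent (x := 1 / 2) (y := 1 + s) (z := 1 + t)
    (by show (0 : ℝ) < 1 / 2; norm_num) (by show (0 : ℝ) < 1 + t; linarith) (by linarith)
    (by linarith)
  simp only [Function.comp_apply] at hup hlo
  have hG : Real.Gamma (2 + t) = (1 + t) * Real.Gamma (1 + t) := by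
    have := Real.Gamma_add_one (s := 1 + t) (by linarith)
    rw [← this]
    congr 1
    ring
  have hg := Real.Gamma_pos_of_pos (by linarith : 0 < 1 + t)
  rw [hG, Real.log_mul (by linarith) hg.ne'] at hup
  have e1 : 2 + t - (1 + t) = 1 := by ring
  have e2 : 1 + t - (1 + s) = t - s := by ring
  rw [e1, e2] at hup
  rw [e2] at hlo
  have hts : 0 < t - s := by linarith
  have h1 : Real.log (1 + t) ≤ t := by
    have := Real.log_le_sub_one_of_pos (show 0 < 1 + t by linarith)
    linarith
  have h2 : (Real.log (Real.Gamma (1 + t)) - Real.log (Real.Gamma (1 + s))) / (t - s) ≤ t := by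
    linarith
  rw [div_le_iff₀ hts] at h2
  -- lower bound
  have h3 : -2 ≤ Real.log (Real.Gamma (1 + s)) := by
    have h4 := om_le_const hs
    rw [om_exp hs] at h4
    have h5 : Real.exp 1 + 1 ≤ Real.exp 2 := by
      have h6 : Real.exp 2 = Real.exp 1 * Real.exp 1 := by rw [← Real.exp_add]; norm_num
      have h7 := Real.add_one_le_exp (1 : ℝ)
      nlinarith
    have h8 := Real.exp_le_exp.1 (h4.trans h5)
    linarith
  have h4 : Real.log (Real.Gamma (1 / 2)) ≤ 1 := by
    rw [Real.Gamma_one_half_eq]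
    have h5 : √Real.pi ≤ 2 := by
      rw [Real.sqrt_le_left (by norm_num)]
      have := Real.pi_lt_four
      linarith
    have h6 := Real.log_le_sub_one_of_pos (show 0 < √Real.pi by positivity)
    linarith
  have h5 : -6 ≤ (Real.log (Real.Gamma (1 + s)) - Real.log (Real.Gamma (1 / 2))) / (1 + s - 1 / 2) := by
    rw [le_div_iff₀ (by linarith)]
    nlinarith
  have h6 := h5.trans hlo
  rw [le_div_iff₀ hts] at h6
  rw [abs_le]
  constructor
  · nlinarith
  · nlinarith

theorem om_var : ∃ C : ℝ, 0 ≤ C ∧ ∀ s t : ℝ, 0 ≤ s → s ≤ t → t ≤ s + 1 →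
    |om s - om t| ≤ C * ((t - s) * Real.exp (-s)) := by
  refine ⟨7 * (Real.exp (Real.exp 2) + 1), by positivity, fun s t hs hst hts => ?_⟩
  rcases hst.eq_or_lt with rfl | hlt
  · simp
  have ht : 0 ≤ t := by linarith
  rw [om_exp hs, om_exp ht]
  refine exp_sub_abs.trans ?_
  have h1 := logGamma_lip hs hlt
  have e1 : -(Real.log (Real.Gamma (1 + s))) - -(Real.log (Real.Gamma (1 + t))) =
    Real.log (Real.Gamma (1 + t)) - Real.log (Real.Gamma (1 + s)) := by ring
  rw [e1]
  have h2 : max (Real.exp (-Real.log (Real.Gamma (1 + s)))) (Real.exp (-Real.log (Real.Gamma (1 + t)))) ≤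
      (Real.exp (Real.exp 2) + 1) * Real.exp (-(2 * s)) := by
    apply max_le
    · rw [← om_exp hs]
      exact om_le (by norm_num) hs
    · rw [← om_exp ht]
      refine (om_le (a := 2) (by norm_num) ht).trans ?_
      gcongr
  have h3 : 6 + t ≤ 7 * Real.exp s := by
    have := Real.add_one_le_exp s
    linarith
  have h4 : 0 ≤ t - s := by linarith
  calc |Real.log (Real.Gamma (1 + t)) - Real.log (Real.Gamma (1 + s))| * _ ≤
      ((t - s) * (7 * Real.exp s)) * ((Real.exp (Real.exp 2) + 1) * Real.exp (-(2 * s))) := by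
        refine mul_le_mul (h1.trans ?_) h2 (by positivity) (by positivity)
        exact mul_le_mul_of_nonneg_left h3 h4
    _ = 7 * (Real.exp (Real.exp 2) + 1) * ((t - s) * (Real.exp s * Real.exp (-(2 * s)))) := by ring
    _ = _ := by
        rw [← Real.exp_add]
        congr 3
        ring

theorem exp_diff {s t : ℝ} (hst : s ≤ t) (hts : t ≤ s + 1) :
    (t - s) * Real.exp (-s) ≤ 2 * (Real.exp (-s) - Real.exp (-t)) := by
  set x := t - s with hx
  have hx0 : 0 ≤ x := by linarith
  have hx1 : x ≤ 1 := by linarith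
  have h1 : Real.exp (-t) = Real.exp (-s) * Real.exp (-x) := by
    rw [← Real.exp_add]
    congr 1
    rw [hx]
    ring
  have h2 : Real.exp (-x) ≤ 1 - x / 2 := by
    have h3 : (1 - x / 2) * Real.exp x ≥ 1 := by
      have h4 := Real.quadratic_le_exp_of_nonneg hx0
      nlinarith [mul_nonneg hx0 hx0, mul_nonneg (mul_nonneg hx0 hx0) (sub_nonneg.2 hx1)]
    rw [Real.exp_neg, inv_le_iff_one_le_mul₀ (Real.exp_pos _)]
    linarith
  rw [h1]
  have := Real.exp_pos (-s)
  nlinarith

/-- the kernel `cos (c u) / Γ (1 + u)` -/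
theorem ker_rot (c : ℝ) : ∃ C : ℝ, Ker (fun u => Real.cos (c * u) / Real.Gamma (1 + u)) C := by
  obtain ⟨C₀, hC₀, hvar⟩ := om_var
  set K : ℝ := Real.exp (Real.exp 1) + 1 with hK
  have hK0 : 0 ≤ K := by positivity
  have hsm : ∀ s : ℝ, 0 ≤ s → om s ≤ K * Real.exp (-s) := by
    intro s hs
    have := om_le (a := 1) (by norm_num) hs
    simpa using this
  refine ⟨K + 2 * (|c| * K + C₀), by positivity, fun s hs => ?_, fun s t hs hst hts => ?_⟩
  · have h1 : |Real.cos (c * s) / Real.Gamma (1 + s)| ≤ om s := by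
      rw [abs_div, abs_of_pos (Real.Gamma_pos_of_pos (by linarith : 0 < 1 + s)), div_eq_mul_inv]
      calc |Real.cos (c * s)| * (Real.Gamma (1 + s))⁻¹ ≤ 1 * om s :=
            mul_le_mul (Real.abs_cos_le_one _) le_rfl (om_pos hs).le zero_le_one
        _ = om s := one_mul _
    refine h1.trans ((hsm s hs).trans ?_)
    have : 0 ≤ 2 * (|c| * K + C₀) := by positivity
    have h3 := Real.exp_pos (-s)
    nlinarith
  · have ht : 0 ≤ t := by linarith
    have e1 : Real.cos (c * s) / Real.Gamma (1 + s) - Real.cos (c * t) / Real.Gamma (1 + t) =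
        (Real.cos (c * s) - Real.cos (c * t)) * om s + Real.cos (c * t) * (om s - om t) := by
      unfold om
      ring
    show |Real.cos (c * s) / Real.Gamma (1 + s) - Real.cos (c * t) / Real.Gamma (1 + t)| ≤ _
    rw [e1]
    have h1 : |Real.cos (c * s) - Real.cos (c * t)| ≤ |c| * (t - s) := by
      refine (Real.abs_cos_sub_cos_le _ _).trans (le_of_eq ?_)
      rw [← mul_sub, abs_mul, abs_sub_comm, abs_of_nonneg (by linarith : 0 ≤ t - s)]
    have h2 := hvar s t hs hst hts
    have h3 := hsm s hs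
    have h4 := exp_diff hst hts
    have h5 : 0 ≤ t - s := by linarith
    have h6 : 0 ≤ Real.exp (-s) - Real.exp (-t) := by
      have := Real.exp_le_exp.2 (show -t ≤ -s by linarith)
      linarith
    calc |(Real.cos (c * s) - Real.cos (c * t)) * om s + Real.cos (c * t) * (om s - om t)| ≤
        |(Real.cos (c * s) - Real.cos (c * t)) * om s| + |Real.cos (c * t) * (om s - om t)| :=
          abs_add_le _ _
      _ ≤ (|c| * (t - s)) * (K * Real.exp (-s)) + 1 * (C₀ * ((t - s) * Real.exp (-s))) := by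
          rw [abs_mul, abs_mul, abs_of_pos (om_pos hs)]
          refine add_le_add (mul_le_mul h1 h3 (om_pos hs).le (by positivity)) ?_
          exact mul_le_mul (Real.abs_cos_le_one _) h2 (abs_nonneg _) zero_le_one
      _ = (|c| * K + C₀) * ((t - s) * Real.exp (-s)) := by ring
      _ ≤ (|c| * K + C₀) * (2 * (Real.exp (-s) - Real.exp (-t))) := by gcongr
      _ ≤ _ := by nlinarith

end Pool.Agent.R376.Rnd
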