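import Pool.Agent.R376.RandB

/-!
# Random sets of integers
-/

set_option autoImplicit false

open MeasureTheory ProbabilityTheory Filter Topology

namespace Pool.Agent.R376.Rnd

/-- the law of the random set which contains `n` with probability `θ n`, independently -/
noncomputable def lawS (θ : ℕ → ℝ) : Measure (ℕ → Bool) :=
  Measure.infinitePi fun n => bernoulliMeasure true false (Set.projIcc (0 : ℝ) 1 zero_le_one (θ n))

instance (θ : ℕ → ℝ) : IsProbabilityMeasure (lawS θ) := by
  unfold lawS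
  infer_instance

/-- the centred weights -/
noncomputable def cen (θ : ℕ → ℝ) (S : ℕ → Bool) (n : ℕ) : ℝ :=
  (if S n = true then 1 else 0) / θ n - 1

theorem int_one (θ : ℕ → ℝ) (hθ : ∀ n, 0 < θ n ∧ θ n ≤ 1) (n : ℕ) (f : Bool → ℝ) :
    ∫ S, f (S n) ∂(lawS θ) = θ n * f true + (1 - θ n) * f false := by
  have h1 := (measurePreserving_eval_infinitePi
    (fun n => bernoulliMeasure true false (Set.projIcc (0 : ℝ) 1 zero_le_one (θ n))) n)
  have h2 : ∫ S, f (S n) ∂(lawS θ) =
      ∫ z, f z ∂(bernoulliMeasure true false (Set.projIcc (0 : ℝ) 1 zero_le_one (θ n))) := by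
    rw [← h1.map_eq, integral_map h1.measurable.aemeasurable]
    · rfl
    · exact (measurable_from_top (f := f)).aestronglyMeasurable
  rw [h2, integral_bernoulliMeasure]
  have h3 : ((Set.projIcc (0 : ℝ) 1 zero_le_one (θ n) : Set.Icc (0 : ℝ) 1) : ℝ) = θ n := by
    rw [Set.coe_projIcc, min_eq_right (hθ n).2, max_eq_right (hθ n).1.le]
  rw [h3]
  rfl

/-- almost sure convergence of the centred sums -/
theorem rand_conv (θ : ℕ → ℝ) (hθ : ∀ n, 0 < θ n ∧ θ n ≤ 1) (x : ℕ → ℝ)
    (hx : Summable fun n => x n ^ 2 / θ n) :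
    ∀ᵐ S ∂(lawS θ), ∃ A : ℝ, ∀ N : ℕ, |∑ n ∈ Finset.range N, cen θ S n * x n| ≤ A := by
  set f : ℕ → Bool → ℝ := fun n z => ((if z = true then 1 else 0) / θ n - 1) * x n with hf
  have hmf : ∀ n, Measurable (f n) := fun n => measurable_from_top
  have hind : iIndepFun (fun n S => f n (S n)) (lawS θ) := iIndepFun_infinitePi hmf
  have hmeas : ∀ n, Measurable fun S : ℕ → Bool => f n (S n) := fun n =>
    (hmf n).comp (measurable_pi_apply n)
  have h := ae_conv (μ := lawS θ) (fun n S => f n (S n)) (fun n => (hmeas n).stronglyMeasurable) hind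
    ?_ ?_ ?_
  · filter_upwards [h] with S hS
    obtain ⟨l, hl⟩ := hS
    have h1 : Tendsto (fun N => ∑ n ∈ Finset.range N, cen θ S n * x n) atTop (𝓝 l) :=
      (tendsto_add_atTop_iff_nat 1).1 hl
    obtain ⟨A, hA⟩ := h1.abs.bddAbove_range
    exact ⟨A, fun N => hA ⟨N, rfl⟩⟩
  · intro n
    refine ⟨|f n true| + |f n false|, fun S => ?_⟩
    rcases Bool.eq_false_or_eq_true (S n) with h | h
    · rw [h]
      have := abs_nonneg (f n false)
      linarith
    · rw [h]
      have := abs_nonneg (f n true)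
      linarith
  · intro n
    rw [int_one θ hθ n (f n)]
    have := (hθ n).1.ne'
    simp only [hf, if_true, Bool.false_eq_true, if_false]
    field_simp
    ring
  · refine Summable.of_nonneg_of_le (fun n => integral_nonneg fun S => sq_nonneg _) (fun n => ?_) hx
    rw [int_one θ hθ n (fun z => f n z ^ 2)]
    have h0 := (hθ n).1
    have h1 := (hθ n).2
    simp only [hf, if_true, Bool.false_eq_true, if_false]
    have h2 : θ n * ((1 / θ n - 1) * x n) ^ 2 + (1 - θ n) * ((0 / θ n - 1) * x n) ^ 2 =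
        x n ^ 2 / θ n - x n ^ 2 := by
      field_simp
      ring
    rw [h2]
    have := sq_nonneg (x n)
    linarith

/-- almost sure bounds for the centred sums, in terms of a weight `b` -/
theorem rand_bound (θ : ℕ → ℝ) (hθ : ∀ n, 0 < θ n ∧ θ n ≤ 1) (x b : ℕ → ℝ) (hb : Monotone b)
    (hb0 : ∀ n, 0 < b n) (hx : Summable fun n => x n ^ 2 / (θ n * b n ^ 2)) :
    ∀ᵐ S ∂(lawS θ), ∃ A : ℝ, ∀ N : ℕ,
      |∑ n ∈ Finset.range (N + 1), cen θ S n * x n| ≤ A * b N := by
  have h := rand_conv θ hθ (fun n => x n / b n) (by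
    refine hx.congr fun n => ?_
    have := (hθ n).1.ne'
    have := (hb0 n).ne'
    field_simp)
  filter_upwards [h] with S hS
  obtain ⟨A, hA⟩ := hS
  refine ⟨2 * A, fun N => ?_⟩
  refine kron (y := fun n => cen θ S n * x n) hb hb0 (fun N => ?_) N
  have h1 := hA N
  have h2 : ∀ n, cen θ S n * (x n / b n) = cen θ S n * x n / b n := fun n => by ring
  simpa only [h2] using h1

end Pool.Agent.R376.Rnd
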