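import Pool.Agent.R376.RandC
import Pool.Agent.R376.NerD
import Pool.Agent.Erdos456.Mertens

/-!
# Random thin sets of primes and the products of Birch and Swinnerton-Dyer
-/

set_option autoImplicit false

open MeasureTheory ProbabilityTheory Filter Topology

namespace Pool.Agent.R376.Rnd

open Pool.Agent.W263.BSD Pool.Agent.W187.UR Pool.Agent.W189.ML Pool.Agent.R376.Ner Classical

theorem step_ineq {u v s : ℝ} (hu : 0 < u) (huv : u ≤ v) (hs : 1 < s) :
    (v - u) * v ^ (-s) ≤ (u ^ (1 - s) - v ^ (1 - s)) / (s - 1) := by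
  have hv : 0 < v := by linarith
  rw [le_div_iff₀ (by linarith)]
  have h1 : u ^ (1 - s) = v ^ (1 - s) * (u / v) ^ (1 - s) := by
    rw [← Real.mul_rpow hv.le (by positivity), mul_div_cancel₀ _ hv.ne']
  have h2 : 1 + (1 - s) * (u / v - 1) ≤ (u / v) ^ (1 - s) := by
    rw [Real.rpow_def_of_pos (by positivity)]
    have h3 := Real.add_one_le_exp (Real.log (u / v) * (1 - s))
    have h4 := Real.log_le_sub_one_of_pos (show 0 < u / v by positivity)
    nlinarith
  have h3 : v ^ (1 - s) = v * v ^ (-s) := by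
    rw [sub_eq_add_neg, Real.rpow_add hv, Real.rpow_one]
  have h4 : 0 < v ^ (-s) := Real.rpow_pos_of_pos hv _
  calc (v - u) * v ^ (-s) * (s - 1) =
      v * v ^ (-s) * (1 + (1 - s) * (u / v - 1)) - v * v ^ (-s) := by
        field_simp
        ring
    _ ≤ v * v ^ (-s) * (u / v) ^ (1 - s) - v * v ^ (-s) := by gcongr
    _ = _ := by rw [h1, h3]

/-- the indicator of the primes, divided by `n` -/
noncomputable def pinv (n : ℕ) : ℝ := if n.Prime then (1 : ℝ) / n else 0

theorem pinv_nonneg (n : ℕ) : 0 ≤ pinv n := by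
  unfold pinv
  split_ifs <;> positivity

theorem pinv_sum_le : ∃ C : ℝ, 0 ≤ C ∧ ∀ N : ℕ,
    ∑ n ∈ Finset.range (N + 1), pinv n ≤ C * EE (Real.log N) := by
  obtain ⟨C, hC⟩ := Pool.Agent.Erdos456.Mert.mertens_inv
  have hc1 : 0 ≤ ∑ n ∈ Finset.range 4, pinv n := Finset.sum_nonneg fun n _ => pinv_nonneg n
  refine ⟨1 + |C| + ∑ n ∈ Finset.range 4, pinv n, by positivity, fun N => ?_⟩
  have hE : 1 ≤ EE (Real.log N) := EE_one_le (Real.log_natCast_nonneg N)
  have h0 := abs_nonneg C
  rcases le_or_gt 3 N with hN | hN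
  · have h1 := (abs_le.1 (hC N hN)).2
    have h2 : ∑ n ∈ Finset.range (N + 1), pinv n =
        ∑ p ∈ (Finset.Icc 1 N).filter Nat.Prime, (1 : ℝ) / p := by
      unfold pinv
      rw [← Finset.sum_filter]
      refine Finset.sum_congr ?_ fun _ _ => rfl
      ext n
      simp only [Finset.mem_filter, Finset.mem_range, Finset.mem_Icc]
      constructor
      · rintro ⟨h3, h4⟩
        exact ⟨⟨h4.one_lt.le, by omega⟩, h4⟩
      · rintro ⟨⟨h3, h5⟩, h4⟩
        exact ⟨by omega, h4⟩
    have hl : 1 ≤ Real.log N := by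
      rw [Real.le_log_iff_exp_le (by positivity)]
      have := Real.exp_one_lt_d9
      have : (3 : ℝ) ≤ N := by exact_mod_cast hN
      linarith
    have h3 : Real.log (Real.log N) ≤ EE (Real.log N) := by
      have h4 : Real.log (Real.log N) ≤ Real.log (1 + Real.log N) :=
        Real.log_le_log (by linarith) (by linarith)
      unfold EE
      linarith
    rw [h2]
    have h5 := le_abs_self C
    have h6 : ∑ p ∈ (Finset.Icc 1 N).filter Nat.Prime, (1 : ℝ) / p ≤ EE (Real.log N) + |C| := by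
      linarith
    refine h6.trans ?_
    nlinarith [mul_nonneg h0 (show 0 ≤ EE (Real.log N) - 1 by linarith),
      mul_nonneg hc1 (show 0 ≤ EE (Real.log N) by linarith)]
  · have h1 : ∑ n ∈ Finset.range (N + 1), pinv n ≤ ∑ n ∈ Finset.range 4, pinv n :=
      Finset.sum_le_sum_of_subset_of_nonneg (Finset.range_subset_range.2 (by omega))
        fun n _ _ => pinv_nonneg n
    refine h1.trans ?_
    nlinarith [mul_nonneg h0 (show 0 ≤ EE (Real.log N) by linarith),
      mul_nonneg hc1 (show 0 ≤ EE (Real.log N) - 1 by linarith)]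

theorem logn_mono {m n : ℕ} (h : m ≤ n) : Real.log m ≤ Real.log n := by
  rcases Nat.eq_zero_or_pos m with rfl | hm
  · simpa using Real.log_natCast_nonneg n
  · exact Real.log_le_log (by exact_mod_cast hm) (by exact_mod_cast h)

/-- `E(n) = 1 + log (1 + log n)` -/
noncomputable def En (n : ℕ) : ℝ := EE (Real.log n)

theorem En_one_le (n : ℕ) : 1 ≤ En n := EE_one_le (Real.log_natCast_nonneg n)

theorem En_mono : Monotone En := fun m _ h => EE_mono (Real.log_natCast_nonneg m) (logn_mono h)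

theorem pinv_summable {s : ℝ} (hs : 1 < s) : Summable fun n : ℕ => pinv n * En n ^ (-s) := by
  obtain ⟨C, hC0, hC⟩ := pinv_sum_le
  have hE0 : ∀ n, 0 < En n := fun n => by have := En_one_le n; linarith
  have hanti : ∀ n, 0 ≤ En n ^ (-s) - En (n + 1) ^ (-s) := fun n => by
    have := Real.rpow_le_rpow_of_nonpos (hE0 n) (En_mono (Nat.le_succ n)) (show -s ≤ 0 by linarith)
    linarith
  have key : ∀ N : ℕ, En N * En N ^ (-s) +
      ∑ n ∈ Finset.range N, En n * (En n ^ (-s) - En (n + 1) ^ (-s)) ≤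
      En 0 * En 0 ^ (-s) + (En 0 ^ (1 - s) - En N ^ (1 - s)) / (s - 1) := by
    intro N
    induction N with
    | zero => simp
    | succ N ih =>
      have h1 := step_ineq (hE0 N) (En_mono (Nat.le_succ N)) hs
      rw [Finset.sum_range_succ]
      have h2 : (En 0 ^ (1 - s) - En (N + 1) ^ (1 - s)) / (s - 1) =
          (En 0 ^ (1 - s) - En N ^ (1 - s)) / (s - 1) +
          (En N ^ (1 - s) - En (N + 1) ^ (1 - s)) / (s - 1) := by ring
      rw [h2]
      have h3 : Nat.succ N = N + 1 := rfl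
      rw [h3] at h1
      nlinarith
  refine summable_of_sum_range_le
    (c := C * (En 0 * En 0 ^ (-s) + En 0 ^ (1 - s) / (s - 1))) (fun n =>
    mul_nonneg (pinv_nonneg n) (Real.rpow_nonneg (hE0 n).le _)) fun N => ?_
  have h0 : ∑ n ∈ Finset.range N, pinv n * En n ^ (-s) ≤
      ∑ n ∈ Finset.range (N + 1), pinv n * En n ^ (-s) :=
    Finset.sum_le_sum_of_subset_of_nonneg (Finset.range_subset_range.2 (by omega))
      fun n _ _ => mul_nonneg (pinv_nonneg n) (Real.rpow_nonneg (hE0 n).le _)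
  refine h0.trans ?_
  rw [abel pinv (fun n => En n ^ (-s)) N]
  have h1 : (∑ n ∈ Finset.range (N + 1), pinv n) * En N ^ (-s) ≤ C * (En N * En N ^ (-s)) := by
    rw [← mul_assoc]
    exact mul_le_mul_of_nonneg_right (hC N) (Real.rpow_nonneg (hE0 N).le _)
  have h2 : ∑ n ∈ Finset.range N, (∑ k ∈ Finset.range (n + 1), pinv k) *
      (En n ^ (-s) - En (n + 1) ^ (-s)) ≤
      C * ∑ n ∈ Finset.range N, En n * (En n ^ (-s) - En (n + 1) ^ (-s)) := by
    rw [Finset.mul_sum]
    refine Finset.sum_le_sum fun n _ => ?_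
    rw [← mul_assoc]
    exact mul_le_mul_of_nonneg_right (hC n) (hanti n)
  have h3 := key N
  have h4 : 0 ≤ En N ^ (1 - s) / (s - 1) :=
    div_nonneg (Real.rpow_nonneg (hE0 N).le _) (by linarith)
  have h5 : En 0 * En 0 ^ (-s) + (En 0 ^ (1 - s) - En N ^ (1 - s)) / (s - 1) ≤
      En 0 * En 0 ^ (-s) + En 0 ^ (1 - s) / (s - 1) := by
    rw [sub_div]
    linarith
  calc (∑ n ∈ Finset.range (N + 1), pinv n) * En N ^ (-s) +
      ∑ n ∈ Finset.range N, (∑ k ∈ Finset.range (n + 1), pinv k) *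
      (En n ^ (-s) - En (n + 1) ^ (-s)) ≤ C * (En N * En N ^ (-s)) +
      C * ∑ n ∈ Finset.range N, En n * (En n ^ (-s) - En (n + 1) ^ (-s)) := add_le_add h1 h2
    _ = C * (En N * En N ^ (-s) +
      ∑ n ∈ Finset.range N, En n * (En n ^ (-s) - En (n + 1) ^ (-s))) := by ring
    _ ≤ _ := mul_le_mul_of_nonneg_left (h3.trans h5) hC0

/-! ### the density -/

/-- the density `δ / (1 + log (1 + log n)) ^ α` -/
noncomputable def dens (δ α : ℝ) (n : ℕ) : ℝ := δ / (1 + Real.log (1 + Real.log n)) ^ α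

theorem dens_mem {δ α : ℝ} (hδ : 0 < δ) (hδ1 : δ ≤ 1) (hα : 0 ≤ α) (n : ℕ) :
    0 < dens δ α n ∧ dens δ α n ≤ 1 := by
  have h1 : 1 ≤ En n := En_one_le n
  have h2 : 1 ≤ En n ^ α := Real.one_le_rpow h1 hα
  have h3 : dens δ α n = δ / En n ^ α := rfl
  rw [h3]
  refine ⟨by positivity, ?_⟩
  rw [div_le_one (by positivity)]
  linarith

theorem as_bound {δ α : ℝ} (hδ : 0 < δ) (hδ1 : δ ≤ 1) (hα : 0 ≤ α) (x : ℕ → ℝ) {K : ℝ}
    (hx : ∀ n, x n ^ 2 ≤ K * pinv n) :
    ∀ᵐ S ∂(lawS (dens δ α)), ∀ γ : ℝ, (1 + α) / 2 < γ → ∃ A : ℝ, ∀ N : ℕ,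
      |∑ n ∈ Finset.range (N + 1), cen (dens δ α) S n * x n| ≤ A * EE (Real.log N) ^ γ := by
  have hE0 : ∀ n, 0 < En n := fun n => by have := En_one_le n; linarith
  have h1 : ∀ k : ℕ, ∀ᵐ S ∂(lawS (dens δ α)), ∃ A : ℝ, ∀ N : ℕ,
      |∑ n ∈ Finset.range (N + 1), cen (dens δ α) S n * x n| ≤
        A * En N ^ ((1 + α) / 2 + 1 / ((k : ℝ) + 1)) := by
    intro k
    set g : ℝ := (1 + α) / 2 + 1 / ((k : ℝ) + 1) with hg
    have hk : 0 < 1 / ((k : ℝ) + 1) := by positivity
    refine rand_bound (dens δ α) (dens_mem hδ hδ1 hα) x (fun n => En n ^ g) ?_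
      (fun n => Real.rpow_pos_of_pos (hE0 n) _) ?_
    · intro m n h
      exact Real.rpow_le_rpow (hE0 m).le (En_mono h) (by rw [hg]; positivity)
    · have hs := (pinv_summable (s := 2 * g - α) (by rw [hg]; linarith)).mul_left (K / δ)
      refine Summable.of_nonneg_of_le (fun n => ?_) (fun n => ?_) hs
      · have := (dens_mem hδ hδ1 hα n).1
        positivity
      · have e1 : dens δ α n = δ / En n ^ α := rfl
        have e2 : dens δ α n * (En n ^ g) ^ 2 = δ * En n ^ (2 * g - α) := by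
          rw [e1, ← Real.rpow_natCast (En n ^ g) 2, ← Real.rpow_mul (hE0 n).le,
            Real.rpow_sub (hE0 n)]
          have e3 : g * ((2 : ℕ) : ℝ) = 2 * g := by push_cast; ring
          rw [e3]
          ring
        rw [e2, Real.rpow_neg (hE0 n).le]
        have e4 : 0 < En n ^ (2 * g - α) := Real.rpow_pos_of_pos (hE0 n) _
        calc x n ^ 2 / (δ * En n ^ (2 * g - α)) ≤ K * pinv n / (δ * En n ^ (2 * g - α)) :=
              div_le_div_of_nonneg_right (hx n) (by positivity)
          _ = K / δ * (pinv n * (En n ^ (2 * g - α))⁻¹) := by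
              field_simp
  filter_upwards [ae_all_iff.2 h1] with S hS γ hγ
  obtain ⟨k, hk⟩ := exists_nat_one_div_lt (show 0 < γ - (1 + α) / 2 by linarith)
  obtain ⟨A, hA⟩ := hS k
  refine ⟨|A|, fun N => (hA N).trans ?_⟩
  have h2 : En N ^ ((1 + α) / 2 + 1 / ((k : ℝ) + 1)) ≤ En N ^ γ :=
    Real.rpow_le_rpow_of_exponent_le (En_one_le N) (by linarith)
  have h3 : 0 ≤ En N ^ ((1 + α) / 2 + 1 / ((k : ℝ) + 1)) := Real.rpow_nonneg (hE0 N).le _
  calc A * En N ^ ((1 + α) / 2 + 1 / ((k : ℝ) + 1)) ≤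
      |A| * En N ^ ((1 + α) / 2 + 1 / ((k : ℝ) + 1)) :=
        mul_le_mul_of_nonneg_right (le_abs_self A) h3
    _ ≤ |A| * En N ^ γ := mul_le_mul_of_nonneg_left h2 (abs_nonneg A)

/-! ### the sequence of a curve -/

/-- `log ((N_p + 1) / p)` at the good primes -/
noncomputable def xx (a b : ℤ) (n : ℕ) : ℝ :=
  if GoodPrime a b n then Real.log (((pointCount a b n : ℝ) + 1) / n) else 0

theorem xx_sq (a b : ℤ) : ∃ K : ℝ, ∀ n, xx a b n ^ 2 ≤ K * pinv n := by
  set M : ℝ := ∑ n ∈ Finset.range 37, |xx a b n| with hM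
  have hM0 : 0 ≤ M := Finset.sum_nonneg fun n _ => abs_nonneg _
  refine ⟨36 + 37 * M ^ 2, fun n => ?_⟩
  by_cases hg : GoodPrime a b n
  · have hp := hg.1
    have hn0 : (0 : ℝ) < n := by exact_mod_cast hp.pos
    have h1 : pinv n = 1 / n := if_pos hp
    rw [h1]
    rcases lt_or_ge n 37 with h | h
    · have h2 : |xx a b n| ≤ M :=
        Finset.single_le_sum (f := fun n => |xx a b n|) (fun i _ => abs_nonneg _)
          (Finset.mem_range.2 h)
      have h3 : xx a b n ^ 2 ≤ M ^ 2 := by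
        rw [← sq_abs]
        exact pow_le_pow_left₀ (abs_nonneg _) h2 2
      have h4 : (n : ℝ) ≤ 37 := by exact_mod_cast h.le
      refine h3.trans ?_
      rw [mul_one_div, le_div_iff₀ hn0]
      nlinarith [mul_le_mul_of_nonneg_left h4 (sq_nonneg M)]
    · have h2 := hasse hg (by omega)
      have h37 : (37 : ℝ) ≤ n := by exact_mod_cast h
      set r : ℝ := √(n : ℝ) with hr
      have hr2 : r * r = n := Real.mul_self_sqrt hn0.le
      have hr6 : 6 ≤ r := by
        rw [hr]
        apply Real.le_sqrt_of_sq_le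
        linarith
      set z : ℝ := ((pointCount a b n : ℝ) + 1) / n with hz
      have h3 : |z - 1| ≤ 3 / r := by
        have e1 : z - 1 = ((pointCount a b n : ℝ) + 1 - n) / n := by
          rw [hz]
          field_simp
        rw [e1, abs_div, abs_of_pos hn0, div_le_div_iff₀ hn0 (by linarith)]
        have e2 : |(pointCount a b n : ℝ) + 1 - n| ≤ 2 * r + 1 := by
          have e3 : (pointCount a b n : ℝ) + 1 - n = -((n : ℝ) - pointCount a b n) + 1 := by ring
          rw [e3]
          refine (abs_add_le _ _).trans ?_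
          rw [abs_neg, abs_one]
          linarith
        calc |(pointCount a b n : ℝ) + 1 - n| * r ≤ (2 * r + 1) * r := by gcongr
          _ ≤ 3 * n := by rw [← hr2]; nlinarith
      have h4 : 3 / r ≤ 1 / 2 := by
        rw [div_le_div_iff₀ (by linarith) (by norm_num)]
        linarith
      have h5 := abs_le.1 (h3.trans h4)
      have hz0 : 1 / 2 ≤ z := by linarith [h5.1]
      have h6 : |Real.log z| ≤ 2 * |z - 1| := by
        rw [abs_le]
        constructor
        · have e1 := Real.log_le_sub_one_of_pos (show 0 < z⁻¹ by positivity)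
          rw [Real.log_inv] at e1
          have e2 : z⁻¹ - 1 ≤ 2 * |z - 1| := by
            have e3 : z⁻¹ - 1 = -(z - 1) * z⁻¹ := by field_simp; ring
            rw [e3]
            have e4 : z⁻¹ ≤ 2 := by
              rw [inv_le_comm₀ (by linarith) (by norm_num)]
              linarith
            have e5 : -(z - 1) ≤ |z - 1| := neg_le_abs _
            have e6 : 0 ≤ z⁻¹ := by positivity
            calc -(z - 1) * z⁻¹ ≤ |z - 1| * z⁻¹ := by gcongr
              _ ≤ |z - 1| * 2 := by gcongr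
              _ = _ := by ring
          linarith
        · have e1 := Real.log_le_sub_one_of_pos (show 0 < z by linarith)
          have e2 := le_abs_self (z - 1)
          have e3 := abs_nonneg (z - 1)
          linarith
      have h7 : |Real.log z| ≤ 6 / r := by
        refine h6.trans ?_
        calc 2 * |z - 1| ≤ 2 * (3 / r) := by gcongr
          _ = 6 / r := by ring
      have h8 : xx a b n = Real.log z := if_pos hg
      rw [h8, ← sq_abs]
      calc |Real.log z| ^ 2 ≤ (6 / r) ^ 2 := pow_le_pow_left₀ (abs_nonneg _) h7 2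
        _ = 36 / n := by rw [div_pow, sq r, hr2]; norm_num
        _ ≤ (36 + 37 * M ^ 2) * (1 / n) := by
          rw [mul_one_div]
          gcongr
          nlinarith [sq_nonneg M]
  · have h1 : xx a b n = 0 := if_neg hg
    rw [h1]
    have := pinv_nonneg n
    have h2 : 0 ≤ (36 + 37 * M ^ 2) * pinv n := by positivity
    linarith

end Pool.Agent.R376.Rnd
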