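import Pool.Agent.R376.RandD

/-!
# Thinned sums
-/

set_option autoImplicit false

open MeasureTheory ProbabilityTheory Filter Topology

namespace Pool.Agent.R376.Rnd

open Pool.Agent.W263.BSD Pool.Agent.W187.UR Pool.Agent.W189.ML Pool.Agent.R376.Ner Classical

theorem wt_abs_le (c : ℝ) {u : ℝ} (hu : 0 ≤ u) : |wt c u| ≤ om u := by
  unfold wt
  rw [abs_div, abs_of_pos (Real.Gamma_pos_of_pos (by linarith : 0 < 1 + u)), div_eq_mul_inv]
  calc |Real.cos (c * u)| * (Real.Gamma (1 + u))⁻¹ ≤ 1 * om u :=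
        mul_le_mul (Real.abs_cos_le_one _) le_rfl (om_pos hu).le zero_le_one
    _ = om u := one_mul _

theorem EE_le {u : ℝ} (hu : 0 ≤ u) : EE u ≤ 1 + u := by
  have := Real.log_le_sub_one_of_pos (show 0 < 1 + u by linarith)
  unfold EE
  linarith

theorem thin_summable {δ α : ℝ} (hδ : 0 < δ) (hα : 0 ≤ α) (x : ℕ → ℝ) {K : ℝ}
    (hx : ∀ n, x n ^ 2 ≤ K * pinv n) (S : ℕ → Bool) (c : ℝ) {T : ℝ} (hT : 0 < T) :
    Summable fun n : ℕ => (if S n = true then (1 : ℝ) else 0) / dens δ α n * x n *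
      wt c (Real.log n / T) := by
  obtain ⟨Cp, hCp, hpow⟩ := pow_le_exp_half (γ := α)
  set Ca : ℝ := Real.exp (Real.exp (3 * T)) + 1 with hCa
  have hCa0 : 0 < Ca := by positivity
  have hs : Summable fun n : ℕ => (Cp / δ) * (1 + |K|) * Ca * (n : ℝ) ^ (-(5 / 2) : ℝ) :=
    (Real.summable_nat_rpow.mpr (by norm_num : (-(5 / 2) : ℝ) < -1)).mul_left _
  refine Summable.of_norm_bounded hs fun n => ?_
  rw [Real.norm_eq_abs, abs_mul, abs_mul]
  have hxn : |x n| ≤ 1 + |K| := by
    have h1 : pinv n ≤ 1 := by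
      unfold pinv
      split_ifs with h
      · have : (1 : ℝ) ≤ n := by exact_mod_cast h.one_lt.le
        rw [div_le_one (by linarith)]
        exact this
      · exact zero_le_one
    have h2 : x n ^ 2 ≤ |K| := by
      refine (hx n).trans ?_
      calc K * pinv n ≤ |K| * pinv n := mul_le_mul_of_nonneg_right (le_abs_self K) (pinv_nonneg n)
        _ ≤ |K| * 1 := mul_le_mul_of_nonneg_left h1 (abs_nonneg K)
        _ = |K| := mul_one _
    have h3 : |x n| ^ 2 ≤ |K| := by rwa [sq_abs]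
    nlinarith [sq_nonneg (|x n| - 1), abs_nonneg (x n)]
  rcases Nat.eq_zero_or_pos n with rfl | hn
  · have h1 : x 0 ^ 2 ≤ K * pinv 0 := hx 0
    have h2 : pinv 0 = 0 := by simp [pinv]
    rw [h2, mul_zero] at h1
    have h3 : x 0 = 0 := by
      have := sq_nonneg (x 0)
      exact pow_eq_zero_iff (two_ne_zero) |>.1 (le_antisymm h1 this)
    rw [h3, abs_zero, mul_zero, zero_mul]
    positivity
  · have hn0 : (0 : ℝ) < n := by exact_mod_cast hn
    set L : ℝ := Real.log n with hL
    have hL0 : 0 ≤ L := Real.log_natCast_nonneg n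
    have h1 : |(if S n = true then (1 : ℝ) else 0) / dens δ α n| ≤ Cp / δ * Real.exp (L / 2) := by
      have e1 : dens δ α n = δ / EE L ^ α := rfl
      have hE : 1 ≤ EE L := EE_one_le hL0
      have e2 : EE L ^ α ≤ Cp * Real.exp (L / 2) :=
        (Real.rpow_le_rpow (by linarith) (EE_le hL0) hα).trans (hpow L hL0)
      have e3 : 0 < EE L ^ α := Real.rpow_pos_of_pos (by linarith) _
      rw [e1]
      split_ifs
      · rw [one_div_div, abs_of_pos (by positivity)]
        calc EE L ^ α / δ ≤ Cp * Real.exp (L / 2) / δ := by gcongr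
          _ = _ := by ring
      · rw [zero_div, abs_zero]
        positivity
    have h2 : |wt c (L / T)| ≤ Ca * Real.exp (-(3 * L)) := by
      have hu : 0 ≤ L / T := by positivity
      refine (wt_abs_le c hu).trans ?_
      have := om_le (a := 3 * T) (by positivity) hu
      have e1 : 3 * T * (L / T) = 3 * L := by field_simp
      rwa [e1] at this
    have h3 : (n : ℝ) ^ (-(5 / 2) : ℝ) = Real.exp (L / 2) * Real.exp (-(3 * L)) := by
      rw [Real.rpow_def_of_pos hn0, ← Real.exp_add]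
      congr 1
      ring
    rw [h3]
    calc |(if S n = true then (1 : ℝ) else 0) / dens δ α n| * |x n| * |wt c (L / T)| ≤
        (Cp / δ * Real.exp (L / 2)) * (1 + |K|) * (Ca * Real.exp (-(3 * L))) := by
          gcongr
      _ = _ := by ring

/-- the thinned sum -/
noncomputable def thinSum (a b : ℤ) (δ α c : ℝ) (S : ℕ → Bool) (T : ℝ) : ℝ :=
  ∑' n : ℕ, (if S n = true then (1 : ℝ) else 0) / dens δ α n * xx a b n * wt c (Real.log n / T)

theorem rot_eq (a b : ℤ) (c B : ℝ) :
    rotSum a b c B = ∑' n : ℕ, xx a b n * wt c (Real.log n / Real.log B) := by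
  unfold rotSum
  refine tsum_congr fun n => ?_
  unfold xx wt
  split_ifs
  · ring
  · rw [zero_mul]

theorem rot_summable' (a b : ℤ) (c : ℝ) {B : ℝ} (hB : 1 < B) :
    Summable fun n : ℕ => xx a b n * wt c (Real.log n / Real.log B) := by
  refine (rot_summable (a := a) (b := b) c hB).of_abs.congr fun n => ?_
  unfold xx wt
  split_ifs
  · ring
  · rw [zero_mul]

/-- the difference of the thinned sum and the full sum -/
theorem thin_diff {δ α : ℝ} (hδ : 0 < δ) (hα : 0 ≤ α) (a b : ℤ) (S : ℕ → Bool) {γ A : ℝ}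
    (hγ : 0 ≤ γ) (hA : ∀ N : ℕ, |∑ n ∈ Finset.range (N + 1), cen (dens δ α) S n * xx a b n| ≤
      A * EE (Real.log N) ^ γ) (c : ℝ) :
    ∃ K : ℝ, ∀ B : ℝ, 1 < B → 1 ≤ Real.log B →
      |thinSum a b δ α c S (Real.log B) - rotSum a b c B| ≤ K * EE (Real.log B) ^ γ := by
  obtain ⟨D, hD, hw⟩ := wsum γ hγ
  obtain ⟨C, hC⟩ := ker_rot c
  obtain ⟨K, hK⟩ := xx_sq a b
  refine ⟨D * C * A, fun B hB1 hB => ?_⟩
  set T : ℝ := Real.log B with hT
  have hT0 : 0 < T := by linarith
  have h1 := (thin_summable hδ hα (xx a b) hK S c hT0).hasSum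
  have h2 := (rot_summable' a b c hB1).hasSum
  rw [← hT] at h2
  have h3 := (h1.sub h2).tendsto_sum_nat
  have h4 : thinSum a b δ α c S T - rotSum a b c B =
      (∑' n : ℕ, (if S n = true then (1 : ℝ) else 0) / dens δ α n * xx a b n *
        wt c (Real.log n / T)) - ∑' n : ℕ, xx a b n * wt c (Real.log n / T) := by
    rw [rot_eq]
    rfl
  rw [h4]
  have h5 := ((tendsto_add_atTop_iff_nat 1).2 h3).abs
  refine le_of_tendsto h5 (Eventually.of_forall fun N => ?_)
  have h6 := hw _ C hC (fun n => cen (dens δ α) S n * xx a b n) A hA T hB N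
  refine le_trans (le_of_eq ?_) h6
  congr 1
  refine Finset.sum_congr rfl fun n _ => ?_
  unfold cen wt
  ring

/-- the law of the thinned sums, for the sets with the bounds -/
theorem thin_law {δ α : ℝ} (hδ : 0 < δ) (hα : 0 ≤ α) {a b : ℤ} {F : ℂ → ℂ}
    (hF : IsLSeries a b F) {m : ℕ} (hm : analyticOrderAt F 1 = m) {c : ℝ} (hc : Real.pi / 2 < c)
    (S : ℕ → Bool) {γ : ℝ} (hγ : 0 ≤ γ)
    (hS : ∃ A : ℝ, ∀ N : ℕ, |∑ n ∈ Finset.range (N + 1), cen (dens δ α) S n * xx a b n| ≤
      A * EE (Real.log N) ^ γ) :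
    ∃ K : ℝ, ∀ B : ℝ, 3 ≤ B →
      |thinSum a b δ α c S (Real.log B) - m * Real.log (Real.log B)| ≤
        K * (1 + Real.log (Real.log B)) ^ γ := by
  obtain ⟨A, hA⟩ := hS
  obtain ⟨K, hK⟩ := thin_diff hδ hα a b S hγ hA c
  have hbel : S_BEL := bel Pool.Agent.W392.UR.fac
  obtain ⟨M, hM⟩ := rot_law hF hbel hm hc
  refine ⟨|K| * 2 ^ γ + |M|, fun B hB => ?_⟩
  have hl : 1 ≤ Real.log B := by
    rw [Real.le_log_iff_exp_le (by linarith)]
    have := Real.exp_one_lt_d9
    linarith
  have h1 := hK B (by linarith) hl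
  have h2 := hM B hB
  have hll : 0 ≤ Real.log (Real.log B) := Real.log_nonneg hl
  have h3 : EE (Real.log B) ≤ 2 * (1 + Real.log (Real.log B)) := by
    have e1 : Real.log (1 + Real.log B) ≤ Real.log (2 * Real.log B) :=
      Real.log_le_log (by linarith) (by linarith)
    rw [Real.log_mul (by norm_num) (by linarith)] at e1
    have e2 : Real.log 2 ≤ 1 := by
      have := Real.log_two_lt_d9
      linarith
    unfold EE
    linarith
  have h4 : EE (Real.log B) ^ γ ≤ 2 ^ γ * (1 + Real.log (Real.log B)) ^ γ := by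
    rw [← Real.mul_rpow (by norm_num) (by linarith)]
    exact Real.rpow_le_rpow (by have := EE_one_le (show 0 ≤ Real.log B by linarith); linarith) h3 hγ
  have h5 : 1 ≤ (1 + Real.log (Real.log B)) ^ γ := Real.one_le_rpow (by linarith) hγ
  have h6 : 0 ≤ EE (Real.log B) ^ γ :=
    Real.rpow_nonneg (by have := EE_one_le (show 0 ≤ Real.log B by linarith); linarith) _
  have e1 : thinSum a b δ α c S (Real.log B) - m * Real.log (Real.log B) =
      (thinSum a b δ α c S (Real.log B) - rotSum a b c B) +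
      (rotSum a b c B - m * Real.log (Real.log B)) := by ring
  rw [e1]
  refine (abs_add_le _ _).trans ?_
  have h7 : K * EE (Real.log B) ^ γ ≤ |K| * (2 ^ γ * (1 + Real.log (Real.log B)) ^ γ) :=
    (mul_le_mul_of_nonneg_right (le_abs_self K) h6).trans
      (mul_le_mul_of_nonneg_left h4 (abs_nonneg K))
  have h8 : |M| ≤ |M| * (1 + Real.log (Real.log B)) ^ γ :=
    le_mul_of_one_le_right (abs_nonneg M) h5
  have h9 := le_abs_self M
  calc _ ≤ K * EE (Real.log B) ^ γ + M := add_le_add h1 h2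
    _ ≤ |K| * (2 ^ γ * (1 + Real.log (Real.log B)) ^ γ) +
        |M| * (1 + Real.log (Real.log B)) ^ γ := by linarith
    _ = _ := by ring

/-- the product over the set `S`, with the exponents divided by the density -/
noncomputable def thinProd (a b : ℤ) (δ α c : ℝ) (S : ℕ → Bool) (B : ℝ) : ℝ :=
  ∏' p : ℕ, if GoodPrime a b p ∧ S p = true then
    (((pointCount a b p : ℝ) + 1) / p) ^ (wt c (Real.log p / Real.log B) / dens δ α p) else 1

theorem thinProd_hasProd {δ α : ℝ} (hδ : 0 < δ) (hα : 0 ≤ α) (a b : ℤ) (c : ℝ) (S : ℕ → Bool)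
    {B : ℝ} (hB : 1 < B) :
    HasProd (fun p : ℕ => if GoodPrime a b p ∧ S p = true then
      (((pointCount a b p : ℝ) + 1) / p) ^ (wt c (Real.log p / Real.log B) / dens δ α p) else 1)
      (Real.exp (thinSum a b δ α c S (Real.log B))) := by
  obtain ⟨K, hK⟩ := xx_sq a b
  have h1 := (thin_summable hδ hα (xx a b) hK S c (Real.log_pos hB)).hasSum.rexp
  refine h1.congr_fun ?_
  intro p
  simp only [Function.comp_apply]
  by_cases hg : GoodPrime a b p
  · by_cases hs : S p = true
    · rw [if_pos ⟨hg, hs⟩, Real.rpow_def_of_pos (quot_pos hg), if_pos hs]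
      have e1 : xx a b p = Real.log (((pointCount a b p : ℝ) + 1) / p) := if_pos hg
      rw [e1]
      congr 1
      ring
    · rw [if_neg (fun h => hs h.2), if_neg hs, zero_div, zero_mul, zero_mul, Real.exp_zero]
  · have e1 : xx a b p = 0 := if_neg hg
    rw [if_neg (fun h => hg h.1), e1, mul_zero, zero_mul, Real.exp_zero]

theorem log_thinProd {δ α : ℝ} (hδ : 0 < δ) (hα : 0 ≤ α) (a b : ℤ) (c : ℝ) (S : ℕ → Bool)
    {B : ℝ} (hB : 1 < B) :
    Real.log (thinProd a b δ α c S B) = thinSum a b δ α c S (Real.log B) := by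
  have h1 : thinProd a b δ α c S B = Real.exp (thinSum a b δ α c S (Real.log B)) :=
    (thinProd_hasProd hδ hα a b c S hB).tprod_eq
  rw [h1, Real.log_exp]

end Pool.Agent.R376.Rnd
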