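import Pool.Agent.R376.RandE

/-!
# The number of the primes in a random set
-/

set_option autoImplicit false

open MeasureTheory ProbabilityTheory Filter Topology

namespace Pool.Agent.R376.Rnd

open Classical

theorem pi_ge4 {N : ℕ} (hN : 4 ≤ N) : (N : ℝ) / 4 ≤ Nat.primeCounting N * Real.log N := by
  have h1 := (Chebyshev.psi_ge N).trans (Chebyshev.psi_le_primeCounting_mul_log N)
  have hN' : (4 : ℝ) ≤ N := by exact_mod_cast hN
  have h2 := Real.log_le_sub_one_of_pos (show 0 < ((N : ℝ) + 1) / 4 by positivity)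
  rw [Real.log_div (by positivity) (by norm_num)] at h2
  have h3 : Real.log 4 = 2 * Real.log 2 := by
    rw [show (4 : ℝ) = 2 ^ 2 by norm_num, Real.log_pow]
    norm_num
  have h4 := Real.log_two_gt_d9
  have h5 := Real.log_two_lt_d9
  rw [h3] at h2
  nlinarith

theorem pi_pos4 {N : ℕ} (hN : 4 ≤ N) : (0 : ℝ) < Nat.primeCounting N := by
  have h1 := pi_ge4 hN
  have hN' : (4 : ℝ) ≤ N := by exact_mod_cast hN
  by_contra h
  have h2 : (Nat.primeCounting N : ℝ) = 0 := le_antisymm (not_lt.1 h) (by positivity)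
  rw [h2, zero_mul] at h1
  linarith

theorem pow_bound (γ : ℝ) : ∃ C : ℝ, 0 ≤ C ∧ ∀ u : ℝ, 0 ≤ u → (1 + u) ^ γ ≤ C * Real.exp (u / 8) := by
  obtain ⟨C, hC, h⟩ := pow_le_exp_half (γ := |γ|)
  refine ⟨4 ^ |γ| * C, by positivity, fun u hu => ?_⟩
  have h1 := h (u / 4) (by positivity)
  have h2 : (1 + u) ^ |γ| ≤ (4 * (1 + u / 4)) ^ |γ| :=
    Real.rpow_le_rpow (by linarith) (by linarith) (abs_nonneg _)
  rw [Real.mul_rpow (by norm_num) (by positivity)] at h2
  have h3 : (1 + u) ^ γ ≤ (1 + u) ^ |γ| :=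
    Real.rpow_le_rpow_of_exponent_le (by linarith) (le_abs_self γ)
  have h4 : u / 4 / 2 = u / 8 := by ring
  rw [h4] at h1
  calc (1 + u) ^ γ ≤ 4 ^ |γ| * (1 + u / 4) ^ |γ| := h3.trans h2
    _ ≤ 4 ^ |γ| * (C * Real.exp (u / 8)) := by gcongr
    _ = _ := by ring

/-- the error term -/
theorem err_lim (α : ℝ) (hα : 0 ≤ α) : Tendsto (fun N : ℕ =>
    ((N : ℝ) + 1) ^ ((3 : ℝ) / 4) * EE (Real.log N) ^ α / Nat.primeCounting N) atTop (𝓝 0) := by
  obtain ⟨C, hC, hpow⟩ := pow_bound (α + 1)
  have hlim : Tendsto (fun N : ℕ => 8 * C * ((N : ℝ)) ^ (-(1 / 8) : ℝ)) atTop (𝓝 0) := by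
    have h1 := (tendsto_rpow_neg_atTop (show (0 : ℝ) < 1 / 8 by norm_num)).comp
      (tendsto_natCast_atTop_atTop (R := ℝ))
    have h2 := h1.const_mul (8 * C)
    rw [mul_zero] at h2
    exact h2
  refine squeeze_zero' (Eventually.of_forall fun N => ?_) ?_ hlim
  · have := EE_one_le (Real.log_natCast_nonneg N)
    positivity
  · filter_upwards [eventually_ge_atTop 4] with N hN
    have hN' : (4 : ℝ) ≤ N := by exact_mod_cast hN
    have hN0 : (0 : ℝ) < N := by linarith
    set L : ℝ := Real.log N with hL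
    have hL0 : 0 ≤ L := Real.log_natCast_nonneg N
    have hLpos : 0 < L := Real.log_pos (by linarith)
    have h1 := pi_ge4 hN
    rw [← hL] at h1
    have hpi : (0 : ℝ) < Nat.primeCounting N := by
      by_contra h
      have h2 : (Nat.primeCounting N : ℝ) = 0 := le_antisymm (not_lt.1 h) (by positivity)
      rw [h2, zero_mul] at h1
      linarith
    rw [div_le_iff₀ hpi]
    have h2 : ((N : ℝ) + 1) ^ ((3 : ℝ) / 4) ≤ 2 * (N : ℝ) ^ ((3 : ℝ) / 4) := by
      have e1 : ((N : ℝ) + 1) ^ ((3 : ℝ) / 4) ≤ (2 * N) ^ ((3 : ℝ) / 4) :=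
        Real.rpow_le_rpow (by positivity) (by linarith) (by norm_num)
      rw [Real.mul_rpow (by norm_num) hN0.le] at e1
      have e2 : (2 : ℝ) ^ ((3 : ℝ) / 4) ≤ 2 := by
        calc (2 : ℝ) ^ ((3 : ℝ) / 4) ≤ 2 ^ (1 : ℝ) :=
              Real.rpow_le_rpow_of_exponent_le (by norm_num) (by norm_num)
          _ = 2 := Real.rpow_one 2
      exact e1.trans (mul_le_mul_of_nonneg_right e2 (by positivity))
    have h3 : EE L ^ α * L ≤ C * Real.exp (L / 8) := by
      have e1 : EE L ^ α ≤ (1 + L) ^ α :=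
        Real.rpow_le_rpow (by have := EE_one_le hL0; linarith) (EE_le hL0) hα
      have e2 := hpow L hL0
      rw [Real.rpow_add (by linarith), Real.rpow_one] at e2
      calc EE L ^ α * L ≤ (1 + L) ^ α * (1 + L) := by
            refine mul_le_mul e1 (by linarith) hL0 (by positivity)
        _ ≤ _ := e2
    have h4 : Real.exp (L / 8) = (N : ℝ) ^ ((1 : ℝ) / 8) := by
      rw [Real.rpow_def_of_pos hN0]
      congr 1
      ring
    have h5 : (N : ℝ) ^ ((3 : ℝ) / 4) * (N : ℝ) ^ ((1 : ℝ) / 8) = (N : ℝ) ^ (-(1 / 8) : ℝ) * N := by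
      rw [← Real.rpow_add hN0]
      nth_rewrite 3 [← Real.rpow_one (N : ℝ)]
      rw [← Real.rpow_add hN0]
      norm_num
    have h6 : ((N : ℝ) + 1) ^ ((3 : ℝ) / 4) * EE L ^ α * L ≤
        (8 * C * (N : ℝ) ^ (-(1 / 8) : ℝ) * Nat.primeCounting N) * L := by
      have e0 : 0 ≤ EE L ^ α * L := by
        have := EE_one_le hL0
        positivity
      calc ((N : ℝ) + 1) ^ ((3 : ℝ) / 4) * EE L ^ α * L =
          ((N : ℝ) + 1) ^ ((3 : ℝ) / 4) * (EE L ^ α * L) := by ring
        _ ≤ (2 * (N : ℝ) ^ ((3 : ℝ) / 4)) * (C * (N : ℝ) ^ ((1 : ℝ) / 8)) := by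
            rw [← h4]
            exact mul_le_mul h2 h3 e0 (by positivity)
        _ = 2 * C * ((N : ℝ) ^ ((3 : ℝ) / 4) * (N : ℝ) ^ ((1 : ℝ) / 8)) := by ring
        _ = 8 * C * (N : ℝ) ^ (-(1 / 8) : ℝ) * (N / 4) := by
            rw [h5]
            ring
        _ ≤ 8 * C * (N : ℝ) ^ (-(1 / 8) : ℝ) * (Nat.primeCounting N * L) := by gcongr
        _ = _ := by ring
    exact le_of_mul_le_mul_right h6 hLpos

/-- the ratio of the slowly varying function -/
theorem ratio_lim (α : ℝ) : Tendsto (fun N : ℕ =>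
    (EE (Real.log N) / EE (Real.log N / 2)) ^ α) atTop (𝓝 1) := by
  have hlog : Tendsto (fun N : ℕ => Real.log (N : ℝ)) atTop atTop :=
    Real.tendsto_log_atTop.comp tendsto_natCast_atTop_atTop
  have h1 : Tendsto (fun t : ℝ => EE t / EE (t / 2)) atTop (𝓝 1) := by
    have h2 : Tendsto (fun t : ℝ => 1 + Real.log 2 / EE (t / 2)) atTop (𝓝 (1 + 0)) := by
      refine tendsto_const_nhds.add (Tendsto.const_div_atTop ?_ _)
      unfold EE
      refine tendsto_atTop_add_const_left _ _ (Real.tendsto_log_atTop.comp ?_)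
      exact tendsto_atTop_add_const_left _ _ (tendsto_id.atTop_div_const (by norm_num))
    rw [add_zero] at h2
    refine tendsto_of_tendsto_of_tendsto_of_le_of_le' tendsto_const_nhds h2 ?_ ?_
    · filter_upwards [eventually_ge_atTop 0] with t ht
      have e1 : 1 ≤ EE (t / 2) := EE_one_le (by positivity)
      rw [one_le_div (by linarith)]
      exact EE_mono (by positivity) (by linarith)
    · filter_upwards [eventually_ge_atTop 0] with t ht
      have e1 : 1 ≤ EE (t / 2) := EE_one_le (by positivity)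
      rw [div_le_iff₀ (by linarith), add_mul, div_mul_cancel₀ _ (by linarith), one_mul]
      have e2 : Real.log (1 + t) ≤ Real.log (2 * (1 + t / 2)) :=
        Real.log_le_log (by linarith) (by linarith)
      rw [Real.log_mul (by norm_num) (by positivity)] at e2
      unfold EE
      linarith
  have h2 := (h1.comp hlog).rpow_const (p := α) (Or.inl one_ne_zero)
  rw [Real.one_rpow] at h2
  exact h2

/-- the primes of the random set up to `N` -/
noncomputable def cntS (S : ℕ → Bool) (N : ℕ) : ℕ :=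
  ((Finset.range (N + 1)).filter fun p => p.Prime ∧ S p = true).card

theorem count_law {δ α : ℝ} (hδ : 0 < δ) (hδ1 : δ ≤ 1) (hα : 0 ≤ α) :
    ∀ᵐ S ∂(lawS (dens δ α)), Tendsto (fun N : ℕ =>
      (cntS S N : ℝ) * (1 + Real.log (1 + Real.log N)) ^ α / Nat.primeCounting N) atTop (𝓝 δ) := by
  have hd := dens_mem hδ hδ1 hα
  set x : ℕ → ℝ := fun n => if n.Prime then dens δ α n else 0 with hx
  have hb := rand_bound (dens δ α) hd x (fun n => ((n : ℝ) + 1) ^ ((3 : ℝ) / 4))
    (fun m n h => Real.rpow_le_rpow (by positivity) (by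
      have : (m : ℝ) ≤ n := by exact_mod_cast h
      linarith) (by norm_num)) (fun n => by positivity) (by
      have hs : Summable fun n : ℕ => 1 / ((n : ℝ) + 1) ^ ((3 : ℝ) / 2) := by
        have := (Real.summable_one_div_nat_rpow (p := (3 : ℝ) / 2)).2 (by norm_num)
        have h2 := (summable_nat_add_iff 1).2 this
        refine h2.congr fun n => ?_
        push_cast
        rfl
      refine Summable.of_nonneg_of_le (fun n => ?_) (fun n => ?_) hs
      · have := (hd n).1
        positivity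
      · have e0 := (hd n).1
        have e1 := (hd n).2
        have e2 : (((n : ℝ) + 1) ^ ((3 : ℝ) / 4)) ^ 2 = ((n : ℝ) + 1) ^ ((3 : ℝ) / 2) := by
          rw [← Real.rpow_natCast, ← Real.rpow_mul (by positivity)]
          norm_num
        rw [e2]
        have e3 : 0 < ((n : ℝ) + 1) ^ ((3 : ℝ) / 2) := by positivity
        simp only [hx]
        split_ifs
        · rw [div_le_div_iff₀ (by positivity) e3]
          nlinarith [mul_pos e0 e3]
        · rw [zero_pow two_ne_zero, zero_div]
          positivity)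
  filter_upwards [hb] with S hS
  obtain ⟨A, hA⟩ := hS
  have hA0 : 0 ≤ A := by
    have h1 := (abs_nonneg _).trans (hA 0)
    simp only [Nat.cast_zero, zero_add, Real.one_rpow, mul_one] at h1
    exact h1
  -- the sum of the densities
  have hsum : ∀ N : ℕ, |(cntS S N : ℝ) - ∑ n ∈ Finset.range (N + 1), x n| ≤
      A * ((N : ℝ) + 1) ^ ((3 : ℝ) / 4) := by
    intro N
    refine le_trans (le_of_eq ?_) (hA N)
    congr 1
    have h1 : (cntS S N : ℝ) = ∑ n ∈ Finset.range (N + 1),
        (if n.Prime ∧ S n = true then (1 : ℝ) else 0) := by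
      unfold cntS
      rw [Finset.card_filter]
      push_cast
      rfl
    rw [h1, ← Finset.sum_sub_distrib]
    refine Finset.sum_congr rfl fun n _ => ?_
    have h2 := (hd n).1.ne'
    simp only [hx, cen]
    by_cases hp : n.Prime
    · by_cases hs : S n = true
      · rw [if_pos ⟨hp, hs⟩, if_pos hp, if_pos hs]
        field_simp
      · rw [if_neg (fun h => hs h.2), if_pos hp, if_neg hs]
        ring
    · rw [if_neg (fun h => hp h.1), if_neg hp]
      ring
  have hpi : ∀ N : ℕ, (Nat.primeCounting N : ℝ) =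
      ∑ n ∈ Finset.range (N + 1), (if n.Prime then (1 : ℝ) else 0) := by
    intro N
    have h1 : Nat.primeCounting N = ((Finset.range (N + 1)).filter Nat.Prime).card := by
      unfold Nat.primeCounting Nat.primeCounting'
      rw [Nat.count_eq_card_filter_range]
    rw [h1, Finset.card_filter]
    push_cast
    rfl
  have hEn : ∀ n, 0 < En n := fun n => by have := En_one_le n; linarith
  have hlow : ∀ N : ℕ, δ / En N ^ α * Nat.primeCounting N ≤ ∑ n ∈ Finset.range (N + 1), x n := by
    intro N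
    rw [hpi, Finset.mul_sum]
    refine Finset.sum_le_sum fun n hn => ?_
    simp only [hx]
    split_ifs
    · rw [mul_one]
      have h1 : En n ^ α ≤ En N ^ α := Real.rpow_le_rpow (hEn n).le
        (En_mono (by have := Finset.mem_range.1 hn; omega)) hα
      have h2 : 0 < En n ^ α := Real.rpow_pos_of_pos (hEn n) _
      exact div_le_div_of_nonneg_left hδ.le h2 h1
    · rw [mul_zero]
  have hup : ∀ N : ℕ, ∑ n ∈ Finset.range (N + 1), x n ≤
      ((N : ℝ) + 1) ^ ((3 : ℝ) / 4) + 1 + δ / EE (Real.log N / 2) ^ α * Nat.primeCounting N := by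
    intro N
    have hE2 : 0 < EE (Real.log N / 2) := by
      have := EE_one_le (T := Real.log N / 2) (by have := Real.log_natCast_nonneg N; positivity)
      linarith
    have h1 : ∀ n ∈ Finset.range (N + 1), x n ≤ (if n < Nat.sqrt N + 1 then (1 : ℝ) else 0) +
        δ / EE (Real.log N / 2) ^ α * (if n.Prime then (1 : ℝ) else 0) := by
      intro n hn
      have e0 : 0 ≤ δ / EE (Real.log N / 2) ^ α := by positivity
      simp only [hx]
      by_cases hp : n.Prime
      · rw [if_pos hp, if_pos hp, mul_one]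
        by_cases hs : n < Nat.sqrt N + 1
        · rw [if_pos hs]
          have := (hd n).2
          linarith
        · rw [if_neg hs, zero_add]
          have e1 : N < n * n := by
            have e2 : Nat.sqrt N < n := by omega
            exact Nat.sqrt_lt.1 e2
          have hn0 : (0 : ℝ) < n := by exact_mod_cast hp.pos
          have e3 : Real.log N / 2 ≤ Real.log n := by
            have e4 : Real.log N ≤ Real.log ((n * n : ℕ) : ℝ) := logn_mono e1.le
            rw [Nat.cast_mul, Real.log_mul hn0.ne' hn0.ne'] at e4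
            linarith
          have e5 : EE (Real.log N / 2) ^ α ≤ En n ^ α := Real.rpow_le_rpow hE2.le
            (EE_mono (by have := Real.log_natCast_nonneg N; positivity) e3) hα
          exact div_le_div_of_nonneg_left hδ.le (Real.rpow_pos_of_pos hE2 _) e5
      · rw [if_neg hp, if_neg hp, mul_zero, add_zero]
        split_ifs <;> norm_num
    refine (Finset.sum_le_sum h1).trans ?_
    rw [Finset.sum_add_distrib, ← Finset.mul_sum, ← hpi]
    have h2 : ∑ n ∈ Finset.range (N + 1), (if n < Nat.sqrt N + 1 then (1 : ℝ) else 0) ≤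
        ((N : ℝ) + 1) ^ ((3 : ℝ) / 4) + 1 := by
      rw [← Finset.sum_filter, Finset.sum_const, nsmul_eq_mul, mul_one]
      have e1 : ((Finset.range (N + 1)).filter fun n => n < Nat.sqrt N + 1).card ≤
          Nat.sqrt N + 1 := by
        calc _ ≤ (Finset.range (Nat.sqrt N + 1)).card := by
              refine Finset.card_le_card fun n hn => ?_
              rw [Finset.mem_filter] at hn
              exact Finset.mem_range.2 hn.2
          _ = _ := Finset.card_range _
      have e2 : (((Finset.range (N + 1)).filter fun n => n < Nat.sqrt N + 1).card : ℝ) ≤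
          (Nat.sqrt N : ℝ) + 1 := by exact_mod_cast e1
      have e3 : (Nat.sqrt N : ℝ) ≤ ((N : ℝ) + 1) ^ ((3 : ℝ) / 4) := by
        have e4 : (Nat.sqrt N : ℝ) ≤ √(N : ℝ) := Real.nat_sqrt_le_real_sqrt
        refine e4.trans ?_
        calc √(N : ℝ) ≤ √((N : ℝ) + 1) := Real.sqrt_le_sqrt (by linarith)
          _ = ((N : ℝ) + 1) ^ ((1 : ℝ) / 2) := Real.sqrt_eq_rpow _
          _ ≤ _ := Real.rpow_le_rpow_of_exponent_le (by
              have : (0 : ℝ) ≤ N := by positivity
              linarith) (by norm_num)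
      linarith
    linarith
  -- the two bounds
  have hlo := err_lim α hα
  have hrat := ratio_lim α
  have hL : Tendsto (fun N : ℕ => δ - A * (((N : ℝ) + 1) ^ ((3 : ℝ) / 4) * EE (Real.log N) ^ α /
      Nat.primeCounting N)) atTop (𝓝 δ) := by
    have := (hlo.const_mul A).const_sub δ
    rwa [mul_zero, sub_zero] at this
  have hU : Tendsto (fun N : ℕ => δ * (EE (Real.log N) / EE (Real.log N / 2)) ^ α + (A + 2) *
      (((N : ℝ) + 1) ^ ((3 : ℝ) / 4) * EE (Real.log N) ^ α / Nat.primeCounting N))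
      atTop (𝓝 δ) := by
    have := (hrat.const_mul δ).add (hlo.const_mul (A + 2))
    rwa [mul_zero, add_zero, mul_one] at this
  refine tendsto_of_tendsto_of_tendsto_of_le_of_le' hL hU ?_ ?_
  · filter_upwards [eventually_ge_atTop 4] with N hN
    have hpi0 : (0 : ℝ) < Nat.primeCounting N := pi_pos4 hN
    have h1 := (abs_le.1 (hsum N)).1
    have h2 := hlow N
    have h3 : 0 < En N ^ α := Real.rpow_pos_of_pos (hEn N) _
    have h4 : (1 + Real.log (1 + Real.log N)) ^ α = En N ^ α := rfl
    have h5 : EE (Real.log N) ^ α = En N ^ α := rfl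
    rw [h4, h5, le_div_iff₀ hpi0, sub_mul, mul_assoc A, div_mul_cancel₀ _ hpi0.ne']
    have h6 : δ / En N ^ α * Nat.primeCounting N - A * ((N : ℝ) + 1) ^ ((3 : ℝ) / 4) ≤
        cntS S N := by linarith
    calc δ * Nat.primeCounting N - A * (((N : ℝ) + 1) ^ ((3 : ℝ) / 4) * En N ^ α) =
        (δ / En N ^ α * Nat.primeCounting N - A * ((N : ℝ) + 1) ^ ((3 : ℝ) / 4)) * En N ^ α := by
          field_simp
      _ ≤ _ := by gcongr
  · filter_upwards [eventually_ge_atTop 4] with N hN
    have hpi0 : (0 : ℝ) < Nat.primeCounting N := pi_pos4 hN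
    have h1 := (abs_le.1 (hsum N)).2
    have h2 := hup N
    have h3 : 0 < En N ^ α := Real.rpow_pos_of_pos (hEn N) _
    have h4 : (1 + Real.log (1 + Real.log N)) ^ α = En N ^ α := rfl
    have h5 : EE (Real.log N) ^ α = En N ^ α := rfl
    have hE2 : 0 < EE (Real.log N / 2) := by
      have := EE_one_le (T := Real.log N / 2) (by have := Real.log_natCast_nonneg N; positivity)
      linarith
    have hE2' : 0 < EE (Real.log N / 2) ^ α := Real.rpow_pos_of_pos hE2 _
    have h6 : (EE (Real.log N) / EE (Real.log N / 2)) ^ α =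
        En N ^ α / EE (Real.log N / 2) ^ α := by
      rw [Real.div_rpow (show 0 ≤ EE (Real.log N) from (hEn N).le) hE2.le]
      rfl
    have h7 : (1 : ℝ) ≤ ((N : ℝ) + 1) ^ ((3 : ℝ) / 4) :=
      Real.one_le_rpow (by have : (0 : ℝ) ≤ N := by positivity
                           linarith) (by norm_num)
    rw [h4, h5, h6, div_le_iff₀ hpi0, add_mul, mul_assoc (A + 2), div_mul_cancel₀ _ hpi0.ne']
    have h8 : (cntS S N : ℝ) ≤ δ / EE (Real.log N / 2) ^ α * Nat.primeCounting N +
        (A + 2) * ((N : ℝ) + 1) ^ ((3 : ℝ) / 4) := by linarith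
    calc (cntS S N : ℝ) * En N ^ α ≤ (δ / EE (Real.log N / 2) ^ α * Nat.primeCounting N +
        (A + 2) * ((N : ℝ) + 1) ^ ((3 : ℝ) / 4)) * En N ^ α := by gcongr
      _ = _ := by ring

end Pool.Agent.R376.Rnd
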