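import Pool.Agent.R376.RandC

/-!
# Random Dirichlet series with sparse supports
-/

set_option autoImplicit false

open MeasureTheory ProbabilityTheory Filter Topology

namespace Pool.Agent.R376.Rnd

/-- a series with summable nonnegative terms stays summable after the thinning -/
theorem rand_nonneg (θ : ℕ → ℝ) (hθ : ∀ n, 0 < θ n ∧ θ n ≤ 1) (y : ℕ → ℝ) (hy : ∀ n, 0 ≤ y n)
    (hs : Summable y) :
    ∀ᵐ S ∂(lawS θ), Summable fun n => (if S n = true then (1 : ℝ) else 0) / θ n * y n := by
  set f : ℕ → (ℕ → Bool) → ENNReal := fun n S =>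
    ENNReal.ofReal ((if S n = true then (1 : ℝ) else 0) / θ n * y n) with hf
  have hmeas : ∀ n, Measurable (f n) := fun n => by
    have h1 : Measurable fun z : Bool => (if z = true then (1 : ℝ) else 0) / θ n * y n :=
      measurable_from_top
    exact (h1.comp (measurable_pi_apply n)).ennreal_ofReal
  have hint : ∀ n, ∫⁻ S, f n S ∂(lawS θ) = ENNReal.ofReal (y n) := by
    intro n
    have h1 := int_one θ hθ n (fun z => (if z = true then (1 : ℝ) else 0) / θ n * y n)
    have h2 : ∫ S, (fun z : Bool => (if z = true then (1 : ℝ) else 0) / θ n * y n) (S n) ∂(lawS θ) =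
        y n := by
      rw [h1]
      have := (hθ n).1.ne'
      simp only [if_true, Bool.false_eq_true, if_false]
      field_simp
      ring
    rw [← h2, ofReal_integral_eq_lintegral_ofReal]
    · refine Integrable.mono' (integrable_const (1 / θ n * y n)) ?_ ?_
      · have h3 : Measurable fun z : Bool => (if z = true then (1 : ℝ) else 0) / θ n * y n :=
          measurable_from_top
        exact (h3.comp (measurable_pi_apply n)).aestronglyMeasurable
      · refine Eventually.of_forall fun S => ?_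
        have h4 := (hθ n).1
        have h5 := hy n
        show ‖(if S n = true then (1 : ℝ) else 0) / θ n * y n‖ ≤ 1 / θ n * y n
        rw [Real.norm_eq_abs, abs_of_nonneg (by split_ifs <;> positivity)]
        split_ifs
        · exact le_rfl
        · rw [zero_div, zero_mul]
          positivity
    · refine Eventually.of_forall fun S => ?_
      have h4 := (hθ n).1
      have h5 := hy n
      simp only [Pi.zero_apply]
      split_ifs <;> positivity
  have htot : ∫⁻ S, ∑' n, f n S ∂(lawS θ) ≠ ⊤ := by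
    rw [lintegral_tsum fun n => (hmeas n).aemeasurable]
    simp only [hint]
    rw [← ENNReal.ofReal_tsum_of_nonneg hy hs]
    exact ENNReal.ofReal_ne_top
  have hae := ae_lt_top (Measurable.ennreal_tsum hmeas) htot
  filter_upwards [hae] with S hS
  have h1 := ENNReal.summable_toReal hS.ne
  refine h1.congr fun n => ?_
  simp only [hf]
  have h4 := (hθ n).1
  have h5 := hy n
  rw [ENNReal.toReal_ofReal (by split_ifs <;> positivity)]

/-- bounded partial sums, complex coefficients -/
theorem rand_conv_c (θ : ℕ → ℝ) (hθ : ∀ n, 0 < θ n ∧ θ n ≤ 1) (x : ℕ → ℂ)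
    (hx : Summable fun n => ‖x n‖ ^ 2 / θ n) :
    ∀ᵐ S ∂(lawS θ), ∃ A : ℝ, ∀ N : ℕ,
      ‖∑ n ∈ Finset.range N, (cen θ S n : ℂ) * x n‖ ≤ A := by
  have h1 : Summable fun n => (x n).re ^ 2 / θ n := by
    refine Summable.of_nonneg_of_le (fun n => ?_) (fun n => ?_) hx
    · have := (hθ n).1
      positivity
    · have := (hθ n).1
      have h2 := Complex.abs_re_le_norm (x n)
      have h3 : (x n).re ^ 2 ≤ ‖x n‖ ^ 2 := by
        rw [← sq_abs]
        exact pow_le_pow_left₀ (abs_nonneg _) h2 2
      exact div_le_div_of_nonneg_right h3 this.le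
  have h2 : Summable fun n => (x n).im ^ 2 / θ n := by
    refine Summable.of_nonneg_of_le (fun n => ?_) (fun n => ?_) hx
    · have := (hθ n).1
      positivity
    · have := (hθ n).1
      have h2 := Complex.abs_im_le_norm (x n)
      have h3 : (x n).im ^ 2 ≤ ‖x n‖ ^ 2 := by
        rw [← sq_abs]
        exact pow_le_pow_left₀ (abs_nonneg _) h2 2
      exact div_le_div_of_nonneg_right h3 this.le
  filter_upwards [rand_conv θ hθ _ h1, rand_conv θ hθ _ h2] with S hS1 hS2
  obtain ⟨A, hA⟩ := hS1
  obtain ⟨A', hA'⟩ := hS2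
  refine ⟨A + A', fun N => ?_⟩
  refine (Complex.norm_le_abs_re_add_abs_im _).trans (add_le_add ?_ ?_)
  · rw [Complex.re_sum]
    simpa only [Complex.re_ofReal_mul] using hA N
  · rw [Complex.im_sum]
    simpa only [Complex.im_ofReal_mul] using hA' N

/-! ### conditionally convergent Dirichlet series -/

/-- the term `n^(-z)`, with `0^(-z) = 1` -/
noncomputable def en (z : ℂ) (n : ℕ) : ℂ := Complex.exp (-z * Real.log n)

theorem en_zero (z : ℂ) : en z 0 = 1 := by simp [en]

theorem en_one (z : ℂ) : en z 1 = 1 := by simp [en]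

theorem norm_en (z : ℂ) (n : ℕ) : ‖en z n‖ = Real.exp (-(z.re * Real.log n)) := by
  unfold en
  rw [Complex.norm_exp, Complex.re_mul_ofReal, Complex.neg_re]
  congr 1
  ring

theorem norm_en_rpow (z : ℂ) {n : ℕ} (hn : 0 < n) : ‖en z n‖ = (n : ℝ) ^ (-z.re) := by
  rw [norm_en, Real.rpow_def_of_pos (by exact_mod_cast hn)]
  congr 1
  ring

theorem norm_one_sub_exp {w : ℂ} (hw : w.re ≤ 0) : ‖1 - Complex.exp w‖ ≤ 2 * ‖w‖ := by
  rcases le_or_gt ‖w‖ 1 with h | h
  · rw [norm_sub_rev]
    exact Complex.norm_exp_sub_one_le h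
  · have h1 : ‖Complex.exp w‖ ≤ 1 := by
      rw [Complex.norm_exp]
      exact Real.exp_le_one_iff.2 hw
    calc ‖1 - Complex.exp w‖ ≤ ‖(1 : ℂ)‖ + ‖Complex.exp w‖ := norm_sub_le _ _
      _ ≤ 2 := by rw [norm_one]; linarith
      _ ≤ 2 * ‖w‖ := by linarith

theorem en_diff {z : ℂ} (hz : 0 ≤ z.re) (n : ℕ) :
    ‖en z n - en z (n + 1)‖ ≤ 2 * ‖z‖ * (n : ℝ) ^ (-(z.re + 1)) := by
  rcases Nat.eq_zero_or_pos n with rfl | hn
  · rw [en_zero, en_one, sub_self, norm_zero]
    positivity
  · have hn0 : (0 : ℝ) < n := by exact_mod_cast hn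
    set δ : ℝ := Real.log (n + 1 : ℕ) - Real.log n with hδ
    have hδ1 : δ ≤ 1 / n := by
      rw [hδ, ← Real.log_div (by positivity) hn0.ne']
      refine (Real.log_le_sub_one_of_pos (by positivity)).trans (le_of_eq ?_)
      push_cast
      field_simp
      ring
    have hδ0 : 0 ≤ δ := by
      rw [hδ]
      have := Real.log_le_log hn0 (show (n : ℝ) ≤ (n + 1 : ℕ) by push_cast; linarith)
      linarith
    have h1 : en z n - en z (n + 1) = en z n * (1 - Complex.exp (-z * δ)) := by
      unfold en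
      rw [mul_sub, mul_one, ← Complex.exp_add]
      congr 2
      rw [hδ]
      push_cast
      ring
    rw [h1, norm_mul, norm_en_rpow z hn]
    have h2 : ‖1 - Complex.exp (-z * δ)‖ ≤ 2 * ‖-z * δ‖ := by
      apply norm_one_sub_exp
      simp only [Complex.mul_re, Complex.neg_re, Complex.ofReal_re, Complex.neg_im,
        Complex.ofReal_im, mul_zero, sub_zero]
      nlinarith [mul_nonneg hz hδ0]
    rw [norm_mul, norm_neg, Complex.norm_real, Real.norm_of_nonneg hδ0] at h2
    have h3 : (n : ℝ) ^ (-(z.re + 1)) = (n : ℝ) ^ (-z.re) * (1 / n) := by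
      rw [neg_add, Real.rpow_add hn0, Real.rpow_neg_one, one_div]
    rw [h3]
    calc (n : ℝ) ^ (-z.re) * ‖1 - Complex.exp (-z * δ)‖ ≤
        (n : ℝ) ^ (-z.re) * (2 * (‖z‖ * (1 / n))) := by gcongr; exact h2.trans (by gcongr)
      _ = _ := by ring

theorem abel_c (y W : ℕ → ℂ) (N : ℕ) :
    ∑ n ∈ Finset.range (N + 1), y n * W n = (∑ n ∈ Finset.range (N + 1), y n) * W N +
      ∑ n ∈ Finset.range N, (∑ k ∈ Finset.range (n + 1), y k) * (W n - W (n + 1)) := by
  induction N with
  | zero => simp
  | succ N ih =>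
    rw [Finset.sum_range_succ (fun n => y n * W n) (N + 1), ih,
      Finset.sum_range_succ (fun n => (∑ k ∈ Finset.range (n + 1), y k) * (W n - W (n + 1))) N,
      Finset.sum_range_succ y (N + 1)]
    ring

/-- **conditionally convergent Dirichlet series** -/
theorem dirichlet {c : ℕ → ℂ} {A : ℝ} (hA : ∀ N, ‖∑ n ∈ Finset.range N, c n‖ ≤ A) :
    ∃ H : ℂ → ℂ, DifferentiableOn ℂ H {z : ℂ | 0 < z.re} ∧ ∀ z : ℂ, 0 < z.re →
      Tendsto (fun N => ∑ n ∈ Finset.range N, c n * en z n) atTop (𝓝 (H z)) := by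
  have hA0 : 0 ≤ A := (norm_nonneg _).trans (hA 0)
  set t : ℕ → ℂ → ℂ := fun n z => (∑ k ∈ Finset.range (n + 1), c k) * (en z n - en z (n + 1))
    with ht
  have hbd : ∀ (n : ℕ) (z : ℂ), 0 ≤ z.re → ‖t n z‖ ≤ A * (2 * ‖z‖ * (n : ℝ) ^ (-(z.re + 1))) := by
    intro n z hz
    simp only [ht]
    rw [norm_mul]
    exact mul_le_mul (hA _) (en_diff hz n) (norm_nonneg _) hA0
  have hsum : ∀ z : ℂ, 0 < z.re → Summable fun n => t n z := by
    intro z hz
    refine Summable.of_norm_bounded (g := fun n : ℕ => A * (2 * ‖z‖ * (n : ℝ) ^ (-(z.re + 1)))) ?_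
      fun n => hbd n z hz.le
    exact ((Real.summable_nat_rpow.2 (by linarith)).mul_left _).mul_left _
  refine ⟨fun z => ∑' n, t n z, ?_, ?_⟩
  · intro z₀ hz₀
    have hz₀' : 0 < z₀.re := hz₀
    set U : Set ℂ := {z : ℂ | z₀.re / 2 < z.re} ∩ Metric.ball 0 (‖z₀‖ + 1) with hU
    have hUo : IsOpen U :=
      (isOpen_lt continuous_const Complex.continuous_re).inter Metric.isOpen_ball
    have hzU : z₀ ∈ U := ⟨by show z₀.re / 2 < z₀.re; linarith, by
      rw [mem_ball_zero_iff]
      linarith⟩
    have h1 : DifferentiableOn ℂ (fun z => ∑' n, t n z) U := by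
      refine Complex.differentiableOn_tsum_of_summable_norm
        (u := fun n : ℕ => A * (2 * (‖z₀‖ + 1) * (n : ℝ) ^ (-(z₀.re / 2 + 1)))) ?_ ?_ hUo ?_
      · exact ((Real.summable_nat_rpow.2 (by linarith)).mul_left _).mul_left _
      · intro n
        refine Differentiable.differentiableOn ?_
        simp only [ht]
        unfold en
        fun_prop
      · intro n z hz
        have hz1 : z₀.re / 2 < z.re := hz.1
        have hz2 : ‖z‖ < ‖z₀‖ + 1 := mem_ball_zero_iff.1 hz.2
        refine (hbd n z (by linarith)).trans ?_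
        rcases Nat.eq_zero_or_pos n with rfl | hn
        · rw [Nat.cast_zero, Real.zero_rpow (by linarith), Real.zero_rpow (by linarith)]
          simp
        · have hn1 : (1 : ℝ) ≤ n := by exact_mod_cast hn
          have h2 : (n : ℝ) ^ (-(z.re + 1)) ≤ (n : ℝ) ^ (-(z₀.re / 2 + 1)) :=
            Real.rpow_le_rpow_of_exponent_le hn1 (by linarith)
          gcongr
    exact (h1.differentiableAt (hUo.mem_nhds hzU)).differentiableWithinAt
  · intro z hz
    refine (tendsto_add_atTop_iff_nat 1).1 ?_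
    have h1 := (hsum z hz).hasSum.tendsto_sum_nat
    have h2 : Tendsto (fun N : ℕ => (∑ n ∈ Finset.range (N + 1), c n) * en z N) atTop (𝓝 0) := by
      rw [tendsto_zero_iff_norm_tendsto_zero]
      have h3 : Tendsto (fun N : ℕ => A * (N : ℝ) ^ (-z.re)) atTop (𝓝 0) := by
        have := ((tendsto_rpow_neg_atTop hz).comp (tendsto_natCast_atTop_atTop (R := ℝ))).const_mul A
        rwa [mul_zero] at this
      refine squeeze_zero' (Eventually.of_forall fun N => norm_nonneg _) ?_ h3
      filter_upwards [eventually_gt_atTop 0] with N hN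
      rw [norm_mul, norm_en_rpow z hN]
      exact mul_le_mul_of_nonneg_right (hA _) (by positivity)
    have h4 := h2.add h1
    rw [zero_add] at h4
    refine h4.congr fun N => ?_
    rw [abel_c c (en z) N]

end Pool.Agent.R376.Rnd
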