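import Pool.Agent.R376.RandG

/-!
# Sparse random sets and Dirichlet series over the primes
-/

set_option autoImplicit false

open MeasureTheory ProbabilityTheory Filter Topology

namespace Pool.Agent.R376.Rnd

/-- the density `(n + 1) ^ (κ - 1)` -/
noncomputable def th (κ : ℝ) (n : ℕ) : ℝ := ((n : ℝ) + 1) ^ (κ - 1)

theorem th_mem {κ : ℝ} (h1 : κ ≤ 1) (n : ℕ) : 0 < th κ n ∧ th κ n ≤ 1 := by
  have h0 : (1 : ℝ) ≤ (n : ℝ) + 1 := by
    have : (0 : ℝ) ≤ n := Nat.cast_nonneg n
    linarith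
  exact ⟨Real.rpow_pos_of_pos (by linarith) _, Real.rpow_le_one_of_one_le_of_nonpos h0 (by linarith)⟩

/-- the coefficients `a p / p` at the primes -/
noncomputable def pf (a : ℕ → ℂ) (n : ℕ) : ℂ := if n.Prime then a n / n else 0

theorem norm_pf {a : ℕ → ℂ} {D : ℝ} (ha : ∀ n, ‖a n‖ ≤ D) (n : ℕ) : ‖pf a n‖ ≤ D / n := by
  have hD : 0 ≤ D := (norm_nonneg _).trans (ha 0)
  unfold pf
  split_ifs
  · rw [norm_div, Complex.norm_natCast]
    exact div_le_div_of_nonneg_right (ha n) (Nat.cast_nonneg n)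
  · rw [norm_zero]
    positivity

theorem pf_zero (a : ℕ → ℂ) : pf a 0 = 0 := by simp [pf]

/-- the difference of the thinned and of the full series -/
theorem diff_hol {κ : ℝ} (h0 : 0 < κ) (h1 : κ ≤ 1) {a : ℕ → ℂ} {D : ℝ} (ha : ∀ n, ‖a n‖ ≤ D) :
    ∀ᵐ S ∂(lawS (th κ)), ∃ H : ℂ → ℂ, DifferentiableOn ℂ H {u : ℂ | -(κ / 2) < u.re} ∧
      ∀ u : ℂ, -(κ / 2) < u.re → Tendsto (fun N => ∑ n ∈ Finset.range N,
        (cen (th κ) S n : ℂ) * pf a n * en u n) atTop (𝓝 (H u)) := by
  have hD : 0 ≤ D := (norm_nonneg _).trans (ha 0)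
  have key : ∀ j : ℕ, ∀ᵐ S ∂(lawS (th κ)), ∃ A : ℝ, ∀ N : ℕ,
      ‖∑ n ∈ Finset.range N, (cen (th κ) S n : ℂ) *
        (pf a n * (((n : ℝ) ^ (κ / 2 - κ / (2 * ((j : ℝ) + 2))) : ℝ) : ℂ))‖ ≤ A := by
    intro j
    set η : ℝ := κ / 2 - κ / (2 * ((j : ℝ) + 2)) with hη
    have hj : (0 : ℝ) < (j : ℝ) + 2 := by positivity
    have hηκ : 2 * η < κ := by
      have : 0 < κ / (2 * ((j : ℝ) + 2)) := by positivity
      linarith
    refine rand_conv_c (th κ) (th_mem h1) _ ?_
    have hs : Summable fun n : ℕ => 2 ^ (1 - κ) * D ^ 2 * (n : ℝ) ^ (-1 - κ + 2 * η) :=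
      (Real.summable_nat_rpow.2 (by linarith)).mul_left _
    refine Summable.of_nonneg_of_le (fun n => ?_) (fun n => ?_) hs
    · have := (th_mem h1 n).1
      positivity
    · rcases Nat.eq_zero_or_pos n with rfl | hn
      · rw [pf_zero, zero_mul, norm_zero, zero_pow two_ne_zero, zero_div]
        positivity
      · have hn0 : (0 : ℝ) < n := by exact_mod_cast hn
        have hn1 : (1 : ℝ) ≤ n := by exact_mod_cast hn
        have e1 := norm_pf ha n
        have e2 : ‖pf a n * (((n : ℝ) ^ η : ℝ) : ℂ)‖ ≤ D / n * (n : ℝ) ^ η := by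
          rw [norm_mul, Complex.norm_real, Real.norm_of_nonneg (by positivity)]
          gcongr
        have e3 : ‖pf a n * (((n : ℝ) ^ η : ℝ) : ℂ)‖ ^ 2 ≤ (D / n * (n : ℝ) ^ η) ^ 2 :=
          pow_le_pow_left₀ (norm_nonneg _) e2 2
        have e4 : (th κ n)⁻¹ ≤ 2 ^ (1 - κ) * (n : ℝ) ^ (1 - κ) := by
          unfold th
          rw [← Real.rpow_neg (by positivity), ← Real.mul_rpow (by norm_num) hn0.le, neg_sub]
          exact Real.rpow_le_rpow (by positivity) (by linarith) (by linarith)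
        have e5 : (D / n * (n : ℝ) ^ η) ^ 2 * (n : ℝ) ^ (1 - κ) =
            D ^ 2 * (n : ℝ) ^ (-1 - κ + 2 * η) := by
          have f1 : (n : ℝ) ^ (-1 - κ + 2 * η) =
              (n : ℝ) ^ (-2 : ℝ) * (n : ℝ) ^ (2 * η) * (n : ℝ) ^ (1 - κ) := by
            rw [← Real.rpow_add hn0, ← Real.rpow_add hn0]
            congr 1
            ring
          have f2 : (n : ℝ) ^ (-2 : ℝ) = ((n : ℝ) ^ 2)⁻¹ := by
            rw [Real.rpow_neg hn0.le]
            norm_cast
          have f3 : (n : ℝ) ^ (2 * η) = ((n : ℝ) ^ η) ^ 2 := by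
            rw [← Real.rpow_natCast ((n : ℝ) ^ η) 2, ← Real.rpow_mul hn0.le]
            congr 1
            push_cast
            ring
          rw [f1, f2, f3]
          field_simp
        rw [div_eq_mul_inv]
        calc ‖pf a n * (((n : ℝ) ^ η : ℝ) : ℂ)‖ ^ 2 * (th κ n)⁻¹ ≤
            (D / n * (n : ℝ) ^ η) ^ 2 * (2 ^ (1 - κ) * (n : ℝ) ^ (1 - κ)) := by
              have := (th_mem (κ := κ) h1 n).1
              gcongr
          _ = 2 ^ (1 - κ) * ((D / n * (n : ℝ) ^ η) ^ 2 * (n : ℝ) ^ (1 - κ)) := by ring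
          _ = _ := by rw [e5]; ring
  filter_upwards [ae_all_iff.2 key] with S hS
  -- the functions on the smaller half planes
  have hloc : ∀ j : ℕ, ∃ G : ℂ → ℂ,
      DifferentiableOn ℂ G {u : ℂ | -(κ / 2 - κ / (2 * ((j : ℝ) + 2))) < u.re} ∧
      ∀ u : ℂ, -(κ / 2 - κ / (2 * ((j : ℝ) + 2))) < u.re → Tendsto (fun N =>
        ∑ n ∈ Finset.range N, (cen (th κ) S n : ℂ) * pf a n * en u n) atTop (𝓝 (G u)) := by
    intro j
    set η : ℝ := κ / 2 - κ / (2 * ((j : ℝ) + 2)) with hη
    obtain ⟨A, hA⟩ := hS j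
    obtain ⟨H, hH, hlim⟩ := dirichlet (c := fun n => (cen (th κ) S n : ℂ) *
      (pf a n * (((n : ℝ) ^ η : ℝ) : ℂ))) hA
    refine ⟨fun u => H (η + u), ?_, ?_⟩
    · refine hH.comp (by fun_prop) ?_
      intro u hu
      have hu' : -η < u.re := hu
      show 0 < (η + u : ℂ).re
      rw [Complex.add_re, Complex.ofReal_re]
      linarith
    · intro u hu
      have h2 : 0 < (η + u : ℂ).re := by
        rw [Complex.add_re, Complex.ofReal_re]
        linarith
      refine (hlim _ h2).congr fun N => ?_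
      refine Finset.sum_congr rfl fun n _ => ?_
      rcases Nat.eq_zero_or_pos n with rfl | hn
      · rw [pf_zero]
        simp
      · have hn0 : (0 : ℝ) < n := by exact_mod_cast hn
        have e1 : (((n : ℝ) ^ η : ℝ) : ℂ) * en (η + u) n = en u n := by
          unfold en
          rw [Real.rpow_def_of_pos hn0, Complex.ofReal_exp, ← Complex.exp_add]
          congr 1
          push_cast
          ring
        rw [← e1]
        ring
  refine ⟨fun u => limUnder atTop (fun N => ∑ n ∈ Finset.range N,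
        (cen (th κ) S n : ℂ) * pf a n * en u n), ?_, ?_⟩
  · intro u₀ hu₀
    have hu₀' : -(κ / 2) < u₀.re := hu₀
    obtain ⟨j, hj⟩ := exists_nat_one_div_lt (show 0 < (u₀.re + κ / 2) / κ by
      apply div_pos _ h0; linarith)
    have hj' : -(κ / 2 - κ / (2 * ((j : ℝ) + 2))) < u₀.re := by
      have e1 : κ / (2 * ((j : ℝ) + 2)) ≤ κ * (1 / ((j : ℝ) + 1)) := by
        rw [mul_one_div]
        apply div_le_div_of_nonneg_left h0.le (by positivity)
        have : (0 : ℝ) ≤ j := Nat.cast_nonneg j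
        linarith
      have e2 : κ * (1 / ((j : ℝ) + 1)) < u₀.re + κ / 2 := by
        have := (lt_div_iff₀ h0).1 hj
        linarith
      linarith
    obtain ⟨G, hG, hlim⟩ := hloc j
    have hopen : IsOpen {u : ℂ | -(κ / 2 - κ / (2 * ((j : ℝ) + 2))) < u.re} :=
      isOpen_lt continuous_const Complex.continuous_re
    have h2 : DifferentiableAt ℂ G u₀ := hG.differentiableAt (hopen.mem_nhds hj')
    refine (h2.congr_of_eventuallyEq ?_).differentiableWithinAt
    filter_upwards [hopen.mem_nhds hj'] with u hu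
    exact (hlim u hu).limUnder_eq
  · intro u hu
    obtain ⟨j, hj⟩ := exists_nat_one_div_lt (show 0 < (u.re + κ / 2) / κ by
      apply div_pos _ h0; linarith)
    have hj' : -(κ / 2 - κ / (2 * ((j : ℝ) + 2))) < u.re := by
      have e1 : κ / (2 * ((j : ℝ) + 2)) ≤ κ * (1 / ((j : ℝ) + 1)) := by
        rw [mul_one_div]
        apply div_le_div_of_nonneg_left h0.le (by positivity)
        have : (0 : ℝ) ≤ j := Nat.cast_nonneg j
        linarith
      have e2 : κ * (1 / ((j : ℝ) + 1)) < u.re + κ / 2 := by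
        have := (lt_div_iff₀ h0).1 hj
        linarith
      linarith
    obtain ⟨G, hG, hlim⟩ := hloc j
    have h3 := hlim u hj'
    beta_reduce
    rw [h3.limUnder_eq]
    exact h3

/-- the thinned harmonic series -/
theorem thin_abs {κ : ℝ} (h1 : κ ≤ 1) : ∀ᵐ S ∂(lawS (th κ)), ∀ δ : ℝ, 0 < δ →
    Summable fun n : ℕ => (if S n = true then (1 : ℝ) else 0) / th κ n * (n : ℝ) ^ (-1 - δ) := by
  have key : ∀ j : ℕ, ∀ᵐ S ∂(lawS (th κ)), Summable fun n : ℕ =>
      (if S n = true then (1 : ℝ) else 0) / th κ n * (n : ℝ) ^ (-1 - 1 / ((j : ℝ) + 1)) := by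
    intro j
    have hj : 0 < 1 / ((j : ℝ) + 1) := by positivity
    exact rand_nonneg (th κ) (th_mem h1) _ (fun n => by positivity)
      (Real.summable_nat_rpow.2 (by linarith))
  filter_upwards [ae_all_iff.2 key] with S hS δ hδ
  obtain ⟨j, hj⟩ := exists_nat_one_div_lt hδ
  refine Summable.of_nonneg_of_le (fun n => ?_) (fun n => ?_) (hS j)
  · have := (th_mem (κ := κ) h1 n).1
    split_ifs <;> positivity
  · have h2 : 0 ≤ (if S n = true then (1 : ℝ) else 0) / th κ n := by
      have := (th_mem (κ := κ) h1 n).1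
      split_ifs <;> positivity
    refine mul_le_mul_of_nonneg_left ?_ h2
    rcases Nat.eq_zero_or_pos n with rfl | hn
    · have hj' : 0 < 1 / ((j : ℝ) + 1) := by positivity
      rw [Nat.cast_zero, Real.zero_rpow (by linarith), Real.zero_rpow (by linarith)]
    · exact Real.rpow_le_rpow_of_exponent_le (by exact_mod_cast hn) (by linarith)

/-- the number of the elements of the random set -/
theorem thin_card {κ : ℝ} (h0 : 0 < κ) (h1 : κ ≤ 1) : ∀ᵐ S ∂(lawS (th κ)), ∃ C : ℝ, ∀ N : ℕ,
    (((Finset.range (N + 1)).filter fun n => S n = true).card : ℝ) ≤ C * ((N : ℝ) + 1) ^ κ := by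
  have hb := rand_bound (th κ) (th_mem h1) (th κ) (fun n => ((n : ℝ) + 1) ^ κ)
    (fun m n h => Real.rpow_le_rpow (by positivity) (by
      have : (m : ℝ) ≤ n := by exact_mod_cast h
      linarith) h0.le) (fun n => by positivity) (by
      have hs : Summable fun n : ℕ => ((n : ℝ) + 1) ^ (-1 - κ) := by
        have := (Real.summable_nat_rpow (p := -1 - κ)).2 (by linarith)
        have h2 := (summable_nat_add_iff 1).2 this
        refine h2.congr fun n => ?_
        push_cast
        rfl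
      refine hs.congr fun n => ?_
      have hn : (0 : ℝ) < (n : ℝ) + 1 := by positivity
      have e0 : 0 < th κ n := (th_mem h1 n).1
      have e1 : th κ n ^ 2 / (th κ n * (((n : ℝ) + 1) ^ κ) ^ 2) =
          th κ n / (((n : ℝ) + 1) ^ κ) ^ 2 := by
        field_simp
      rw [e1]
      unfold th
      rw [← Real.rpow_natCast (((n : ℝ) + 1) ^ κ) 2, ← Real.rpow_mul hn.le, ← Real.rpow_sub hn]
      congr 1
      push_cast
      ring)
  -- the sum of the densities
  have hsum : ∀ N : ℕ, ∑ n ∈ Finset.range (N + 1), th κ n ≤ 1 / κ * ((N : ℝ) + 1) ^ κ := by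
    intro N
    induction N with
    | zero =>
      rw [zero_add, Finset.sum_range_one]
      unfold th
      rw [Nat.cast_zero, zero_add, Real.one_rpow, Real.one_rpow, mul_one, le_div_iff₀ h0]
      linarith
    | succ N ih =>
      rw [Finset.sum_range_succ]
      refine (add_le_add_left ih _).trans ?_
      -- concavity: `v^κ - u^κ ≥ κ v^(κ-1) (v - u)`
      set v : ℝ := ((N + 1 : ℕ) : ℝ) + 1 with hv
      have hv0 : 0 < v := by positivity
      have hu : (N : ℝ) + 1 = v - 1 := by
        rw [hv]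
        push_cast
        ring
      have hv1 : 1 ≤ v - 1 := by
        rw [← hu]
        have : (0 : ℝ) ≤ N := Nat.cast_nonneg N
        linarith
      rw [hu]
      unfold th
      rw [← hv]
      have e1 : (v - 1) ^ κ ≤ v ^ κ - κ * v ^ (κ - 1) := by
        have f1 : (v - 1) ^ κ = v ^ κ * (1 + (-1 / v)) ^ κ := by
          rw [← Real.mul_rpow hv0.le]
          · congr 1
            field_simp
            ring
          · have : 1 / v ≤ 1 := by
              rw [div_le_one hv0]
              linarith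
            have h5 : -1 / v = -(1 / v) := by ring
            rw [h5]
            linarith
        have f2 : (1 + (-1 / v)) ^ κ ≤ 1 + κ * (-1 / v) := by
          apply _root_.rpow_one_add_le_one_add_mul_self _ h0.le h1
          rw [le_div_iff₀ hv0]
          linarith
        have f3 : v ^ (κ - 1) = v ^ κ / v := by
          rw [Real.rpow_sub hv0, Real.rpow_one]
        rw [f1, f3]
        calc v ^ κ * (1 + (-1 / v)) ^ κ ≤ v ^ κ * (1 + κ * (-1 / v)) := by gcongr
          _ = _ := by ring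
      have e2 : 1 / κ * (v - 1) ^ κ ≤ 1 / κ * (v ^ κ - κ * v ^ (κ - 1)) := by gcongr
      have e3 : 1 / κ * (v ^ κ - κ * v ^ (κ - 1)) = 1 / κ * v ^ κ - v ^ (κ - 1) := by
        field_simp
      linarith
  filter_upwards [hb] with S hS
  obtain ⟨A, hA⟩ := hS
  refine ⟨A + 1 / κ, fun N => ?_⟩
  have h2 := (abs_le.1 (hA N)).2
  have h3 : ∑ n ∈ Finset.range (N + 1), cen (th κ) S n * th κ n =
      (((Finset.range (N + 1)).filter fun n => S n = true).card : ℝ) -
        ∑ n ∈ Finset.range (N + 1), th κ n := by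
    rw [Finset.card_filter]
    push_cast
    rw [← Finset.sum_sub_distrib]
    refine Finset.sum_congr rfl fun n _ => ?_
    have := (th_mem (κ := κ) h1 n).1.ne'
    unfold cen
    field_simp
  rw [h3] at h2
  have h4 := hsum N
  rw [add_mul]
  linarith

end Pool.Agent.R376.Rnd
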