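import Pool.Agent.R376.RandH
import Pool.Agent.R385.PH.Main

/-!
# Sparse random sets of primes and Euler products over number fields
-/

set_option autoImplicit false

namespace Pool.Agent.R376.Rnd

open Complex Filter Topology MeasureTheory Metric Finset Polynomial NumberField IsDedekindDomain
  Pool.Agent.W350.Edge Pool.Agent.W350.EdgeV Pool.Agent.W350.EdgeNF Pool.Agent.R385.MC
  Pool.Agent.H921R2.TatePole Pool.Agent.TH958.BV Pool.Agent.R385.PH

variable {k : Type} [Field k] [NumberField k] {N : ℕ} {B : HeightOneSpectrum (𝓞 k) → ℂ[X]}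

/-- the term of the thinned series at the place `v`: `-B_v'(0) q_v^{-s}`, divided by the probability of
`q_v`, if `q_v` is a prime number in `S` -/
noncomputable def thinTerm (B : HeightOneSpectrum (𝓞 k) → ℂ[X]) (κ : ℝ) (S : ℕ → Bool) (s : ℂ)
    (v : HeightOneSpectrum (𝓞 k)) : ℂ :=
  if (Ideal.absNorm v.asIdeal).Prime ∧ S (Ideal.absNorm v.asIdeal) = true then
    -(B v).coeff 1 / (th κ (Ideal.absNorm v.asIdeal) : ℂ) * (Ideal.absNorm v.asIdeal : ℂ) ^ (-s)
  else 0

theorem coeff_one {M : ℕ} {Q : ℂ[X]} {α : Fin M → ℂ}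
    (h : ∀ z : ℂ, Q.eval z = ∏ j, (1 - α j * z)) : -Q.coeff 1 = ∑ j, α j := by
  have h1 : HasDerivAt (fun z : ℂ => Q.eval z) (Q.derivative.eval 0) 0 := Q.hasDerivAt 0
  have h2 : HasDerivAt (fun z : ℂ => ∏ j, (1 - α j * z))
      (∑ j, (∏ i ∈ univ.erase j, (1 - α i * (0 : ℂ))) • (-α j)) 0 := by
    refine HasDerivAt.fun_finsetProd fun j _ => ?_
    have h3 : HasDerivAt (fun z : ℂ => 1 - α j * z) (0 - α j * 1) 0 :=
      (hasDerivAt_const _ _).sub ((hasDerivAt_id (0 : ℂ)).const_mul (α j))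
    simpa using h3
  have h4 : (fun z : ℂ => Q.eval z) = fun z : ℂ => ∏ j, (1 - α j * z) := funext h
  rw [h4] at h1
  have h5 := h1.unique h2
  simp only [mul_zero, sub_zero, prod_const_one, one_smul, sum_neg_distrib] at h5
  have h6 : Q.derivative.eval 0 = Q.coeff 1 := by
    rw [← Polynomial.coeff_zero_eq_eval_zero, Polynomial.coeff_derivative]
    simp
  rw [← h6, h5, neg_neg]

/-- summation over the places through the primes below them -/
theorem below_summable {h : Nat.Primes → ℝ} (h0 : ∀ p, 0 ≤ h p) (hs : Summable h) :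
    Summable fun v : HeightOneSpectrum (𝓞 k) => h (below v) := by
  rw [← (Equiv.sigmaFiberEquiv (below (K := k))).summable_iff]
  rw [summable_sigma_of_nonneg (fun _ => by simp only [Function.comp_apply]; exact h0 _)]
  constructor
  · intro p
    exact Summable.of_finite
  · refine Summable.of_nonneg_of_le (fun p => tsum_nonneg fun _ => by
      simp only [Function.comp_apply]; exact h0 _) (fun p => ?_)
      (hs.mul_left (Module.finrank ℚ k : ℝ))
    rw [tsum_fintype]
    have h2 : ∀ v : {v : HeightOneSpectrum (𝓞 k) // below v = p},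
        ((fun v : HeightOneSpectrum (𝓞 k) => h (below v)) ∘
          (Equiv.sigmaFiberEquiv (below (K := k)))) ⟨p, v⟩ = h p := by
      intro v
      simp only [Function.comp_apply, Equiv.sigmaFiberEquiv, Equiv.coe_fn_mk]
      rw [v.2]
    rw [Finset.sum_congr rfl fun v _ => h2 v, Finset.sum_const, nsmul_eq_mul]
    refine mul_le_mul_of_nonneg_right ?_ (h0 p)
    have := fiber_card_le (K := k) p
    rw [Finset.card_univ]
    exact_mod_cast this

/-- the weights -/
noncomputable def ww (κ : ℝ) (S : ℕ → Bool) (n : ℕ) : ℝ :=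
  (if S n = true then (1 : ℝ) else 0) / th κ n

theorem ww_nonneg {κ : ℝ} (h1 : κ ≤ 1) (S : ℕ → Bool) (n : ℕ) : 0 ≤ ww κ S n := by
  have := (th_mem (κ := κ) h1 n).1
  unfold ww
  split_ifs <;> positivity

theorem cen_eq (κ : ℝ) (S : ℕ → Bool) (n : ℕ) : cen (th κ) S n = ww κ S n - 1 := rfl

/-- the thinned prime sum -/
noncomputable def gS (κ : ℝ) (S : ℕ → Bool) (a : ℕ → ℂ) (u : ℂ) : ℂ :=
  ∑' n : ℕ, (ww κ S n : ℂ) * pf a n * en u n

theorem term_bound {a : ℕ → ℂ} {D : ℝ} (ha : ∀ n, ‖a n‖ ≤ D) (u : ℂ) (n : ℕ) :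
    ‖pf a n * en u n‖ ≤ D * (n : ℝ) ^ (-1 - u.re) := by
  have hD : 0 ≤ D := (norm_nonneg _).trans (ha 0)
  rcases Nat.eq_zero_or_pos n with rfl | hn
  · rw [pf_zero, zero_mul, norm_zero]
    positivity
  · have hn0 : (0 : ℝ) < n := by exact_mod_cast hn
    rw [norm_mul, norm_en_rpow u hn]
    have h1 : (n : ℝ) ^ (-1 - u.re) = (n : ℝ)⁻¹ * (n : ℝ) ^ (-u.re) := by
      rw [← Real.rpow_neg_one, ← Real.rpow_add hn0]
      congr 1
    rw [h1]
    calc ‖pf a n‖ * (n : ℝ) ^ (-u.re) ≤ D / n * (n : ℝ) ^ (-u.re) := by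
          have := norm_pf ha n
          gcongr
      _ = _ := by ring

theorem gS_summable {κ : ℝ} (h1 : κ ≤ 1) {S : ℕ → Bool} (hS : ∀ δ : ℝ, 0 < δ →
    Summable fun n : ℕ => (if S n = true then (1 : ℝ) else 0) / th κ n * (n : ℝ) ^ (-1 - δ))
    {a : ℕ → ℂ} {D : ℝ} (ha : ∀ n, ‖a n‖ ≤ D) {u : ℂ} (hu : 0 < u.re) :
    Summable fun n : ℕ => (ww κ S n : ℂ) * pf a n * en u n := by
  refine Summable.of_norm_bounded ((hS _ hu).mul_left D) fun n => ?_
  rw [mul_assoc, norm_mul, Complex.norm_real, Real.norm_of_nonneg (ww_nonneg h1 S n)]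
  calc ww κ S n * ‖pf a n * en u n‖ ≤ ww κ S n * (D * (n : ℝ) ^ (-1 - u.re)) :=
        mul_le_mul_of_nonneg_left (term_bound ha u n) (ww_nonneg h1 S n)
    _ = D * ((if S n = true then (1 : ℝ) else 0) / th κ n * (n : ℝ) ^ (-1 - u.re)) := by
        unfold ww
        ring

theorem g_summable {a : ℕ → ℂ} {D : ℝ} (ha : ∀ n, ‖a n‖ ≤ D) {u : ℂ} (hu : 0 < u.re) :
    Summable fun n : ℕ => pf a n * en u n :=
  Summable.of_norm_bounded ((Real.summable_nat_rpow.2 (by linarith : -1 - u.re < -1)).mul_left D)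
    fun n => term_bound ha u n

theorem gg_eq (a : ℕ → ℂ) (ζ : ℂ) : gg a ζ = ∑' n : ℕ, pf a n * en (I * ζ) n := rfl

theorem ge_mul (s : ℂ) : I * ge 2 s = s - 2 := by
  unfold ge
  have : ((2 : ℤ) : ℂ) / 2 + 1 = 2 := by push_cast; norm_num
  rw [this]
  linear_combination (-(s - 2)) * Complex.I_mul_I

theorem ge_im' (s : ℂ) : (ge 2 s).im = -(s - 2).re := by
  have h1 := eg_re 2 (ge 2 s)
  rw [eg_ge] at h1
  push_cast at h1
  simp only [Complex.sub_re, Complex.re_ofNat]
  linarith

theorem ge_im_lt {s : ℂ} (hs : 2 < s.re) : (ge 2 s).im < 0 := by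
  rw [ge_im']
  simp only [Complex.sub_re, Complex.re_ofNat]
  linarith

/-- the decomposition of the term -/
theorem thinTerm_eq {P : ℕ} (hG : ∀ v : HeightOneSpectrum (𝓞 k), P ≤ nm v → GoodK 2 N B v)
    (κ : ℝ) (S : ℕ → Bool) (s : ℂ) (v : HeightOneSpectrum (𝓞 k)) :
    thinTerm B κ S s v = (if nm v < P then thinTerm B κ S s v else 0) +
      (ww κ S (nm v) : ℂ) * (if (nm v).Prime then fstk 2 N B P v (ge 2 s) else 0) := by
  by_cases h : nm v < P
  · rw [if_pos h]
    have h2 : fstk 2 N B P v (ge 2 s) = 0 := by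
      unfold fstk avk
      rw [dif_neg fun h1 => absurd h1.1 (not_le.2 h)]
      simp
    rw [h2]
    simp
  · rw [if_neg h, zero_add]
    have hP : P ≤ nm v := not_lt.1 h
    have hg : P ≤ nm v ∧ GoodK 2 N B v := ⟨hP, hG v hP⟩
    have h3 : fstk 2 N B P v (ge 2 s) = -(B v).coeff 1 * (nm v : ℂ) ^ (-s) := by
      unfold fstk avk
      rw [dif_pos hg, first_term' (two_le_nm v), eg_ge, coeff_one hg.2.choose_spec.2]
    unfold thinTerm ww
    have h4 : Ideal.absNorm v.asIdeal = nm v := rfl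
    rw [h4]
    by_cases hp : (nm v).Prime
    · by_cases hS : S (nm v) = true
      · rw [if_pos ⟨hp, hS⟩, if_pos hp, if_pos hS, h3]
        push_cast
        ring
      · rw [if_neg (fun h => hS h.2), if_neg hS]
        simp
    · rw [if_neg (fun h => hp h.1), if_neg hp, mul_zero]

theorem grp_mul (W : ℕ → ℂ) (f : HeightOneSpectrum (𝓞 k) → ℂ) (n : ℕ) :
    grp (N := (nm : HeightOneSpectrum (𝓞 k) → ℕ)) (fun v => W (nm v) * f v) n =
      W n * grp (N := (nm : HeightOneSpectrum (𝓞 k) → ℕ)) f n := by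
  unfold grp
  rw [← tsum_mul_left]
  refine tsum_congr fun v => ?_
  have h3 : nm (v : HeightOneSpectrum (𝓞 k)) = n := v.2
  beta_reduce
  rw [h3]

/-- the sum over the places is the sum over the primes -/
theorem sum_places {κ : ℝ} (h1 : κ ≤ 1) {S : ℕ → Bool} (hS : ∀ δ : ℝ, 0 < δ →
    Summable fun n : ℕ => (if S n = true then (1 : ℝ) else 0) / th κ n * (n : ℝ) ^ (-1 - δ))
    (P : ℕ) {s : ℂ} (hs : 2 < s.re) :
    HasSum (fun v : HeightOneSpectrum (𝓞 k) => (ww κ S (nm v) : ℂ) *
      (if (nm v).Prime then fstk 2 N B P v (ge 2 s) else 0)) (gS κ S (ak 2 N B P) (s - 2)) := by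
  have hu : 0 < (s - 2).re := by
    simp only [Complex.sub_re, Complex.re_ofNat]
    linarith
  have him : (ge 2 s).im = -(s - 2).re := by
    rw [ge_im']
  have h2 : Summable fun v : HeightOneSpectrum (𝓞 k) => (ww κ S (nm v) : ℂ) *
      (if (nm v).Prime then fstk 2 N B P v (ge 2 s) else 0) := by
    have h3 : Summable fun p : Nat.Primes => (N : ℝ) *
        (ww κ S p * ((p : ℕ) : ℝ) ^ (-1 - (s - 2).re)) :=
      ((hS _ hu).comp_injective Nat.Primes.coe_nat_injective).mul_left _
    refine Summable.of_norm_bounded (below_summable (k := k) (fun p => ?_) h3) fun v => ?_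
    · have := ww_nonneg h1 S (p : ℕ)
      positivity
    · rw [norm_mul, Complex.norm_real, Real.norm_of_nonneg (ww_nonneg h1 S _)]
      by_cases hp : (nm v).Prime
      · have hb : ((below v : ℕ)) = nm v := by
          have : (below v : ℕ) = (nm v).minFac := rfl
          rw [this, hp.minFac_eq]
        rw [if_pos hp, hb]
        have hq0 : (0 : ℝ) < nm v := by exact_mod_cast hN v
        have h4 : ‖fstk 2 N B P v (ge 2 s)‖ ≤ N * (nm v : ℝ) ^ (-1 - (s - 2).re) := by
          unfold fstk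
          rw [norm_mul, norm_div, Complex.norm_natCast, norm_ker, him]
          have h5 : Real.exp (-(s - 2).re * Real.log (nm v)) = (nm v : ℝ) ^ (-(s - 2).re) := by
            rw [Real.rpow_def_of_pos hq0, mul_comm]
          have h6 : (nm v : ℝ) ^ (-1 - (s - 2).re) = (nm v : ℝ)⁻¹ * (nm v : ℝ) ^ (-(s - 2).re) := by
            rw [← Real.rpow_neg_one, ← Real.rpow_add hq0]
            congr 1
          rw [h5, h6]
          calc ‖avk 2 N B P v‖ / nm v * (nm v : ℝ) ^ (-(s - 2).re) ≤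
              N / nm v * (nm v : ℝ) ^ (-(s - 2).re) := by
                have := norm_avk (w := 2) (N := N) (B := B) (P := P) v
                gcongr
            _ = _ := by ring
        calc ww κ S (nm v) * ‖fstk 2 N B P v (ge 2 s)‖ ≤
            ww κ S (nm v) * (N * (nm v : ℝ) ^ (-1 - (s - 2).re)) :=
              mul_le_mul_of_nonneg_left h4 (ww_nonneg h1 S _)
          _ = _ := by ring
      · rw [if_neg hp, norm_zero, mul_zero]
        have := ww_nonneg (κ := κ) h1 S (below v : ℕ)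
        positivity
  have h4 := h2.hasSum.tsum_fiberwise (nm : HeightOneSpectrum (𝓞 k) → ℕ)
  have h5 : (fun c => ∑' b : (nm : HeightOneSpectrum (𝓞 k) → ℕ) ⁻¹' {c},
      (ww κ S (nm (b : HeightOneSpectrum (𝓞 k))) : ℂ) *
        (if (nm (b : HeightOneSpectrum (𝓞 k))).Prime then fstk 2 N B P b (ge 2 s) else 0)) =
      fun n => (ww κ S n : ℂ) * pf (ak 2 N B P) n * en (s - 2) n := by
    funext n
    have h6 := grp_mul (k := k) (fun n => (ww κ S n : ℂ))
      (fun v => if (nm v).Prime then fstk 2 N B P v (ge 2 s) else 0) n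
    rw [grp_fstk (w := 2) (N := N) (B := B) (P := P) (ge 2 s) n, ge_mul] at h6
    rw [mul_assoc]
    exact h6
  rw [h5] at h4
  have h7 : gS κ S (ak 2 N B P) (s - 2) = ∑' v : HeightOneSpectrum (𝓞 k), (ww κ S (nm v) : ℂ) *
      (if (nm v).Prime then fstk 2 N B P v (ge 2 s) else 0) := h4.tsum_eq
  rw [h7]
  exact h2.hasSum

/-- **The thinned series and the Euler product.** -/
theorem thin_main (hB : IsEuler₂ N B) {κ : ℝ} (h0 : 0 < κ) (h1 : κ ≤ 1 / 2) :
    ∀ᵐ S ∂(lawS (th κ)),
      (∀ s : ℂ, 2 < s.re → Summable (thinTerm B κ S s)) ∧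
      ∃ (T : Finset (HeightOneSpectrum (𝓞 k))) (R : ℂ → ℂ),
        DifferentiableOn ℂ R {s : ℂ | 2 - κ / 2 < s.re} ∧ (∀ s, R s ≠ 0) ∧
        ∀ s : ℂ, 2 < s.re → LFun₂ B s = (∏ v ∈ T, factor B v s) *
          Complex.exp (∑' v, thinTerm B κ S s v) * R s := by
  obtain ⟨P, hP⟩ := exists_P hB
  obtain ⟨hNP, hG⟩ := hP P le_rfl
  set a : ℕ → ℂ := ak 2 N B P with ha
  have hbd : ∀ n, ‖a n‖ ≤ N * Module.finrank ℚ k := norm_ak
  filter_upwards [diff_hol h0 (by linarith) hbd, thin_abs (κ := κ) (by linarith)] with S hS1 hS2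
  obtain ⟨H, hH, hlim⟩ := hS1
  have hterm := thinTerm_eq hG κ S
  have hmem : ∀ v : HeightOneSpectrum (𝓞 k), v ∈ SP k P ↔ nm v < P := fun v => by
    unfold SP
    exact mem_FV
  have hfinsum : ∀ s : ℂ, HasSum (fun v : HeightOneSpectrum (𝓞 k) =>
      if nm v < P then thinTerm B κ S s v else 0) (∑ v ∈ SP k P, thinTerm B κ S s v) := by
    intro s
    have h2 : ∑ v ∈ SP k P, thinTerm B κ S s v =
        ∑ v ∈ SP k P, if nm v < P then thinTerm B κ S s v else 0 :=
      Finset.sum_congr rfl fun v hv => (if_pos ((hmem v).1 hv)).symm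
    rw [h2]
    exact hasSum_sum_of_ne_finset_zero fun v hv => if_neg fun h => hv ((hmem v).2 h)
  have hthin : ∀ s : ℂ, 2 < s.re → HasSum (thinTerm B κ S s)
      (∑ v ∈ SP k P, thinTerm B κ S s v + gS κ S a (s - 2)) := by
    intro s hs
    refine ((hfinsum s).add (sum_places (κ := κ) (by linarith) hS2 P hs)).congr_fun fun v => ?_
    exact hterm s v
  have hHu : ∀ u : ℂ, 0 < u.re → H u = gS κ S a u - ∑' n : ℕ, pf a n * en u n := by
    intro u hu
    have h3 := ((gS_summable (by linarith) hS2 hbd hu).hasSum.sub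
      (g_summable hbd hu).hasSum).tendsto_sum_nat
    refine tendsto_nhds_unique (hlim u (by linarith)) (h3.congr fun M => ?_)
    refine Finset.sum_congr rfl fun n _ => ?_
    rw [cen_eq]
    push_cast
    ring
  refine ⟨fun s hs => (hthin s hs).summable, SP k P, fun s => Complex.exp
    (Ck 2 N B P (ge 2 s) - H (s - 2) - ∑ v ∈ SP k P, thinTerm B κ S s v), ?_,
    fun s => Complex.exp_ne_zero _, fun s hs => ?_⟩
  · refine DifferentiableOn.cexp ?_
    refine (DifferentiableOn.sub ?_ ?_).sub ?_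
    · have h2 : Differentiable ℂ (ge 2) := by
        unfold ge
        fun_prop
      refine (Ck_diff (w := 2) (N := N) (B := B) (P := P)).comp h2.differentiableOn ?_
      intro s hs
      have hs' : 2 - κ / 2 < s.re := hs
      show (ge 2 s).im < 1 / 4
      rw [ge_im']
      simp only [Complex.sub_re, Complex.re_ofNat]
      linarith
    · refine hH.comp (by fun_prop) ?_
      intro s hs
      have hs' : 2 - κ / 2 < s.re := hs
      show -(κ / 2) < (s - 2).re
      simp only [Complex.sub_re, Complex.re_ofNat]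
      linarith
    · refine DifferentiableOn.fun_sum fun v _ => ?_
      unfold thinTerm
      split_ifs
      · have hq0 : ((Ideal.absNorm v.asIdeal : ℕ) : ℂ) ≠ 0 := by
          have := hN v
          have h3 : Ideal.absNorm v.asIdeal = nm v := rfl
          rw [h3]
          exact_mod_cast (by omega : nm v ≠ 0)
        refine Differentiable.differentiableOn ?_
        exact (Differentiable.const_cpow (by fun_prop) (Or.inl hq0)).const_mul _
      · exact differentiableOn_const _
  · have h2 := (euler_k hG (ge_im_lt hs)).tprod_eq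
    have h3 : LFun₂ B s = (∏ v ∈ SP k P, factor B v s) *
        Complex.exp (Ck 2 N B P (ge 2 s) + gg a (ge 2 s)) := by
      have h4 : eg 2 (ge 2 s) = s := eg_ge 2 s
      rw [h4] at h2
      exact h2
    have hu : 0 < (s - 2).re := by
      simp only [Complex.sub_re, Complex.re_ofNat]
      linarith
    rw [h3, (hthin s hs).tsum_eq, mul_assoc, ← Complex.exp_add]
    congr 2
    rw [gg_eq, ge_mul, hHu (s - 2) hu]
    ring

end Pool.Agent.R376.Rnd
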