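import Mathlib

/-!
# Poles and the growth of logarithms
-/

set_option autoImplicit false

open Filter Topology

namespace Pool.Agent.R376.Rnd

/-- `L` has a pole of order `r` at `2`, from the right half plane -/
def PoleAt (L : ℂ → ℂ) (r : ℤ) : Prop :=
  ∃ F : ℂ → ℂ, MeromorphicAt F 2 ∧ meromorphicOrderAt F 2 = (-r : ℤ) ∧
    ∀ᶠ s in 𝓝 (2 : ℂ), 2 < s.re → F s = L s

theorem order_zero {G : ℂ → ℂ} (hG : AnalyticAt ℂ G 2) (hG0 : G 2 ≠ 0) :
    meromorphicOrderAt G 2 = 0 := by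
  rw [hG.meromorphicOrderAt_eq, hG.analyticOrderAt_eq_zero.2 hG0]
  rfl

theorem pole_mul {L T G : ℂ → ℂ} (hG : AnalyticAt ℂ G 2) (hG0 : G 2 ≠ 0)
    (h : ∀ᶠ s in 𝓝 (2 : ℂ), 2 < s.re → L s = T s * G s) {r : ℤ} (hT : PoleAt T r) :
    PoleAt L r := by
  obtain ⟨F, hF, hFo, hFe⟩ := hT
  refine ⟨F * G, hF.mul hG.meromorphicAt, ?_, ?_⟩
  · rw [meromorphicOrderAt_mul hF hG.meromorphicAt, hFo, order_zero hG hG0, add_zero]
  · filter_upwards [h, hFe] with s h1 h2 hs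
    rw [Pi.mul_apply, h2 hs, h1 hs]

theorem pole_iff {L T G : ℂ → ℂ} (hG : AnalyticAt ℂ G 2) (hG0 : G 2 ≠ 0)
    (h : ∀ᶠ s in 𝓝 (2 : ℂ), 2 < s.re → L s = T s * G s) (r : ℤ) :
    PoleAt L r ↔ PoleAt T r := by
  refine ⟨fun hL => ?_, pole_mul hG hG0 h⟩
  refine pole_mul (hG.inv hG0) (inv_ne_zero hG0) ?_ hL
  have h1 : ∀ᶠ s in 𝓝 (2 : ℂ), G s ≠ 0 := hG.continuousAt.eventually_ne hG0
  filter_upwards [h, h1] with s h2 h3 hs
  rw [h2 hs, Pi.inv_apply, mul_assoc, mul_inv_cancel₀ h3, mul_one]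

/-- the growth of the logarithm -/
theorem log_growth {t : ℂ → ℂ} {r : ℤ} (h : PoleAt (fun s => Complex.exp (t s)) r) :
    Tendsto (fun ε : ℝ => (t (2 + ε)).re / Real.log (1 / ε)) (𝓝[>] 0) (𝓝 (r : ℝ)) := by
  obtain ⟨F, hF, hFo, hFe⟩ := h
  obtain ⟨g, hg, hg0, hge⟩ := (meromorphicOrderAt_eq_int_iff hF).1 hFo
  have hmap : Tendsto (fun ε : ℝ => (2 + ε : ℂ)) (𝓝[>] 0) (𝓝[≠] 2) := by
    refine tendsto_nhdsWithin_iff.2 ⟨?_, ?_⟩
    · have h1 : Continuous fun ε : ℝ => (2 + ε : ℂ) := by fun_prop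
      have h2 := (h1.tendsto 0).mono_left (nhdsWithin_le_nhds (s := Set.Ioi 0))
      simpa using h2
    · filter_upwards [self_mem_nhdsWithin] with ε hε
      have hε' : (0 : ℝ) < ε := hε
      intro h3
      have h4 : (ε : ℂ) = 0 := by
        have h5 : (2 + ε : ℂ) = 2 := h3
        linear_combination h5
      exact hε'.ne' (by exact_mod_cast h4)
  have hmap' : Tendsto (fun ε : ℝ => (2 + ε : ℂ)) (𝓝[>] 0) (𝓝 2) :=
    hmap.mono_right nhdsWithin_le_nhds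
  have hlogg : Tendsto (fun ε : ℝ => Real.log ‖g (2 + ε)‖) (𝓝[>] 0) (𝓝 (Real.log ‖g 2‖)) := by
    have h1 : ContinuousAt (fun z => Real.log ‖g z‖) 2 :=
      (hg.continuousAt.norm).log (norm_ne_zero_iff.2 hg0)
    exact h1.tendsto.comp hmap'
  have hloge : Tendsto (fun ε : ℝ => Real.log (1 / ε)) (𝓝[>] 0) atTop := by
    have h1 : Tendsto (fun ε : ℝ => 1 / ε) (𝓝[>] 0) atTop := by
      simp only [one_div]
      exact tendsto_inv_nhdsGT_zero
    exact Real.tendsto_log_atTop.comp h1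
  have h1 : Tendsto (fun ε : ℝ => (r : ℝ) + Real.log ‖g (2 + ε)‖ / Real.log (1 / ε)) (𝓝[>] 0)
      (𝓝 (r + 0)) := tendsto_const_nhds.add (hlogg.div_atTop hloge)
  rw [add_zero] at h1
  refine h1.congr' ?_
  filter_upwards [hmap.eventually hge, hmap'.eventually hFe, self_mem_nhdsWithin,
    hloge.eventually (eventually_gt_atTop 0)] with ε h2 h3 hε hl
  have hε' : (0 : ℝ) < ε := hε
  have h4 := h3 (by simpa using hε')
  rw [h2] at h4
  have h5 := congrArg (fun z : ℂ => Real.log ‖z‖) h4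
  rw [Complex.norm_exp, Real.log_exp, norm_smul, Real.log_mul, norm_zpow, Real.log_zpow] at h5
  · have h6 : ‖(2 + ε : ℂ) - 2‖ = ε := by
      have : (2 + ε : ℂ) - 2 = (ε : ℂ) := by ring
      rw [this, Complex.norm_real, Real.norm_of_nonneg hε'.le]
    rw [h6] at h5
    rw [← h5]
    have h7 : Real.log (1 / ε) = -Real.log ε := by
      rw [one_div, Real.log_inv]
    rw [h7] at hl ⊢
    push_cast
    have h8 : -Real.log ε ≠ 0 := hl.ne'
    rw [add_div]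
    congr 1
    rw [eq_div_iff h8]
    ring
  · have h6 : (2 + ε : ℂ) - 2 ≠ 0 := by
      have : (2 + ε : ℂ) - 2 = (ε : ℂ) := by ring
      rw [this]
      exact_mod_cast hε'.ne'
    exact norm_ne_zero_iff.2 (zpow_ne_zero _ h6)
  · intro h6
    rw [norm_eq_zero] at h6
    rw [h6, smul_zero] at h4
    exact Complex.exp_ne_zero _ h4.symm

end Pool.Agent.R376.Rnd
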