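import Pool.Agent.R376.RandI

/-!
# Sparse random sets and averages over the places of a number field
-/

set_option autoImplicit false

namespace Pool.Agent.R376.Rnd

open Filter Topology MeasureTheory Finset NumberField IsDedekindDomain
  Pool.Agent.W350.Edge Pool.Agent.W350.EdgeV Pool.Agent.W350.EdgeNF
  Pool.Agent.H921R2.TatePole Pool.Agent.TH958.BV Pool.Agent.R385.PH

/-- almost sure comparison of the sums of a sequence and of the thinned sequence -/
theorem avg_rand {κ : ℝ} (h0 : 0 < κ) (h1 : κ ≤ 1) {x : ℕ → ℝ} {D : ℝ}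
    (hx : ∀ n : ℕ, |x n| ≤ D * Real.log n) :
    ∀ᵐ S ∂(lawS (th κ)), ∀ η : ℝ, η < κ / 2 → ∃ A : ℝ, 0 ≤ A ∧ ∀ N : ℕ,
      |∑ n ∈ range (N + 1), cen (th κ) S n * x n| ≤ A * ((N : ℝ) + 1) ^ (1 - η) := by
  have key : ∀ j : ℕ, ∀ᵐ S ∂(lawS (th κ)), ∃ A : ℝ, ∀ N : ℕ,
      |∑ n ∈ range (N + 1), cen (th κ) S n * x n| ≤
        A * ((N : ℝ) + 1) ^ (1 - (κ / 2 - κ / (2 * ((j : ℝ) + 2)))) := by
    intro j
    set η : ℝ := κ / 2 - κ / (2 * ((j : ℝ) + 2)) with hη
    have hηκ : η < κ / 2 := by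
      have : 0 < κ / (2 * ((j : ℝ) + 2)) := by positivity
      linarith
    have he : 0 < 1 - η := by linarith
    refine rand_bound (th κ) (th_mem h1) x (fun n => ((n : ℝ) + 1) ^ (1 - η))
      (fun m n h => Real.rpow_le_rpow (by positivity) (by
        have : (m : ℝ) ≤ n := by exact_mod_cast h
        linarith) he.le) (fun n => by positivity) ?_
    set ε : ℝ := (κ / 2 - η) / 2 with hε
    have hε0 : 0 < ε := by rw [hε]; linarith
    have hs : Summable fun n : ℕ => (D / ε) ^ 2 * ((n : ℝ) + 1) ^ (-1 - (κ / 2 - η)) := by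
      have := (Real.summable_nat_rpow (p := -1 - (κ / 2 - η))).2 (by linarith)
      have h2 := (summable_nat_add_iff 1).2 this
      refine (h2.congr fun n => ?_).mul_left _
      push_cast
      rfl
    refine Summable.of_nonneg_of_le (fun n => ?_) (fun n => ?_) hs
    · have := (th_mem h1 n).1
      positivity
    · have hn : (0 : ℝ) < (n : ℝ) + 1 := by positivity
      have hth : 0 < th κ n := (th_mem h1 n).1
      have e1 : Real.log n ≤ ((n : ℝ) + 1) ^ ε / ε := by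
        rcases Nat.eq_zero_or_pos n with rfl | hn'
        · simp only [Nat.cast_zero, Real.log_zero]
          positivity
        · have hn0 : (0 : ℝ) < n := by exact_mod_cast hn'
          exact (Real.log_le_log hn0 (by linarith)).trans (Real.log_le_rpow_div hn.le hε0)
      have hD : 0 ≤ D * Real.log n := (abs_nonneg _).trans (hx n)
      have e2 : x n ^ 2 ≤ (D / ε) ^ 2 * ((n : ℝ) + 1) ^ (2 * ε) := by
        have f1 : |x n| ≤ |D| * (((n : ℝ) + 1) ^ ε / ε) := by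
          refine (hx n).trans ?_
          refine (mul_le_mul_of_nonneg_right (le_abs_self D) (Real.log_natCast_nonneg n)).trans ?_
          exact mul_le_mul_of_nonneg_left e1 (abs_nonneg D)
        have f2 : x n ^ 2 ≤ (|D| * (((n : ℝ) + 1) ^ ε / ε)) ^ 2 := by
          rw [← sq_abs (x n)]
          exact pow_le_pow_left₀ (abs_nonneg _) f1 2
        refine f2.trans (le_of_eq ?_)
        have f3 : ((n : ℝ) + 1) ^ (2 * ε) = (((n : ℝ) + 1) ^ ε) ^ 2 := by
          rw [mul_comm, Real.rpow_mul hn.le]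
          norm_cast
        rw [f3, mul_pow, sq_abs]
        ring
      have e3 : 0 < (((n : ℝ) + 1) ^ (1 - η)) ^ 2 := by positivity
      calc x n ^ 2 / (th κ n * (((n : ℝ) + 1) ^ (1 - η)) ^ 2)
          ≤ (D / ε) ^ 2 * ((n : ℝ) + 1) ^ (2 * ε) / (th κ n * (((n : ℝ) + 1) ^ (1 - η)) ^ 2) := by
            gcongr
        _ = (D / ε) ^ 2 * ((n : ℝ) + 1) ^ (-1 - (κ / 2 - η)) := by
            have g1 : (((n : ℝ) + 1) ^ (1 - η)) ^ 2 = ((n : ℝ) + 1) ^ (2 * (1 - η)) := by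
              rw [mul_comm 2, Real.rpow_mul hn.le]
              norm_cast
            have g2 : ((n : ℝ) + 1) ^ (2 * ε) = ((n : ℝ) + 1) ^ (-1 - (κ / 2 - η)) *
                (((n : ℝ) + 1) ^ (κ - 1) * ((n : ℝ) + 1) ^ (2 * (1 - η))) := by
              rw [← Real.rpow_add hn, ← Real.rpow_add hn]
              congr 1
              rw [hε]
              ring
            unfold th
            rw [g1, g2]
            have g3 : ((n : ℝ) + 1) ^ (κ - 1) * ((n : ℝ) + 1) ^ (2 * (1 - η)) ≠ 0 := by positivity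
            rw [← mul_assoc, mul_div_assoc, div_self g3, mul_one]
  filter_upwards [ae_all_iff.2 key] with S hS η hη
  have hq : 0 < (κ / 2 - η) / κ := div_pos (by linarith) h0
  obtain ⟨j, hj⟩ := exists_nat_one_div_lt hq
  obtain ⟨A, hA⟩ := hS j
  refine ⟨|A|, abs_nonneg A, fun N => (hA N).trans ?_⟩
  have hN : (1 : ℝ) ≤ (N : ℝ) + 1 := by
    have : (0 : ℝ) ≤ N := Nat.cast_nonneg N
    linarith
  have e1 : κ / (2 * ((j : ℝ) + 2)) ≤ κ * (1 / ((j : ℝ) + 1)) := by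
    rw [mul_one_div]
    apply div_le_div_of_nonneg_left h0.le (by positivity)
    have : (0 : ℝ) ≤ j := Nat.cast_nonneg j
    linarith
  have e2 : κ * (1 / ((j : ℝ) + 1)) < κ / 2 - η := by
    have := (lt_div_iff₀ h0).1 hj
    linarith
  have e3 : ((N : ℝ) + 1) ^ (1 - (κ / 2 - κ / (2 * ((j : ℝ) + 2)))) ≤ ((N : ℝ) + 1) ^ (1 - η) :=
    Real.rpow_le_rpow_of_exponent_le hN (by linarith)
  calc A * ((N : ℝ) + 1) ^ (1 - (κ / 2 - κ / (2 * ((j : ℝ) + 2))))
      ≤ |A| * ((N : ℝ) + 1) ^ (1 - (κ / 2 - κ / (2 * ((j : ℝ) + 2)))) :=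
        mul_le_mul_of_nonneg_right (le_abs_self A) (by positivity)
    _ ≤ |A| * ((N : ℝ) + 1) ^ (1 - η) := mul_le_mul_of_nonneg_left e3 (abs_nonneg A)

variable {k : Type} [Field k] [NumberField k]

/-- the places of norm at most `n` -/
noncomputable def FP (k : Type) [Field k] [NumberField k] (n : ℕ) :
    Finset (HeightOneSpectrum (𝓞 k)) := FV nm (hfin (K := k)) (n + 1)

theorem mem_FP {n : ℕ} {v : HeightOneSpectrum (𝓞 k)} : v ∈ FP k n ↔ nm v ≤ n := by
  unfold FP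
  rw [mem_FV]
  omega

/-- the sum over the places of norm `n` -/
noncomputable def gr (f : HeightOneSpectrum (𝓞 k) → ℝ) (n : ℕ) : ℝ :=
  ∑ v ∈ (FP k n).filter fun v => nm v = n, f v

theorem sum_gr (W : ℕ → ℝ) (f : HeightOneSpectrum (𝓞 k) → ℝ) (M : ℕ) :
    ∑ n ∈ range (M + 1), W n * gr f n = ∑ v ∈ FP k M, W (nm v) * f v := by
  classical
  rw [← sum_fiberwise_of_maps_to (s := FP k M) (t := range (M + 1)) (g := nm)
    (fun v hv => mem_range.2 (by have := mem_FP.1 hv; omega))]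
  refine sum_congr rfl fun n hn => ?_
  have hnM : n ≤ M := by
    have := mem_range.1 hn
    omega
  unfold gr
  rw [mul_sum]
  have e1 : (FP k n).filter (fun v => nm v = n) = (FP k M).filter fun v => nm v = n := by
    ext v
    rw [mem_filter, mem_filter, mem_FP, mem_FP]
    constructor
    · rintro ⟨h1, h2⟩
      exact ⟨by omega, h2⟩
    · rintro ⟨h1, h2⟩
      exact ⟨by omega, h2⟩
  rw [e1]
  refine sum_congr rfl fun v hv => ?_
  rw [(mem_filter.1 hv).2]

/-- the summand of the averages -/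
noncomputable def ff (b : HeightOneSpectrum (𝓞 k) → ℝ) (v : HeightOneSpectrum (𝓞 k)) : ℝ :=
  b v * Real.log (nm v) / nm v

theorem ff_bound {b : HeightOneSpectrum (𝓞 k) → ℝ} {C : ℝ} (hb : ∀ v, |b v| ≤ C * nm v)
    (v : HeightOneSpectrum (𝓞 k)) : |ff b v| ≤ C * Real.log (nm v) := by
  have hq : (0 : ℝ) < nm v := by exact_mod_cast hN v
  have hl : 0 ≤ Real.log (nm v) := Real.log_natCast_nonneg _
  unfold ff
  rw [abs_div, abs_mul, abs_of_nonneg hl, abs_of_pos hq, div_le_iff₀ hq]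
  calc |b v| * Real.log (nm v) ≤ C * nm v * Real.log (nm v) :=
        mul_le_mul_of_nonneg_right (hb v) hl
    _ = C * Real.log (nm v) * nm v := by ring

theorem gr_bound {b : HeightOneSpectrum (𝓞 k) → ℝ} {C : ℝ} (hC0 : 0 ≤ C)
    (hb : ∀ v, |b v| ≤ C * nm v)
    {n : ℕ} (hn : n.Prime) : |gr (ff b) n| ≤ Module.finrank ℚ k * C * Real.log n := by
  classical
  unfold gr
  have hC : 0 ≤ C * Real.log n := mul_nonneg hC0 (Real.log_natCast_nonneg n)
  have h1 : ∀ v ∈ (FP k n).filter (fun v => nm v = n), |ff b v| ≤ C * Real.log n := by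
    intro v hv
    have h2 := ff_bound hb v
    rwa [(mem_filter.1 hv).2] at h2
  have h2 : (((FP k n).filter fun v => nm v = n).card : ℝ) ≤ Module.finrank ℚ k := by
    have := card_above (K := k) ⟨n, hn⟩ ((FP k n).filter fun v => nm v = n) (by
      intro v hv
      have hv' := (mem_filter.1 hv).2
      have hb : (below v : ℕ) = nm v := by
        have : (below v : ℕ) = (nm v).minFac := rfl
        rw [this, (hv' ▸ hn : (nm v).Prime).minFac_eq]
      exact Subtype.ext (hb.trans hv'))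
    exact_mod_cast this
  calc |∑ v ∈ (FP k n).filter fun v => nm v = n, ff b v|
      ≤ ∑ v ∈ (FP k n).filter fun v => nm v = n, |ff b v| := abs_sum_le_sum_abs _ _
    _ ≤ ∑ v ∈ (FP k n).filter fun v => nm v = n, C * Real.log n := sum_le_sum h1
    _ = ((FP k n).filter fun v => nm v = n).card * (C * Real.log n) := by
        rw [sum_const, nsmul_eq_mul]
    _ ≤ Module.finrank ℚ k * (C * Real.log n) := mul_le_mul_of_nonneg_right h2 hC
    _ = _ := by ring

/-- the grouped summands at the primes -/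
noncomputable def xg (b : HeightOneSpectrum (𝓞 k) → ℝ) (n : ℕ) : ℝ :=
  if n.Prime then gr (ff b) n else 0

theorem xg_bound {b : HeightOneSpectrum (𝓞 k) → ℝ} {C : ℝ} (hC0 : 0 ≤ C)
    (hb : ∀ v, |b v| ≤ C * nm v) (n : ℕ) : |xg b n| ≤ Module.finrank ℚ k * C * Real.log n := by
  unfold xg
  split_ifs with h
  · exact gr_bound hC0 hb h
  · rw [abs_zero]
    have := Real.log_natCast_nonneg n
    positivity

theorem low_bound {b : HeightOneSpectrum (𝓞 k) → ℝ} {C : ℝ} (hC0 : 0 ≤ C)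
    (hb : ∀ v, |b v| ≤ C * nm v) {η : ℝ} (hη : η < 1 / 4) : ∃ A : ℝ, 0 ≤ A ∧ ∀ M : ℕ,
      |∑ v ∈ FP k M, if (nm v).Prime then 0 else ff b v| ≤ A * ((M : ℝ) + 1) ^ (1 - η) := by
  set Z : ℝ := ∑' v : HeightOneSpectrum (𝓞 k),
    (if (nm v).Prime then (0 : ℝ) else (nm v : ℝ) ^ (-(3 / 4) : ℝ)) with hZ
  have hd : 0 < 1 / 4 - η := by linarith
  have hterm : ∀ v : HeightOneSpectrum (𝓞 k),
      0 ≤ if (nm v).Prime then (0 : ℝ) else (nm v : ℝ) ^ (-(3 / 4) : ℝ) := fun v => by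
    split_ifs <;> positivity
  have hZ0 : 0 ≤ Z := tsum_nonneg hterm
  refine ⟨C / (1 / 4 - η) * Z, by positivity, fun M => ?_⟩
  have h1 : ∀ v ∈ FP k M, |if (nm v).Prime then 0 else ff b v| ≤
      C / (1 / 4 - η) * ((M : ℝ) + 1) ^ (1 - η) *
        (if (nm v).Prime then (0 : ℝ) else (nm v : ℝ) ^ (-(3 / 4) : ℝ)) := by
    intro v hv
    have hM : nm v ≤ M := mem_FP.1 hv
    split_ifs with hp
    · simp
    · have hq : (0 : ℝ) < nm v := by exact_mod_cast hN v
      have e1 := ff_bound hb v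
      have e2 : Real.log (nm v) ≤ (nm v : ℝ) ^ (1 / 4 - η) / (1 / 4 - η) :=
        Real.log_le_rpow_div hq.le hd
      have e3 : (nm v : ℝ) ^ (1 / 4 - η) = (nm v : ℝ) ^ (1 - η) * (nm v : ℝ) ^ (-(3 / 4) : ℝ) := by
        rw [← Real.rpow_add hq]
        congr 1
        ring
      have e4 : (nm v : ℝ) ^ (1 - η) ≤ ((M : ℝ) + 1) ^ (1 - η) := by
        refine Real.rpow_le_rpow hq.le ?_ (by linarith)
        have : (nm v : ℝ) ≤ M := by exact_mod_cast hM
        linarith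
      calc |ff b v| ≤ C * Real.log (nm v) := e1
        _ ≤ C * ((nm v : ℝ) ^ (1 - η) * (nm v : ℝ) ^ (-(3 / 4) : ℝ) / (1 / 4 - η)) := by
            rw [← e3]
            exact mul_le_mul_of_nonneg_left e2 hC0
        _ ≤ C * (((M : ℝ) + 1) ^ (1 - η) * (nm v : ℝ) ^ (-(3 / 4) : ℝ) / (1 / 4 - η)) := by
            gcongr
        _ = _ := by ring
  calc |∑ v ∈ FP k M, if (nm v).Prime then 0 else ff b v|
      ≤ ∑ v ∈ FP k M, |if (nm v).Prime then 0 else ff b v| := abs_sum_le_sum_abs _ _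
    _ ≤ ∑ v ∈ FP k M, C / (1 / 4 - η) * ((M : ℝ) + 1) ^ (1 - η) *
        (if (nm v).Prime then (0 : ℝ) else (nm v : ℝ) ^ (-(3 / 4) : ℝ)) := sum_le_sum h1
    _ = C / (1 / 4 - η) * ((M : ℝ) + 1) ^ (1 - η) * ∑ v ∈ FP k M,
        (if (nm v).Prime then (0 : ℝ) else (nm v : ℝ) ^ (-(3 / 4) : ℝ)) := by rw [mul_sum]
    _ ≤ C / (1 / 4 - η) * ((M : ℝ) + 1) ^ (1 - η) * Z := by
        refine mul_le_mul_of_nonneg_left ?_ (by positivity)
        exact (hlow' (k := k)).sum_le_tsum _ fun v _ => hterm v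
    _ = _ := by ring

/-- the summand of the thinned averages -/
noncomputable def ft (b : HeightOneSpectrum (𝓞 k) → ℝ) (κ : ℝ) (S : ℕ → Bool)
    (v : HeightOneSpectrum (𝓞 k)) : ℝ :=
  if (nm v).Prime ∧ S (nm v) = true then ff b v / th κ (nm v) else 0

theorem fin_main {κ : ℝ} (h0 : 0 < κ) (h1 : κ ≤ 1 / 2) {b : HeightOneSpectrum (𝓞 k) → ℝ} {C : ℝ}
    (hC0 : 0 ≤ C) (hb : ∀ v, |b v| ≤ C * nm v) :
    ∀ᵐ S ∂(lawS (th κ)), ∀ η : ℝ, η < κ / 2 → ∃ A : ℝ, 0 ≤ A ∧ ∀ M : ℕ,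
      |∑ v ∈ FP k M, ft b κ S v - ∑ v ∈ FP k M, ff b v| ≤ A * ((M : ℝ) + 1) ^ (1 - η) := by
  filter_upwards [avg_rand h0 (by linarith) (xg_bound hC0 hb)] with S hS η hη
  obtain ⟨A₁, hA₁, hS₁⟩ := hS η hη
  obtain ⟨A₂, hA₂, hS₂⟩ := low_bound hC0 hb (η := η) (by linarith)
  refine ⟨A₁ + A₂, by positivity, fun M => ?_⟩
  have e1 : ∑ v ∈ FP k M, ft b κ S v - ∑ v ∈ FP k M, ff b v =
      ∑ n ∈ range (M + 1), cen (th κ) S n * xg b n -
        ∑ v ∈ FP k M, if (nm v).Prime then 0 else ff b v := by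
    have e2 : ∑ n ∈ range (M + 1), cen (th κ) S n * xg b n =
        ∑ v ∈ FP k M, (if (nm v).Prime then cen (th κ) S (nm v) else 0) * ff b v := by
      rw [← sum_gr (fun n => if n.Prime then cen (th κ) S n else 0)]
      refine sum_congr rfl fun n _ => ?_
      unfold xg
      by_cases h : n.Prime
      · simp [h]
      · simp [h]
    rw [e2, ← sum_sub_distrib, ← sum_sub_distrib]
    refine sum_congr rfl fun v _ => ?_
    unfold ft cen
    by_cases h : (nm v).Prime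
    · by_cases hs : S (nm v) = true
      · rw [if_pos ⟨h, hs⟩, if_pos h, if_pos hs, if_pos h]
        ring
      · rw [if_neg (fun h' => hs h'.2), if_pos h, if_neg hs, if_pos h]
        ring
    · rw [if_neg (fun h' => h h'.1), if_neg h, if_neg h]
      ring
  rw [e1]
  calc |∑ n ∈ range (M + 1), cen (th κ) S n * xg b n -
        ∑ v ∈ FP k M, if (nm v).Prime then 0 else ff b v| ≤
      |∑ n ∈ range (M + 1), cen (th κ) S n * xg b n| +
        |∑ v ∈ FP k M, if (nm v).Prime then 0 else ff b v| := abs_sub _ _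
    _ ≤ A₁ * ((M : ℝ) + 1) ^ (1 - η) + A₂ * ((M : ℝ) + 1) ^ (1 - η) :=
        add_le_add (hS₁ M) (hS₂ M)
    _ = _ := by ring

/-- the averages -/
noncomputable def av (f : HeightOneSpectrum (𝓞 k) → ℝ) (T : ℝ) : ℝ :=
  T⁻¹ * ∑' v, if (nm v : ℝ) ≤ T then f v else 0

theorem av_eq (f : HeightOneSpectrum (𝓞 k) → ℝ) {T : ℝ} (hT : 0 ≤ T) :
    av f T = T⁻¹ * ∑ v ∈ FP k ⌊T⌋₊, f v := by
  unfold av
  congr 1
  rw [tsum_eq_sum (s := FP k ⌊T⌋₊)]
  · refine sum_congr rfl fun v hv => if_pos ?_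
    exact (Nat.le_floor_iff hT).1 (mem_FP.1 hv)
  · intro v hv
    exact if_neg fun h => hv (mem_FP.2 ((Nat.le_floor_iff hT).2 h))

/-- **The comparison of the averages** -/
theorem av_main {κ : ℝ} (h0 : 0 < κ) (h1 : κ ≤ 1 / 2) {b : HeightOneSpectrum (𝓞 k) → ℝ} {C : ℝ}
    (hC0 : 0 ≤ C) (hb : ∀ v, |b v| ≤ C * nm v) :
    ∀ᵐ S ∂(lawS (th κ)), ∀ η : ℝ, η < κ / 2 → ∃ A : ℝ, ∀ T : ℝ, 1 ≤ T →
      |av (ft b κ S) T - av (ff b) T| ≤ A * T ^ (-η) := by
  filter_upwards [fin_main h0 h1 hC0 hb] with S hS η hη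
  obtain ⟨A, hA, hSA⟩ := hS η hη
  refine ⟨A * 2 ^ (1 - η), fun T hT => ?_⟩
  have hT0 : 0 < T := by linarith
  rw [av_eq _ hT0.le, av_eq _ hT0.le, ← mul_sub, abs_mul, abs_of_pos (inv_pos.2 hT0)]
  have e1 : ((⌊T⌋₊ : ℝ) + 1) ^ (1 - η) ≤ (2 * T) ^ (1 - η) := by
    refine Real.rpow_le_rpow (by positivity) ?_ (by linarith)
    have := Nat.floor_le hT0.le
    linarith
  calc T⁻¹ * |∑ v ∈ FP k ⌊T⌋₊, ft b κ S v - ∑ v ∈ FP k ⌊T⌋₊, ff b v|
      ≤ T⁻¹ * (A * (2 * T) ^ (1 - η)) := by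
        refine mul_le_mul_of_nonneg_left ?_ (inv_nonneg.2 hT0.le)
        exact (hSA _).trans (mul_le_mul_of_nonneg_left e1 hA)
    _ = A * 2 ^ (1 - η) * T ^ (-η) := by
        rw [Real.mul_rpow (by norm_num) hT0.le]
        have : T ^ (-η) = T⁻¹ * T ^ (1 - η) := by
          rw [← Real.rpow_neg_one, ← Real.rpow_add hT0]
          congr 1
          ring
        rw [this]
        ring

end Pool.Agent.R376.Rnd
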