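import Pool.Agent.R376.RandI

/-!
# Sparse random sets of primes and Euler products of any weight over number fields
-/

set_option autoImplicit false

namespace Pool.Agent.R376.Rnd

open Complex Filter Topology MeasureTheory Metric Finset Polynomial NumberField IsDedekindDomain
  Pool.Agent.W350.Edge Pool.Agent.W350.EdgeV Pool.Agent.W350.EdgeNF Pool.Agent.R385.MC
  Pool.Agent.H921R2.TatePole Pool.Agent.TH958.BV Pool.Agent.R385.PH

variable {k : Type} [Field k] [NumberField k] {N : ℕ} {B : HeightOneSpectrum (𝓞 k) → ℂ[X]}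

/-- `B` are the denominators of an Euler product of weight `w` -/
def IsEulerW (w : ℤ) (N : ℕ) (B : HeightOneSpectrum (𝓞 k) → ℂ[X]) : Prop :=
  ∀ᶠ v in cofinite, ∃ α : Fin N → ℂ,
    (∀ j, ‖α j‖ = (Ideal.absNorm v.asIdeal : ℝ) ^ ((w : ℝ) / 2)) ∧
    ∀ z : ℂ, (B v).eval z = ∏ j, (1 - α j * z)

theorem exists_Pw {w : ℤ} (hB : IsEulerW w N B) : ∃ P₀ : ℕ, ∀ P, P₀ ≤ P →
    N < P ∧ ∀ v : HeightOneSpectrum (𝓞 k), P ≤ nm v → GoodK w N B v := by
  classical
  have h2 : {v : HeightOneSpectrum (𝓞 k) | ¬ ∃ α : Fin N → ℂ,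
      (∀ j, ‖α j‖ = (Ideal.absNorm v.asIdeal : ℝ) ^ ((w : ℝ) / 2)) ∧
      ∀ z : ℂ, (B v).eval z = ∏ j, (1 - α j * z)}.Finite := hB
  refine ⟨(h2.toFinset.sup fun v => nm v) + N + 1, fun P hP => ⟨by omega, fun v hv => ?_⟩⟩
  by_contra h3
  have h4 : v ∈ h2.toFinset := by
    rw [Set.Finite.mem_toFinset]
    rintro ⟨α, hα, he⟩
    exact h3 ⟨α, hα, he⟩
  have h5 : nm v ≤ h2.toFinset.sup fun v => nm v := Finset.le_sup (f := fun v => nm v) h4
  omega

/-- the edge -/
noncomputable def ed (w : ℤ) : ℝ := (w : ℝ) / 2 + 1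

theorem ge_mulw (w : ℤ) (s : ℂ) : I * ge w s = s - ed w := by
  unfold ge ed
  push_cast
  linear_combination (-(s - ((w : ℂ) / 2 + 1))) * Complex.I_mul_I

theorem ge_imw (w : ℤ) (s : ℂ) : (ge w s).im = -(s - ed w).re := by
  have h1 := eg_re w (ge w s)
  rw [eg_ge] at h1
  rw [Complex.sub_re, Complex.ofReal_re]
  unfold ed
  linarith

theorem ge_im_ltw {w : ℤ} {s : ℂ} (hs : ed w < s.re) : (ge w s).im < 0 := by
  rw [ge_imw, Complex.sub_re, Complex.ofReal_re]
  linarith

/-- the decomposition of the term -/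
theorem thinTerm_eqw {w : ℤ} {P : ℕ}
    (hG : ∀ v : HeightOneSpectrum (𝓞 k), P ≤ nm v → GoodK w N B v)
    (κ : ℝ) (S : ℕ → Bool) (s : ℂ) (v : HeightOneSpectrum (𝓞 k)) :
    thinTerm B κ S s v = (if nm v < P then thinTerm B κ S s v else 0) +
      (ww κ S (nm v) : ℂ) * (if (nm v).Prime then fstk w N B P v (ge w s) else 0) := by
  by_cases h : nm v < P
  · rw [if_pos h]
    have h2 : fstk w N B P v (ge w s) = 0 := by
      unfold fstk avk
      rw [dif_neg fun h1 => absurd h1.1 (not_le.2 h)]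
      simp
    rw [h2]
    simp
  · rw [if_neg h, zero_add]
    have hP : P ≤ nm v := not_lt.1 h
    have hg : P ≤ nm v ∧ GoodK w N B v := ⟨hP, hG v hP⟩
    have h3 : fstk w N B P v (ge w s) = -(B v).coeff 1 * (nm v : ℂ) ^ (-s) := by
      unfold fstk avk
      rw [dif_pos hg, first_term' (two_le_nm v), eg_ge, coeff_one hg.2.choose_spec.2]
    unfold thinTerm ww
    have h4 : Ideal.absNorm v.asIdeal = nm v := rfl
    rw [h4]
    by_cases hp : (nm v).Prime
    · by_cases hS : S (nm v) = true
      · rw [if_pos ⟨hp, hS⟩, if_pos hp, if_pos hS, h3]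
        push_cast
        ring
      · rw [if_neg (fun h => hS h.2), if_neg hS]
        simp
    · rw [if_neg (fun h => hp h.1), if_neg hp, mul_zero]

/-- the sum over the places is the sum over the primes -/
theorem sum_placesw {w : ℤ} {κ : ℝ} (h1 : κ ≤ 1) {S : ℕ → Bool} (hS : ∀ δ : ℝ, 0 < δ →
    Summable fun n : ℕ => (if S n = true then (1 : ℝ) else 0) / th κ n * (n : ℝ) ^ (-1 - δ))
    (P : ℕ) {s : ℂ} (hs : ed w < s.re) :
    HasSum (fun v : HeightOneSpectrum (𝓞 k) => (ww κ S (nm v) : ℂ) *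
      (if (nm v).Prime then fstk w N B P v (ge w s) else 0)) (gS κ S (ak w N B P) (s - ed w)) := by
  have hu : 0 < (s - ed w).re := by
    rw [Complex.sub_re, Complex.ofReal_re]
    linarith
  have him : (ge w s).im = -(s - ed w).re := by
    rw [ge_imw]
  have h2 : Summable fun v : HeightOneSpectrum (𝓞 k) => (ww κ S (nm v) : ℂ) *
      (if (nm v).Prime then fstk w N B P v (ge w s) else 0) := by
    have h3 : Summable fun p : Nat.Primes => (N : ℝ) *
        (ww κ S p * ((p : ℕ) : ℝ) ^ (-1 - (s - ed w).re)) :=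
      ((hS _ hu).comp_injective Nat.Primes.coe_nat_injective).mul_left _
    refine Summable.of_norm_bounded (below_summable (k := k) (fun p => ?_) h3) fun v => ?_
    · have := ww_nonneg h1 S (p : ℕ)
      positivity
    · rw [norm_mul, Complex.norm_real, Real.norm_of_nonneg (ww_nonneg h1 S _)]
      by_cases hp : (nm v).Prime
      · have hb : ((below v : ℕ)) = nm v := by
          have : (below v : ℕ) = (nm v).minFac := rfl
          rw [this, hp.minFac_eq]
        rw [if_pos hp, hb]
        have hq0 : (0 : ℝ) < nm v := by exact_mod_cast hN v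
        have h4 : ‖fstk w N B P v (ge w s)‖ ≤ N * (nm v : ℝ) ^ (-1 - (s - ed w).re) := by
          unfold fstk
          rw [norm_mul, norm_div, Complex.norm_natCast, norm_ker, him]
          have h5 : Real.exp (-(s - ed w).re * Real.log (nm v)) = (nm v : ℝ) ^ (-(s - ed w).re) := by
            rw [Real.rpow_def_of_pos hq0, mul_comm]
          have h6 : (nm v : ℝ) ^ (-1 - (s - ed w).re) = (nm v : ℝ)⁻¹ * (nm v : ℝ) ^ (-(s - ed w).re) := by
            rw [← Real.rpow_neg_one, ← Real.rpow_add hq0]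
            congr 1
          rw [h5, h6]
          calc ‖avk w N B P v‖ / nm v * (nm v : ℝ) ^ (-(s - ed w).re) ≤
              N / nm v * (nm v : ℝ) ^ (-(s - ed w).re) := by
                have := norm_avk (w := w) (N := N) (B := B) (P := P) v
                gcongr
            _ = _ := by ring
        calc ww κ S (nm v) * ‖fstk w N B P v (ge w s)‖ ≤
            ww κ S (nm v) * (N * (nm v : ℝ) ^ (-1 - (s - ed w).re)) :=
              mul_le_mul_of_nonneg_left h4 (ww_nonneg h1 S _)
          _ = _ := by ring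
      · rw [if_neg hp, norm_zero, mul_zero]
        have := ww_nonneg (κ := κ) h1 S (below v : ℕ)
        positivity
  have h4 := h2.hasSum.tsum_fiberwise (nm : HeightOneSpectrum (𝓞 k) → ℕ)
  have h5 : (fun c => ∑' b : (nm : HeightOneSpectrum (𝓞 k) → ℕ) ⁻¹' {c},
      (ww κ S (nm (b : HeightOneSpectrum (𝓞 k))) : ℂ) *
        (if (nm (b : HeightOneSpectrum (𝓞 k))).Prime then fstk w N B P b (ge w s) else 0)) =
      fun n => (ww κ S n : ℂ) * pf (ak w N B P) n * en (s - ed w) n := by
    funext n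
    have h6 := grp_mul (k := k) (fun n => (ww κ S n : ℂ))
      (fun v => if (nm v).Prime then fstk w N B P v (ge w s) else 0) n
    rw [grp_fstk (w := w) (N := N) (B := B) (P := P) (ge w s) n, ge_mulw] at h6
    rw [mul_assoc]
    exact h6
  rw [h5] at h4
  have h7 : gS κ S (ak w N B P) (s - ed w) = ∑' v : HeightOneSpectrum (𝓞 k), (ww κ S (nm v) : ℂ) *
      (if (nm v).Prime then fstk w N B P v (ge w s) else 0) := h4.tsum_eq
  rw [h7]
  exact h2.hasSum

/-- **The thinned series and the Euler product.** -/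
theorem thin_mainw {w : ℤ} (hB : IsEulerW w N B) {κ : ℝ} (h0 : 0 < κ) (h1 : κ ≤ 1 / 2) :
    ∀ᵐ S ∂(lawS (th κ)),
      (∀ s : ℂ, ed w < s.re → Summable (thinTerm B κ S s)) ∧
      ∃ (T : Finset (HeightOneSpectrum (𝓞 k))) (R : ℂ → ℂ),
        DifferentiableOn ℂ R {s : ℂ | ed w - κ / 2 < s.re} ∧ (∀ s, R s ≠ 0) ∧
        ∀ s : ℂ, ed w < s.re → LFun₂ B s = (∏ v ∈ T, factor B v s) *
          Complex.exp (∑' v, thinTerm B κ S s v) * R s := by
  obtain ⟨P, hP⟩ := exists_Pw hB
  obtain ⟨hNP, hG⟩ := hP P le_rfl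
  set a : ℕ → ℂ := ak w N B P with ha
  have hbd : ∀ n, ‖a n‖ ≤ N * Module.finrank ℚ k := norm_ak
  filter_upwards [diff_hol h0 (by linarith) hbd, thin_abs (κ := κ) (by linarith)] with S hS1 hS2
  obtain ⟨H, hH, hlim⟩ := hS1
  have hterm := thinTerm_eqw hG κ S
  have hmem : ∀ v : HeightOneSpectrum (𝓞 k), v ∈ SP k P ↔ nm v < P := fun v => by
    unfold SP
    exact mem_FV
  have hfinsum : ∀ s : ℂ, HasSum (fun v : HeightOneSpectrum (𝓞 k) =>
      if nm v < P then thinTerm B κ S s v else 0) (∑ v ∈ SP k P, thinTerm B κ S s v) := by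
    intro s
    have h2 : ∑ v ∈ SP k P, thinTerm B κ S s v =
        ∑ v ∈ SP k P, if nm v < P then thinTerm B κ S s v else 0 :=
      Finset.sum_congr rfl fun v hv => (if_pos ((hmem v).1 hv)).symm
    rw [h2]
    exact hasSum_sum_of_ne_finset_zero fun v hv => if_neg fun h => hv ((hmem v).2 h)
  have hthin : ∀ s : ℂ, ed w < s.re → HasSum (thinTerm B κ S s)
      (∑ v ∈ SP k P, thinTerm B κ S s v + gS κ S a (s - ed w)) := by
    intro s hs
    refine ((hfinsum s).add (sum_placesw (w := w) (κ := κ) (by linarith) hS2 P hs)).congr_fun fun v => ?_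
    exact hterm s v
  have hHu : ∀ u : ℂ, 0 < u.re → H u = gS κ S a u - ∑' n : ℕ, pf a n * en u n := by
    intro u hu
    have h3 := ((gS_summable (by linarith) hS2 hbd hu).hasSum.sub
      (g_summable hbd hu).hasSum).tendsto_sum_nat
    refine tendsto_nhds_unique (hlim u (by linarith)) (h3.congr fun M => ?_)
    refine Finset.sum_congr rfl fun n _ => ?_
    rw [cen_eq]
    push_cast
    ring
  refine ⟨fun s hs => (hthin s hs).summable, SP k P, fun s => Complex.exp
    (Ck w N B P (ge w s) - H (s - ed w) - ∑ v ∈ SP k P, thinTerm B κ S s v), ?_,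
    fun s => Complex.exp_ne_zero _, fun s hs => ?_⟩
  · refine DifferentiableOn.cexp ?_
    refine (DifferentiableOn.sub ?_ ?_).sub ?_
    · have h2 : Differentiable ℂ (ge w) := by
        unfold ge
        fun_prop
      refine (Ck_diff (w := w) (N := N) (B := B) (P := P)).comp h2.differentiableOn ?_
      intro s hs
      have hs' : ed w - κ / 2 < s.re := hs
      show (ge w s).im < 1 / 4
      rw [ge_imw]
      rw [Complex.sub_re, Complex.ofReal_re]
      linarith
    · refine hH.comp (by fun_prop) ?_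
      intro s hs
      have hs' : ed w - κ / 2 < s.re := hs
      show -(κ / 2) < (s - ed w).re
      rw [Complex.sub_re, Complex.ofReal_re]
      linarith
    · refine DifferentiableOn.fun_sum fun v _ => ?_
      unfold thinTerm
      split_ifs
      · have hq0 : ((Ideal.absNorm v.asIdeal : ℕ) : ℂ) ≠ 0 := by
          have := hN v
          have h3 : Ideal.absNorm v.asIdeal = nm v := rfl
          rw [h3]
          exact_mod_cast (by omega : nm v ≠ 0)
        refine Differentiable.differentiableOn ?_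
        exact (Differentiable.const_cpow (by fun_prop) (Or.inl hq0)).const_mul _
      · exact differentiableOn_const _
  · have h2 := (euler_k hG (ge_im_ltw hs)).tprod_eq
    have h3 : LFun₂ B s = (∏ v ∈ SP k P, factor B v s) *
        Complex.exp (Ck w N B P (ge w s) + gg a (ge w s)) := by
      have h4 : eg w (ge w s) = s := eg_ge w s
      rw [h4] at h2
      exact h2
    have hu : 0 < (s - ed w).re := by
      rw [Complex.sub_re, Complex.ofReal_re]
      linarith
    rw [h3, (hthin s hs).tsum_eq, mul_assoc, ← Complex.exp_add]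
    congr 2
    rw [gg_eq, ge_mulw, hHu (s - ed w) hu]
    ring

end Pool.Agent.R376.Rnd
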