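import Mathlib

/-!
# Orders at a point of the edge and the growth of logarithms
-/

set_option autoImplicit false

open Filter Topology

namespace Pool.Agent.R376.Rnd

/-- `L`, given on the right of `s₀`, has the order `r` at `s₀` -/
def OrdAt (L : ℂ → ℂ) (s₀ : ℝ) (r : ℤ) : Prop :=
  ∃ F : ℂ → ℂ, MeromorphicAt F s₀ ∧ meromorphicOrderAt F s₀ = r ∧
    ∀ᶠ s in 𝓝 (s₀ : ℂ), s₀ < s.re → F s = L s

variable {s₀ : ℝ}

theorem ord_zero {G : ℂ → ℂ} (hG : AnalyticAt ℂ G s₀) (hG0 : G s₀ ≠ 0) :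
    meromorphicOrderAt G s₀ = 0 := by
  rw [hG.meromorphicOrderAt_eq, hG.analyticOrderAt_eq_zero.2 hG0]
  rfl

theorem ord_mul {L T G : ℂ → ℂ} (hG : AnalyticAt ℂ G s₀) (hG0 : G s₀ ≠ 0)
    (h : ∀ᶠ s in 𝓝 (s₀ : ℂ), s₀ < s.re → L s = T s * G s) {r : ℤ} (hT : OrdAt T s₀ r) :
    OrdAt L s₀ r := by
  obtain ⟨F, hF, hFo, hFe⟩ := hT
  refine ⟨F * G, hF.mul hG.meromorphicAt, ?_, ?_⟩
  · rw [meromorphicOrderAt_mul hF hG.meromorphicAt, hFo, ord_zero hG hG0, add_zero]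
  · filter_upwards [h, hFe] with s h1 h2 hs
    rw [Pi.mul_apply, h2 hs, h1 hs]

theorem ord_iff {L T G : ℂ → ℂ} (hG : AnalyticAt ℂ G s₀) (hG0 : G s₀ ≠ 0)
    (h : ∀ᶠ s in 𝓝 (s₀ : ℂ), s₀ < s.re → L s = T s * G s) (r : ℤ) :
    OrdAt L s₀ r ↔ OrdAt T s₀ r := by
  refine ⟨fun hL => ?_, ord_mul hG hG0 h⟩
  refine ord_mul (hG.inv hG0) (inv_ne_zero hG0) ?_ hL
  have h1 : ∀ᶠ s in 𝓝 (s₀ : ℂ), G s ≠ 0 := hG.continuousAt.eventually_ne hG0
  filter_upwards [h, h1] with s h2 h3 hs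
  rw [h2 hs, Pi.inv_apply, mul_assoc, mul_inv_cancel₀ h3, mul_one]

/-- the growth of the logarithm -/
theorem ord_growth {t : ℂ → ℂ} {r : ℤ} (h : OrdAt (fun s => Complex.exp (t s)) s₀ r) :
    Tendsto (fun ε : ℝ => (t (s₀ + ε)).re / Real.log ε) (𝓝[>] 0) (𝓝 (r : ℝ)) := by
  obtain ⟨F, hF, hFo, hFe⟩ := h
  obtain ⟨g, hg, hg0, hge⟩ := (meromorphicOrderAt_eq_int_iff hF).1 hFo
  have hmap : Tendsto (fun ε : ℝ => (s₀ + ε : ℂ)) (𝓝[>] 0) (𝓝[≠] (s₀ : ℂ)) := by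
    refine tendsto_nhdsWithin_iff.2 ⟨?_, ?_⟩
    · have h1 : Continuous fun ε : ℝ => (s₀ + ε : ℂ) := by fun_prop
      have h2 := (h1.tendsto 0).mono_left (nhdsWithin_le_nhds (s := Set.Ioi 0))
      simpa using h2
    · filter_upwards [self_mem_nhdsWithin] with ε hε
      have hε' : (0 : ℝ) < ε := hε
      intro h3
      have h4 : (ε : ℂ) = 0 := by
        have h5 : (s₀ + ε : ℂ) = s₀ := h3
        linear_combination h5
      exact hε'.ne' (by exact_mod_cast h4)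
  have hmap' : Tendsto (fun ε : ℝ => (s₀ + ε : ℂ)) (𝓝[>] 0) (𝓝 (s₀ : ℂ)) :=
    hmap.mono_right nhdsWithin_le_nhds
  have hlogg : Tendsto (fun ε : ℝ => Real.log ‖g (s₀ + ε)‖) (𝓝[>] 0)
      (𝓝 (Real.log ‖g s₀‖)) := by
    have h1 : ContinuousAt (fun z => Real.log ‖g z‖) (s₀ : ℂ) :=
      (hg.continuousAt.norm).log (norm_ne_zero_iff.2 hg0)
    exact h1.tendsto.comp hmap'
  have hloge : Tendsto (fun ε : ℝ => Real.log ε) (𝓝[>] 0) atBot := Real.tendsto_log_nhdsGT_zero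
  have h1 : Tendsto (fun ε : ℝ => (r : ℝ) + Real.log ‖g (s₀ + ε)‖ / Real.log ε) (𝓝[>] 0)
      (𝓝 (r + 0)) := tendsto_const_nhds.add (hlogg.div_atBot hloge)
  rw [add_zero] at h1
  refine h1.congr' ?_
  filter_upwards [hmap.eventually hge, hmap'.eventually hFe, self_mem_nhdsWithin,
    hloge.eventually (eventually_lt_atBot 0)] with ε h2 h3 hε hl
  have hε' : (0 : ℝ) < ε := hε
  have h4 := h3 (by simpa using hε')
  rw [h2] at h4
  have h5 := congrArg (fun z : ℂ => Real.log ‖z‖) h4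
  rw [Complex.norm_exp, Real.log_exp, norm_smul, Real.log_mul, norm_zpow, Real.log_zpow] at h5
  · have h6 : ‖(s₀ + ε : ℂ) - s₀‖ = ε := by
      have : (s₀ + ε : ℂ) - s₀ = (ε : ℂ) := by ring
      rw [this, Complex.norm_real, Real.norm_of_nonneg hε'.le]
    rw [h6] at h5
    rw [← h5]
    rw [add_div]
    congr 1
    rw [eq_div_iff hl.ne]
  · have h6 : (s₀ + ε : ℂ) - s₀ ≠ 0 := by
      have : (s₀ + ε : ℂ) - s₀ = (ε : ℂ) := by ring
      rw [this]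
      exact_mod_cast hε'.ne'
    exact norm_ne_zero_iff.2 (zpow_ne_zero _ h6)
  · intro h6
    rw [norm_eq_zero] at h6
    rw [h6, smul_zero] at h4
    exact Complex.exp_ne_zero _ h4.symm

end Pool.Agent.R376.Rnd
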