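import Pool.Agent.R376.RandK

/-!
# Sampling relative densities of sets of primes on a very thin random set
-/

set_option autoImplicit false

namespace Pool.Agent.R376.Samp

open Filter Topology MeasureTheory Finset Pool.Agent.R376.Rnd

/-- indicator of a set -/
noncomputable def ind (A : Set ℕ) (n : ℕ) : ℝ := A.indicator 1 n

theorem ind_nonneg (A : Set ℕ) (n : ℕ) : 0 ≤ ind A n := by
  unfold ind; exact Set.indicator_nonneg (fun _ _ => zero_le_one) n

theorem ind_le_one (A : Set ℕ) (n : ℕ) : ind A n ≤ 1 := by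
  unfold ind
  by_cases h : n ∈ A
  · rw [Set.indicator_of_mem h]; rfl
  · rw [Set.indicator_of_notMem h]; exact zero_le_one

theorem ind_mono {A B : Set ℕ} (h : A ⊆ B) (n : ℕ) : ind A n ≤ ind B n := by
  unfold ind
  exact Set.indicator_le_indicator_of_subset h (fun _ => zero_le_one) n

/-- the set of the primes -/
def PP : Set ℕ := {p | p.Prime}

/-- the count -/
noncomputable def cn (A : Set ℕ) (N : ℕ) : ℝ := ∑ n ∈ range (N + 1), ind A n

/-- the reweighted count over `S` -/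
noncomputable def wn (κ : ℝ) (S : ℕ → Bool) (A : Set ℕ) (N : ℕ) : ℝ :=
  ∑ n ∈ range (N + 1), (if S n = true then 1 else 0) / th κ n * ind A n

theorem cn_nonneg (A : Set ℕ) (N : ℕ) : 0 ≤ cn A N := sum_nonneg fun _ _ => ind_nonneg A _

theorem cn_mono {A B : Set ℕ} (h : A ⊆ B) (N : ℕ) : cn A N ≤ cn B N :=
  sum_le_sum fun _ _ => ind_mono h _

theorem wn_nonneg {κ : ℝ} (h1 : κ ≤ 1) (S : ℕ → Bool) (A : Set ℕ) (N : ℕ) : 0 ≤ wn κ S A N := by
  refine sum_nonneg fun n _ => mul_nonneg (div_nonneg ?_ (th_mem h1 n).1.le) (ind_nonneg A _)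
  split_ifs <;> norm_num

theorem wn_mono {κ : ℝ} (h1 : κ ≤ 1) (S : ℕ → Bool) {A B : Set ℕ} (h : A ⊆ B) (N : ℕ) :
    wn κ S A N ≤ wn κ S B N := by
  refine sum_le_sum fun n _ => mul_le_mul_of_nonneg_left (ind_mono h _)
    (div_nonneg ?_ (th_mem h1 n).1.le)
  split_ifs <;> norm_num

theorem wn_sub (κ : ℝ) (S : ℕ → Bool) (A : Set ℕ) (N : ℕ) :
    wn κ S A N - cn A N = ∑ n ∈ range (N + 1), cen (th κ) S n * ind A n := by
  unfold wn cn cen
  rw [← sum_sub_distrib]
  exact sum_congr rfl fun n _ => by ring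

/-- noise -/
theorem noise {κ : ℝ} (h0 : 0 < κ) (h1 : κ ≤ 1) {A : Set ℕ} (hA : A ⊆ PP) :
    ∀ᵐ S ∂(lawS (th κ)), ∀ η : ℝ, η < κ / 2 → ∃ K : ℝ, 0 ≤ K ∧ ∀ N : ℕ,
      |wn κ S A N - cn A N| ≤ K * ((N : ℝ) + 1) ^ (1 - η) := by
  have h2 : ∀ n : ℕ, |ind A n| ≤ (1 / Real.log 2) * Real.log n := by
    intro n
    have hl2 : 0 < Real.log 2 := Real.log_pos (by norm_num)
    by_cases h : n ∈ A
    · have hp : n.Prime := hA h
      have h3 : Real.log 2 ≤ Real.log n :=
        Real.log_le_log (by norm_num) (by exact_mod_cast hp.two_le)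
      rw [abs_of_nonneg (ind_nonneg A n)]
      refine (ind_le_one A n).trans ?_
      rw [div_mul_eq_mul_div, one_mul, le_div_iff₀ hl2, one_mul]
      exact h3
    · have : ind A n = 0 := Set.indicator_of_notMem h _
      rw [this, abs_zero]
      exact mul_nonneg (by positivity) (Real.log_natCast_nonneg n)
  refine (avg_rand h0 h1 h2).mono fun S hS η hη => ?_
  obtain ⟨K, hK, h⟩ := hS η hη
  refine ⟨K, hK, fun N => ?_⟩
  rw [wn_sub]
  exact h N

theorem cn_PP (N : ℕ) : cn PP N = (Nat.primeCounting N : ℝ) := by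
  unfold cn ind
  rw [Nat.primeCounting, Nat.primeCounting', Nat.count_eq_card_filter_range, card_filter]
  push_cast
  refine sum_congr rfl fun n _ => ?_
  by_cases h : n.Prime
  · rw [Set.indicator_of_mem (show n ∈ PP from h), if_pos h]; rfl
  · rw [Set.indicator_of_notMem (show n ∉ PP from h), if_neg h]

/-- Chebyshev's lower bound -/
theorem cheb_low {N : ℕ} (hN : 2 ≤ N) : (9 / 100 : ℝ) * N ≤ cn PP N * Real.log N := by
  rw [cn_PP]
  have hN' : (2 : ℝ) ≤ N := by exact_mod_cast hN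
  have hl2 := Real.log_two_gt_d9
  have hlog : Real.log 2 ≤ Real.log N := Real.log_le_log (by norm_num) hN'
  have hlp : 0 < Real.log N := by linarith
  rcases le_or_gt 6 N with h | h
  · have h6 : (6 : ℝ) ≤ N := by exact_mod_cast h
    have h1 := Chebyshev.pi_ge N
    rw [div_le_iff₀ hlp] at h1
    have h2 : Real.log ((N : ℝ) + 1) ≤ ((N : ℝ) + 1) / 2 := by
      have h3 := Real.log_le_sub_one_of_pos (show 0 < ((N : ℝ) + 1) / 2 by linarith)
      rw [Real.log_div (by linarith) (by norm_num)] at h3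
      have := Real.log_two_lt_d9
      linarith
    have h4 : (N : ℝ) * 0.6931471803 ≤ N * Real.log 2 :=
      mul_le_mul_of_nonneg_left hl2.le (by linarith)
    nlinarith
  · have h5 : (N : ℝ) ≤ 5 := by exact_mod_cast (show N ≤ 5 by omega)
    have hp : 1 ≤ Nat.primeCounting N := by
      have h1 : Nat.primeCounting 2 ≤ Nat.primeCounting N := Nat.monotone_primeCounting hN
      have h2 : Nat.primeCounting 2 = 1 := by decide
      omega
    have hp' : (1 : ℝ) ≤ Nat.primeCounting N := by exact_mod_cast hp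
    calc (9 / 100 : ℝ) * N ≤ 9 / 100 * 5 := by linarith
      _ ≤ 1 * Real.log 2 := by linarith
      _ ≤ (Nat.primeCounting N : ℝ) * Real.log N :=
        mul_le_mul hp' hlog (by linarith) (by linarith)

theorem cnPP_pos {N : ℕ} (hN : 2 ≤ N) : 0 < cn PP N := by
  have h := cheb_low hN
  have hN' : (2 : ℝ) ≤ N := by exact_mod_cast hN
  have hl : 0 < Real.log N := Real.log_pos (by linarith)
  by_contra hc
  have h2 := cn_nonneg PP N
  have h3 : cn PP N = 0 := le_antisymm (not_lt.1 hc) h2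
  rw [h3] at h
  linarith

/-- the proportion in the primes, and in the primes of `S` (reweighted) -/
noncomputable def pr (A : Set ℕ) (N : ℕ) : ℝ := cn A N / cn PP N

noncomputable def wpr (κ : ℝ) (S : ℕ → Bool) (A : Set ℕ) (N : ℕ) : ℝ := wn κ S A N / wn κ S PP N

theorem ratio {a b a' b' : ℝ} (ha : 0 ≤ a) (hab : a ≤ b) (hb : 0 < b) (ha' : 0 ≤ a')
    (hab' : a' ≤ b') : |a' / b' - a / b| ≤ 2 * (|a' - a| + |b' - b|) / b := by
  have h1 : a / b ≤ 1 := (div_le_one hb).2 hab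
  have h2 : 0 ≤ a / b := div_nonneg ha hb.le
  have h3 : a' / b' ≤ 1 := div_le_one_of_le₀ hab' (ha'.trans hab')
  have h4 : 0 ≤ a' / b' := div_nonneg ha' (ha'.trans hab')
  rcases le_or_gt (b / 2) b' with h | h
  · have hb' : 0 < b' := by linarith
    have e : a' / b' - a / b = ((a' - a) + (a / b) * (b - b')) / b' := by
      field_simp
      ring
    rw [e, abs_div, abs_of_pos hb', div_le_div_iff₀ hb' hb]
    have h5 : |(a' - a) + (a / b) * (b - b')| ≤ |a' - a| + |b' - b| := by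
      refine (abs_add_le _ _).trans ?_
      rw [abs_mul, abs_of_nonneg h2, abs_sub_comm b b']
      nlinarith [abs_nonneg (b' - b)]
    have h6 : 0 ≤ |a' - a| + |b' - b| := by positivity
    calc |(a' - a) + (a / b) * (b - b')| * b ≤ (|a' - a| + |b' - b|) * b :=
          mul_le_mul_of_nonneg_right h5 hb.le
      _ ≤ (|a' - a| + |b' - b|) * (2 * b') := mul_le_mul_of_nonneg_left (by linarith) h6
      _ = 2 * (|a' - a| + |b' - b|) * b' := by ring
  · have h5 : |a' / b' - a / b| ≤ 1 := by rw [abs_le]; constructor <;> linarith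
    refine h5.trans ?_
    rw [le_div_iff₀ hb, one_mul]
    have h6 : b / 2 ≤ |b' - b| := by
      rw [abs_sub_comm]
      exact (show b / 2 ≤ b - b' by linarith).trans (le_abs_self _)
    nlinarith [abs_nonneg (a' - a)]

/-- **the reweighted proportion over `S`, with a rate** -/
theorem wpr_main {κ : ℝ} (h0 : 0 < κ) (h1 : κ ≤ 1) {A : Set ℕ} (hA : A ⊆ PP) :
    ∀ᵐ S ∂(lawS (th κ)), ∀ η : ℝ, 0 < η → η < κ / 2 → ∃ K : ℝ, ∀ N : ℕ, 2 ≤ N →
      |wpr κ S A N - pr A N| ≤ K * (N : ℝ) ^ (-η) := by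
  filter_upwards [noise h0 h1 hA, noise h0 h1 (subset_refl PP)] with S hS1 hS2 η hη0 hη
  set η' : ℝ := (η + κ / 2) / 2 with hη'
  have e1 : η' < κ / 2 := by rw [hη']; linarith
  have e2 : η < η' := by rw [hη']; linarith
  obtain ⟨K1, hK1, a1⟩ := hS1 η' e1
  obtain ⟨K2, hK2, a2⟩ := hS2 η' e1
  refine ⟨2 * (K1 + K2) * 2 / (9 / 100) / (η' - η), fun N hN => ?_⟩
  have hN' : (2 : ℝ) ≤ N := by exact_mod_cast hN
  have hN0 : (0 : ℝ) < N := by linarith
  have hpos := cnPP_pos hN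
  refine (ratio (cn_nonneg A N) (cn_mono hA N) hpos (wn_nonneg h1 S A N)
    (wn_mono h1 S hA N)).trans ?_
  have hlog : 0 < Real.log N := Real.log_pos (by linarith)
  have b1 : ((N : ℝ) + 1) ^ (1 - η') ≤ 2 * (N : ℝ) ^ (1 - η') := by
    calc ((N : ℝ) + 1) ^ (1 - η') ≤ (2 * (N : ℝ)) ^ (1 - η') :=
          Real.rpow_le_rpow (by linarith) (by linarith) (by linarith)
      _ = 2 ^ (1 - η') * (N : ℝ) ^ (1 - η') := Real.mul_rpow (by norm_num) hN0.le
      _ ≤ 2 ^ (1 : ℝ) * (N : ℝ) ^ (1 - η') := by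
          refine mul_le_mul_of_nonneg_right ?_ (by positivity)
          exact Real.rpow_le_rpow_of_exponent_le (by norm_num) (by linarith)
      _ = 2 * (N : ℝ) ^ (1 - η') := by rw [Real.rpow_one]
  have b2 : |wn κ S A N - cn A N| + |wn κ S PP N - cn PP N| ≤
      (K1 + K2) * (2 * (N : ℝ) ^ (1 - η')) := by
    have c1 := (a1 N).trans (mul_le_mul_of_nonneg_left b1 hK1)
    have c2 := (a2 N).trans (mul_le_mul_of_nonneg_left b1 hK2)
    linarith
  have b3 := cheb_low hN
  have b4 : Real.log N ≤ (N : ℝ) ^ (η' - η) / (η' - η) :=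
    Real.log_le_rpow_div hN0.le (by linarith)
  rw [div_le_iff₀ hpos]
  have b5 : (9 / 100 : ℝ) * N ≤ cn PP N * ((N : ℝ) ^ (η' - η) / (η' - η)) :=
    b3.trans (mul_le_mul_of_nonneg_left b4 hpos.le)
  have hd : 0 < η' - η := by linarith
  have hNη : 0 < (N : ℝ) ^ (-η') := Real.rpow_pos_of_pos hN0 _
  have b6 : (N : ℝ) ^ (1 - η') = N * (N : ℝ) ^ (-η') := by
    rw [sub_eq_add_neg, Real.rpow_add hN0, Real.rpow_one]
  have b7 : (N : ℝ) ^ (η' - η) * (N : ℝ) ^ (-η') = (N : ℝ) ^ (-η) := by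
    rw [← Real.rpow_add hN0]; congr 1; ring
  calc 2 * (|wn κ S A N - cn A N| + |wn κ S PP N - cn PP N|)
      ≤ 2 * ((K1 + K2) * (2 * (N : ℝ) ^ (1 - η'))) := by linarith
    _ = (2 * (K1 + K2) * 2 / (9 / 100)) * ((9 / 100 * N) * (N : ℝ) ^ (-η')) := by
        rw [b6]; ring
    _ ≤ (2 * (K1 + K2) * 2 / (9 / 100)) *
        ((cn PP N * ((N : ℝ) ^ (η' - η) / (η' - η))) * (N : ℝ) ^ (-η')) := by
        refine mul_le_mul_of_nonneg_left (mul_le_mul_of_nonneg_right b5 hNη.le) (by positivity)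
    _ = 2 * (K1 + K2) * 2 / (9 / 100) / (η' - η) *
        ((N : ℝ) ^ (η' - η) * (N : ℝ) ^ (-η')) * cn PP N := by
        field_simp
    _ = _ := by rw [b7]

end Pool.Agent.R376.Samp
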