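import Pool.Agent.R376.SampA

/-!
# Sampling relative densities of sets of primes on a very thin random set: plain counts
-/

set_option autoImplicit false

namespace Pool.Agent.R376.Samp

open Filter Topology MeasureTheory Finset Pool.Agent.R376.Rnd

theorem th_sum {κ : ℝ} (h0 : 0 < κ) (h1 : κ ≤ 1) :
    ∀ N : ℕ, ∑ n ∈ Finset.range (N + 1), th κ n ≤ 1 / κ * ((N : ℝ) + 1) ^ κ := by
  intro N
  induction N with
  | zero =>
    rw [zero_add, Finset.sum_range_one]
    unfold th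
    rw [Nat.cast_zero, zero_add, Real.one_rpow, Real.one_rpow, mul_one, le_div_iff₀ h0]
    linarith
  | succ N ih =>
    rw [Finset.sum_range_succ]
    refine (add_le_add_left ih _).trans ?_
    -- concavity: `v^κ - u^κ ≥ κ v^(κ-1) (v - u)`
    set v : ℝ := ((N + 1 : ℕ) : ℝ) + 1 with hv
    have hv0 : 0 < v := by positivity
    have hu : (N : ℝ) + 1 = v - 1 := by
      rw [hv]
      push_cast
      ring
    have hv1 : 1 ≤ v - 1 := by
      rw [← hu]
      have : (0 : ℝ) ≤ N := Nat.cast_nonneg N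
      linarith
    rw [hu]
    unfold th
    rw [← hv]
    have e1 : (v - 1) ^ κ ≤ v ^ κ - κ * v ^ (κ - 1) := by
      have f1 : (v - 1) ^ κ = v ^ κ * (1 + (-1 / v)) ^ κ := by
        rw [← Real.mul_rpow hv0.le]
        · congr 1
          field_simp
          ring
        · have : 1 / v ≤ 1 := by
            rw [div_le_one hv0]
            linarith
          have h5 : -1 / v = -(1 / v) := by ring
          rw [h5]
          linarith
      have f2 : (1 + (-1 / v)) ^ κ ≤ 1 + κ * (-1 / v) := by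
        apply _root_.rpow_one_add_le_one_add_mul_self _ h0.le h1
        rw [le_div_iff₀ hv0]
        linarith
      have f3 : v ^ (κ - 1) = v ^ κ / v := by
        rw [Real.rpow_sub hv0, Real.rpow_one]
      rw [f1, f3]
      calc v ^ κ * (1 + (-1 / v)) ^ κ ≤ v ^ κ * (1 + κ * (-1 / v)) := by gcongr
        _ = _ := by ring
    have e2 : 1 / κ * (v - 1) ^ κ ≤ 1 / κ * (v ^ κ - κ * v ^ (κ - 1)) := by gcongr
    have e3 : 1 / κ * (v ^ κ - κ * v ^ (κ - 1)) = 1 / κ * v ^ κ - v ^ (κ - 1) := by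
      field_simp
    linarith

theorem th_anti {κ : ℝ} (h1 : κ ≤ 1) : Antitone (th κ) := by
  intro m n h
  have hm : (m : ℝ) ≤ n := by exact_mod_cast h
  exact Real.rpow_le_rpow_of_nonpos (by positivity) (by linarith) (by linarith)

/-- partial sums against an antitone weight -/
theorem anti {d v : ℕ → ℝ} (hv : Antitone v) (hv0 : ∀ n, 0 ≤ v n)
    (hd : ∀ n, 0 ≤ ∑ k ∈ range (n + 1), d k) (N : ℕ) :
    (∑ k ∈ range (N + 1), d k) * v N ≤ ∑ k ∈ range (N + 1), d k * v k := by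
  induction N with
  | zero => simp
  | succ N ih =>
    rw [sum_range_succ (fun k => d k * v k), sum_range_succ d (N + 1), add_mul]
    have h2 : (∑ k ∈ range (N + 1), d k) * v (N + 1) ≤ (∑ k ∈ range (N + 1), d k) * v N :=
      mul_le_mul_of_nonneg_left (hv (Nat.le_succ N)) (hd N)
    linarith

theorem anti_nonneg {d v : ℕ → ℝ} (hv : Antitone v) (hv0 : ∀ n, 0 ≤ v n)
    (hd : ∀ n, 0 ≤ ∑ k ∈ range (n + 1), d k) (N : ℕ) : 0 ≤ ∑ k ∈ range (N + 1), d k * v k :=
  (mul_nonneg (hd N) (hv0 N)).trans (anti hv hv0 hd N)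

theorem anti_abs {e f v : ℕ → ℝ} (hv : Antitone v) (hv0 : ∀ n, 0 ≤ v n)
    (h : ∀ n, |∑ k ∈ range (n + 1), e k| ≤ ∑ k ∈ range (n + 1), f k) (N : ℕ) :
    |∑ k ∈ range (N + 1), e k * v k| ≤ ∑ k ∈ range (N + 1), f k * v k := by
  rw [abs_le]
  constructor
  · have := anti_nonneg (d := fun k => f k + e k) hv hv0 (fun n => by
      rw [sum_add_distrib]
      have := (abs_le.1 (h n)).1
      linarith) N
    simp only [add_mul, sum_add_distrib] at this
    linarith
  · have := anti_nonneg (d := fun k => f k - e k) hv hv0 (fun n => by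
      rw [sum_sub_distrib]
      have := (abs_le.1 (h n)).2
      linarith) N
    simp only [sub_mul, sum_sub_distrib] at this
    linarith

/-- partial sums against a monotone weight -/
theorem mono_abs {e u : ℕ → ℝ} (hu : Monotone u) (hu0 : ∀ n, 0 ≤ u n) {G : ℝ} (N : ℕ)
    (h : ∀ n ≤ N, |∑ k ∈ range (n + 1), e k| ≤ G) :
    |∑ k ∈ range (N + 1), e k * u k| ≤ 2 * G * u N := by
  have hG : 0 ≤ G := (abs_nonneg _).trans (h 0 (Nat.zero_le N))
  rw [abel]
  have h1 : |(∑ n ∈ range (N + 1), e n) * u N| ≤ G * u N := by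
    rw [abs_mul, abs_of_nonneg (hu0 N)]
    exact mul_le_mul_of_nonneg_right (h N le_rfl) (hu0 N)
  have h2 : |∑ n ∈ range N, (∑ k ∈ range (n + 1), e k) * (u n - u (n + 1))| ≤ G * u N := by
    refine (abs_sum_le_sum_abs _ _).trans ?_
    have h3 : ∀ n ∈ range N, |(∑ k ∈ range (n + 1), e k) * (u n - u (n + 1))| ≤
        G * (u (n + 1) - u n) := by
      intro n hn
      rw [abs_mul, abs_sub_comm (u n), abs_of_nonneg (sub_nonneg.2 (hu (Nat.le_succ n)))]
      exact mul_le_mul_of_nonneg_right (h n (mem_range.1 hn).le)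
        (sub_nonneg.2 (hu (Nat.le_succ n)))
    refine (sum_le_sum h3).trans ?_
    rw [← mul_sum, sum_range_sub]
    exact mul_le_mul_of_nonneg_left (by linarith [hu0 0]) hG
  calc _ ≤ _ := abs_add_le _ _
    _ ≤ 2 * G * u N := by linarith

/-- the plain count over `S` -/
noncomputable def sn (S : ℕ → Bool) (A : Set ℕ) (N : ℕ) : ℝ :=
  ∑ n ∈ range (N + 1), (if S n = true then 1 else 0) * ind A n

theorem sI_nonneg (S : ℕ → Bool) (n : ℕ) : (0 : ℝ) ≤ if S n = true then 1 else 0 := by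
  split_ifs <;> norm_num

theorem sn_nonneg (S : ℕ → Bool) (A : Set ℕ) (N : ℕ) : 0 ≤ sn S A N :=
  sum_nonneg fun n _ => mul_nonneg (sI_nonneg S n) (ind_nonneg A n)

theorem sn_le (S : ℕ → Bool) (A : Set ℕ) {m n : ℕ} (h : m ≤ n) : sn S A m ≤ sn S A n :=
  sum_le_sum_of_subset_of_nonneg (range_subset_range.2 (by omega))
    fun n _ _ => mul_nonneg (sI_nonneg S n) (ind_nonneg A n)

/-- the plain proportion over `S` -/
noncomputable def spr (S : ℕ → Bool) (A : Set ℕ) (N : ℕ) : ℝ := sn S A N / sn S PP N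

theorem pi_up {n : ℕ} (hn : 2 ≤ n) : cn PP n * Real.log n ≤ 6 * n := by
  have hn' : (2 : ℝ) ≤ n := by exact_mod_cast hn
  have hn0 : (0 : ℝ) < n := by linarith
  have h1 := Chebyshev.pi_le_log4_mul_div (x := (n : ℝ)) (by linarith)
  rw [Nat.floor_natCast] at h1
  rw [cn_PP]
  have hl : 0 < Real.log n := Real.log_pos (by linarith)
  have hs : Real.log √(n : ℝ) = Real.log n / 2 := Real.log_sqrt hn0.le
  rw [hs] at h1
  have h2 : Real.log n ≤ 2 * √(n : ℝ) := by
    have := Real.log_le_rpow_div hn0.le (show (0 : ℝ) < 1 / 2 by norm_num)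
    rw [← Real.sqrt_eq_rpow] at this
    linarith
  have h4 : Real.log 4 ≤ 2 := by
    have : Real.log 4 = 2 * Real.log 2 := by
      rw [show (4 : ℝ) = 2 ^ 2 by norm_num, Real.log_pow]; norm_num
    rw [this]
    have := Real.log_two_lt_d9
    linarith
  have h5 : √(n : ℝ) * Real.log n ≤ 2 * n := by
    have h6 : √(n : ℝ) * √(n : ℝ) = n := Real.mul_self_sqrt hn0.le
    nlinarith [Real.sqrt_nonneg (n : ℝ)]
  calc (Nat.primeCounting n : ℝ) * Real.log n
      ≤ (Real.log 4 * n / (Real.log n / 2) + √(n : ℝ)) * Real.log n :=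
        mul_le_mul_of_nonneg_right h1 hl.le
    _ = 2 * Real.log 4 * n + √(n : ℝ) * Real.log n := by
        field_simp
    _ ≤ 6 * n := by nlinarith

/-- the properties of the sampled set which are used -/
structure Good (κ : ℝ) (S : ℕ → Bool) : Prop where
  card : ∃ C : ℝ, ∀ N : ℕ,
    (((range (N + 1)).filter fun n => S n = true).card : ℝ) ≤ C * ((N : ℝ) + 1) ^ κ
  noise : ∀ η : ℝ, η < κ / 2 → ∃ K : ℝ, 0 ≤ K ∧ ∀ N : ℕ,
      |wn κ S PP N - cn PP N| ≤ K * ((N : ℝ) + 1) ^ (1 - η)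

theorem good {κ : ℝ} (h0 : 0 < κ) (h1 : κ ≤ 1) : ∀ᵐ S ∂(lawS (th κ)), Good κ S := by
  filter_upwards [thin_card h0 h1, Samp.noise h0 h1 (subset_refl PP)] with S a b
  exact ⟨a, b⟩

/-- upper bound for the reweighted count -/
theorem wn_up {κ : ℝ} (h0 : 0 < κ) {S : ℕ → Bool} (hS : Good κ S) :
    ∃ C : ℝ, 0 ≤ C ∧ ∀ n : ℕ, 2 ≤ n → wn κ S PP n * Real.log n ≤ C * ((n : ℝ) + 1) := by
  obtain ⟨K, hK, h⟩ := hS.noise (κ / 4) (by linarith)
  refine ⟨6 + K * (1 / (κ / 4)), by positivity, fun n hn => ?_⟩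
  have hn' : (2 : ℝ) ≤ n := by exact_mod_cast hn
  have hn1 : (0 : ℝ) < (n : ℝ) + 1 := by linarith
  have hl : 0 < Real.log n := Real.log_pos (by linarith)
  have e1 : wn κ S PP n ≤ cn PP n + K * ((n : ℝ) + 1) ^ (1 - κ / 4) := by
    have := (abs_le.1 (h n)).2
    linarith
  have e2 : Real.log n ≤ ((n : ℝ) + 1) ^ (κ / 4) / (κ / 4) :=
    (Real.log_le_log (by linarith) (by linarith)).trans
      (Real.log_le_rpow_div hn1.le (by linarith))
  have e3 : ((n : ℝ) + 1) ^ (1 - κ / 4) * ((n : ℝ) + 1) ^ (κ / 4) = (n : ℝ) + 1 := by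
    rw [← Real.rpow_add hn1]
    have : 1 - κ / 4 + κ / 4 = 1 := by ring
    rw [this, Real.rpow_one]
  have e4 := pi_up hn
  calc wn κ S PP n * Real.log n ≤ (cn PP n + K * ((n : ℝ) + 1) ^ (1 - κ / 4)) * Real.log n :=
        mul_le_mul_of_nonneg_right e1 hl.le
    _ = cn PP n * Real.log n + K * (((n : ℝ) + 1) ^ (1 - κ / 4) * Real.log n) := by ring
    _ ≤ 6 * n + K * (((n : ℝ) + 1) ^ (1 - κ / 4) * (((n : ℝ) + 1) ^ (κ / 4) / (κ / 4))) := by
        gcongr
    _ = 6 * n + K * (1 / (κ / 4)) *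
        (((n : ℝ) + 1) ^ (1 - κ / 4) * ((n : ℝ) + 1) ^ (κ / 4)) := by ring
    _ = 6 * n + K * (1 / (κ / 4)) * ((n : ℝ) + 1) := by rw [e3]
    _ ≤ _ := by rw [add_mul]; linarith

end Pool.Agent.R376.Samp
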