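import Pool.Agent.R376.SampB

/-!
# Sampling relative densities of sets of primes on a very thin random set: the equivalence
-/

set_option autoImplicit false

namespace Pool.Agent.R376.Samp

open Filter Topology MeasureTheory Finset Pool.Agent.R376.Rnd

theorem term_eq {κ : ℝ} (h1 : κ ≤ 1) (S : ℕ → Bool) (x : ℝ) (k : ℕ) :
    ((if S k = true then 1 else 0) / th κ k * x) * th κ k = (if S k = true then 1 else 0) * x := by
  have := (th_mem h1 k).1.ne'
  field_simp

/-- **upper bound for the number of the sampled primes** -/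
theorem sn_up {κ : ℝ} (h0 : 0 < κ) (h1 : κ ≤ 1) {S : ℕ → Bool} (hS : Good κ S) :
    ∃ C : ℝ, 0 ≤ C ∧ ∀ N : ℕ, 2 ≤ N → sn S PP N * Real.log N ≤ C * ((N : ℝ) + 1) ^ κ := by
  obtain ⟨C3, hC3⟩ := hS.card
  obtain ⟨C1, hC1, hw⟩ := wn_up h0 hS
  have hC30 : 0 ≤ C3 := by
    have := hC3 0
    have h9 : (((0 : ℕ) : ℝ) + 1) ^ κ = 1 := by simp
    rw [h9, mul_one] at this
    exact (Nat.cast_nonneg _).trans this
  refine ⟨C3 * 2 * (2 / κ) + 2 * C1 * (1 / κ), by positivity, fun N hN => ?_⟩
  have hN' : (2 : ℝ) ≤ N := by exact_mod_cast hN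
  have hN0 : (0 : ℝ) < N := by linarith
  have hN1 : (0 : ℝ) < (N : ℝ) + 1 := by linarith
  have hl : 0 < Real.log N := Real.log_pos (by linarith)
  set m : ℕ := Nat.sqrt N with hm
  have hm1 : (m : ℝ) * m ≤ N := by exact_mod_cast Nat.sqrt_le N
  have hm2 : (N : ℝ) < ((m : ℝ) + 1) * ((m : ℝ) + 1) := by exact_mod_cast Nat.lt_succ_sqrt N
  have hm0 : (0 : ℝ) ≤ m := Nat.cast_nonneg m
  -- the split
  set b : ℕ → ℝ := fun k => if m < k then (if S k = true then 1 else 0) / th κ k * ind PP k else 0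
    with hb
  have hb0 : ∀ k, 0 ≤ b k := by
    intro k
    simp only [hb]
    split_ifs
    · exact mul_nonneg (div_nonneg zero_le_one (th_mem h1 k).1.le) (ind_nonneg _ _)
    · simp
    · exact le_rfl
  have hsplit : sn S PP N ≤ (((range (m + 1)).filter fun n => S n = true).card : ℝ) +
      ∑ k ∈ range (N + 1), b k * th κ k := by
    have e1 : sn S PP N ≤ ∑ k ∈ range (N + 1),
        ((if k < m + 1 then (if S k = true then (1 : ℝ) else 0) else 0) + b k * th κ k) := by
      refine sum_le_sum fun k _ => ?_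
      simp only [hb]
      by_cases hk : m < k
      · have hk' : ¬ k < m + 1 := by omega
        rw [if_neg hk', if_pos hk, term_eq h1, zero_add]
      · have hk' : k < m + 1 := by omega
        rw [if_pos hk', if_neg hk, zero_mul, add_zero]
        exact mul_le_of_le_one_right (sI_nonneg S k) (ind_le_one _ _)
    refine e1.trans ?_
    rw [sum_add_distrib]
    refine add_le_add_left ?_ _
    rw [card_filter]
    push_cast
    rw [← sum_filter]
    refine sum_le_sum_of_subset_of_nonneg ?_ fun k _ _ => sI_nonneg S k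
    intro k hk
    rw [mem_filter] at hk
    exact mem_range.2 hk.2
  -- the partial sums of `b`
  have hpart : ∀ n, ∑ k ∈ range (n + 1), b k ≤ ∑ k ∈ range (n + 1), (2 * C1 / Real.log N) := by
    intro n
    rw [sum_const, card_range, nsmul_eq_mul]
    push_cast
    have hR : 0 ≤ ((n : ℝ) + 1) * (2 * C1 / Real.log N) := by positivity
    by_cases hn : m < n
    · have hn1 : (m : ℝ) + 1 ≤ n := by exact_mod_cast hn
      have hn2 : 2 ≤ n := by
        have : 1 ≤ m := by
          rw [hm, Nat.le_sqrt]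
          omega
        omega
      have hn2' : (2 : ℝ) ≤ n := by exact_mod_cast hn2
      have f1 : ∑ k ∈ range (n + 1), b k ≤ wn κ S PP n := by
        refine sum_le_sum fun k _ => ?_
        simp only [hb]
        by_cases hk : m < k
        · rw [if_pos hk]
        · rw [if_neg hk]
          exact mul_nonneg (div_nonneg (sI_nonneg S k) (th_mem h1 k).1.le) (ind_nonneg _ _)
      have f2 := hw n hn2
      have f3 : Real.log N ≤ 2 * Real.log n := by
        have : Real.log N ≤ Real.log ((n : ℝ) * n) :=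
          Real.log_le_log hN0 (hm2.le.trans (mul_le_mul hn1 hn1 (by linarith) (by linarith)))
        rw [Real.log_mul (by linarith) (by linarith)] at this
        linarith
      have f4 : 0 ≤ wn κ S PP n := wn_nonneg h1 S PP n
      refine f1.trans ?_
      rw [mul_div_assoc', le_div_iff₀ hl]
      calc wn κ S PP n * Real.log N ≤ wn κ S PP n * (2 * Real.log n) :=
            mul_le_mul_of_nonneg_left f3 f4
        _ = 2 * (wn κ S PP n * Real.log n) := by ring
        _ ≤ 2 * (C1 * ((n : ℝ) + 1)) := by linarith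
        _ = _ := by ring
    · have : ∑ k ∈ range (n + 1), b k = 0 := by
        refine sum_eq_zero fun k hk => ?_
        simp only [hb]
        rw [if_neg]
        have := mem_range.1 hk
        omega
      rw [this]
      exact hR
  have hsum : ∑ k ∈ range (N + 1), b k * th κ k ≤ 2 * C1 / Real.log N *
      (1 / κ * ((N : ℝ) + 1) ^ κ) := by
    have := anti_nonneg (d := fun k => 2 * C1 / Real.log N - b k) (th_anti h1)
      (fun n => (th_mem h1 n).1.le) (fun n => by
        rw [sum_sub_distrib]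
        linarith [hpart n]) N
    simp only [sub_mul, sum_sub_distrib] at this
    rw [← mul_sum] at this
    have h3 := mul_le_mul_of_nonneg_left (th_sum h0 h1 N)
      (show 0 ≤ 2 * C1 / Real.log N by positivity)
    linarith
  -- the small primes
  have hsm : (((range (m + 1)).filter fun n => S n = true).card : ℝ) * Real.log N ≤
      C3 * 2 * (2 / κ) * ((N : ℝ) + 1) ^ κ := by
    have g1 := hC3 m
    have g2 : ((m : ℝ) + 1) ^ κ ≤ 2 * ((N : ℝ) + 1) ^ (κ / 2) := by
      have g3 : ((m : ℝ) + 1) ≤ 2 * ((N : ℝ) + 1) ^ (1 / 2 : ℝ) := by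
        rw [← Real.sqrt_eq_rpow]
        have : (m : ℝ) ≤ √((N : ℝ) + 1) := by
          rw [Real.le_sqrt hm0 hN1.le]
          nlinarith
        have h5 : (1 : ℝ) ≤ √((N : ℝ) + 1) := by
          rw [Real.one_le_sqrt]
          linarith
        linarith
      calc ((m : ℝ) + 1) ^ κ ≤ (2 * ((N : ℝ) + 1) ^ (1 / 2 : ℝ)) ^ κ :=
            Real.rpow_le_rpow (by linarith) g3 h0.le
        _ = 2 ^ κ * (((N : ℝ) + 1) ^ (1 / 2 : ℝ)) ^ κ :=
            Real.mul_rpow (by norm_num) (by positivity)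
        _ = 2 ^ κ * ((N : ℝ) + 1) ^ (κ / 2) := by
            rw [← Real.rpow_mul hN1.le]
            congr 2
            ring
        _ ≤ 2 ^ (1 : ℝ) * ((N : ℝ) + 1) ^ (κ / 2) := by
            refine mul_le_mul_of_nonneg_right ?_ (by positivity)
            exact Real.rpow_le_rpow_of_exponent_le (by norm_num) h1
        _ = _ := by rw [Real.rpow_one]
    have g4 : Real.log N ≤ ((N : ℝ) + 1) ^ (κ / 2) / (κ / 2) :=
      (Real.log_le_log hN0 (by linarith)).trans (Real.log_le_rpow_div hN1.le (by linarith))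
    have g5 : ((N : ℝ) + 1) ^ (κ / 2) * ((N : ℝ) + 1) ^ (κ / 2) = ((N : ℝ) + 1) ^ κ := by
      rw [← Real.rpow_add hN1]
      congr 1
      ring
    calc (((range (m + 1)).filter fun n => S n = true).card : ℝ) * Real.log N
        ≤ (C3 * (2 * ((N : ℝ) + 1) ^ (κ / 2))) * (((N : ℝ) + 1) ^ (κ / 2) / (κ / 2)) := by
          refine mul_le_mul (g1.trans (mul_le_mul_of_nonneg_left g2 hC30)) g4 hl.le (by positivity)
      _ = C3 * 2 * (2 / κ) * (((N : ℝ) + 1) ^ (κ / 2) * ((N : ℝ) + 1) ^ (κ / 2)) := by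
          field_simp
      _ = _ := by rw [g5]
  calc sn S PP N * Real.log N ≤ ((((range (m + 1)).filter fun n => S n = true).card : ℝ) +
        2 * C1 / Real.log N * (1 / κ * ((N : ℝ) + 1) ^ κ)) * Real.log N :=
        mul_le_mul_of_nonneg_right (by linarith) hl.le
    _ = (((range (m + 1)).filter fun n => S n = true).card : ℝ) * Real.log N +
        2 * C1 * (1 / κ) * ((N : ℝ) + 1) ^ κ := by
        field_simp
    _ ≤ C3 * 2 * (2 / κ) * ((N : ℝ) + 1) ^ κ + 2 * C1 * (1 / κ) * ((N : ℝ) + 1) ^ κ := by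
        linarith
    _ = _ := by ring

/-- lower bound for the reweighted count -/
theorem wn_low {κ : ℝ} (h0 : 0 < κ) {S : ℕ → Bool} (hS : Good κ S) :
    ∀ᶠ N : ℕ in atTop, (4 / 100 : ℝ) * N ≤ wn κ S PP N * Real.log N := by
  obtain ⟨K, hK, h⟩ := hS.noise (κ / 4) (by linarith)
  -- the noise times the logarithm is small
  have hlim : Tendsto (fun N : ℕ => K * (2 * ((N : ℝ) ^ (-(κ / 8)) / (κ / 8)))) atTop (𝓝 0) := by
    have h2 : Tendsto (fun N : ℕ => (N : ℝ) ^ (-(κ / 8))) atTop (𝓝 0) :=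
      (tendsto_rpow_neg_atTop (by linarith)).comp tendsto_natCast_atTop_atTop
    have h3 := ((h2.div_const (κ / 8)).const_mul 2).const_mul K
    simpa using h3
  filter_upwards [hlim.eventually (gt_mem_nhds (show (0 : ℝ) < 5 / 100 by norm_num)),
    eventually_ge_atTop 2] with N hN hN2
  have hN' : (2 : ℝ) ≤ N := by exact_mod_cast hN2
  have hN0 : (0 : ℝ) < N := by linarith
  have hl : 0 < Real.log N := Real.log_pos (by linarith)
  have e1 := cheb_low hN2
  have e2 := (abs_le.1 (h N)).1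
  have e3 : ((N : ℝ) + 1) ^ (1 - κ / 4) * Real.log N ≤ 2 * ((N : ℝ) ^ (-(κ / 8)) / (κ / 8)) * N := by
    have f1 : ((N : ℝ) + 1) ^ (1 - κ / 4) ≤ 2 * (N : ℝ) ^ (1 - κ / 4) := by
      by_cases hc : 0 ≤ 1 - κ / 4
      · calc ((N : ℝ) + 1) ^ (1 - κ / 4) ≤ (2 * (N : ℝ)) ^ (1 - κ / 4) :=
              Real.rpow_le_rpow (by linarith) (by linarith) hc
          _ = 2 ^ (1 - κ / 4) * (N : ℝ) ^ (1 - κ / 4) := Real.mul_rpow (by norm_num) hN0.le
          _ ≤ 2 ^ (1 : ℝ) * (N : ℝ) ^ (1 - κ / 4) := by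
              refine mul_le_mul_of_nonneg_right ?_ (by positivity)
              exact Real.rpow_le_rpow_of_exponent_le (by norm_num) (by linarith)
          _ = 2 * (N : ℝ) ^ (1 - κ / 4) := by rw [Real.rpow_one]
      · have := Real.rpow_le_rpow_of_nonpos hN0 (show (N : ℝ) ≤ (N : ℝ) + 1 by linarith)
          (show 1 - κ / 4 ≤ 0 by linarith)
        have h9 : 0 < (N : ℝ) ^ (1 - κ / 4) := by positivity
        linarith
    have f2 : Real.log N ≤ (N : ℝ) ^ (κ / 8) / (κ / 8) :=
      Real.log_le_rpow_div hN0.le (by linarith)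
    have f3 : (N : ℝ) ^ (1 - κ / 4) * (N : ℝ) ^ (κ / 8) = (N : ℝ) ^ (-(κ / 8)) * N := by
      rw [← Real.rpow_add hN0]
      nth_rewrite 3 [← Real.rpow_one (N : ℝ)]
      rw [← Real.rpow_add hN0]
      congr 1
      ring
    calc ((N : ℝ) + 1) ^ (1 - κ / 4) * Real.log N
        ≤ (2 * (N : ℝ) ^ (1 - κ / 4)) * ((N : ℝ) ^ (κ / 8) / (κ / 8)) :=
          mul_le_mul f1 f2 hl.le (by positivity)
      _ = 2 / (κ / 8) * ((N : ℝ) ^ (1 - κ / 4) * (N : ℝ) ^ (κ / 8)) := by ring
      _ = _ := by rw [f3]; ring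
  have e4 : K * (((N : ℝ) + 1) ^ (1 - κ / 4) * Real.log N) ≤ 5 / 100 * N := by
    calc K * (((N : ℝ) + 1) ^ (1 - κ / 4) * Real.log N)
        ≤ K * (2 * ((N : ℝ) ^ (-(κ / 8)) / (κ / 8)) * N) := mul_le_mul_of_nonneg_left e3 hK
      _ = (K * (2 * ((N : ℝ) ^ (-(κ / 8)) / (κ / 8)))) * N := by ring
      _ ≤ 5 / 100 * N := mul_le_mul_of_nonneg_right hN.le hN0.le
  have e5 : (cn PP N - K * ((N : ℝ) + 1) ^ (1 - κ / 4)) * Real.log N ≤ wn κ S PP N * Real.log N :=
    mul_le_mul_of_nonneg_right (by linarith) hl.le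
  have e6 : (cn PP N - K * ((N : ℝ) + 1) ^ (1 - κ / 4)) * Real.log N =
    cn PP N * Real.log N - K * (((N : ℝ) + 1) ^ (1 - κ / 4) * Real.log N) := by ring
  linarith

end Pool.Agent.R376.Samp
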