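import Pool.Agent.R376.SampC

/-!
# Sampling relative densities of sets of primes on a very thin random set: main theorem
-/

set_option autoImplicit false

namespace Pool.Agent.R376.Samp

open Filter Topology MeasureTheory Finset Pool.Agent.R376.Rnd

theorem tend_iff {a b : ℕ → ℝ} {δ : ℝ} (hb : ∀ᶠ N in atTop, 0 < b N) :
    Tendsto (fun N => a N / b N) atTop (𝓝 δ) ↔
      ∀ ε : ℝ, 0 < ε → ∀ᶠ N in atTop, |a N - δ * b N| ≤ ε * b N := by
  constructor
  · intro h ε hε
    filter_upwards [hb, (Metric.tendsto_nhds.1 h) ε hε] with N h1 h2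
    rw [Real.dist_eq] at h2
    have e : a N - δ * b N = (a N / b N - δ) * b N := by
      field_simp
    rw [e, abs_mul, abs_of_pos h1]
    exact mul_le_mul_of_nonneg_right h2.le h1.le
  · intro h
    rw [Metric.tendsto_nhds]
    intro ε hε
    filter_upwards [hb, h (ε / 2) (by linarith)] with N h1 h2
    rw [Real.dist_eq]
    have e : a N / b N - δ = (a N - δ * b N) / b N := by
      field_simp
    rw [e, abs_div, abs_of_pos h1, div_lt_iff₀ h1]
    nlinarith

theorem all_n {a b : ℕ → ℝ} {δ ε : ℝ} (hε : 0 ≤ ε) (hb : ∀ N, 0 ≤ b N)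
    (h : ∀ᶠ N in atTop, |a N - δ * b N| ≤ ε * b N) :
    ∃ M : ℝ, 0 ≤ M ∧ ∀ N, |a N - δ * b N| ≤ ε * b N + M := by
  obtain ⟨n0, hn0⟩ := eventually_atTop.1 h
  refine ⟨∑ n ∈ range n0, |a n - δ * b n|, sum_nonneg fun _ _ => abs_nonneg _, fun N => ?_⟩
  by_cases hN : n0 ≤ N
  · have := hn0 N hN
    have h2 : 0 ≤ ∑ n ∈ range n0, |a n - δ * b n| := sum_nonneg fun _ _ => abs_nonneg _
    linarith
  · have h1 : |a N - δ * b N| ≤ ∑ n ∈ range n0, |a n - δ * b n| :=
      single_le_sum (f := fun n => |a n - δ * b n|) (fun _ _ => abs_nonneg _)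
        (mem_range.2 (not_le.1 hN))
    have h2 := mul_nonneg hε (hb N)
    linarith

theorem sn_ge {κ : ℝ} (h1 : κ ≤ 1) (S : ℕ → Bool) (N : ℕ) :
    wn κ S PP N * th κ N ≤ sn S PP N := by
  unfold wn sn
  rw [sum_mul]
  refine sum_le_sum fun k hk => ?_
  rw [← term_eq h1]
  refine mul_le_mul_of_nonneg_left (th_anti h1 (by have := mem_range.1 hk; omega))
    (mul_nonneg (div_nonneg (sI_nonneg S k) (th_mem h1 k).1.le) (ind_nonneg _ _))

theorem sn_tend {κ : ℝ} (h0 : 0 < κ) (h1 : κ ≤ 1) {S : ℕ → Bool} (hS : Good κ S) :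
    Tendsto (sn S PP) atTop atTop := by
  have hg : Tendsto (fun N : ℕ => (1 / 100 * (κ / 2)) * (N : ℝ) ^ (κ / 2)) atTop atTop :=
    ((tendsto_rpow_atTop (by linarith)).comp tendsto_natCast_atTop_atTop).const_mul_atTop
      (by positivity)
  refine tendsto_atTop_mono' _ ?_ hg
  filter_upwards [wn_low h0 hS, eventually_ge_atTop 2] with N hN hN2
  have hN' : (2 : ℝ) ≤ N := by exact_mod_cast hN2
  have hN0 : (0 : ℝ) < N := by linarith
  have hl : 0 < Real.log N := Real.log_pos (by linarith)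
  refine le_trans ?_ (sn_ge h1 S N)
  have e1 : (N : ℝ) ^ (κ - 1) / 2 ≤ th κ N := by
    unfold th
    have f1 : (2 * (N : ℝ)) ^ (κ - 1) ≤ ((N : ℝ) + 1) ^ (κ - 1) :=
      Real.rpow_le_rpow_of_nonpos (by linarith) (by linarith) (by linarith)
    refine le_trans ?_ f1
    rw [Real.mul_rpow (by norm_num) hN0.le]
    have f2 : (1 / 2 : ℝ) ≤ 2 ^ (κ - 1) := by
      have : (2 : ℝ) ^ (-1 : ℝ) ≤ 2 ^ (κ - 1) :=
        Real.rpow_le_rpow_of_exponent_le (by norm_num) (by linarith)
      rw [Real.rpow_neg_one] at this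
      linarith
    have f3 : 0 ≤ (N : ℝ) ^ (κ - 1) := by positivity
    nlinarith
  have e2 : Real.log N ≤ (N : ℝ) ^ (κ / 2) / (κ / 2) :=
    Real.log_le_rpow_div hN0.le (by linarith)
  have e3 : (N : ℝ) * (N : ℝ) ^ (κ - 1) = (N : ℝ) ^ (κ / 2) * (N : ℝ) ^ (κ / 2) := by
    nth_rewrite 1 [← Real.rpow_one (N : ℝ)]
    rw [← Real.rpow_add hN0, ← Real.rpow_add hN0]
    congr 1
    ring
  have hth : 0 < th κ N := (th_mem h1 N).1
  have hp : 0 < (N : ℝ) ^ (κ / 2) := by positivity
  have hw : 0 ≤ wn κ S PP N := wn_nonneg h1 S PP N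
  -- `0.04 N N^(κ-1)/2 ≤ wn log N th`
  have e4 : (4 / 100 : ℝ) * N * ((N : ℝ) ^ (κ - 1) / 2) ≤ wn κ S PP N * Real.log N * th κ N :=
    mul_le_mul hN e1 (by positivity) (by positivity)
  have e5 : wn κ S PP N * Real.log N * th κ N ≤
      wn κ S PP N * th κ N * ((N : ℝ) ^ (κ / 2) / (κ / 2)) := by
    have := mul_le_mul_of_nonneg_left e2 (mul_nonneg hw hth.le)
    linarith
  have e6 : (2 / 100 : ℝ) * ((N : ℝ) ^ (κ / 2) * (N : ℝ) ^ (κ / 2)) ≤
      wn κ S PP N * th κ N * ((N : ℝ) ^ (κ / 2) / (κ / 2)) := by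
    rw [← e3]
    linarith
  have e7 : (2 / 100 : ℝ) * (N : ℝ) ^ (κ / 2) ≤ wn κ S PP N * th κ N / (κ / 2) := by
    refine le_of_mul_le_mul_right ?_ hp
    calc (2 / 100 : ℝ) * (N : ℝ) ^ (κ / 2) * (N : ℝ) ^ (κ / 2)
        = (2 / 100 : ℝ) * ((N : ℝ) ^ (κ / 2) * (N : ℝ) ^ (κ / 2)) := by ring
      _ ≤ _ := e6
      _ = _ := by ring
  rw [le_div_iff₀ (by linarith)] at e7
  nlinarith

theorem sn_wn {κ : ℝ} (h0 : 0 < κ) (h1 : κ ≤ 1) {S : ℕ → Bool} (hS : Good κ S) :
    ∃ C : ℝ, 0 < C ∧ ∀ᶠ N : ℕ in atTop, sn S PP N * (1 / th κ N) ≤ C * wn κ S PP N := by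
  obtain ⟨C, hC, h⟩ := sn_up h0 h1 hS
  refine ⟨50 * C + 1, by linarith, ?_⟩
  filter_upwards [wn_low h0 hS, eventually_ge_atTop 2] with N hN hN2
  have hN' : (2 : ℝ) ≤ N := by exact_mod_cast hN2
  have hN0 : (0 : ℝ) < N := by linarith
  have hN1 : (0 : ℝ) < (N : ℝ) + 1 := by linarith
  have hl : 0 < Real.log N := Real.log_pos (by linarith)
  have hw : 0 ≤ wn κ S PP N := wn_nonneg h1 S PP N
  have hu : 0 < 1 / th κ N := one_div_pos.2 (th_mem h1 N).1
  have e1 : ((N : ℝ) + 1) ^ κ * (1 / th κ N) = (N : ℝ) + 1 := by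
    unfold th
    rw [one_div, ← Real.rpow_neg hN1.le, ← Real.rpow_add hN1]
    have : κ + -(κ - 1) = 1 := by ring
    rw [this, Real.rpow_one]
  have e2 : sn S PP N * (1 / th κ N) * Real.log N ≤ 50 * C * wn κ S PP N * Real.log N := by
    calc sn S PP N * (1 / th κ N) * Real.log N = (sn S PP N * Real.log N) * (1 / th κ N) := by ring
      _ ≤ (C * ((N : ℝ) + 1) ^ κ) * (1 / th κ N) := mul_le_mul_of_nonneg_right (h N hN2) hu.le
      _ = C * ((N : ℝ) + 1) := by rw [mul_assoc, e1]
      _ ≤ C * (2 * N) := mul_le_mul_of_nonneg_left (by linarith) hC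
      _ = 50 * C * (4 / 100 * N) := by ring
      _ ≤ 50 * C * (wn κ S PP N * Real.log N) := mul_le_mul_of_nonneg_left hN (by linarith)
      _ = _ := by ring
  have e3 := le_of_mul_le_mul_right e2 hl
  nlinarith

theorem wn_pos {κ : ℝ} (h0 : 0 < κ) {S : ℕ → Bool} (hS : Good κ S) :
    ∀ᶠ N : ℕ in atTop, 0 < wn κ S PP N := by
  filter_upwards [wn_low h0 hS, eventually_ge_atTop 2] with N hN hN2
  have hN' : (2 : ℝ) ≤ N := by exact_mod_cast hN2
  have hl : 0 < Real.log N := Real.log_pos (by linarith)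
  by_contra hc
  nlinarith

/-- **plain and reweighted proportions over `S`** -/
theorem wpr_spr {κ : ℝ} (h0 : 0 < κ) (h1 : κ ≤ 1) {S : ℕ → Bool} (hS : Good κ S) (A : Set ℕ)
    (δ : ℝ) : Tendsto (wpr κ S A) atTop (𝓝 δ) ↔ Tendsto (spr S A) atTop (𝓝 δ) := by
  have hsn := sn_tend h0 h1 hS
  have i1 : Tendsto (wpr κ S A) atTop (𝓝 δ) ↔ _ := tend_iff (a := wn κ S A) (wn_pos h0 hS)
  have i2 : Tendsto (spr S A) atTop (𝓝 δ) ↔ _ :=
    tend_iff (a := sn S A) (hsn.eventually_gt_atTop 0)
  have hs0 : ∀ N, 0 ≤ sn S PP N := sn_nonneg S PP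
  have hw0 : ∀ N, 0 ≤ wn κ S PP N := wn_nonneg h1 S PP
  rw [i1, i2]
  constructor
  · intro h ε hε
    obtain ⟨M, hM, hall⟩ := all_n (half_pos hε).le hw0 (h (ε / 2) (half_pos hε))
    filter_upwards [hsn.eventually_ge_atTop (M / (ε / 2))] with N hN
    have key := anti_abs
      (e := fun k => (if S k = true then 1 else 0) / th κ k * (ind A k - δ * ind PP k))
      (f := fun k => ε / 2 * ((if S k = true then 1 else 0) / th κ k * ind PP k) +
        (if k = 0 then M else 0)) (v := th κ) (th_anti h1) (fun n => (th_mem h1 n).1.le)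
      (fun n => by
        have e1 : ∑ k ∈ range (n + 1), (if S k = true then 1 else 0) / th κ k *
            (ind A k - δ * ind PP k) = wn κ S A n - δ * wn κ S PP n := by
          unfold wn
          rw [mul_sum, ← sum_sub_distrib]
          exact sum_congr rfl fun k _ => by ring
        have e2 : ∑ k ∈ range (n + 1), (ε / 2 * ((if S k = true then 1 else 0) / th κ k *
            ind PP k) + (if k = 0 then M else 0)) = ε / 2 * wn κ S PP n + M := by
          rw [sum_add_distrib, ← mul_sum, sum_ite_eq' (range (n + 1)) 0 (fun _ => M),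
            if_pos (mem_range.2 (Nat.succ_pos n))]
          rfl
        rw [e1, e2]
        exact hall n) N
    have e3 : ∑ k ∈ range (N + 1), (if S k = true then 1 else 0) / th κ k *
        (ind A k - δ * ind PP k) * th κ k = sn S A N - δ * sn S PP N := by
      unfold sn
      rw [mul_sum, ← sum_sub_distrib]
      refine sum_congr rfl fun k _ => ?_
      rw [term_eq h1]
      ring
    have e4 : ∑ k ∈ range (N + 1), (ε / 2 * ((if S k = true then 1 else 0) / th κ k *
        ind PP k) + (if k = 0 then M else 0)) * th κ k = ε / 2 * sn S PP N + M := by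
      have : ∀ k, (ε / 2 * ((if S k = true then 1 else 0) / th κ k *
          ind PP k) + (if k = 0 then M else 0)) * th κ k =
          ε / 2 * ((if S k = true then 1 else 0) * ind PP k) + (if k = 0 then M else 0) := by
        intro k
        rw [add_mul, mul_assoc (ε / 2), term_eq h1]
        congr 1
        by_cases hk : k = 0
        · rw [if_pos hk, hk]
          unfold th
          simp
        · rw [if_neg hk, zero_mul]
      rw [sum_congr rfl fun k _ => this k, sum_add_distrib, ← mul_sum,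
        sum_ite_eq' (range (N + 1)) 0 (fun _ => M), if_pos (mem_range.2 (Nat.succ_pos N))]
      rfl
    rw [e3, e4] at key
    rw [div_le_iff₀ (half_pos hε)] at hN
    linarith
  · intro h ε hε
    obtain ⟨C, hC, hsw⟩ := sn_wn h0 h1 hS
    have hε' : 0 < ε / (4 * C) := by positivity
    obtain ⟨M, hM, hall⟩ := all_n hε'.le hs0 (h _ hε')
    filter_upwards [hsn.eventually_ge_atTop (M / (ε / (4 * C))), hsw] with N hN hN2
    have hG : M ≤ ε / (4 * C) * sn S PP N := by
      rw [div_le_iff₀ hε'] at hN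
      linarith
    have key := mono_abs
      (e := fun k => (if S k = true then 1 else 0) * (ind A k - δ * ind PP k))
      (u := fun k => 1 / th κ k) (G := ε / (4 * C) * sn S PP N + M)
      (fun m n hmn => one_div_le_one_div_of_le (th_mem h1 n).1 (th_anti h1 hmn))
      (fun n => (one_div_pos.2 (th_mem h1 n).1).le) N (fun n hn => by
        have e1 : ∑ k ∈ range (n + 1), (if S k = true then 1 else 0) *
            (ind A k - δ * ind PP k) = sn S A n - δ * sn S PP n := by
          unfold sn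
          rw [mul_sum, ← sum_sub_distrib]
          exact sum_congr rfl fun k _ => by ring
        rw [e1]
        refine (hall n).trans ?_
        have := mul_le_mul_of_nonneg_left (sn_le S PP hn) hε'.le
        linarith)
    have e2 : ∑ k ∈ range (N + 1), (if S k = true then 1 else 0) *
        (ind A k - δ * ind PP k) * (1 / th κ k) = wn κ S A N - δ * wn κ S PP N := by
      unfold wn
      rw [mul_sum, ← sum_sub_distrib]
      exact sum_congr rfl fun k _ => by ring
    rw [e2] at key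
    have hu : 0 < 1 / th κ N := one_div_pos.2 (th_mem h1 N).1
    refine key.trans ?_
    calc 2 * (ε / (4 * C) * sn S PP N + M) * (1 / th κ N)
        ≤ 2 * (2 * (ε / (4 * C) * sn S PP N)) * (1 / th κ N) := by
          refine mul_le_mul_of_nonneg_right (by linarith) hu.le
      _ = ε / C * (sn S PP N * (1 / th κ N)) := by
          field_simp
          ring
      _ ≤ ε / C * (C * wn κ S PP N) := mul_le_mul_of_nonneg_left hN2 (by positivity)
      _ = ε * wn κ S PP N := by field_simp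

/-- **main theorem** -/
theorem main {κ : ℝ} (h0 : 0 < κ) (h1 : κ ≤ 1) {ι : Type} [Countable ι] (A : ι → Set ℕ)
    (hA : ∀ i, A i ⊆ PP) : ∀ᵐ S ∂(lawS (th κ)),
      (∃ C : ℝ, ∀ N : ℕ, (((range (N + 1)).filter fun n => S n = true).card : ℝ) ≤
        C * ((N : ℝ) + 1) ^ κ) ∧
      ∀ i, (∀ η : ℝ, 0 < η → η < κ / 2 → ∃ K : ℝ, ∀ N : ℕ, 2 ≤ N →
          |wpr κ S (A i) N - pr (A i) N| ≤ K * (N : ℝ) ^ (-η)) ∧
        ∀ δ : ℝ, Tendsto (pr (A i)) atTop (𝓝 δ) ↔ Tendsto (spr S (A i)) atTop (𝓝 δ) := by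
  filter_upwards [good h0 h1, ae_all_iff.2 fun i => wpr_main h0 h1 (hA i)] with S hS hS2
  refine ⟨hS.card, fun i => ⟨hS2 i, fun δ => ?_⟩⟩
  rw [← wpr_spr h0 h1 hS (A i) δ]
  obtain ⟨K, hK⟩ := hS2 i (κ / 4) (by linarith) (by linarith)
  have h4 : Tendsto (fun N => wpr κ S (A i) N - pr (A i) N) atTop (𝓝 0) := by
    refine squeeze_zero_norm' (a := fun N : ℕ => K * (N : ℝ) ^ (-(κ / 4))) ?_ ?_
    · filter_upwards [eventually_ge_atTop 2] with N hN
      exact hK N hN
    · have := ((tendsto_rpow_neg_atTop (show 0 < κ / 4 by linarith)).comp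
        tendsto_natCast_atTop_atTop).const_mul K
      rwa [mul_zero] at this
  constructor
  · intro h
    have := h.add h4
    rw [add_zero] at this
    exact this.congr fun T => by ring
  · intro h
    have := h.sub h4
    rw [sub_zero] at this
    exact this.congr fun T => by ring

end Pool.Agent.R376.Samp
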