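import Mathlib

/-! Zeckendorf digit sums: concatenation, shift of multiples of Lucas numbers, and
Lucas and Fibonacci identities. -/

namespace Pool.Agent.R376.Zk

open Nat List Real

local instance : IsTrans ℕ fun a b ↦ b + 2 ≤ a where
  trans _a _b _c hba hcb := hcb.trans <| le_self_add.trans hba

/-- number of Zeckendorf digits -/
def sz (n : ℕ) : ℕ := (Nat.zeckendorf n).length

/-- Lucas numbers -/
def Lu : ℕ → ℕ
  | 0 => 2
  | 1 => 1
  | (k + 2) => Lu (k + 1) + Lu k

lemma Lu_add_two (k : ℕ) : Lu (k + 2) = Lu (k + 1) + Lu k := rfl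

lemma Lu_succ (k : ℕ) : Lu (k + 1) = fib (k + 2) + fib k := by
  induction k using Nat.twoStepInduction with
  | zero => rfl
  | one => rfl
  | more k h1 h2 =>
    rw [Lu_add_two, h1, h2, Nat.fib_add_two (n := k + 2), Nat.fib_add_two (n := k),
      Nat.fib_add_two (n := k + 1), Nat.fib_add_two (n := k)]
    ring

lemma Lu_real (k : ℕ) : (Lu k : ℝ) = goldenRatio ^ k + goldenConj ^ k := by
  induction k using Nat.twoStepInduction with
  | zero => simp [Lu]; norm_num
  | one => rw [pow_one, pow_one, goldenRatio_add_goldenConj]; simp [Lu]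
  | more k h1 h2 =>
    rw [Lu_add_two]
    push_cast
    rw [h1, h2]
    have e1 := goldenRatio_sq
    have e2 := goldenConj_sq
    linear_combination (-goldenRatio ^ k) * e1 - goldenConj ^ k * e2

lemma rep_iff (l : List ℕ) : IsZeckendorfRep l ↔
    l.Pairwise (fun a b ↦ b + 2 ≤ a) ∧ ∀ a ∈ l, 2 ≤ a := by
  unfold IsZeckendorfRep
  rw [isChain_iff_pairwise, pairwise_append]
  simp

lemma fib_le_of_mem (B b : ℕ) (hb : b ∈ zeckendorf B) : fib b ≤ B := by
  have h1 : fib b ∈ (zeckendorf B).map fib := List.mem_map_of_mem hb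
  have h2 := List.le_sum_of_mem h1
  rwa [sum_zeckendorf_fib] at h2

lemma zeck_append (A B j : ℕ) (hA : ∀ x ∈ zeckendorf A, j + 1 ≤ x) (hB : B < fib j) :
    zeckendorf (A + B) = zeckendorf A ++ zeckendorf B := by
  have hj : 1 ≤ j := by
    rcases Nat.eq_zero_or_pos j with rfl | h
    · simp at hB
    · exact h
  have h : IsZeckendorfRep (zeckendorf A ++ zeckendorf B) := by
    have a1 := (rep_iff _).1 (isZeckendorfRep_zeckendorf A)
    have b1 := (rep_iff _).1 (isZeckendorfRep_zeckendorf B)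
    rw [rep_iff, pairwise_append]
    refine ⟨⟨a1.1, b1.1, ?_⟩, ?_⟩
    · intro a ha b hb
      have h1 := hA a ha
      have h2 := fib_le_of_mem B b hb
      have h3 : b < j := by
        by_contra hcon
        have := fib_mono (not_lt.1 hcon)
        omega
      omega
    · intro a ha
      rcases List.mem_append.1 ha with h | h
      · exact a1.2 a h
      · exact b1.2 a h
  have h2 := zeckendorf_sum_fib h
  rwa [List.map_append, List.sum_append, sum_zeckendorf_fib, sum_zeckendorf_fib] at h2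

lemma sz_append (A B j : ℕ) (hA : ∀ x ∈ zeckendorf A, j + 1 ≤ x) (hB : B < fib j) :
    sz (A + B) = sz A + sz B := by
  unfold sz
  rw [zeck_append A B j hA hB, List.length_append]

lemma zeck_fib (a : ℕ) (ha : 2 ≤ a) : zeckendorf (fib a) = [a] := by
  have h : IsZeckendorfRep [a] := by
    rw [rep_iff]
    simpa using ha
  have h2 := zeckendorf_sum_fib h
  simpa using h2

/-- greedy step -/
lemma sz_step (a X : ℕ) (ha : 2 ≤ a) (hX : X < fib (a - 1)) : sz (fib a + X) = 1 + sz X := by
  rw [sz_append (fib a) X (a - 1) _ hX]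
  · unfold sz
    rw [zeck_fib a ha]
    rfl
  · rw [zeck_fib a ha]
    intro x hx
    have : x = a := by simpa using hx
    omega

/-- `w = |ψ| = 1/φ` -/
noncomputable def w : ℝ := - goldenConj

lemma w_pos : 0 < w := by
  unfold w
  linarith [goldenConj_neg]

lemma w_lt : w < 1 := by
  unfold w
  linarith [neg_one_lt_goldenConj]

lemma w_sq : w ^ 2 + w = 1 := by
  unfold w
  have := goldenConj_sq
  linear_combination this

lemma w_sum (l : List ℕ) (hl : IsZeckendorfRep l) :
    ∀ h, 1 ≤ h → (∀ a ∈ l, a < h) → (l.map (fun i => w ^ i)).sum ≤ w - w ^ h := by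
  induction l with
  | nil =>
    intro h h1 _
    simp only [List.map_nil, List.sum_nil, sub_nonneg]
    calc w ^ h ≤ w ^ 1 := pow_le_pow_of_le_one w_pos.le w_lt.le h1
      _ = w := pow_one w
  | cons a l ih =>
    intro h h1 h2
    rw [rep_iff] at hl
    obtain ⟨hp, h2'⟩ := hl
    rw [pairwise_cons] at hp
    have ha2 : 2 ≤ a := h2' a (by simp)
    have hl' : IsZeckendorfRep l := (rep_iff l).2 ⟨hp.2, fun b hb => h2' b (by simp [hb])⟩
    have h3 := ih hl' (a - 1) (by omega) (fun b hb => by have := hp.1 b hb; omega)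
    rw [List.map_cons, List.sum_cons]
    have hah : a < h := h2 a (by simp)
    have h4 : w ^ h ≤ w ^ (a + 1) := pow_le_pow_of_le_one w_pos.le w_lt.le hah
    obtain ⟨b, rfl⟩ : ∃ b, a = b + 1 := ⟨a - 1, by omega⟩
    rw [Nat.add_sub_cancel] at h3
    have h5 : w ^ b = w ^ (b + 1) + w ^ (b + 1 + 1) := by
      have := w_sq
      linear_combination (- w ^ b) * this
    linarith

lemma w_sum_lt (l : List ℕ) (hl : IsZeckendorfRep l) : (l.map (fun i => w ^ i)).sum < w := by
  have h := w_sum l hl (l.sum + 1) (by omega) (fun a ha => by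
    have := List.le_sum_of_mem ha
    omega)
  have := pow_pos w_pos (l.sum + 1)
  linarith

lemma conj_sum (l : List ℕ) :
    (((l.map (fun i => fib (i + 1))).sum : ℕ) : ℝ) - goldenRatio * (((l.map fib).sum : ℕ) : ℝ)
      = (l.map (fun i => goldenConj ^ i)).sum := by
  induction l with
  | nil => simp
  | cons a l ih =>
    simp only [List.map_cons, List.sum_cons]
    push_cast
    rw [← ih, ← fib_succ_sub_goldenRatio_mul_fib]
    push_cast
    ring

lemma abs_conj_sum (l : List ℕ) :
    |(l.map (fun i => goldenConj ^ i)).sum| ≤ (l.map (fun i => w ^ i)).sum := by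
  induction l with
  | nil => simp
  | cons a l ih =>
    simp only [List.map_cons, List.sum_cons]
    refine (abs_add_le _ _).trans ?_
    have : |goldenConj ^ a| = w ^ a := by
      rw [abs_pow, abs_of_neg goldenConj_neg]
      rfl
    rw [this]
    linarith

lemma fib_w (n : ℕ) : (fib (n + 1) : ℝ) * w ^ n ≤ 1 := by
  induction n using Nat.twoStepInduction with
  | zero => simp
  | one => simp; exact w_lt.le
  | more n h1 h2 =>
    rw [Nat.fib_add_two (n := n + 1)]
    push_cast
    have e : ((fib (n + 1) : ℝ) + fib (n + 1 + 1)) * w ^ (n + 2)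
        = (fib (n + 1) * w ^ n) * w ^ 2 + (fib (n + 1 + 1) * w ^ (n + 1)) * w := by ring
    rw [e]
    have h3 := w_sq
    have h4 := w_pos
    nlinarith [mul_le_mul_of_nonneg_right h1 (sq_nonneg w), mul_le_mul_of_nonneg_right h2 h4.le]

lemma rep_shift (l : List ℕ) (hl : IsZeckendorfRep l) : IsZeckendorfRep (l.map (· + 1)) := by
  rw [rep_iff] at hl ⊢
  constructor
  · rw [List.pairwise_map]
    exact hl.1.imp (fun h => by omega)
  · intro a ha
    obtain ⟨b, hb, rfl⟩ := List.mem_map.1 ha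
    have := hl.2 b hb
    omega

/-- The Zeckendorf expansion of `L_{k+1} m` is the shift of that of `L_k m`. -/
lemma shift (k m : ℕ) (hk : 2 ≤ k) (hm : 3 * m ≤ fib (k - 1)) :
    zeckendorf (Lu (k + 1) * m) = (zeckendorf (Lu k * m)).map (· + 1) := by
  set l := zeckendorf (Lu k * m) with hl
  have hrep : IsZeckendorfRep l := isZeckendorfRep_zeckendorf _
  have hsum : (l.map fib).sum = Lu k * m := sum_zeckendorf_fib _
  have h1 := conj_sum l
  rw [hsum] at h1
  have h2 := abs_conj_sum l
  have h3 := w_sum_lt l hrep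
  have hL : (Lu (k + 1) : ℝ) - goldenRatio * Lu k = - √5 * goldenConj ^ k := by
    rw [Lu_real, Lu_real, ← goldenRatio_sub_goldenConj]
    ring
  have h4 : |(√5 * m * goldenConj ^ k : ℝ)| ≤ w ^ 2 := by
    rw [abs_mul, abs_pow, abs_of_neg goldenConj_neg, abs_of_nonneg (by positivity)]
    obtain ⟨n, rfl⟩ : ∃ n, k = n + 2 := ⟨k - 2, by omega⟩
    have h5 : (√5 : ℝ) ≤ 3 := by
      rw [Real.sqrt_le_left (by norm_num)]
      norm_num
    have h6 : (3 : ℝ) * m ≤ fib (n + 1) := by
      have : n + 2 - 1 = n + 1 := by omega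
      rw [this] at hm
      exact_mod_cast hm
    have h7 := fib_w n
    have h8 : (0 : ℝ) ≤ w ^ n := (pow_pos w_pos n).le
    have hm0 : (0 : ℝ) ≤ m := Nat.cast_nonneg m
    change √5 * (m : ℝ) * w ^ (n + 2) ≤ w ^ 2
    calc √5 * (m : ℝ) * w ^ (n + 2) ≤ (3 * m) * w ^ (n + 2) := by
          apply mul_le_mul_of_nonneg_right _ (pow_pos w_pos _).le
          exact mul_le_mul_of_nonneg_right h5 hm0
      _ ≤ fib (n + 1) * w ^ (n + 2) := mul_le_mul_of_nonneg_right h6 (pow_pos w_pos _).le
      _ = (fib (n + 1) * w ^ n) * w ^ 2 := by ring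
      _ ≤ 1 * w ^ 2 := mul_le_mul_of_nonneg_right h7 (sq_nonneg w)
      _ = w ^ 2 := one_mul _
  have h5 : ((l.map (fun i => fib (i + 1))).sum : ℕ) = Lu (k + 1) * m := by
    have h6 : |(((l.map (fun i => fib (i + 1))).sum : ℕ) : ℝ) - ((Lu (k + 1) * m : ℕ) : ℝ)| < 1 := by
      have e : (((l.map (fun i => fib (i + 1))).sum : ℕ) : ℝ) - ((Lu (k + 1) * m : ℕ) : ℝ)
          = (l.map (fun i => goldenConj ^ i)).sum + √5 * m * goldenConj ^ k := by
        push_cast at h1 ⊢
        linear_combination h1 - (m : ℝ) * hL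
      rw [e]
      refine (abs_add_le _ _).trans_lt ?_
      have := w_sq
      linarith
    have h7 : |(((l.map (fun i => fib (i + 1))).sum : ℕ) : ℤ) - ((Lu (k + 1) * m : ℕ) : ℤ)| < 1 := by
      exact_mod_cast h6
    have h8 := Int.abs_lt_one_iff.1 h7
    omega
  have h6 := zeckendorf_sum_fib (rep_shift l hrep)
  rw [List.map_map] at h6
  have h7 : (fib ∘ fun x : ℕ => x + 1) = fun i => fib (i + 1) := rfl
  rw [h7, h5] at h6
  exact h6

lemma shift_n (k m n : ℕ) (hk : 2 ≤ k) (hm : 3 * m ≤ fib (k - 1)) :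
    zeckendorf (Lu (k + n) * m) = (zeckendorf (Lu k * m)).map (· + n) := by
  induction n with
  | zero => simp
  | succ n ih =>
    have h1 : fib (k - 1) ≤ fib (k + n - 1) := fib_mono (by omega)
    rw [← add_assoc, shift (k + n) m (by omega) (by omega), ih, List.map_map]
    congr 1

lemma sz_shift (k m n : ℕ) (hk : 2 ≤ k) (hm : 3 * m ≤ fib (k - 1)) :
    sz (Lu (k + n) * m) = sz (Lu k * m) := by
  unfold sz
  rw [shift_n k m n hk hm, List.length_map]

lemma low_shift (k m n : ℕ) (hk : 2 ≤ k) (hm : 3 * m ≤ fib (k - 1)) :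
    ∀ x ∈ zeckendorf (Lu (k + n) * m), n + 2 ≤ x := by
  rw [shift_n k m n hk hm]
  intro x hx
  obtain ⟨b, hb, rfl⟩ := List.mem_map.1 hx
  have := ((rep_iff _).1 (isZeckendorfRep_zeckendorf (Lu k * m))).2 b hb
  omega

end Pool.Agent.R376.Zk
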