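import Pool.Agent.R376.Zka

/-! Zeckendorf digit sums of squares near Lucas numbers. -/

namespace Pool.Agent.R376.Zk

open Nat List Real

lemma sqrt5_pos : (0 : ℝ) < √5 := Real.sqrt_pos.2 (by norm_num)

lemma fib_real (n : ℕ) : √5 * (fib n : ℝ) = goldenRatio ^ n - goldenConj ^ n := by
  rw [coe_fib_eq]
  field_simp

lemma Lu_sq (k : ℕ) (hk : Even k) : Lu k ^ 2 = Lu (2 * k) + 2 := by
  have h : ((Lu k ^ 2 : ℕ) : ℝ) = ((Lu (2 * k) + 2 : ℕ) : ℝ) := by
    push_cast
    rw [Lu_real, Lu_real]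
    have h1 : goldenRatio ^ k * goldenConj ^ k = 1 := by
      rw [← mul_pow, goldenRatio_mul_goldenConj, hk.neg_one_pow]
    rw [pow_mul', pow_mul']
    linear_combination 2 * h1
  exact_mod_cast h

lemma Lu_two_mul (k : ℕ) : Lu (2 * (k + 1)) = fib (2 * k + 3) + fib (2 * k + 1) := by
  have : 2 * (k + 1) = (2 * k + 1) + 1 := by ring
  rw [this, Lu_succ]

lemma fib_two_mul' (n : ℕ) : fib (2 * n) = fib n * Lu n := by
  have h : √5 * ((fib (2 * n) : ℕ) : ℝ) = √5 * ((fib n * Lu n : ℕ) : ℝ) := by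
    push_cast
    rw [← mul_assoc, fib_real, fib_real, Lu_real, pow_mul', pow_mul']
    ring
  have h2 := mul_left_cancel₀ sqrt5_pos.ne' h
  exact_mod_cast h2

lemma Lu_mul_fib (m q : ℕ) : Lu (m + 4 * q) * fib (4 * q) + fib m = fib (m + 8 * q) := by
  have h : √5 * ((Lu (m + 4 * q) * fib (4 * q) + fib m : ℕ) : ℝ)
      = √5 * ((fib (m + 8 * q) : ℕ) : ℝ) := by
    push_cast
    have e1 := fib_real (4 * q)
    have e2 := fib_real m
    have e3 := fib_real (m + 8 * q)
    have h1 : goldenRatio ^ (4 * q) * goldenConj ^ (4 * q) = 1 := by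
      rw [← mul_pow, goldenRatio_mul_goldenConj]
      exact (by exact ⟨2 * q, by ring⟩ : Even (4 * q)).neg_one_pow
    have e4 : goldenRatio ^ (m + 8 * q) = goldenRatio ^ m * (goldenRatio ^ (4 * q)) ^ 2 := by
      rw [← pow_mul, ← pow_add]; congr 1; ring
    have e5 : goldenConj ^ (m + 8 * q) = goldenConj ^ m * (goldenConj ^ (4 * q)) ^ 2 := by
      rw [← pow_mul, ← pow_add]; congr 1; ring
    rw [e4, e5] at e3
    rw [Lu_real, pow_add, pow_add]
    linear_combination (goldenRatio ^ m * goldenRatio ^ (4 * q)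
      + goldenConj ^ m * goldenConj ^ (4 * q)) * e1 + e2 - e3
      + (goldenConj ^ m - goldenRatio ^ m) * h1
  have h2 := mul_left_cancel₀ sqrt5_pos.ne' h
  exact_mod_cast h2

lemma Lu_le (k : ℕ) (hk : 1 ≤ k) : Lu k ≤ 3 * fib k := by
  obtain ⟨n, rfl⟩ : ∃ n, k = n + 1 := ⟨k - 1, by omega⟩
  rw [Lu_succ, Nat.fib_add_two]
  have := fib_mono (Nat.le_succ n)
  simp only [Nat.succ_eq_add_one] at this
  omega

lemma sz_two : sz 2 = 1 := by
  have h := zeck_fib 3 (by norm_num)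
  have h2 : fib 3 = 2 := rfl
  rw [h2] at h
  unfold sz
  rw [h]
  rfl

/-- digit sum of `fib (m + 2 n) - fib m + Y` -/
lemma sz_tele (m Y : ℕ) (hm : 1 ≤ m) (hY : Y < fib m) (n : ℕ) :
    ∀ Z, Z + fib m = fib (m + 2 * n) + Y → sz Z = n + sz Y := by
  induction n with
  | zero =>
    intro Z hZ
    have : Z = Y := by
      simp only [mul_zero, add_zero] at hZ
      omega
    rw [this, zero_add]
  | succ n ih =>
    intro Z hZ
    have h1 : fib (m + 2 * (n + 1)) = fib (m + 2 * n) + fib (m + 2 * n + 1) := by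
      rw [show m + 2 * (n + 1) = m + 2 * n + 2 by ring, Nat.fib_add_two]
    have h2 : fib m ≤ fib (m + 2 * n) := fib_mono (by omega)
    obtain ⟨Z', hZ'⟩ : ∃ Z', Z = fib (m + 2 * n + 1) + Z' :=
      ⟨Z - fib (m + 2 * n + 1), by omega⟩
    subst hZ'
    have h3 : Z' + fib m = fib (m + 2 * n) + Y := by omega
    rw [sz_step (m + 2 * n + 1) Z' (by omega) (by rw [Nat.add_sub_cancel]; omega), ih Z' h3]
    ring

lemma sz_fib_sq (a : ℕ) : sz (fib (2 * (a + 1)) ^ 2 + 2) = a + 1 := by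
  induction a with
  | zero =>
    have h := zeck_fib 4 (by norm_num)
    have h2 : fib 4 = 3 := rfl
    rw [h2] at h
    unfold sz
    simp only [zero_add, mul_one]
    have h3 : fib 2 ^ 2 + 2 = 3 := rfl
    rw [h3, h]
    rfl
  | succ a ih =>
    have h1 : fib (2 * (a + 1 + 1)) ^ 2 = fib (2 * (a + 1)) ^ 2 + fib (4 * a + 6) := by
      have e1 : fib (2 * (a + 1 + 1)) = fib (2 * (a + 1)) + fib (2 * a + 3) := by
        rw [show 2 * (a + 1 + 1) = 2 * (a + 1) + 2 by ring, Nat.fib_add_two]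
        rw [show 2 * (a + 1) + 1 = 2 * a + 3 by ring]
      have e2 : fib (4 * a + 6) = fib (2 * a + 3) * (fib (2 * a + 4) + fib (2 * a + 2)) := by
        rw [show 4 * a + 6 = 2 * (2 * a + 3) by ring, fib_two_mul', Lu_succ]
      have e3 : fib (2 * a + 4) = fib (2 * (a + 1)) + fib (2 * a + 3) := by
        rw [← e1]; congr 1
      rw [e1, e2, e3, show 2 * a + 2 = 2 * (a + 1) by ring]
      ring
    have h2 : fib (4 * a + 5) = fib (2 * a + 3) ^ 2 + fib (2 * (a + 1)) ^ 2 := by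
      rw [show 4 * a + 5 = 2 * (2 * a + 2) + 1 by ring, Nat.fib_two_mul_add_one]
      congr 2
    have h3 : 2 ≤ fib (2 * a + 3) := by
      have : fib 3 ≤ fib (2 * a + 3) := fib_mono (by omega)
      exact this
    have h4 : fib (2 * (a + 1 + 1)) ^ 2 + 2 = fib (4 * a + 6) + (fib (2 * (a + 1)) ^ 2 + 2) := by
      rw [h1]; ring
    rw [h4, sz_step (4 * a + 6) _ (by omega)
      (by rw [show 4 * a + 6 - 1 = 4 * a + 5 by omega, h2]; nlinarith), ih]
    ring

/-- squares of even-index Lucas numbers have three digits -/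
lemma sz_Lu_sq (j : ℕ) (hj : Even j) (hj4 : 4 ≤ j) : sz (Lu j ^ 2) = 3 := by
  rw [Lu_sq j hj]
  obtain ⟨k, rfl⟩ : ∃ k, j = k + 1 := ⟨j - 1, by omega⟩
  rw [Lu_two_mul, add_assoc]
  have h1 : fib 4 ≤ fib (2 * k) := fib_mono (by omega)
  have h1' : fib 4 = 3 := rfl
  have h2 : fib (2 * k + 2) = fib (2 * k) + fib (2 * k + 1) := Nat.fib_add_two
  rw [sz_step (2 * k + 3) _ (by omega) (by rw [show 2 * k + 3 - 1 = 2 * k + 2 by omega, h2]; omega),
    sz_step (2 * k + 1) _ (by omega) (by rw [show 2 * k + 1 - 1 = 2 * k by omega]; omega), sz_two]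

/-- the explicit mismatch -/
lemma sz_explicit (p : ℕ) :
    sz ((Lu (16 * (p + 1)) + fib (4 * (p + 1))) ^ 2) = 6 * (p + 1) + 2 := by
  have hL := Lu_sq (16 * (p + 1)) ⟨8 * (p + 1), by ring⟩
  have hL2 : Lu (2 * (16 * (p + 1))) = fib (32 * p + 33) + fib (32 * p + 31) := by
    rw [show 16 * (p + 1) = (16 * p + 15) + 1 by ring, Lu_two_mul]
    congr 2 <;> ring
  have hM := Lu_mul_fib (12 * (p + 1)) (p + 1)
  rw [show 12 * (p + 1) + 4 * (p + 1) = 16 * (p + 1) by ring,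
    show 12 * (p + 1) + 8 * (p + 1) = 20 * p + 20 by ring,
    show 12 * (p + 1) = 12 * p + 12 by ring] at hM
  have hS := sz_fib_sq (2 * p + 1)
  rw [show 2 * (2 * p + 1 + 1) = 4 * (p + 1) by ring] at hS
  set Y := fib (4 * (p + 1)) ^ 2 + 2 with hY
  -- bounds
  have f (n : ℕ) : fib (n + 2) = fib n + fib (n + 1) := Nat.fib_add_two
  have hYb : Y < fib (8 * p + 9) + 3 := by
    have := Nat.fib_two_mul_add_one (4 * (p + 1))
    rw [show 2 * (4 * (p + 1)) + 1 = 8 * p + 9 by ring] at this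
    rw [hY]
    nlinarith [sq_nonneg (fib (4 * (p + 1) + 1))]
  have g1 := f (8 * p + 8)
  have g2 : fib 4 ≤ fib (8 * p + 8) := fib_mono (by omega)
  have g2' : fib 4 = 3 := rfl
  rw [show 8 * p + 8 + 2 = 8 * p + 10 by ring, show 8 * p + 8 + 1 = 8 * p + 9 by ring] at g1
  have g3 : fib (8 * p + 10) ≤ fib (12 * p + 10) := fib_mono (by omega)
  have hY1 : Y < fib (12 * p + 10) := by omega
  have k1 := f (12 * p + 10)
  have k2 := f (12 * p + 11)
  have k3 := f (12 * p + 12)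
  have k4 := f (20 * p + 18)
  have k5 := f (20 * p + 19)
  have k6 := f (20 * p + 20)
  have k7 := f (32 * p + 29)
  have k8 := f (32 * p + 30)
  simp only [add_assoc, Nat.reduceAdd] at k1 k2 k3 k4 k5 k6 k7 k8
  have m1 : fib (20 * p + 22) ≤ fib (32 * p + 30) := fib_mono (by omega)
  have m2 : fib (12 * p + 14) ≤ fib (20 * p + 18) := fib_mono (by omega)
  -- innermost
  have s1 : sz (fib (12 * p + 11) + Y) = 1 + (2 * p + 1 + 1) := by
    rw [sz_step (12 * p + 11) Y (by omega)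
      (by rw [show 12 * p + 11 - 1 = 12 * p + 10 by omega]; exact hY1), hS]
  obtain ⟨X2, hX2⟩ : ∃ X2, X2 + fib (12 * p + 14) = fib (20 * p + 18) + (fib (12 * p + 11) + Y) :=
    ⟨fib (20 * p + 18) + (fib (12 * p + 11) + Y) - fib (12 * p + 14), by omega⟩
  have s2 : sz X2 = (4 * p + 2) + sz (fib (12 * p + 11) + Y) := by
    apply sz_tele (12 * p + 14) _ (by omega) (by omega) (4 * p + 2) X2
    rw [show 12 * p + 14 + 2 * (4 * p + 2) = 20 * p + 18 by ring]
    exact hX2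
  have s3 : sz (fib (20 * p + 21) + X2) = 1 + sz X2 := by
    apply sz_step _ _ (by omega)
    rw [show 20 * p + 21 - 1 = 20 * p + 20 by omega]
    omega
  have s4 : sz (fib (32 * p + 31) + (fib (20 * p + 21) + X2)) = 1 + sz (fib (20 * p + 21) + X2) := by
    apply sz_step _ _ (by omega)
    rw [show 32 * p + 31 - 1 = 32 * p + 30 by omega]
    omega
  have s5 : sz (fib (32 * p + 33) + (fib (32 * p + 31) + (fib (20 * p + 21) + X2)))
      = 1 + sz (fib (32 * p + 31) + (fib (20 * p + 21) + X2)) := by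
    apply sz_step _ _ (by omega)
    have k9 := f (32 * p + 30)
    simp only [add_assoc, Nat.reduceAdd] at k9
    rw [show 32 * p + 33 - 1 = 32 * p + 32 by omega]
    omega
  have e : (Lu (16 * (p + 1)) + fib (4 * (p + 1))) ^ 2
      = fib (32 * p + 33) + (fib (32 * p + 31) + (fib (20 * p + 21) + X2)) := by
    have e1 : (Lu (16 * (p + 1)) + fib (4 * (p + 1))) ^ 2
        = Lu (16 * (p + 1)) ^ 2 + 2 * (Lu (16 * (p + 1)) * fib (4 * (p + 1)))
          + fib (4 * (p + 1)) ^ 2 := by ring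
    rw [e1, hL, hL2]
    have hY' : fib (4 * (p + 1)) ^ 2 + 2 = Y := hY.symm
    generalize fib (4 * (p + 1)) ^ 2 = S at *
    generalize Lu (16 * (p + 1)) * fib (4 * (p + 1)) = T at *
    omega
  rw [e, s5, s4, s3, s2, s1]
  ring

/-- digit sum near `L_k` -/
lemma sz_near (r k i : ℕ) (hr : 2 ≤ r) (hk : Even k) (hkr : 3 * r + 6 ≤ k) (hi : i ≤ fib r) :
    sz ((Lu k + i) ^ 2) = 2 + (sz (Lu k * (2 * i)) + sz (i ^ 2 + 2)) := by
  have f (n : ℕ) : fib (n + 2) = fib n + fib (n + 1) := Nat.fib_add_two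
  have hr5 : 6 * fib r ≤ fib (r + 5) := by
    have a1 := f r
    have a2 := f (r + 1)
    have a3 := f (r + 2)
    have a4 := f (r + 3)
    simp only [add_assoc, Nat.reduceAdd] at a2 a3 a4
    have a5 : fib r ≤ fib (r + 1) := fib_mono (by omega)
    omega
  have hi2 : i ^ 2 + 2 < fib (2 * r + 1) := by
    rw [Nat.fib_two_mul_add_one]
    have a1 : fib 3 ≤ fib (r + 1) := fib_mono (by omega)
    have a2 : fib 3 = 2 := rfl
    nlinarith
  obtain ⟨n, hn⟩ : ∃ n, k = (r + 6) + n := ⟨k - (r + 6), by omega⟩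
  have hcond : 3 * (2 * i) ≤ fib (r + 6 - 1) := by
    rw [show r + 6 - 1 = r + 5 by omega]
    omega
  have hlow : ∀ x ∈ zeckendorf (Lu k * (2 * i)), (n + 1) + 1 ≤ x := by
    rw [hn]
    intro x hx
    have := low_shift (r + 6) (2 * i) n (by omega) hcond x hx
    omega
  have hn1 : i ^ 2 + 2 < fib (n + 1) := by
    have : fib (2 * r + 1) ≤ fib (n + 1) := fib_mono (by omega)
    omega
  have h1 := sz_append (Lu k * (2 * i)) (i ^ 2 + 2) (n + 1) hlow hn1
  rw [← h1]
  obtain ⟨k', rfl⟩ : ∃ k', k = k' + 1 := ⟨k - 1, by omega⟩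
  have e1 : (Lu (k' + 1) + i) ^ 2
      = fib (2 * k' + 3) + (fib (2 * k' + 1) + (Lu (k' + 1) * (2 * i) + (i ^ 2 + 2))) := by
    have e2 : (Lu (k' + 1) + i) ^ 2 = Lu (k' + 1) ^ 2 + (Lu (k' + 1) * (2 * i) + i ^ 2) := by ring
    rw [e2, Lu_sq _ hk, Lu_two_mul]
    ring
  have hX : Lu (k' + 1) * (2 * i) + (i ^ 2 + 2) < fib (2 * k') := by
    have b1 := Lu_le (k' + 1) (by omega)
    have b2 : fib (2 * r + 1) ≤ fib (k' + 1) := fib_mono (by omega)
    have b3 : fib (r + 5) + fib (r + 4) ≤ fib k' := by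
      have : fib (r + 4 + 2) ≤ fib k' := fib_mono (by omega)
      rw [f] at this
      simp only [add_assoc, Nat.reduceAdd] at this
      omega
    have b4 : 1 ≤ fib (r + 4) := Nat.fib_pos.2 (by omega)
    have b5 : fib (k' + 1) * fib k' ≤ fib (2 * k') := by
      rw [fib_two_mul']
      obtain ⟨k2, rfl⟩ : ∃ k2, k' = k2 + 1 := ⟨k' - 1, by omega⟩
      rw [Lu_succ, mul_comm]
      exact Nat.mul_le_mul_left _ (Nat.le_add_right _ _)
    have b6 : Lu (k' + 1) * (2 * i) ≤ fib (k' + 1) * fib (r + 5) := by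
      calc Lu (k' + 1) * (2 * i) ≤ (3 * fib (k' + 1)) * (2 * i) := Nat.mul_le_mul_right _ b1
        _ = fib (k' + 1) * (6 * i) := by ring
        _ ≤ fib (k' + 1) * fib (r + 5) := Nat.mul_le_mul_left _ (by omega)
    have b7 : fib (k' + 1) * (fib (r + 5) + 1) ≤ fib (k' + 1) * fib k' :=
      Nat.mul_le_mul_left _ (by omega)
    rw [mul_add, mul_one] at b7
    omega
  have c1 := f (2 * k')
  rw [e1, sz_step (2 * k' + 3) _ (by omega)
      (by rw [show 2 * k' + 3 - 1 = 2 * k' + 2 by omega, c1]; omega),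
    sz_step (2 * k' + 1) _ (by omega) (by rw [show 2 * k' + 1 - 1 = 2 * k' by omega]; exact hX)]
  ring

/-- agreement of long windows -/
lemma agree (r k i : ℕ) (hr : 2 ≤ r) (hk : Even k) (hkr : 3 * r + 6 ≤ k) (hi : i ≤ fib r) :
    sz ((Lu (k + 2) + i) ^ 2) = sz ((Lu k + i) ^ 2) := by
  have hk2 : Even (k + 2) := by
    obtain ⟨m, hm⟩ := hk
    exact ⟨m + 1, by omega⟩
  rw [sz_near r k i hr hk hkr hi, sz_near r (k + 2) i hr hk2 (by omega) hi]
  obtain ⟨n, hn⟩ : ∃ n, k = (r + 6) + n := ⟨k - (r + 6), by omega⟩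
  have f (n : ℕ) : fib (n + 2) = fib n + fib (n + 1) := Nat.fib_add_two
  have hcond : 3 * (2 * i) ≤ fib (r + 6 - 1) := by
    rw [show r + 6 - 1 = r + 5 by omega]
    have a1 := f r
    have a2 := f (r + 1)
    have a3 := f (r + 2)
    have a4 := f (r + 3)
    simp only [add_assoc, Nat.reduceAdd] at a2 a3 a4
    have a5 : fib r ≤ fib (r + 1) := fib_mono (by omega)
    omega
  have h1 := sz_shift (r + 6) (2 * i) n (by omega) hcond
  have h2 := sz_shift (r + 6) (2 * i) (n + 2) (by omega) hcond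
  rw [hn, h1, add_assoc, h2]

/-- the sequence -/
def aa (n : ℕ) : ℕ := sz (n ^ 2) % 2

lemma Lu_mono_two (k n : ℕ) : Lu k ≤ Lu (k + 2 * n) := by
  induction n with
  | zero => exact le_rfl
  | succ n ih =>
    rw [show k + 2 * (n + 1) = k + 2 * n + 2 by ring, Lu_add_two]
    omega

/-- the two windows do not agree forever -/
lemma exists_mismatch (k : ℕ) (hk : Even k) : ∃ i, aa (Lu k + i) ≠ aa (Lu (k + 2) + i) := by
  by_contra hcon
  push Not at hcon
  have hper : ∀ n, Lu k ≤ n → aa (n + Lu (k + 1)) = aa n := by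
    intro n hn
    have h := hcon (n - Lu k)
    rw [Lu_add_two] at h
    rw [show Lu k + (n - Lu k) = n by omega,
      show Lu (k + 1) + Lu k + (n - Lu k) = n + Lu (k + 1) by omega] at h
    exact h.symm
  have hper2 : ∀ u n, Lu k ≤ n → aa (n + u * Lu (k + 1)) = aa n := by
    intro u
    induction u with
    | zero => intro n _; simp
    | succ u ih =>
      intro n hn
      rw [show n + (u + 1) * Lu (k + 1) = (n + u * Lu (k + 1)) + Lu (k + 1) by ring,
        hper _ (by omega), ih n hn]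
  have hdiv : fib (4 * (k + 1)) = (fib (k + 1) * Lu (2 * (k + 1))) * Lu (k + 1) := by
    rw [show 4 * (k + 1) = 2 * (2 * (k + 1)) by ring, fib_two_mul', fib_two_mul']
    ring
  obtain ⟨m, hm⟩ := hk
  have hbig : Lu k ≤ Lu (16 * (k + 1)) := by
    have := Lu_mono_two k (15 * m + 8)
    rwa [show k + 2 * (15 * m + 8) = 16 * (k + 1) by omega] at this
  have h1 := hper2 (fib (k + 1) * Lu (2 * (k + 1))) (Lu (16 * (k + 1))) hbig
  rw [← hdiv] at h1
  unfold aa at h1
  rw [sz_explicit k, sz_Lu_sq (16 * (k + 1)) ⟨8 * (k + 1), by ring⟩ (by omega)] at h1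
  omega

end Pool.Agent.R376.Zk
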